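import Pool.Agent.Helper50.HT.Stmts

/-!
# Sheet HT, row CRS: inner points against outer points
-/

set_option autoImplicit false

namespace Pool.Agent.Helper3.HT

open MeasureTheory Filter Pool.Agent.Helper95 Pool.Agent.Helper95.PW Pool.Agent.Helper95.LN
open Pool.Agent.Helper50.HT

theorem harm_le (L : ℕ) : ∑ c ∈ Finset.Icc 1 L, (1 / (c : ℝ)) ≤ 2 * Real.sqrt L := by
  induction L with
  | zero => simp
  | succ L ih =>
    rw [Finset.sum_Icc_succ_top (by omega)]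
    have h0 : (0 : ℝ) ≤ L := Nat.cast_nonneg _
    have h1 : Real.sqrt ((L : ℝ) + 1) ^ 2 = (L : ℝ) + 1 := Real.sq_sqrt (by linarith)
    have h2 : Real.sqrt (L : ℝ) ^ 2 = (L : ℝ) := Real.sq_sqrt h0
    have h3 : 1 ≤ Real.sqrt ((L : ℝ) + 1) := by
      rw [Real.one_le_sqrt]
      linarith
    have h4 : 0 ≤ Real.sqrt (L : ℝ) := Real.sqrt_nonneg _
    have h5 : 1 / ((L : ℝ) + 1) ≤ 2 * (Real.sqrt ((L : ℝ) + 1) - Real.sqrt L) := by
      rw [div_le_iff₀ (by linarith)]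
      have h6 : Real.sqrt (L : ℝ) ≤ Real.sqrt ((L : ℝ) + 1) := Real.sqrt_le_sqrt (by linarith)
      have h7 : (Real.sqrt ((L : ℝ) + 1) - Real.sqrt L) *
          (Real.sqrt ((L : ℝ) + 1) + Real.sqrt L) = 1 := by nlinarith
      have h8 : Real.sqrt ((L : ℝ) + 1) + Real.sqrt L ≤ 2 * ((L : ℝ) + 1) := by nlinarith
      have h9 : 0 ≤ Real.sqrt ((L : ℝ) + 1) - Real.sqrt L := by linarith
      nlinarith [mul_le_mul_of_nonneg_left h8 h9]
    push_cast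
    linarith

theorem sum_class (L : ℕ) (B : Finset (Fin 3 → ℤ)) (sg : Fin 3 → ℤ)
    (hB : ∀ w ∈ B, ∀ i, 1 ≤ sg i * w i ∧ sg i * w i ≤ L) (hs : ∀ i, sg i = 1 ∨ sg i = -1)
    (j : Fin 3) :
    ∑ w ∈ B, 1 / (((w j).natAbs : ℕ) : ℝ) ≤ 2 * ((L : ℝ) ^ 2 * Real.sqrt L) := by
  classical
  let ψ : (Fin 3 → ℤ) → (Fin 3 → ℕ) := fun w i => (w i).natAbs
  have hinj : Set.InjOn ψ (B : Set (Fin 3 → ℤ)) := by
    intro w hw w' hw' h
    funext i
    have h1 : (w i).natAbs = (w' i).natAbs := congrFun h i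
    have h2 := hB w hw i
    have h3 := hB w' hw' i
    rcases hs i with h4 | h4
    · rw [h4] at h2 h3
      omega
    · rw [h4] at h2 h3
      omega
  have hsub : B.image ψ ⊆ Fintype.piFinset (fun _ : Fin 3 => Finset.Icc 1 L) := by
    intro p hp
    obtain ⟨w, hw, rfl⟩ := Finset.mem_image.1 hp
    rw [Fintype.mem_piFinset]
    intro i
    have h2 := hB w hw i
    rw [Finset.mem_Icc]
    change 1 ≤ (w i).natAbs ∧ (w i).natAbs ≤ L
    rcases hs i with h4 | h4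
    · rw [h4] at h2
      omega
    · rw [h4] at h2
      omega
  calc ∑ w ∈ B, 1 / (((w j).natAbs : ℕ) : ℝ)
      = ∑ p ∈ B.image ψ, 1 / ((p j : ℕ) : ℝ) := by
        rw [Finset.sum_image hinj]
    _ ≤ ∑ p ∈ Fintype.piFinset (fun _ : Fin 3 => Finset.Icc 1 L), 1 / ((p j : ℕ) : ℝ) :=
        Finset.sum_le_sum_of_subset_of_nonneg hsub fun _ _ _ => by positivity
    _ = (L : ℝ) ^ 2 * ∑ c ∈ Finset.Icc 1 L, (1 / (c : ℝ)) := by
        rw [Fintype.sum_piFinset_apply (fun c : ℕ => 1 / (c : ℝ)) (Finset.Icc 1 L) j]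
        simp
    _ ≤ (L : ℝ) ^ 2 * (2 * Real.sqrt L) :=
        mul_le_mul_of_nonneg_left (harm_le L) (by positivity)
    _ = 2 * ((L : ℝ) ^ 2 * Real.sqrt L) := by ring

theorem abs_le_nr (y : R3) (i : Fin 3) : |y i| ≤ nr y := by
  unfold nr
  refine Real.abs_le_sqrt ?_
  have h0 := sq_nonneg (y 0)
  have h1 := sq_nonneg (y 1)
  have h2 := sq_nonneg (y 2)
  fin_cases i
  · change y 0 ^ 2 ≤ _
    linarith
  · change y 1 ^ 2 ≤ _
    linarith
  · change y 2 ^ 2 ≤ _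
    linarith

theorem term_le (s t : ℝ) (v w : Fin 3 → ℤ) (i : Fin 3) (hs : 0 < s) (ht : 0 < t)
    (h : (1 ≤ v i ∧ w i ≤ -1) ∨ (v i ≤ -1 ∧ 1 ≤ w i)) :
    1 / nr (sc s v - sc t w) ≤ 1 / t * (1 / (((w i).natAbs : ℕ) : ℝ)) := by
  have h1 : (((w i).natAbs : ℕ) : ℝ) = |(w i : ℝ)| := by
    rw [Nat.cast_natAbs, Int.cast_abs]
  have h2 := abs_le_nr (sc s v - sc t w) i
  have h3 : (sc s v - sc t w) i = s * (v i : ℝ) - t * (w i : ℝ) := rfl
  rw [h3] at h2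
  rw [h1]
  have h4 : 0 < |(w i : ℝ)| := by
    rw [abs_pos]
    rcases h with ⟨_, h⟩ | ⟨_, h⟩
    · have : w i ≠ 0 := by omega
      exact_mod_cast this
    · have : w i ≠ 0 := by omega
      exact_mod_cast this
  have h5 : t * |(w i : ℝ)| ≤ |s * (v i : ℝ) - t * (w i : ℝ)| := by
    rcases h with ⟨a, b⟩ | ⟨a, b⟩
    · have a' : (1 : ℝ) ≤ v i := by exact_mod_cast a
      have b' : (w i : ℝ) ≤ -1 := by exact_mod_cast b
      have c1 : 0 ≤ s * (v i : ℝ) := by nlinarith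
      have c2 : t * (w i : ℝ) ≤ 0 := by nlinarith
      rw [abs_of_nonpos (by linarith : (w i : ℝ) ≤ 0), abs_of_nonneg (by linarith)]
      linarith
    · have a' : (v i : ℝ) ≤ -1 := by exact_mod_cast a
      have b' : (1 : ℝ) ≤ w i := by exact_mod_cast b
      have c1 : s * (v i : ℝ) ≤ 0 := by nlinarith
      have c2 : 0 ≤ t * (w i : ℝ) := by nlinarith
      rw [abs_of_nonneg (by linarith : 0 ≤ (w i : ℝ)), abs_of_nonpos (by linarith)]
      linarith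
  have h6 : 0 < t * |(w i : ℝ)| := mul_pos ht h4
  calc 1 / nr (sc s v - sc t w) ≤ 1 / (t * |(w i : ℝ)|) :=
        one_div_le_one_div_of_le h6 (le_trans h5 h2)
    _ = 1 / t * (1 / |(w i : ℝ)|) := by
        rw [one_div_mul_one_div]

theorem CRS : ST_CRS := by
  classical
  intro K L s t v B hs ht hv hB
  -- the two classes
  have hsplit : ∑ w ∈ B, 1 / nr (sc s v - sc t w) =
      ∑ w ∈ B.filter (fun w => 1 ≤ w 0), 1 / nr (sc s v - sc t w) +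
      ∑ w ∈ B.filter (fun w => ¬ 1 ≤ w 0), 1 / nr (sc s v - sc t w) :=
    (Finset.sum_filter_add_sum_filter_not B _ _).symm
  have c1 : ∀ w ∈ B.filter (fun w => 1 ≤ w 0), ∀ i,
      1 ≤ (![1, 1, -1] : Fin 3 → ℤ) i * w i ∧ (![1, 1, -1] : Fin 3 → ℤ) i * w i ≤ L := by
    intro w hw i
    rw [Finset.mem_filter] at hw
    have h := hB w hw.1
    unfold InB at h
    have h0 := hw.2
    fin_cases i
    · change 1 ≤ (1 : ℤ) * w 0 ∧ (1 : ℤ) * w 0 ≤ L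
      omega
    · change 1 ≤ (1 : ℤ) * w 1 ∧ (1 : ℤ) * w 1 ≤ L
      omega
    · change 1 ≤ (-1 : ℤ) * w 2 ∧ (-1 : ℤ) * w 2 ≤ L
      omega
  have c2 : ∀ w ∈ B.filter (fun w => ¬ 1 ≤ w 0), ∀ i,
      1 ≤ (![-1, -1, 1] : Fin 3 → ℤ) i * w i ∧ (![-1, -1, 1] : Fin 3 → ℤ) i * w i ≤ L := by
    intro w hw i
    rw [Finset.mem_filter] at hw
    have h := hB w hw.1
    unfold InB at h
    have h0 := hw.2
    fin_cases i
    · change 1 ≤ (-1 : ℤ) * w 0 ∧ (-1 : ℤ) * w 0 ≤ L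
      omega
    · change 1 ≤ (-1 : ℤ) * w 1 ∧ (-1 : ℤ) * w 1 ≤ L
      omega
    · change 1 ≤ (1 : ℤ) * w 2 ∧ (1 : ℤ) * w 2 ≤ L
      omega
  have s1 : ∀ i, (![1, 1, -1] : Fin 3 → ℤ) i = 1 ∨ (![1, 1, -1] : Fin 3 → ℤ) i = -1 := by
    intro i; fin_cases i <;> simp
  have s2 : ∀ i, (![-1, -1, 1] : Fin 3 → ℤ) i = 1 ∨ (![-1, -1, 1] : Fin 3 → ℤ) i = -1 := by
    intro i; fin_cases i <;> simp
  -- the index where the signs are opposite
  have key : ∃ i j : Fin 3,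
      (∀ w ∈ B.filter (fun w => 1 ≤ w 0), (1 ≤ v i ∧ w i ≤ -1) ∨ (v i ≤ -1 ∧ 1 ≤ w i)) ∧
      (∀ w ∈ B.filter (fun w => ¬ 1 ≤ w 0), (1 ≤ v j ∧ w j ≤ -1) ∨ (v j ≤ -1 ∧ 1 ≤ w j)) := by
    rcases hv with hv | hv
    · refine ⟨2, 0, fun w hw => Or.inl ⟨(hv 2).1, ?_⟩, fun w hw => Or.inl ⟨(hv 0).1, ?_⟩⟩
      · have h := (c1 w hw 2).1
        change 1 ≤ (-1 : ℤ) * w 2 at h
        omega
      · have h := (c2 w hw 0).1
        change 1 ≤ (-1 : ℤ) * w 0 at h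
        omega
    · refine ⟨0, 2, fun w hw => Or.inr ⟨(hv 0).2, ?_⟩, fun w hw => Or.inr ⟨(hv 2).2, ?_⟩⟩
      · exact (Finset.mem_filter.1 hw).2
      · have h := (c2 w hw 2).1
        change 1 ≤ (1 : ℤ) * w 2 at h
        omega
  obtain ⟨i, j, k1, k2⟩ := key
  have t1 : ∑ w ∈ B.filter (fun w => 1 ≤ w 0), 1 / nr (sc s v - sc t w) ≤
      1 / t * (2 * ((L : ℝ) ^ 2 * Real.sqrt L)) := by
    refine le_trans (Finset.sum_le_sum fun w hw => term_le s t v w i hs ht (k1 w hw)) ?_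
    rw [← Finset.mul_sum]
    exact mul_le_mul_of_nonneg_left (sum_class L _ _ c1 s1 i) (by positivity)
  have t2 : ∑ w ∈ B.filter (fun w => ¬ 1 ≤ w 0), 1 / nr (sc s v - sc t w) ≤
      1 / t * (2 * ((L : ℝ) ^ 2 * Real.sqrt L)) := by
    refine le_trans (Finset.sum_le_sum fun w hw => term_le s t v w j hs ht (k2 w hw)) ?_
    rw [← Finset.mul_sum]
    exact mul_le_mul_of_nonneg_left (sum_class L _ _ c2 s2 j) (by positivity)
  rw [hsplit]
  refine le_trans (add_le_add t1 t2) (le_of_eq ?_)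
  field_simp
  ring

end Pool.Agent.Helper3.HT
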