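import Pool.Agent.Helper3.HT.TTS
import Pool.Agent.Helper3.EQ.DensClass

/-! Windows in residue classes for pairs of functions. -/

namespace Pool.Agent.Helper3.HT

open Pool.Agent.Helper3.ND Pool.Agent.Helper3.TD Filter Topology

theorem finAN2 {Φ Ψ : ℤ → ℝ} (hΦ0 : ∀ N, 0 ≤ Φ N) (hΦ1 : ∀ N, Φ N ≤ 1) {t m : ℕ} (ht : 10 ^ 3 ≤ t) (hm : 5 * m ≤ 2 * t)
    {a W : ℝ} (hW0 : 0 < W) (hq : 4 * (2 : ℝ) ^ t ≤ Real.exp (a - W)) (X : ℤ)
    (hinv : ∀ N : ℤ, Real.exp (a - W) < |(N : ℝ)| → Ψ (T^[t] N) = Φ N) (B : ℕ) (c : ℤ) :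
    |SS (fun N => Φ N * ic B c N) X a W - ∑ N ∈ Finset.Icc (-X) X, (if od t N ∈ KS t m then Ψ (T^[t] N) * (om a W N * ic B c N) else 0)| ≤
      4 * Real.exp (-((t : ℝ) ^ (1 / 10 : ℝ))) * (2 * W + 1) := by
  refine le_trans ?_ (fineA2 hΦ0 hΦ1 ht hm hW0 hq X hinv)
  have key : ∀ N, Ψ (T^[t] N) * om a W N = Φ N * om a W N := by
    intro N
    by_cases h0 : om a W N = 0
    · rw [h0, mul_zero, mul_zero]
    · obtain ⟨h2, h3⟩ := om_ne_zero hW0 h0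
      have h4 : Real.exp (a - W) < |(N : ℝ)| := by
        rw [← Real.lt_log_iff_exp_lt h2]
        rw [abs_lt] at h3
        linarith
      rw [hinv N h4]
  have e1 : SS (fun N => Φ N * ic B c N) X a W - ∑ N ∈ Finset.Icc (-X) X, (if od t N ∈ KS t m then Ψ (T^[t] N) * (om a W N * ic B c N) else 0) =
      ∑ N ∈ Finset.Icc (-X) X, (if od t N ∈ KS t m then 0 else Φ N * om a W N * ic B c N) := by
    unfold SS
    rw [← Finset.sum_sub_distrib]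
    apply Finset.sum_congr rfl
    intro N _
    have h1 := key N
    split_ifs
    · rw [← mul_assoc, h1]; ring
    · ring
  have e2 : SS Φ X a W - ∑ N ∈ Finset.Icc (-X) X, (if od t N ∈ KS t m then Ψ (T^[t] N) * om a W N else 0) =
      ∑ N ∈ Finset.Icc (-X) X, (if od t N ∈ KS t m then 0 else Φ N * om a W N) := by
    unfold SS
    rw [← Finset.sum_sub_distrib]
    apply Finset.sum_congr rfl
    intro N _
    have h1 := key N
    split_ifs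
    · rw [h1]; ring
    · ring
  rw [e1, e2]
  have hn : ∀ N, 0 ≤ Φ N * om a W N := fun N => mul_nonneg (hΦ0 N) (om_nonneg _ _ _)
  have p1 : 0 ≤ ∑ N ∈ Finset.Icc (-X) X, (if od t N ∈ KS t m then 0 else Φ N * om a W N * ic B c N) := by
    apply Finset.sum_nonneg
    intro N _
    split_ifs
    · exact le_rfl
    · exact mul_nonneg (hn N) (ic_nonneg B c N)
  have p2 : ∑ N ∈ Finset.Icc (-X) X, (if od t N ∈ KS t m then 0 else Φ N * om a W N * ic B c N) ≤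
      ∑ N ∈ Finset.Icc (-X) X, (if od t N ∈ KS t m then 0 else Φ N * om a W N) := by
    apply Finset.sum_le_sum
    intro N _
    split_ifs
    · exact le_rfl
    · exact mul_le_of_le_one_right (hn N) (ic_le_one B c N)
  rw [abs_of_nonneg p1, abs_of_nonneg (le_trans p1 p2)]
  exact p2

theorem class_SS2 {Φ Ψ : ℤ → ℝ} (hΦ0 : ∀ N, 0 ≤ Φ N) (hΦ1 : ∀ N, Φ N ≤ 1) (hΨ0 : ∀ N, 0 ≤ Ψ N) (hΨ1 : ∀ N, Ψ N ≤ 1)
    {t m : ℕ} (ht : 10 ^ 3 ≤ t) (hm : 5 * m ≤ 2 * t)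
    {a W : ℝ} (hW0 : 0 < W) (hW1 : W ≤ 1) (B : ℕ) (hB : 0 < B) (hz : 16 * 10 ^ t * B ≤ W * Real.exp (a - W))
    (hq : 4 * (2 : ℝ) ^ t ≤ Real.exp (a - W)) (X : ℤ) (hX : 2 ^ t * Real.exp (a + W) ≤ X)
    (hinv : ∀ N : ℤ, Real.exp (a - W) < |(N : ℝ)| → Ψ (T^[t] N) = Φ N) (c : ℤ) :
    |SS (fun N => Φ N * ic B c N) X a W - SS Φ X a W / B| ≤
      2 * (4 * Real.exp (-((t : ℝ) ^ (1 / 10 : ℝ))) * (2 * W + 1)) + 2 * (10 * (1 / 5) ^ t) +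
      6 * ∑ k ∈ KS t m, AvQ (3 ^ k * B) (fun M => |Gq (3 ^ k * B) t k c (fun _ => True) M - Gq (3 ^ k) t k c (fun _ => True) M|) := by
  have hB' : (1 : ℝ) ≤ B := by exact_mod_cast hB
  have hBpos : (0 : ℝ) < B := by linarith
  have hz0 : 16 * 10 ^ t ≤ W * Real.exp (a - W) := by
    refine le_trans ?_ hz
    have : (0 : ℝ) < 16 * 10 ^ t := by positivity
    nlinarith
  have b1 := finAN2 hΦ0 hΦ1 ht hm hW0 hq X hinv B c
  have b2 := finBN (m := m) hΨ0 hΨ1 hW0 hW1 hz0 X hX B hB c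
  have b3 := finDN (m := m) hΨ0 hΨ1 hW0 hW1 B hB hz X c
  have b4 := fineA2 hΦ0 hΦ1 ht hm hW0 hq X hinv
  have b5 := fineB (m := m) hΨ0 hΨ1 hW0 hW1 hz0 X hX
  have e1 : ∑ M ∈ Finset.Icc (-X) X, Ψ M * ∑ k ∈ KS t m, Gq (3 ^ k) t k c (fun _ => True) M * om (bk a t k) W M =
      ∑ M ∈ Finset.Icc (-X) X, Ψ M * ∑ k ∈ KS t m, D k t k (fun _ => True) M * om (bk a t k) W M := by
    apply Finset.sum_congr rfl
    intro M _
    congr 1
    apply Finset.sum_congr rfl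
    intro k _
    rw [Gq_eq_D]
  rw [e1] at b3
  obtain ⟨S1, hS1⟩ : ∃ S1, S1 = SS (fun N => Φ N * ic B c N) X a W := ⟨_, rfl⟩
  obtain ⟨S2, hS2⟩ : ∃ S2, S2 = ∑ N ∈ Finset.Icc (-X) X, (if od t N ∈ KS t m then Ψ (T^[t] N) * (om a W N * ic B c N) else 0) := ⟨_, rfl⟩
  obtain ⟨S3, hS3⟩ : ∃ S3, S3 = ∑ M ∈ Finset.Icc (-X) X, Ψ M * ∑ k ∈ KS t m, Gq (3 ^ k * B) t k c (fun _ => True) M / B * om (bk a t k) W M := ⟨_, rfl⟩
  obtain ⟨S4, hS4⟩ : ∃ S4, S4 = ∑ M ∈ Finset.Icc (-X) X, Ψ M * ∑ k ∈ KS t m, D k t k (fun _ => True) M * om (bk a t k) W M := ⟨_, rfl⟩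
  obtain ⟨S5, hS5⟩ : ∃ S5, S5 = ∑ N ∈ Finset.Icc (-X) X, (if od t N ∈ KS t m then Ψ (T^[t] N) * om a W N else 0) := ⟨_, rfl⟩
  obtain ⟨S6, hS6⟩ : ∃ S6, S6 = SS Φ X a W := ⟨_, rfl⟩
  rw [← hS1, ← hS2] at b1
  rw [← hS2, ← hS3] at b2
  rw [← hS3, ← hS4] at b3
  rw [← hS6, ← hS5] at b4
  rw [← hS5, ← hS4] at b5
  rw [← hS1, ← hS6]
  have c1 : |S6 / B - S4 / B| ≤ 4 * Real.exp (-((t : ℝ) ^ (1 / 10 : ℝ))) * (2 * W + 1) + 10 * (1 / 5) ^ t := by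
    rw [← sub_div, abs_div, abs_of_pos hBpos]
    refine le_trans (div_le_self (abs_nonneg _) hB') ?_
    have := abs_sub_le S6 S5 S4
    linarith
  have c2 := abs_sub_le S1 S2 (S6 / B)
  have c3 := abs_sub_le S2 S3 (S6 / B)
  have c4 := abs_sub_le S3 (S4 / B) (S6 / B)
  rw [abs_sub_comm (S4 / B)] at c4
  linarith

/-- the windows in a class of an odd modulus, uniformly in the time -/
theorem class_FH (a : ℤ) (B : ℕ) (hB : Odd B) (c : ℤ) {W : ℝ} (hW0 : 0 < W) (hW1 : W ≤ 1) {ε : ℝ} (hε : 0 < ε) :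
    ∃ t : ℕ, ∃ b0 : ℝ, ∀ b : ℝ, b0 ≤ b → ∀ j : ℕ, t ≤ j →
      |Gs (fun N => FH a j N * ic B c N) W b - Gs (FH a j) W b / B| ≤ ε := by
  have hBpos : 0 < B := hB.pos
  have h1 : Tendsto (fun t : ℕ => Real.exp (-((t : ℝ) ^ (1 / 10 : ℝ)))) atTop (𝓝 0) :=
    Real.tendsto_exp_neg_atTop_nhds_zero.comp ((tendsto_rpow_atTop (show (0 : ℝ) < 1 / 10 by norm_num)).comp tendsto_natCast_atTop_atTop)
  have h2 : Tendsto (fun t : ℕ => (1 / 5 : ℝ) ^ t) atTop (𝓝 0) := tendsto_pow_atTop_nhds_zero_of_lt_one (by norm_num) (by norm_num)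
  have h3 : ∀ᶠ t : ℕ in atTop, Real.exp (-((t : ℝ) ^ (1 / 10 : ℝ))) < ε / 100 := h1.eventually (gt_mem_nhds (by positivity))
  have h4 : ∀ᶠ t : ℕ in atTop, (1 / 5 : ℝ) ^ t < ε / 100 := h2.eventually (gt_mem_nhds (by positivity))
  obtain ⟨T0, hT0⟩ := (h3.and h4).exists_forall_of_atTop
  obtain ⟨t, m, ht0, ht3, hm, hmix⟩ := mix_all B hB (show 0 < ε / 100 by positivity) T0
  obtain ⟨q1, q2⟩ := hT0 t ht0
  have hexp : Tendsto (fun a : ℝ => Real.exp (a - W)) atTop atTop :=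
    Real.tendsto_exp_atTop.comp (tendsto_atTop_add_const_right atTop (-W) tendsto_id)
  obtain ⟨b0, hb0⟩ := eventually_atTop.1 (hexp.eventually_ge_atTop (16 * 10 ^ t * B / W + 4 * 2 ^ t + |(a : ℝ)| * 2 ^ t))
  refine ⟨t, b0, ?_⟩
  intro b hb j hj
  have ha := hb0 b hb
  obtain ⟨j', rfl⟩ := Nat.exists_eq_add_of_le' hj
  have p1 : 0 ≤ 16 * (10 : ℝ) ^ t * B / W := by positivity
  have p2 : 0 ≤ 4 * (2 : ℝ) ^ t := by positivity
  have p3 : 0 ≤ |(a : ℝ)| * 2 ^ t := by positivity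
  have p4 : 0 < (2 : ℝ) ^ t := by positivity
  have hz : 16 * (10 : ℝ) ^ t * B ≤ W * Real.exp (b - W) := by
    have : 16 * (10 : ℝ) ^ t * B / W ≤ Real.exp (b - W) := by linarith
    rw [div_le_iff₀ hW0] at this
    linarith
  have hq : 4 * (2 : ℝ) ^ t ≤ Real.exp (b - W) := by linarith
  obtain ⟨X, hX⟩ : ∃ X : ℤ, X = ⌈(2 : ℝ) ^ t * Real.exp (b + W)⌉ := ⟨_, rfl⟩
  have hX1 : 2 ^ t * Real.exp (b + W) ≤ X := by rw [hX]; exact Int.le_ceil _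
  have hX2 : Real.exp (b + W) ≤ X := by
    refine le_trans ?_ hX1
    have h5 : (1 : ℝ) ≤ 2 ^ t := one_le_pow₀ (by norm_num)
    have h6 := Real.exp_pos (b + W)
    nlinarith
  have hmain := class_SS2 (FH_nonneg a (j' + t)) (FH_le_one a (j' + t)) (FH_nonneg a j') (FH_le_one a j') ht3 hm hW0 hW1 B hBpos hz hq X hX1
    (fun N hN => by
      apply (FH_fam a).iter (abs_nonneg _) t j' N
      linarith) c
  rw [Gs_eq _ hW0 hX2, Gs_eq (FH a (j' + t)) hW0 hX2] at hmain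
  refine le_trans hmain ?_
  have hm2 := hmix c
  have h7 : 4 * Real.exp (-((t : ℝ) ^ (1 / 10 : ℝ))) * (2 * W + 1) ≤ 4 * (ε / 100) * 3 := by
    apply mul_le_mul _ (by linarith) (by linarith) (by positivity)
    linarith
  linarith

end Pool.Agent.Helper3.HT
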