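import Pool.Agent.Helper3.HT.Stmts2

/-! Hitting times in residue classes: statements. -/

namespace Pool.Agent.Helper3.HT

open Pool.Agent.Helper3.ND Pool.Agent.Helper3.TD Filter Topology

/-- CLS: normal law for the steps of `T` in all residue classes, along arbitrary sequences -/
def ST_CLS : Prop := ∀ a : ℤ, a ≠ 0 → ∃ c : ℝ, 0 ≤ c ∧ ∀ M : ℕ, 0 < M → ∀ b : ℤ,
  Tendsto (fun X : ℕ => Nc (fun N => if (M : ℤ) ∣ N - b then FI a N else 0) X / X) atTop (𝓝 (c / M)) ∧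
  ∀ (s : ℝ) (J Z : ℕ → ℕ), Tendsto J atTop atTop → Tendsto Z atTop atTop →
    Tendsto (fun n : ℕ => ((J n : ℝ) * TD.mu - Real.log (Z n)) / (Real.log 3 / 2 * Real.sqrt (J n))) atTop (𝓝 s) →
    Tendsto (fun n : ℕ => Nc (fun N => if (M : ℤ) ∣ N - b then FH a (J n) N else 0) (Z n) / Z n) atTop (𝓝 (c / M * gs s))

/-- FINC: normal law for the number of Syracuse steps in all odd residue classes -/
def ST_FINC : Prop := ∀ a : ℤ, a < 0 → Odd a → ∃ d : ℝ, ∀ m : ℕ, 1 ≤ m → ∀ b : ℤ, Odd b →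
  Tendsto (fun x : ℝ => (Nat.card {N : ℤ // N < 0 ∧ (2 * m : ℤ) ∣ N - b ∧ -x ≤ (N : ℝ) ∧
    ∃ k : ℕ, (fun n : ℤ => (3 * n + 1) / 2 ^ padicValInt 2 (3 * n + 1))^[k] N = a} : ℝ) / x) atTop (𝓝 (d / m)) ∧
  ∀ s : ℝ, Tendsto (fun x : ℝ => (Nat.card {N : ℤ // N < 0 ∧ (2 * m : ℤ) ∣ N - b ∧ -x ≤ (N : ℝ) ∧
    ∃ k : ℕ, (fun n : ℤ => (3 * n + 1) / 2 ^ padicValInt 2 (3 * n + 1))^[k] N = a ∧
      ((k : ℝ) * Real.log (4 / 3) - Real.log x) * Real.sqrt (Real.log (4 / 3)) ≤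
        s * (Real.log 2 * Real.sqrt (2 * Real.log x))} : ℝ) / x) atTop (𝓝 (d / m * gs s))

end Pool.Agent.Helper3.HT
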