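import Pool.Agent.Helper3.HT.ClsA
import Pool.Agent.Helper3.HT.Stmts3
import Pool.Agent.Helper32.EQ.Cls3

/-! Normal law for the steps of `T` in residue classes. -/

namespace Pool.Agent.Helper3.HT

open Pool.Agent.Helper3.ND Pool.Agent.Helper3.TD Filter Topology

/-- bounded changes of the time and of the scale do not matter -/
theorem shift_ev {J J' : ℕ → ℕ} {L L' : ℕ → ℝ} {s D E : ℝ} (hJ : Tendsto J atTop atTop)
    (hs : Tendsto (fun X => ((J X : ℝ) * TD.mu - L X) / (Real.log 3 / 2 * Real.sqrt (J X))) atTop (𝓝 s))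
    (h : ∀ᶠ X in atTop, |(J' X : ℝ) - J X| ≤ D) (h2 : ∀ᶠ X in atTop, |L' X - L X| ≤ E) :
    Tendsto J' atTop atTop ∧
    Tendsto (fun X => ((J' X : ℝ) * TD.mu - L' X) / (Real.log 3 / 2 * Real.sqrt (J' X))) atTop (𝓝 s) := by
  have h3 := shift_ok (J' := J') (L' := fun X => if |L' X - L X| ≤ E then L' X else L X) (E := max E 0) hJ hs h (by
    intro X
    split_ifs with h4
    · exact le_trans h4 (le_max_left _ _)
    · rw [sub_self, abs_zero]; exact le_max_right _ _)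
  refine ⟨h3.1, h3.2.congr' ?_⟩
  filter_upwards [h2] with X hX
  rw [if_pos hX]

/-- the limit of the windows along sequences -/
theorem Gs_seq (hBIN : ST_BIN) (hW : ST_WALK) {a : ℤ} (ha : a ≠ 0) {c : ℝ} (hc0 : 0 ≤ c)
    (hc : ∀ l : ℕ, Tendsto (fun b => Gs (FI a) ((1 / 2) ^ l) b) atTop (𝓝 (c * (1 / 2) ^ l)))
    {s : ℝ} {J Z : ℕ → ℕ} (hJ : Tendsto J atTop atTop) (hZ : Tendsto Z atTop atTop)
    (hs : Tendsto (fun n : ℕ => ((J n : ℝ) * TD.mu - Real.log (Z n)) / (Real.log 3 / 2 * Real.sqrt (J n))) atTop (𝓝 s))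
    (l : ℕ) (x : ℝ) : Tendsto (fun X => Gs (FH a (J X)) ((1 / 2) ^ l) (Real.log (Z X : ℝ) - x)) atTop (𝓝 (c * gs s * (1 / 2) ^ l)) := by
  obtain ⟨W, hWd⟩ : ∃ W : ℝ, W = (1 / 2) ^ l := ⟨_, rfl⟩
  have hW0 : 0 < W := by rw [hWd]; positivity
  have hW1 : W ≤ 1 := by rw [hWd]; exact pow_le_one₀ (by norm_num) (by norm_num)
  have hcl := hc l
  rw [← hWd] at hcl ⊢
  have hcW : 0 ≤ c * W := by positivity
  have hb : Tendsto (fun X : ℕ => Real.log (Z X : ℝ) - x) atTop atTop :=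
    tendsto_atTop_add_const_right atTop (-x) (Real.tendsto_log_atTop.comp (tendsto_natCast_atTop_atTop.comp hZ))
  -- limits of the comparison functions
  have hup : ∀ M : ℕ, Tendsto (fun X => PW (J X + M) (Real.log (Z X : ℝ) - x)) atTop (𝓝 (gs s)) := by
    intro M
    obtain ⟨h1, h2⟩ := shift_ok (J' := fun X => J X + M) (L' := fun X : ℕ => Real.log (Z X : ℝ) - x) (D := M) (E := |x|) hJ hs
      (Eventually.of_forall (fun X => by
        push_cast
        rw [add_sub_cancel_left, abs_of_nonneg (by positivity)]))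
      (fun X => by rw [show Real.log (Z X : ℝ) - x - Real.log (Z X : ℝ) = -x by ring, abs_neg])
    exact hBIN s _ _ h1 h2
  have hlo : ∀ M : ℕ, Tendsto (fun X => PW (J X - M) (Real.log (Z X : ℝ) - x)) atTop (𝓝 (gs s)) := by
    intro M
    obtain ⟨h1, h2⟩ := shift_ok (J' := fun X => J X - M) (L' := fun X : ℕ => Real.log (Z X : ℝ) - x) (D := M) (E := |x|) hJ hs
      (by
        filter_upwards [hJ.eventually_ge_atTop M] with X hX
        rw [Nat.cast_sub hX, show (J X : ℝ) - M - J X = -(M : ℝ) by ring, abs_neg, abs_of_nonneg (by positivity)])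
      (fun X => by rw [show Real.log (Z X : ℝ) - x - Real.log (Z X : ℝ) = -x by ring, abs_neg])
    exact hBIN s _ _ h1 h2
  rw [show c * gs s * W = (c * W) * gs s by ring, tendsto_order]
  constructor
  · intro u hu
    obtain ⟨κ, hκ⟩ : ∃ κ, κ = ((c * W) * gs s - u) / 3 := ⟨_, rfl⟩
    have hκ0 : 0 < κ := by rw [hκ]; linarith
    obtain ⟨M, N0, H⟩ := hW a W (c * W) ha hW0 hW1 hcW hcl κ hκ0
    have h1 := ((hlo M).const_mul (c * W))
    filter_upwards [(tendsto_order.1 h1).1 ((c * W) * gs s - κ) (by linarith), hb.eventually_ge_atTop N0,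
      hJ.eventually_ge_atTop M] with X h2 h3 h4
    have h5 := (H (Real.log (Z X : ℝ) - x) h3 (J X)).2 h4
    linarith
  · intro u hu
    obtain ⟨κ, hκ⟩ : ∃ κ, κ = (u - (c * W) * gs s) / 3 := ⟨_, rfl⟩
    have hκ0 : 0 < κ := by rw [hκ]; linarith
    obtain ⟨M, N0, H⟩ := hW a W (c * W) ha hW0 hW1 hcW hcl κ hκ0
    have h1 := ((hup M).const_mul (c * W))
    filter_upwards [(tendsto_order.1 h1).2 ((c * W) * gs s + κ) (by linarith), hb.eventually_ge_atTop N0] with X h2 h3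
    have h5 := (H (Real.log (Z X : ℝ) - x) h3 (J X)).1
    linarith

/-- the law in the classes of odd moduli -/
theorem odd_mod (hBIN : ST_BIN) (hW : ST_WALK) {a : ℤ} (ha : a ≠ 0) {c0 : ℝ} (hc0 : 0 ≤ c0)
    (hc : ∀ l : ℕ, Tendsto (fun b => Gs (FI a) ((1 / 2) ^ l) b) atTop (𝓝 (c0 * (1 / 2) ^ l)))
    {B : ℕ} (hB : Odd B) (c : ℤ) {s : ℝ} {J Z : ℕ → ℕ} (hJ : Tendsto J atTop atTop) (hZ : Tendsto Z atTop atTop)
    (hs : Tendsto (fun n : ℕ => ((J n : ℝ) * TD.mu - Real.log (Z n)) / (Real.log 3 / 2 * Real.sqrt (J n))) atTop (𝓝 s)) :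
    Tendsto (fun n : ℕ => Nc (fun N => if (B : ℤ) ∣ N - c then FH a (J n) N else 0) (Z n) / Z n) atTop (𝓝 (c0 / B * gs s)) := by
  have hBpos : (0 : ℝ) < B := by exact_mod_cast hB.pos
  have e : ∀ n : ℕ, (fun N : ℤ => if (B : ℤ) ∣ N - c then FH a (J n) N else 0) = fun N => FH a (J n) N * ic B c N := by
    intro n
    funext N
    unfold ic
    split_ifs
    · rw [mul_one]
    · rw [mul_zero]
  simp only [e]
  have hp : 0 ≤ c0 / B * gs s := mul_nonneg (by positivity) (gs_nonneg s)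
  refine natS (Φ := fun n N => FH a (J n) N * ic B c N) hZ ?_ ?_ hp ?_
  · intro n N
    exact mul_nonneg (FH_nonneg a (J n) N) (ic_nonneg B c N)
  · intro n N
    exact mul_le_one₀ (FH_le_one a (J n) N) (ic_nonneg B c N) (ic_le_one B c N)
  · intro l x
    have h1 := (Gs_seq hBIN hW ha hc0 hc hJ hZ hs l x).div_const (B : ℝ)
    have h2 : Tendsto (fun n => Gs (fun N => FH a (J n) N * ic B c N) ((1 / 2) ^ l) (Real.log (Z n : ℝ) - x) -
        Gs (FH a (J n)) ((1 / 2) ^ l) (Real.log (Z n : ℝ) - x) / B) atTop (𝓝 0) := by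
      rw [Metric.tendsto_nhds]
      intro ε hε
      obtain ⟨t, b0, H⟩ := class_FH a B hB c (W := (1 / 2) ^ l) (by positivity) (pow_le_one₀ (by norm_num) (by norm_num))
        (show 0 < ε / 2 by positivity)
      have hb : Tendsto (fun X : ℕ => Real.log (Z X : ℝ) - x) atTop atTop :=
        tendsto_atTop_add_const_right atTop (-x) (Real.tendsto_log_atTop.comp (tendsto_natCast_atTop_atTop.comp hZ))
      filter_upwards [hb.eventually_ge_atTop b0, hJ.eventually_ge_atTop t] with n h3 h4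
      rw [Real.dist_eq, sub_zero]
      have := H _ h3 (J n) h4
      linarith
    have h3 := h2.add h1
    rw [zero_add] at h3
    rw [show c0 / B * gs s * (1 / 2) ^ l = c0 * gs s * (1 / 2) ^ l / B by ring]
    refine h3.congr (fun n => ?_)
    ring

open Pool.Agent.Helper32.EQ in
/-- comparison of a class modulo `2^l q` with its image under `T^l`, for the indicator functions -/
theorem R_iterF (a : ℤ) (l q : ℕ) (hq : 0 < q) (b : ℤ) : ∃ K : ℝ, ∀ j Z : ℕ,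
    |R (FH a (j + l)) (2 ^ l * q) b Z - R (FH a j) (3 ^ od l b * q) (T^[l] b) Z| ≤ K := by
  classical
  obtain ⟨Y, hYd⟩ : ∃ Y : ℝ, Y = |(a : ℝ)| := ⟨_, rfl⟩
  have hY : 0 ≤ Y := by rw [hYd]; exact abs_nonneg _
  obtain ⟨K0, hK0⟩ : ∃ K0 : ℕ, K0 = b.natAbs + ⌈Y * 2 ^ l⌉₊ := ⟨_, rfl⟩
  refine ⟨(((Finset.Icc (-(K0 : ℤ)) K0).card : ℕ) : ℝ), ?_⟩
  intro j Z
  unfold R
  rw [← Finset.sum_sub_distrib]
  have h1 : ∀ t ∈ Finset.Icc (-(Z : ℤ)) Z, t ∉ Finset.Icc (-(K0 : ℤ)) K0 →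
      FH a (j + l) (b + ((2 ^ l * q : ℕ) : ℤ) * t) - FH a j (T^[l] b + ((3 ^ od l b * q : ℕ) : ℤ) * t) = 0 := by
    intro t _ ht
    rw [Finset.mem_Icc] at ht
    have h2 := (shift l b (q * t)).2
    have e1 : b + ((2 ^ l * q : ℕ) : ℤ) * t = b + 2 ^ l * (q * t) := by push_cast; ring
    have e2 : T^[l] b + ((3 ^ od l b * q : ℕ) : ℤ) * t = T^[l] b + 3 ^ od l b * (q * t) := by push_cast; ring
    have hfam : ∀ N : ℤ, Y * 2 ^ l < |(N : ℝ)| → FH a j (T^[l] N) = FH a (j + l) N := by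
      intro N hN
      have := (FH_fam a).iter (abs_nonneg _) l j N (by rw [← hYd]; exact hN)
      exact this
    rw [e1, e2, ← h2, hfam, sub_self]
    have h3 : (K0 : ℤ) + 1 ≤ |t| := by
      rcases le_or_gt 0 t with h4 | h4
      · rw [abs_of_nonneg h4]; omega
      · rw [abs_of_neg h4]; omega
    have h5 : |t| ≤ |(2 ^ l * (q * t) : ℤ)| := by
      rw [abs_mul, abs_mul]
      have a1 : (1 : ℤ) ≤ |(2 : ℤ) ^ l| := by
        rw [abs_of_pos (by positivity)]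
        exact one_le_pow₀ (by norm_num)
      have a2 : (1 : ℤ) ≤ |(q : ℤ)| := by
        rw [abs_of_nonneg (by positivity)]
        exact_mod_cast hq
      have a3 := abs_nonneg t
      calc |t| = 1 * (1 * |t|) := by ring
        _ ≤ |(2 : ℤ) ^ l| * (|(q : ℤ)| * |t|) := by
          apply mul_le_mul a1 _ (by positivity) (by positivity)
          exact mul_le_mul_of_nonneg_right a2 a3
    have h6 : |(2 ^ l * (q * t) : ℤ)| - |b| ≤ |b + 2 ^ l * (q * t)| := by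
      have := abs_sub_abs_le_abs_sub (2 ^ l * (q * t)) (-b)
      rw [abs_neg, sub_neg_eq_add, add_comm (2 ^ l * (q * t)) b] at this
      exact this
    have h7 : (⌈Y * 2 ^ l⌉₊ : ℤ) + 1 ≤ |b + 2 ^ l * (q * t)| := by
      have h8 : |b| = (b.natAbs : ℤ) := Int.abs_eq_natAbs b
      have h9 : (K0 : ℤ) = b.natAbs + ⌈Y * 2 ^ l⌉₊ := by rw [hK0]; push_cast; ring
      omega
    have h8 : ((⌈Y * 2 ^ l⌉₊ : ℕ) : ℝ) + 1 ≤ |((b + 2 ^ l * (q * t) : ℤ) : ℝ)| := by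
      rw [← Int.cast_abs]; exact_mod_cast h7
    have h9 := Nat.le_ceil (Y * 2 ^ l)
    linarith
  have h2 : ∑ t ∈ Finset.Icc (-(Z : ℤ)) Z, (FH a (j + l) (b + ((2 ^ l * q : ℕ) : ℤ) * t) - FH a j (T^[l] b + ((3 ^ od l b * q : ℕ) : ℤ) * t)) =
      ∑ t ∈ Finset.Icc (-(Z : ℤ)) Z ∩ Finset.Icc (-(K0 : ℤ)) K0, (FH a (j + l) (b + ((2 ^ l * q : ℕ) : ℤ) * t) - FH a j (T^[l] b + ((3 ^ od l b * q : ℕ) : ℤ) * t)) := by
    symm
    apply Finset.sum_subset Finset.inter_subset_left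
    intro t ht1 ht2
    apply h1 t ht1
    intro h3
    exact ht2 (Finset.mem_inter.mpr ⟨ht1, h3⟩)
  rw [h2]
  calc |∑ t ∈ Finset.Icc (-(Z : ℤ)) Z ∩ Finset.Icc (-(K0 : ℤ)) K0, (FH a (j + l) (b + ((2 ^ l * q : ℕ) : ℤ) * t) - FH a j (T^[l] b + ((3 ^ od l b * q : ℕ) : ℤ) * t))|
      ≤ ∑ t ∈ Finset.Icc (-(Z : ℤ)) Z ∩ Finset.Icc (-(K0 : ℤ)) K0, |FH a (j + l) (b + ((2 ^ l * q : ℕ) : ℤ) * t) - FH a j (T^[l] b + ((3 ^ od l b * q : ℕ) : ℤ) * t)| :=
        Finset.abs_sum_le_sum_abs _ _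
    _ ≤ ∑ t ∈ Finset.Icc (-(Z : ℤ)) Z ∩ Finset.Icc (-(K0 : ℤ)) K0, (1 : ℝ) := by
        apply Finset.sum_le_sum
        intro t _
        rw [abs_le]
        have a1 := FH_nonneg a (j + l) (b + ((2 ^ l * q : ℕ) : ℤ) * t)
        have a2 := FH_le_one a (j + l) (b + ((2 ^ l * q : ℕ) : ℤ) * t)
        have a3 := FH_nonneg a j (T^[l] b + ((3 ^ od l b * q : ℕ) : ℤ) * t)
        have a4 := FH_le_one a j (T^[l] b + ((3 ^ od l b * q : ℕ) : ℤ) * t)
        constructor <;> linarith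
    _ = (((Finset.Icc (-(Z : ℤ)) Z ∩ Finset.Icc (-(K0 : ℤ)) K0).card : ℕ) : ℝ) := by simp
    _ ≤ (((Finset.Icc (-(K0 : ℤ)) K0).card : ℕ) : ℝ) := by
        exact_mod_cast Finset.card_le_card Finset.inter_subset_right

end Pool.Agent.Helper3.HT
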