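import Pool.Agent.Helper3.HT.ClsB

/-! Normal law for the steps of `T` in all residue classes. -/

namespace Pool.Agent.Helper3.HT

open Pool.Agent.Helper3.ND Pool.Agent.Helper3.TD Pool.Agent.Helper32.EQ Filter Topology

/-- `Nc_R` with a constant that does not depend on the function -/
theorem Nc_RU {B : ℕ} (hB : 0 < B) (c : ℤ) : ∃ K : ℝ, ∀ Φ : ℤ → ℝ, (∀ n, 0 ≤ Φ n) → (∀ n, Φ n ≤ 1) → ∀ X : ℕ,
    |Nc (fun N => if (B : ℤ) ∣ N - c then Φ N else 0) X - R Φ B c (X / B)| ≤ K := by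
  classical
  refine ⟨((2 * (2 * c.natAbs + 2) : ℕ) : ℝ), ?_⟩
  intro Φ h0 h1 X
  obtain ⟨Z, hZ⟩ : ∃ Z, Z = X / B := ⟨_, rfl⟩
  have hZ1 : B * Z ≤ X := by rw [hZ]; exact Nat.mul_div_le X B
  have hZ2 : X < B * (Z + 1) := by rw [hZ]; exact Nat.lt_mul_div_succ X hB
  have hBz : (1 : ℤ) ≤ B := by exact_mod_cast hB
  have hZ1' : (B : ℤ) * Z ≤ X := by exact_mod_cast hZ1
  have hZ2' : (X : ℤ) < B * (Z + 1) := by exact_mod_cast hZ2
  -- the sum over the class
  have e1 : Nc (fun N => if (B : ℤ) ∣ N - c then Φ N else 0) X =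
      ∑ t ∈ (Finset.Icc (-(Z : ℤ) - 1 - |c|) (Z + 1 + |c|)).filter (fun t => -(X : ℤ) ≤ c + B * t ∧ c + B * t ≤ X), Φ (c + B * t) := by
    unfold Nc
    rw [← Finset.sum_filter]
    symm
    apply Finset.sum_nbij' (fun t => c + B * t) (fun N => (N - c) / B)
    · intro t ht
      rw [Finset.mem_filter] at ht
      rw [Finset.mem_filter, Finset.mem_Icc]
      exact ⟨ht.2, ⟨t, by ring⟩⟩
    · intro N hN
      rw [Finset.mem_filter, Finset.mem_Icc] at hN
      obtain ⟨⟨a1, a2⟩, t, ht⟩ := hN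
      have e : (N - c) / B = t := by rw [ht]; exact Int.mul_ediv_cancel_left _ (by omega)
      rw [e]
      have e2 : c + B * t = N := by linarith
      rw [Finset.mem_filter, Finset.mem_Icc, e2]
      refine ⟨?_, a1, a2⟩
      have hc1 := le_abs_self c
      have hc2 := neg_abs_le c
      have hc0 := abs_nonneg c
      constructor
      · by_contra hcon
        have h3 : t ≤ -(Z : ℤ) - 1 - |c| - 1 := by omega
        have h4 : (B : ℤ) * t ≤ B * (-(Z : ℤ) - 1 - |c| - 1) := mul_le_mul_of_nonneg_left h3 (by omega)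
        nlinarith
      · by_contra hcon
        have h3 : (Z : ℤ) + 1 + |c| + 1 ≤ t := by omega
        have h4 : (B : ℤ) * (Z + 1 + |c| + 1) ≤ B * t := mul_le_mul_of_nonneg_left h3 (by omega)
        nlinarith
    · intro t _
      show ((c + B * t) - c) / B = t
      rw [show c + (B : ℤ) * t - c = B * t by ring]
      exact Int.mul_ediv_cancel_left _ (by omega)
    · intro N hN
      rw [Finset.mem_filter] at hN
      obtain ⟨_, t, ht⟩ := hN
      show c + B * ((N - c) / B) = N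
      rw [ht, Int.mul_ediv_cancel_left _ (by omega : (B : ℤ) ≠ 0)]
      linarith
    · intro t _
      rfl
  rw [e1, ← hZ]
  unfold R
  obtain ⟨a, ha⟩ : ∃ a : ℕ, a = c.natAbs := ⟨_, rfl⟩
  have hac : |c| = (a : ℤ) := by rw [ha]; exact Int.abs_eq_natAbs c
  refine le_trans (sum_diff (fun t => h0 _) (fun t => h1 _) _ _
    (Finset.Icc (-(Z : ℤ) - 1 - a) (-(Z : ℤ) + a) ∪ Finset.Icc ((Z : ℤ) - a) (Z + 1 + a)) ?_) ?_
  · intro t
    rw [Finset.mem_filter, Finset.mem_Icc, Finset.mem_Icc, Finset.mem_union, Finset.mem_Icc, Finset.mem_Icc, hac]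
    by_cases h3 : -(Z : ℤ) + a < t ∧ t < Z - a
    · left
      have hc1 := le_abs_self c
      have hc2 := neg_abs_le c
      rw [hac] at hc1 hc2
      have h4 : (B : ℤ) * (-(Z : ℤ) + a) ≤ B * t := mul_le_mul_of_nonneg_left h3.1.le (by omega)
      have h5 : (B : ℤ) * t ≤ B * (Z - a) := mul_le_mul_of_nonneg_left h3.2.le (by omega)
      have h6 : (a : ℤ) ≤ B * a := by nlinarith
      constructor
      · intro _
        omega
      · intro _
        refine ⟨by omega, ?_, ?_⟩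
        · nlinarith
        · nlinarith
    · by_cases h4 : -(Z : ℤ) - 1 - a ≤ t ∧ t ≤ Z + 1 + a
      · right
        omega
      · left
        constructor
        · intro h5; exact absurd h5.1 h4
        · intro h5; omega
  · have h3 : (Finset.Icc (-(Z : ℤ) - 1 - a) (-(Z : ℤ) + a) ∪ Finset.Icc ((Z : ℤ) - a) (Z + 1 + a)).card ≤ 2 * (2 * a + 2) := by
      refine le_trans (Finset.card_union_le _ _) ?_
      rw [Int.card_Icc, Int.card_Icc]
      omega
    rw [ha] at h3
    rw [ha]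
    exact_mod_cast h3

theorem dcH : DC := by
  intro Y hY Φ hΦ c0 hc0 B hB c
  exact dens_class hY hΦ hc0 B hB c

theorem tends_bddS {f g : ℕ → ℝ} {Z : ℕ → ℕ} {K c : ℝ} (hZ : Tendsto Z atTop atTop) (h : ∀ᶠ n in atTop, |f n - g n| ≤ K)
    (hg : Tendsto (fun n : ℕ => g n / Z n) atTop (𝓝 c)) : Tendsto (fun n : ℕ => f n / Z n) atTop (𝓝 c) := by
  have hZr : Tendsto (fun n => (Z n : ℝ)) atTop atTop := tendsto_natCast_atTop_atTop.comp hZ
  have h1 : Tendsto (fun n => K / (Z n : ℝ)) atTop (𝓝 0) := Tendsto.div_atTop tendsto_const_nhds hZr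
  have h2 : Tendsto (fun n : ℕ => f n / Z n - g n / Z n) atTop (𝓝 0) := by
    apply squeeze_zero_norm' _ h1
    filter_upwards [h, hZr.eventually_gt_atTop 0] with n hn hn0
    rw [Real.norm_eq_abs, ← sub_div, abs_div, abs_of_pos hn0]
    exact div_le_div_of_nonneg_right hn hn0.le
  have h3 := h2.add hg
  simpa using h3

theorem cls (hBIN : ST_BIN) (hW : ST_WALK) : ST_CLS := by
  intro a ha
  obtain ⟨c, hc⟩ := Gs_lim (abs_nonneg (a : ℝ)) (FI_inv a)
  have hc0 : 0 ≤ c := by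
    have h1 := hc 0
    simp only [pow_zero, mul_one] at h1
    exact ge_of_tendsto' h1 (fun b => Gs_nonneg (FI_nonneg a) _ _)
  refine ⟨c, hc0, ?_⟩
  intro M hM b
  refine ⟨all_classes dcH (abs_nonneg _) (FI_inv a) (nat_dens_of (FI_inv a) hc) M hM b, ?_⟩
  intro s J Z hJ hZ hs
  obtain ⟨l, q, hq, rfl⟩ : ∃ l q : ℕ, Odd q ∧ M = 2 ^ l * q := by
    obtain ⟨l, q, h1, h2⟩ := Nat.exists_eq_two_pow_mul_odd hM.ne'
    exact ⟨l, q, h1, h2⟩
  have hq0 : 0 < q := hq.pos
  obtain ⟨B, hBd⟩ : ∃ B : ℕ, B = 3 ^ od l b * q := ⟨_, rfl⟩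
  have hB : Odd B := by rw [hBd]; exact (Odd.pow (by decide)).mul hq
  have hBr : (0 : ℝ) < B := by exact_mod_cast hB.pos
  obtain ⟨P, hPd⟩ : ∃ P : ℕ, P = 2 ^ l * q := ⟨_, rfl⟩
  have hP : 0 < P := by rw [hPd]; positivity
  have hPr : (0 : ℝ) < P := by exact_mod_cast hP
  rw [← hPd]
  have hZr : Tendsto (fun n => (Z n : ℝ)) atTop atTop := tendsto_natCast_atTop_atTop.comp hZ
  have hZP : Tendsto (fun n => Z n / P) atTop atTop := (Nat.tendsto_div_const_atTop hP.ne').comp hZ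
  have hZ' : Tendsto (fun n => B * (Z n / P)) atTop atTop := hZP.const_mul_atTop' hB.pos
  have hsh := shift_ev (J' := fun n => J n - l) (L' := fun n : ℕ => Real.log ((B * (Z n / P) : ℕ) : ℝ)) (D := l)
    (E := Real.log B + Real.log (2 * P)) hJ hs
    (by
      filter_upwards [hJ.eventually_ge_atTop l] with n hn
      rw [Nat.cast_sub hn, show (J n : ℝ) - l - J n = -(l : ℝ) by ring, abs_neg, abs_of_nonneg (by positivity)])
    (by
      filter_upwards [hZ.eventually_ge_atTop P] with n hn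
      have h1 : 1 ≤ Z n / P := Nat.div_pos hn hP
      have h1r : (1 : ℝ) ≤ ((Z n / P : ℕ) : ℝ) := by exact_mod_cast h1
      have h2 : P * (Z n / P) ≤ Z n := Nat.mul_div_le _ _
      have h3 : Z n < P * (Z n / P + 1) := Nat.lt_mul_div_succ _ hP
      have h2r : (P : ℝ) * ((Z n / P : ℕ) : ℝ) ≤ Z n := by exact_mod_cast h2
      have h3r : (Z n : ℝ) < P * (((Z n / P : ℕ) : ℝ) + 1) := by exact_mod_cast h3
      have hP1 : (1 : ℝ) ≤ P := by exact_mod_cast hP
      have hB1 : (1 : ℝ) ≤ B := by exact_mod_cast hB.pos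
      have h4 : ((Z n / P : ℕ) : ℝ) ≤ Z n := by nlinarith
      have h5 : (Z n : ℝ) ≤ 2 * P * ((Z n / P : ℕ) : ℝ) := by nlinarith
      have h6 := Real.log_le_log (by linarith) h4
      have h7 := Real.log_le_log (by linarith) h5
      have h8 := Real.log_nonneg hB1
      have h9 : 0 ≤ Real.log (2 * P) := Real.log_nonneg (by linarith)
      rw [Real.log_mul (by positivity) (by linarith)] at h7
      push_cast
      rw [Real.log_mul (by positivity) (by linarith), abs_le]
      constructor <;> linarith)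
  obtain ⟨e1, e2⟩ := hsh
  have h1 := odd_mod hBIN hW ha hc0 hc hB (T^[l] b) e1 hZ' e2
  -- from the class modulo B to the parametrised sum
  obtain ⟨K1, hK1⟩ := Nc_RU hB.pos (T^[l] b)
  obtain ⟨K2, hK2⟩ := Nc_RU hP b
  obtain ⟨K3, hK3⟩ := R_iterF a l q hq0 b
  rw [← hBd, ← hPd] at hK3
  -- the ratio
  have hratio : Tendsto (fun n => ((B * (Z n / P) : ℕ) : ℝ) / Z n) atTop (𝓝 (B / P)) := by
    have h2 := ((div_tends hP).comp hZ).const_mul (B : ℝ)
    rw [mul_one_div] at h2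
    refine h2.congr (fun n => ?_)
    simp only [Function.comp]
    push_cast
    ring
  have h2 := h1.mul hratio
  have e3 : c / B * gs s * (B / P) = c / P * gs s := by field_simp
  rw [e3] at h2
  have h3 : Tendsto (fun n => Nc (fun N => if (B : ℤ) ∣ N - T^[l] b then FH a (J n - l) N else 0) (B * (Z n / P)) / Z n) atTop (𝓝 (c / P * gs s)) := by
    refine h2.congr' ?_
    filter_upwards [hZ.eventually_ge_atTop P] with n hn
    have h4 : 0 < Z n / P := Nat.div_pos hn hP
    have h5 : ((B * (Z n / P) : ℕ) : ℝ) ≠ 0 := by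
      have : 0 < B * (Z n / P) := Nat.mul_pos hB.pos h4
      exact_mod_cast this.ne'
    have h6 : (Z n : ℝ) ≠ 0 := by
      have : 0 < Z n := by omega
      exact_mod_cast this.ne'
    field_simp
  apply tends_bddS (K := K2 + K3 + K1) hZ _ h3
  filter_upwards [hJ.eventually_ge_atTop l] with n hn
  have a1 := hK2 (FH a (J n)) (FH_nonneg a _) (FH_le_one a _) (Z n)
  have a2 := hK3 (J n - l) (Z n / P)
  rw [Nat.sub_add_cancel hn] at a2
  have a3 := hK1 (FH a (J n - l)) (FH_nonneg a _) (FH_le_one a _) (B * (Z n / P))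
  rw [Nat.mul_div_cancel_left _ hB.pos] at a3
  rw [abs_le] at a1 a2 a3 ⊢
  constructor <;> linarith

end Pool.Agent.Helper3.HT
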