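import Pool.Agent.Helper3.HT.SlowB
import Pool.Agent.Helper3.HT.ClsC
import Pool.Agent.Helper1.PW.Pow
import Pool.Agent.Helper32.EQ.Fin2

/-! Normal law for the number of Syracuse steps, general targets. -/

namespace Pool.Agent.Helper3.HT

open Pool.Agent.Helper3.ND Pool.Agent.Helper3.TD Pool.Agent.Helper32.HT Filter Topology

/-- FLEX: normal law for the number of Syracuse steps needed to meet growing targets -/
def ST_FLEX : Prop := ∀ A : Set ℤ, (∀ a ∈ A, a < 0 ∧ Odd a) → {a ∈ A | (3 * a + 1) / 2 ^ padicValInt 2 (3 * a + 1) ∉ A}.Finite →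
  ∃ d : ℝ, ∀ m : ℕ, 1 ≤ m → ∀ b : ℤ, Odd b →
  Tendsto (fun x : ℝ => (Nat.card {N : ℤ // N < 0 ∧ (2 * m : ℤ) ∣ N - b ∧ -x ≤ (N : ℝ) ∧
    ∃ k : ℕ, (fun n : ℤ => (3 * n + 1) / 2 ^ padicValInt 2 (3 * n + 1))^[k] N ∈ A} : ℝ) / x) atTop (𝓝 (d / m)) ∧
  ∀ (B : ℝ → Set ℤ) (f : ℝ → ℝ), (∀ a ∈ A, ∀ᶠ x in atTop, a ∈ B x) → (∀ x : ℝ, ∀ n ∈ B x, |(n : ℝ)| ≤ f x) →
    Tendsto (fun x => Real.log (f x) / Real.sqrt (Real.log x)) atTop (𝓝 0) →
    ∀ s : ℝ, Tendsto (fun x : ℝ => (Nat.card {N : ℤ // N < 0 ∧ (2 * m : ℤ) ∣ N - b ∧ -x ≤ (N : ℝ) ∧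
      (∃ k : ℕ, (fun n : ℤ => (3 * n + 1) / 2 ^ padicValInt 2 (3 * n + 1))^[k] N ∈ A) ∧
      ∃ k : ℕ, (fun n : ℤ => (3 * n + 1) / 2 ^ padicValInt 2 (3 * n + 1))^[k] N ∈ B x ∧
        ((k : ℝ) * Real.log (4 / 3) - Real.log x) * Real.sqrt (Real.log (4 / 3)) ≤
          s * (Real.log 2 * Real.sqrt (2 * Real.log x))} : ℝ) / x) atTop (𝓝 (d / m * gs s))

/-- a finite part of `A` catches nearly all orbits that meet `A` -/
theorem tight {A : Set ℤ} (hfin : {a ∈ A | syr a ∉ A}.Finite) (Y : ℕ) : ∃ A' : Finset ℤ, (∀ a ∈ A', a ∈ A) ∧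
    ∀ N : ℤ, N < 0 → Odd N → (∃ k : ℕ, syr^[k] N ∈ A) → (∃ k : ℕ, |((syr^[k] N : ℤ) : ℝ)| ≤ Y) → ∃ k : ℕ, syr^[k] N ∈ A' := by
  classical
  have h1 : ∀ c : ℤ, ∃ k : ℕ, (∃ k' : ℕ, syr^[k'] c ∈ A) → syr^[k] c ∈ A := by
    intro c
    by_cases h : ∃ k' : ℕ, syr^[k'] c ∈ A
    · obtain ⟨k, hk⟩ := h
      exact ⟨k, fun _ => hk⟩
    · exact ⟨0, fun h' => absurd h' h⟩
  choose κ hκ using h1
  refine ⟨((Finset.Icc (-(Y : ℤ)) Y).filter (fun c => ∃ k' : ℕ, syr^[k'] c ∈ A)).image (fun c => syr^[κ c] c) ∪ hfin.toFinset, ?_, ?_⟩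
  · intro a ha
    rw [Finset.mem_union] at ha
    rcases ha with ha | ha
    · rw [Finset.mem_image] at ha
      obtain ⟨c, hc, rfl⟩ := ha
      exact hκ c (Finset.mem_filter.mp hc).2
    · rw [Set.Finite.mem_toFinset] at ha
      exact ha.1
  · rintro N _ _ ⟨k0, hk0⟩ ⟨k1, hk1⟩
    obtain ⟨c, hc⟩ : ∃ c, c = syr^[k1] N := ⟨_, rfl⟩
    by_cases h : ∃ k' : ℕ, syr^[k'] c ∈ A
    · refine ⟨κ c + k1, ?_⟩
      rw [Function.iterate_add_apply, ← hc, Finset.mem_union]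
      left
      rw [Finset.mem_image]
      refine ⟨c, Finset.mem_filter.mpr ⟨?_, h⟩, rfl⟩
      rw [← hc] at hk1
      have h2 : |c| ≤ (Y : ℤ) := by exact_mod_cast hk1
      rw [Finset.mem_Icc]
      exact abs_le.mp h2
    · have hlt : k0 ≤ k1 := by
        by_contra hcon
        obtain ⟨w, hw⟩ := Nat.exists_eq_add_of_le' (not_le.mp hcon).le
        apply h
        refine ⟨w, ?_⟩
        rw [hc, ← Function.iterate_add_apply, ← hw]
        exact hk0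
      obtain ⟨l, hl⟩ : ∃ l, l = Nat.findGreatest (fun k => syr^[k] N ∈ A) k1 := ⟨_, rfl⟩
      have hl1 : syr^[l] N ∈ A := by
        rw [hl]
        exact Nat.findGreatest_spec (P := fun k => syr^[k] N ∈ A) hlt hk0
      have hl2 : l ≤ k1 := by rw [hl]; exact Nat.findGreatest_le _
      have hl3 : l ≠ k1 := by
        intro h2
        rw [h2] at hl1
        exact h ⟨0, by rw [hc]; exact hl1⟩
      have hl4 : ¬ syr^[l + 1] N ∈ A := by
        have := Nat.findGreatest_is_greatest (P := fun k => syr^[k] N ∈ A) (n := k1) (k := l + 1) (by omega) (by omega)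
        exact this
      refine ⟨l, ?_⟩
      rw [Finset.mem_union]
      right
      rw [Set.Finite.mem_toFinset]
      refine ⟨hl1, ?_⟩
      rw [Function.iterate_succ_apply'] at hl4
      exact hl4

theorem cR_union2 {R P Q S : ℤ → Prop} {x : ℝ}
    (h : ∀ N : ℤ, N < 0 → R N → -x ≤ (N : ℝ) → P N → Q N ∨ S N) : (cR R P x : ℝ) ≤ cR R Q x + cR R S x := by
  have := cR_union (R := R) (P := P) (Q := Q) (S := S) (x := x) (y := x) (z := x) (by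
    intro N a1 a2 a3 a4
    rcases h N a1 a2 a3 a4 with h5 | h5
    · exact Or.inl ⟨a3, h5⟩
    · exact Or.inr ⟨a3, h5⟩)
  exact_mod_cast this

theorem gs_le_one (s : ℝ) : gs s ≤ 1 := by
  unfold gs
  exact MeasureTheory.measureReal_le_one

/-- few orbits stay large -/
theorem stay : ∃ C : ℝ, 0 < C ∧ ∀ (Y : ℕ), 1 ≤ Y → ∀ x : ℝ, 0 < x → ∀ R : ℤ → Prop, (∀ N, R N → Odd N) →
    (cR R (fun N => ¬ ∃ k : ℕ, |((syr^[k] N : ℤ) : ℝ)| ≤ Y) x : ℝ) ≤ C * x * (Y : ℝ) ^ (-(1 / 44) : ℝ) := by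
  obtain ⟨C, hC, H⟩ := Pool.Agent.Helper1.PW.pow_syr (θ := 1 / 44) (by norm_num)
  refine ⟨C, hC, fun Y hY x hx R hR => ?_⟩
  apply H Y (by exact_mod_cast hY) x hx
  rintro N ⟨h1, h2, h3, h4⟩
  refine ⟨hR N h2, ?_, ?_⟩
  · have h5 : (N : ℝ) < 0 := by exact_mod_cast h1
    rw [abs_of_neg h5]
    linarith
  · intro k _
    by_contra hc
    exact h4 ⟨k, not_lt.mp hc⟩

theorem flex (hB : ST_BASE) (hF : ST_FINS) : ST_FLEX := by
  classical
  intro A hA hfin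
  have hfin' : {a ∈ A | syr a ∉ A}.Finite := hfin
  -- the density
  obtain ⟨Y0, hY0⟩ : ∃ Y0 : ℕ, ∀ a ∈ A, a < -(Y0 : ℤ) → syr a ∈ A := by
    obtain ⟨Y0, hY0⟩ : ∃ Y0 : ℕ, ∀ a ∈ hfin'.toFinset, (a.natAbs : ℕ) ≤ Y0 :=
      ⟨hfin'.toFinset.sup Int.natAbs, fun a ha => Finset.le_sup (f := Int.natAbs) ha⟩
    refine ⟨Y0, fun a ha h => ?_⟩
    by_contra hc
    have := hY0 a (by rw [Set.Finite.mem_toFinset]; exact ⟨ha, hc⟩)
    omega
  obtain ⟨S, hS⟩ : ∃ S : ℕ → Set ℤ, S = fun i => if i = 0 then {N : ℤ | ∃ k : ℕ, syr^[k] N ∈ A} else ∅ := ⟨_, rfl⟩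
  obtain ⟨D, _, hD⟩ := Pool.Agent.Helper32.EQ.fin2 dcH Y0 S (by
    intro i N h1 h2
    rw [hS]
    dsimp only
    split_ifs with hi
    · change (∃ k : ℕ, syr^[k] N ∈ A) ↔ ∃ k : ℕ, syr^[k] (syr N) ∈ A
      constructor
      · rintro ⟨k, hk⟩
        rcases k with _ | k
        · exact ⟨0, hY0 N hk h1⟩
        · exact ⟨k, by rw [Function.iterate_succ_apply] at hk; exact hk⟩
      · rintro ⟨k, hk⟩
        exact ⟨k + 1, by rw [Function.iterate_succ_apply]; exact hk⟩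
    · simp) (by
    intro i j hij
    rw [hS]
    dsimp only
    by_cases hi : i = 0
    · have hj : ¬ j = 0 := fun h => hij (by rw [hi, h])
      rw [if_neg hj]
      exact Set.disjoint_empty _
    · rw [if_neg hi]
      exact Set.empty_disjoint _)
  refine ⟨D 0, fun m hm b hb => ?_⟩
  obtain ⟨R, hR⟩ : ∃ R : ℤ → Prop, R = fun N => (2 * m : ℤ) ∣ N - b := ⟨_, rfl⟩
  have hRo : ∀ N, R N → Odd N := by
    intro N hN
    rw [hR] at hN
    obtain ⟨c, hc⟩ := hN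
    obtain ⟨b', hb'⟩ := hb
    refine ⟨m * c + b', ?_⟩
    have : N = 2 * m * c + b := by linarith
    rw [this, hb']; ring
  have hd : Tendsto (fun x : ℝ => (cR R (fun N => ∃ k : ℕ, syr^[k] N ∈ A) x : ℝ) / x) atTop (𝓝 (D 0 / m)) := by
    have h1 := (hD m hm b hb).1 0
    refine h1.congr (fun x => ?_)
    congr 2
    rw [hS, hR]
    unfold cR
    rw [← Nat.card_coe_set_eq]
    apply Nat.card_congr
    apply Equiv.subtypeEquivRight
    intro N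
    dsimp only
    rw [if_pos rfl]
    constructor
    · rintro ⟨c1, c2, c3, c4⟩
      exact ⟨c2, c3, c4, c1⟩
    · rintro ⟨c2, c3, c4, c1⟩
      exact ⟨c1, c2, c3, c4⟩
  refine ⟨?_, ?_⟩
  · refine hd.congr (fun x => ?_)
    congr 2
    rw [hR]; rfl
  intro B f hB1 hB2 hf s
  have hm0 : (0 : ℝ) < m := by exact_mod_cast hm
  obtain ⟨F, hFdef⟩ : ∃ F : ℝ → ℝ, F = fun x => (cR R (fun N => (∃ k : ℕ, syr^[k] N ∈ A) ∧ ∃ k : ℕ, syr^[k] N ∈ B x ∧ Cnd s x k) x : ℝ) := ⟨_, rfl⟩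
  suffices hmain : Tendsto (fun x : ℝ => F x / x) atTop (𝓝 (D 0 / m * gs s)) by
    refine hmain.congr (fun x => ?_)
    rw [hFdef]
    dsimp only
    congr 2
    rw [hR]; rfl
  obtain ⟨C, hC, hstay⟩ := stay
  have hpow : Tendsto (fun Y : ℕ => C * (Y : ℝ) ^ (-(1 / 44) : ℝ)) atTop (𝓝 0) := by
    have := ((tendsto_rpow_neg_atTop (y := 1 / 44) (by norm_num)).comp (tendsto_natCast_atTop_atTop (R := ℝ))).const_mul C
    rw [mul_zero] at this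
    exact this
  -- approximation by a finite set
  have happ : ∀ δ : ℝ, 0 < δ → ∃ A' : Finset ℤ, (∀ a ∈ A', a ∈ A) ∧ ∀ x : ℝ, 0 < x →
      ∀ P : ℤ → Prop, (cR R (fun N => (∃ k : ℕ, syr^[k] N ∈ A) ∧ P N) x : ℝ) ≤
        cR R (fun N => (∃ k : ℕ, syr^[k] N ∈ A') ∧ P N) x + δ * x := by
    intro δ hδ
    obtain ⟨Y, hY1, hY2⟩ := (((tendsto_order.1 hpow).2 δ hδ).and (eventually_ge_atTop 1)).exists
    obtain ⟨A', hA1, hA2⟩ := tight hfin' Y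
    refine ⟨A', hA1, fun x hx P => ?_⟩
    have h1 := cR_union2 (R := R) (P := fun N => (∃ k : ℕ, syr^[k] N ∈ A) ∧ P N)
      (Q := fun N => (∃ k : ℕ, syr^[k] N ∈ A') ∧ P N) (S := fun N => ¬ ∃ k : ℕ, |((syr^[k] N : ℤ) : ℝ)| ≤ Y) (x := x) (by
        rintro N b1 b2 b3 ⟨b4, b5⟩
        by_cases h : ∃ k : ℕ, |((syr^[k] N : ℤ) : ℝ)| ≤ Y
        · exact Or.inl ⟨hA2 N b1 (hRo N b2) b4 h, b5⟩
        · exact Or.inr h)
    have h2 := hstay Y hY2 x hx R hRo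
    have h3 : C * x * (Y : ℝ) ^ (-(1 / 44) : ℝ) ≤ δ * x := by nlinarith
    linarith
  -- the densities of the finite parts
  have hdens : ∀ δ : ℝ, 0 < δ → ∀ A' : Finset ℤ, (∀ a ∈ A', a ∈ A) → (∀ x : ℝ, 0 < x →
      ∀ P : ℤ → Prop, (cR R (fun N => (∃ k : ℕ, syr^[k] N ∈ A) ∧ P N) x : ℝ) ≤
        cR R (fun N => (∃ k : ℕ, syr^[k] N ∈ A') ∧ P N) x + δ * x) →
      ∃ e : ℝ, e ≤ D 0 / m ∧ D 0 / m - δ ≤ e ∧ ∀ t : ℝ,
        Tendsto (fun x : ℝ => (cR R (fun N => ∃ k : ℕ, syr^[k] N ∈ A' ∧ Cnd t x k) x : ℝ) / x) atTop (𝓝 (e * gs t)) := by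
    intro δ hδ A' hA1 hA2
    obtain ⟨d', hd'⟩ := hF A' (fun a ha => hA a (hA1 a ha))
    obtain ⟨h1, h2⟩ := hd' m hm b hb
    have h1' : Tendsto (fun x : ℝ => (cR R (fun N => ∃ k : ℕ, syr^[k] N ∈ A') x : ℝ) / x) atTop (𝓝 (d' / m)) := by
      refine h1.congr (fun x => ?_)
      congr 2
      rw [hR]; rfl
    refine ⟨d' / m, ?_, ?_, fun t => ?_⟩
    · apply le_of_tendsto_of_tendsto h1' hd
      filter_upwards [eventually_gt_atTop 0] with x hx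
      apply div_le_div_of_nonneg_right _ hx.le
      have : cR R (fun N => ∃ k : ℕ, syr^[k] N ∈ A') x ≤ cR R (fun N => ∃ k : ℕ, syr^[k] N ∈ A) x :=
        cR_mono (fun N _ _ b3 b4 => by
          obtain ⟨k, b5⟩ := b4
          exact ⟨b3, k, hA1 _ b5⟩)
      exact_mod_cast this
    · rw [sub_le_iff_le_add]
      apply le_of_tendsto_of_tendsto hd (h1'.add_const δ)
      filter_upwards [eventually_gt_atTop 0] with x hx
      have h3 := hA2 x hx (fun _ => True)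
      simp only [and_true] at h3
      rw [div_add' _ _ _ hx.ne']
      exact div_le_div_of_nonneg_right h3 hx.le
    · refine (h2 t).congr (fun x => ?_)
      congr 2
      rw [hR]; rfl
  rw [tendsto_order]
  constructor
  · intro u hu
    obtain ⟨δ, hδ⟩ : ∃ δ : ℝ, δ = (D 0 / m * gs s - u) / 2 := ⟨_, rfl⟩
    have hδ0 : 0 < δ := by rw [hδ]; linarith
    obtain ⟨A', hA1, hA2⟩ := happ δ hδ0
    obtain ⟨e, he1, he2, he3⟩ := hdens δ hδ0 A' hA1 hA2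
    have hlow : u < e * gs s := by
      have h1 := gs_nonneg s
      have h2 := gs_le_one s
      have h3 : (D 0 / m - δ) * gs s ≤ e * gs s := mul_le_mul_of_nonneg_right he2 h1
      nlinarith
    have hev : ∀ᶠ x : ℝ in atTop, ∀ a ∈ A', a ∈ B x := by
      rw [Filter.eventually_all_finset]
      exact fun a ha => hB1 a (hA1 a ha)
    filter_upwards [(tendsto_order.1 (he3 s)).1 u hlow, hev, eventually_gt_atTop 0] with x h1 h2 h3
    refine lt_of_lt_of_le h1 ?_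
    apply div_le_div_of_nonneg_right _ h3.le
    rw [hFdef]
    dsimp only
    have : cR R (fun N => ∃ k : ℕ, syr^[k] N ∈ A' ∧ Cnd s x k) x ≤
        cR R (fun N => (∃ k : ℕ, syr^[k] N ∈ A) ∧ ∃ k : ℕ, syr^[k] N ∈ B x ∧ Cnd s x k) x :=
      cR_mono (fun N _ _ b3 b4 => by
        obtain ⟨k, b5, b6⟩ := b4
        exact ⟨b3, ⟨k, hA1 _ b5⟩, k, h2 _ b5, b6⟩)
    exact_mod_cast this
  · intro u hu
    have h1 : Tendsto (fun t => D 0 / m * gs t) (𝓝[>] s) (𝓝 (D 0 / m * gs s)) := (gs_right s).const_mul _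
    obtain ⟨t, ht1, ht2⟩ := (((tendsto_order.1 h1).2 u hu).and self_mem_nhdsWithin).exists
    have ht3 : s < t := ht2
    obtain ⟨δ, hδ⟩ : ∃ δ : ℝ, δ = (u - D 0 / m * gs t) / 3 := ⟨_, rfl⟩
    have hδ0 : 0 < δ := by rw [hδ]; linarith
    obtain ⟨A', hA1, hA2⟩ := happ δ hδ0
    obtain ⟨e, he1, he2, he3⟩ := hdens δ hδ0 A' hA1 hA2
    have hup : e * gs t < D 0 / m * gs t + δ := by
      have h1 := gs_nonneg t
      have h3 : e * gs t ≤ D 0 / m * gs t := mul_le_mul_of_nonneg_right he1 h1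
      linarith
    filter_upwards [(tendsto_order.1 (he3 t)).2 _ hup, flex_up hB (A := A') (fun a ha => hA a (hA1 a ha)) hRo hf ht3 hδ0,
      eventually_gt_atTop 0] with x k1 k2 k3
    rw [div_lt_iff₀ k3] at k1 ⊢
    have k4 := hA2 x k3 (fun N => ∃ k : ℕ, syr^[k] N ∈ B x ∧ Cnd s x k)
    have k5 : (cR R (fun N => (∃ k : ℕ, syr^[k] N ∈ A') ∧ ∃ k : ℕ, syr^[k] N ∈ B x ∧ Cnd s x k) x : ℝ) ≤
        cR R (fun N => (∃ k : ℕ, syr^[k] N ∈ A') ∧ ∃ k : ℕ, |((syr^[k] N : ℤ) : ℝ)| ≤ f x ∧ Cnd s x k) x := by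
      have : cR R (fun N => (∃ k : ℕ, syr^[k] N ∈ A') ∧ ∃ k : ℕ, syr^[k] N ∈ B x ∧ Cnd s x k) x ≤
          cR R (fun N => (∃ k : ℕ, syr^[k] N ∈ A') ∧ ∃ k : ℕ, |((syr^[k] N : ℤ) : ℝ)| ≤ f x ∧ Cnd s x k) x :=
        cR_mono (fun N _ _ b3 b4 => by
          obtain ⟨b5, k, b6, b7⟩ := b4
          exact ⟨b3, b5, k, hB2 x _ b6, b7⟩)
      exact_mod_cast this
    rw [hFdef]
    dsimp only
    have k6 : u * x = (D 0 / m * gs t + δ) * x + δ * x + δ * x := by rw [hδ]; ring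
    linarith

end Pool.Agent.Helper3.HT
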