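import Pool.Agent.Helper3.HT.LevC

/-! Several levels: the value at the first entry into a level, and the walk above a level for such functions. -/

namespace Pool.Agent.Helper3.HT

open Pool.Agent.Helper3.ND Pool.Agent.Helper3.TD Filter Topology

/-- the value of `ψ` at the first point of the orbit in `[-exp c, exp c]` if it comes within `j` steps, else `0` -/
noncomputable def EV (ψ : ℤ → ℝ) (c : ℝ) : ℕ → ℤ → ℝ
  | 0, N => if |(N : ℝ)| ≤ Real.exp c then ψ N else 0
  | j + 1, N => if |(N : ℝ)| ≤ Real.exp c then ψ N else EV ψ c j (T N)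

theorem EV_low {ψ : ℤ → ℝ} {c : ℝ} {N : ℤ} (h : |(N : ℝ)| ≤ Real.exp c) (j : ℕ) : EV ψ c j N = ψ N := by
  rcases j with _ | j <;> rw [EV, if_pos h]

theorem EV_zero {ψ : ℤ → ℝ} {c : ℝ} {N : ℤ} (h : Real.exp c < |(N : ℝ)|) : EV ψ c 0 N = 0 := by
  rw [EV, if_neg (not_le.mpr h)]

theorem EV_step {ψ : ℤ → ℝ} {c : ℝ} {N : ℤ} (h : Real.exp c < |(N : ℝ)|) (j : ℕ) : EV ψ c (j + 1) N = EV ψ c j (T N) := by
  rw [EV, if_neg (not_le.mpr h)]

theorem EV_nonneg {ψ : ℤ → ℝ} (h : ∀ N, 0 ≤ ψ N) (c : ℝ) (j : ℕ) : ∀ N, 0 ≤ EV ψ c j N := by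
  induction j with
  | zero => intro N; rw [EV]; split_ifs; exacts [h N, le_rfl]
  | succ j ih => intro N; rw [EV]; split_ifs; exacts [h N, ih _]

theorem EV_le_one {ψ : ℤ → ℝ} (h : ∀ N, ψ N ≤ 1) (c : ℝ) (j : ℕ) : ∀ N, EV ψ c j N ≤ 1 := by
  induction j with
  | zero => intro N; rw [EV]; split_ifs; exacts [h N, zero_le_one]
  | succ j ih => intro N; rw [EV]; split_ifs; exacts [h N, ih _]

theorem EV_mono_succ {ψ : ℤ → ℝ} (h : ∀ N, 0 ≤ ψ N) (c : ℝ) (j : ℕ) : ∀ N, EV ψ c j N ≤ EV ψ c (j + 1) N := by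
  induction j with
  | zero =>
    intro N
    rcases le_or_gt |(N : ℝ)| (Real.exp c) with h1 | h1
    · rw [EV_low h1, EV_low h1]
    · rw [EV_zero h1]; exact EV_nonneg h c 1 N
  | succ j ih =>
    intro N
    rcases le_or_gt |(N : ℝ)| (Real.exp c) with h1 | h1
    · rw [EV_low h1, EV_low h1]
    · rw [EV_step h1, EV_step h1]; exact ih _

theorem EV_mono {ψ : ℤ → ℝ} (h : ∀ N, 0 ≤ ψ N) (c : ℝ) {j k : ℕ} (hjk : j ≤ k) (N : ℤ) : EV ψ c j N ≤ EV ψ c k N := by
  induction hjk with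
  | refl => exact le_rfl
  | step _ ih => exact le_trans ih (EV_mono_succ h c _ N)

theorem EV_fam {ψ : ℤ → ℝ} (h0 : ∀ N, 0 ≤ ψ N) (h1 : ∀ N, ψ N ≤ 1) (c : ℝ) : Fam (EV ψ c) (Real.exp c) :=
  ⟨EV_nonneg h0 c, EV_le_one h1 c, fun j N hN => (EV_step hN j).symm⟩

theorem EV_le {Ψ : ℕ → ℤ → ℝ} {Y0 : ℝ} (hΨ : Fam Ψ Y0) (hm : ∀ j N, Ψ j N ≤ Ψ (j + 1) N) {c : ℝ} (hc : Y0 ≤ Real.exp c) (j : ℕ) :
    ∀ N, EV (Ψ 0) c j N ≤ Ψ j N := by
  have h0 : ∀ j N, Ψ 0 N ≤ Ψ j N := by
    intro j N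
    induction j with
    | zero => exact le_rfl
    | succ j ih => exact le_trans ih (hm j N)
  induction j with
  | zero =>
    intro N
    rcases le_or_gt |(N : ℝ)| (Real.exp c) with h1 | h1
    · rw [EV_low h1]
    · rw [EV_zero h1]; exact hΨ.nonneg 0 N
  | succ j ih =>
    intro N
    rcases le_or_gt |(N : ℝ)| (Real.exp c) with h1 | h1
    · rw [EV_low h1]; exact h0 _ N
    · rw [EV_step h1, ← hΨ.inv j N (lt_of_le_of_lt hc h1)]; exact ih _

theorem EV_ge {Ψ : ℕ → ℤ → ℝ} {Y0 : ℝ} (hΨ : Fam Ψ Y0) (hm : ∀ j N, Ψ j N ≤ Ψ (j + 1) N) {c : ℝ} (hc : Y0 ≤ Real.exp c) (M : ℕ) :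
    ∀ N, (∃ i : ℕ, i ≤ M ∧ |((T^[i] N : ℤ) : ℝ)| ≤ Real.exp c) → Ψ 0 N ≤ EV (Ψ 0) c M N := by
  induction M with
  | zero =>
    rintro N ⟨i, h1, h2⟩
    obtain rfl : i = 0 := by omega
    rw [EV_low (by simpa using h2)]
  | succ M ih =>
    rintro N ⟨i, h1, h2⟩
    rcases le_or_gt |(N : ℝ)| (Real.exp c) with h3 | h3
    · rw [EV_low h3]
    · rw [EV_step h3]
      rcases i with _ | i
      · exact absurd h2 (not_le.mpr h3)
      · rw [Function.iterate_succ_apply] at h2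
        refine le_trans ?_ (ih (T N) ⟨i, by omega, h2⟩)
        rw [hΨ.inv 0 N (lt_of_le_of_lt hc h3)]
        exact hm 0 N

theorem EV_stab {ψ : ℤ → ℝ} {c : ℝ} (M p : ℕ) :
    ∀ N, (∃ i : ℕ, i ≤ M ∧ |((T^[i] N : ℤ) : ℝ)| ≤ Real.exp c) → EV ψ c (M + p) N = EV ψ c M N := by
  induction M with
  | zero =>
    rintro N ⟨i, h1, h2⟩
    obtain rfl : i = 0 := by omega
    have h3 : |(N : ℝ)| ≤ Real.exp c := by simpa using h2
    rw [EV_low h3, EV_low h3]
  | succ M ih =>
    rintro N ⟨i, h1, h2⟩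
    rcases le_or_gt |(N : ℝ)| (Real.exp c) with h3 | h3
    · rw [EV_low h3, EV_low h3]
    · rw [show M + 1 + p = (M + p) + 1 by ring, EV_step h3, EV_step h3]
      rcases i with _ | i
      · exact absurd h2 (not_le.mpr h3)
      · rw [Function.iterate_succ_apply] at h2
        exact ih (T N) ⟨i, by omega, h2⟩

theorem EV_none {ψ : ℤ → ℝ} {c : ℝ} (j : ℕ) :
    ∀ N, (∀ i : ℕ, i ≤ j → Real.exp c < |((T^[i] N : ℤ) : ℝ)|) → EV ψ c j N = 0 := by
  induction j with
  | zero =>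
    intro N h
    exact EV_zero (by simpa using h 0 le_rfl)
  | succ j ih =>
    intro N h
    rw [EV_step (by simpa using h 0 (by omega))]
    apply ih
    intro i hi
    have := h (i + 1) (by omega)
    rwa [Function.iterate_succ_apply] at this

theorem Gs_EV_zero {ψ : ℤ → ℝ} {c : ℝ} {j : ℕ} {W b : ℝ} (hW0 : 0 < W) (h : (2 : ℝ) ^ j ≤ Real.exp (b - W)) : Gs (EV ψ c j) W (c + b) = 0 := by
  unfold Gs SS
  apply Finset.sum_eq_zero
  intro N _
  by_cases h0 : om (c + b) W N = 0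
  · rw [h0, mul_zero]
  · obtain ⟨h1, h2⟩ := om_ne_zero hW0 h0
    rw [abs_lt] at h2
    have h3 : Real.exp (c + b - W) < |(N : ℝ)| := by
      rw [← Real.lt_log_iff_exp_lt h1]; linarith
    have : EV ψ c j N = 0 := by
      apply EV_none
      intro i h4
      by_contra h5
      rw [not_lt] at h5
      have h6 := abs_T_iter_ge i N
      have h7 : |(N : ℝ)| ≤ 2 ^ i * |((T^[i] N : ℤ) : ℝ)| := by exact_mod_cast h6
      have h8 : (2 : ℝ) ^ i ≤ 2 ^ j := pow_le_pow_right₀ (by norm_num) h4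
      have h9 : |(N : ℝ)| ≤ Real.exp (b - W) * Real.exp c := by
        calc |(N : ℝ)| ≤ 2 ^ i * |((T^[i] N : ℤ) : ℝ)| := h7
          _ ≤ Real.exp (b - W) * Real.exp c := mul_le_mul (le_trans h8 h) h5 (abs_nonneg _) (Real.exp_pos _).le
      rw [← Real.exp_add] at h9
      have h10 : b - W + c = c + b - W := by ring
      rw [h10] at h9
      linarith
    rw [this, zero_mul]

/-- comparison of functions that agree on the integers that come down quickly -/
theorem base_cmp {f g : ℤ → ℝ} (hf : ∀ N, f N ≤ 1) (hg : ∀ N, 0 ≤ g N) {W : ℝ} (hW0 : 0 < W) (hW1 : W ≤ 1) {M : ℕ} (hM : 1 ≤ M)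
    {c b : ℝ} (hc : 2 * (M : ℝ) + 1 ≤ c) (hb3 : 3 ≤ b) (hb : b + 2 ≤ 0.129 * M)
    (hfg : ∀ N : ℤ, (∃ i : ℕ, i ≤ M ∧ |((T^[i] N : ℤ) : ℝ)| ≤ Real.exp c) → f N ≤ g N) :
    Gs f W (c + b) ≤ Gs g W (c + b) + 12 * Real.exp (-((M : ℝ) / 5000)) := by
  classical
  have hM0 : (0 : ℝ) < M := by exact_mod_cast hM
  obtain ⟨X, hX⟩ : ∃ X : ℤ, X = ⌈Real.exp (c + b + W)⌉ := ⟨_, rfl⟩
  have hwin := win_sum (q := 2 ^ M) (f := aty M) (Nat.one_le_two_pow) (aty_per M) (aty_nonneg M) (b := c + b) (v := W) hW0.le (by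
    push_cast
    have e1 : (4 : ℝ) * 2 ^ M ≤ Real.exp 2 * Real.exp M := by
      have e2 : (4 : ℝ) ≤ Real.exp 2 := by
        have e3 : Real.exp 2 = Real.exp 1 * Real.exp 1 := by rw [← Real.exp_add]; norm_num
        have := Real.add_one_le_exp (1 : ℝ)
        nlinarith
      exact mul_le_mul e2 (two_pow M) (by positivity) (Real.exp_pos _).le
    rw [← Real.exp_add] at e1
    exact le_trans e1 (Real.exp_le_exp.mpr (by linarith))) X
  have hav := aty_av hM
  have hle : Gs f W (c + b) ≤ Gs g W (c + b) +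
      ∑ N ∈ Finset.Icc (-X) X, (if |Real.log |(N : ℝ)| - (c + b)| ≤ W then aty M N / |(N : ℝ)| else 0) := by
    unfold Gs SS
    rw [← hX, ← Finset.sum_add_distrib]
    apply Finset.sum_le_sum
    intro N _
    by_cases h2 : om (c + b) W N = 0
    · rw [h2, mul_zero, mul_zero, zero_add]
      split_ifs
      · exact div_nonneg (aty_nonneg M N) (abs_nonneg _)
      · exact le_rfl
    · obtain ⟨h3, h4⟩ := om_ne_zero hW0 h2
      rw [if_pos h4.le]
      by_cases h5 : (M : ℝ) / 100 ≤ |(od M N : ℝ) - M / 2|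
      · have h6 : aty M N = 1 := by unfold aty; rw [if_pos h5]
        rw [h6]
        have h7 : 0 ≤ g N * om (c + b) W N := mul_nonneg (hg N) (om_nonneg _ _ _)
        have h8 : f N * om (c + b) W N ≤ 1 * (1 / |(N : ℝ)|) :=
          mul_le_mul (hf N) (om_le _ _ _) (om_nonneg _ _ _) (by norm_num)
        linarith
      · rw [not_le] at h5
        have h6 : f N ≤ g N := by
          apply hfg
          rw [abs_lt] at h4
          exact ⟨M, le_rfl, typ_small hM h5 hW1 hc hb h3 (by linarith)⟩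
        have h7 := mul_le_mul_of_nonneg_right h6 (om_nonneg (c + b) W N)
        have : 0 ≤ aty M N / |(N : ℝ)| := div_nonneg (aty_nonneg M N) (abs_nonneg _)
        linarith
  have hav0 : 0 ≤ AvQ (2 ^ M) (aty M) := by
    unfold AvQ
    exact div_nonneg (Finset.sum_nonneg (fun x _ => aty_nonneg M _)) (by positivity)
  have h9 : 2 * AvQ (2 ^ M) (aty M) * (2 * W + 1) ≤ 12 * Real.exp (-((M : ℝ) / 5000)) := by
    nlinarith
  linarith

/-- **the walk above a level, for values at the first entry** -/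
theorem walkG {W g : ℝ} (hW0 : 0 < W) (hW1 : W ≤ 1) (hg0 : 0 ≤ g) {κ : ℝ} (hκ : 0 < κ) :
    ∃ M N0 : ℕ, ∀ c : ℝ, 2 * (M : ℝ) + 1 ≤ c → ∀ (Ψ : ℕ → ℤ → ℝ) (Y0 : ℝ), Fam Ψ Y0 → (∀ j N, Ψ j N ≤ Ψ (j + 1) N) → Y0 ≤ Real.exp c →
      (∀ b : ℝ, (N0 : ℝ) ≤ b → b ≤ 2 * N0 → Gs (Ψ M) W (c + b) ≤ g + κ / 8) →
      (∀ b : ℝ, (N0 : ℝ) ≤ b → b ≤ 2 * N0 → g - κ / 8 ≤ Gs (Ψ 0) W (c + b)) →
      ∀ b : ℝ, (N0 : ℝ) ≤ b → ∀ j : ℕ,
      Gs (EV (Ψ 0) c j) W (c + b) ≤ g * PW (j + M) b + κ ∧ (M ≤ j → g * PW (j - M) b ≤ Gs (EV (Ψ 0) c j) W (c + b) + κ) := by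
  obtain ⟨C, hC, H⟩ := avgL 2
  obtain ⟨A0, hA0, H2⟩ := H W hW0 hW1
  obtain ⟨C', hC', HP⟩ := prop_gen (C := C) (K := 6 + g) hC.le (by linarith)
  have hWp : 0 < 200 / W := by positivity
  have hA15 : (10 ^ 5 : ℝ) ≤ A0 := by linarith
  obtain ⟨N0, hN0⟩ := exists_nat_ge (max A0 (4 * C' / κ))
  have hN1 : A0 ≤ N0 := le_trans (le_max_left _ _) hN0
  have hN2 : 4 * C' / κ ≤ N0 := le_trans (le_max_right _ _) hN0
  have hNpos : (0 : ℝ) < N0 := by linarith
  have hCN : C' / N0 ≤ κ / 4 := by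
    rw [div_le_iff₀ hNpos]
    rw [div_le_iff₀ hκ] at hN2
    linarith
  -- the delay
  have hlim : Tendsto (fun M : ℕ => (g + 12) * (2 * Real.exp (-((M : ℝ) / 5000)))) atTop (𝓝 0) := by
    have h1 : Tendsto (fun M : ℕ => (M : ℝ) / 5000) atTop atTop :=
      Tendsto.atTop_div_const (by norm_num) tendsto_natCast_atTop_atTop
    have h2 := (Real.tendsto_exp_neg_atTop_nhds_zero.comp h1).const_mul 2
    have h3 := h2.const_mul (g + 12)
    simpa using h3
  obtain ⟨M1, hM1⟩ := eventually_atTop.1 ((tendsto_order.1 hlim).2 (κ / 8) (by positivity))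
  obtain ⟨M, hM⟩ : ∃ M, M = max M1 (2004 * N0) := ⟨_, rfl⟩
  have hMa : M1 ≤ M := by rw [hM]; exact le_max_left _ _
  have hMb : 2004 * N0 ≤ M := by rw [hM]; exact le_max_right _ _
  have hMc : (2004 : ℝ) * N0 ≤ M := by exact_mod_cast hMb
  have hM2 := hM1 M hMa
  have hexpM : 0 < Real.exp (-((M : ℝ) / 5000)) := Real.exp_pos _
  have hM3 : g * (2 * Real.exp (-((M : ℝ) / 5000))) ≤ κ / 8 := by nlinarith
  have hM4 : 12 * Real.exp (-((M : ℝ) / 5000)) ≤ κ / 8 := by nlinarith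
  have hMpos : 1 ≤ M := by
    have : (1 : ℝ) ≤ M := by linarith
    exact_mod_cast this
  refine ⟨M, N0, ?_⟩
  intro c hcM Ψ Y0 hΨ hmo hYc hU hL
  have hcp : 0 ≤ c := by
    have : (0 : ℝ) ≤ M := Nat.cast_nonneg M
    linarith
  have hfam := EV_fam (hΨ.nonneg 0) (hΨ.le_one 0) c
  have hmono : ∀ {j k : ℕ}, j ≤ k → ∀ N, EV (Ψ 0) c j N ≤ EV (Ψ 0) c k N := fun h N => EV_mono (hΨ.nonneg 0) c h N
  -- facts at large scales
  have step0 : ∀ x : ℝ, A0 ≤ x → ∀ j : ℕ, (j : ℝ) ≤ x / 40 → Gs (EV (Ψ 0) c j) W (c + x) = 0 := by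
    intro x hx j hj
    apply Gs_EV_zero hW0
    exact le_trans (two_pow j) (Real.exp_le_exp.mpr (by linarith))
  have step1 : ∀ x : ℝ, A0 ≤ x → ∀ n : ℕ, n = ⌊x / 100⌋₊ → ∀ j : ℕ, x / 80 ≤ j →
      |Gs (EV (Ψ 0) c (n + j)) W (c + x) - Eo n (fun i => Gs (EV (Ψ 0) c j) W (c + bk x n i))| ≤ C / x ^ 2 := by
    intro x hx n hn j hj
    have h1 : (n : ℝ) ≤ x / 100 := by rw [hn]; exact Nat.floor_le (by linarith)
    have h2 := H2 x hx c hcp (EV (Ψ 0) c) hfam n h1 j hj x (by linarith) (by linarith)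
    rwa [add_comm j n] at h2
  -- upper bound
  have up := HP (fun j b => Gs (EV (Ψ 0) c j) W (c + b) - g * PW (j + M) b) A0 hA15
    (by
      intro j b hb
      have h1 := Gs_six (hfam.nonneg j) (hfam.le_one j) hW0 hW1 (b := c + b) (by linarith)
      have h2 := mul_nonneg hg0 (PW_nonneg (j + M) b)
      linarith)
    (by
      intro x hx n hn j
      have hx5 : (10 ^ 5 : ℝ) ≤ x := by linarith
      have hnx : (n : ℝ) ≤ x / 100 := by rw [hn]; exact Nat.floor_le (by linarith)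
      rcases le_or_gt ((n : ℝ) + x / 80) j with h | h
      · right
        have hnj : n ≤ j := by
          have : (n : ℝ) ≤ j := by linarith
          exact_mod_cast this
        obtain ⟨j', rfl⟩ := Nat.exists_eq_add_of_le hnj
        push_cast at h
        refine ⟨j', ?_⟩
        have h1 := step1 x hx n hn j' (by linarith)
        rw [abs_le] at h1
        rw [Eo_sub_fun, Eo_mul, add_assoc n j' M, PW_add]
        linarith
      · left
        rw [step0 x hx j (by linarith)]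
        have := mul_nonneg hg0 (PW_nonneg (j + M) x)
        linarith)
    N0 hN1 (κ / 2) (by positivity)
    (by
      intro b hb1' hb2' j
      have h1 : Gs (EV (Ψ 0) c j) W (c + b) ≤ Gs (Ψ M) W (c + b) + 12 * Real.exp (-((M : ℝ) / 5000)) := by
        apply base_cmp (hfam.le_one j) (hΨ.nonneg M) hW0 hW1 hMpos hcM (by linarith) (by linarith)
        intro N hN
        refine le_trans ?_ (EV_le hΨ hmo hYc M N)
        rcases le_or_gt j M with h | h
        · exact hmono h N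
        · obtain ⟨p, rfl⟩ := Nat.exists_eq_add_of_le h.le
          rw [EV_stab M p N hN]
      have h2 := hU b hb1' hb2'
      have h3 := PW_large (j := j + M) (by omega) (a := b) (by push_cast; linarith [show (0 : ℝ) ≤ j by positivity])
      have h4 : Real.exp (-(((j + M : ℕ) : ℝ) / 5000)) ≤ Real.exp (-((M : ℝ) / 5000)) := by
        apply Real.exp_le_exp.mpr
        push_cast
        linarith [show (0 : ℝ) ≤ j by positivity]
      have h5 : g * (1 - 2 * Real.exp (-((M : ℝ) / 5000))) ≤ g * PW (j + M) b := by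
        apply mul_le_mul_of_nonneg_left _ hg0
        linarith
      have h6 : g * (1 - 2 * Real.exp (-((M : ℝ) / 5000))) = g - g * (2 * Real.exp (-((M : ℝ) / 5000))) := by ring
      linarith)
  -- lower bound
  have lo := HP (fun j b => if M ≤ j then g * PW (j - M) b - Gs (EV (Ψ 0) c j) W (c + b) else 0) A0 hA15
    (by
      intro j b hb
      split_ifs with h
      · have h1 := Gs_nonneg (hfam.nonneg j) W (c + b)
        have h2 := mul_le_mul_of_nonneg_left (PW_le_one (j - M) b) hg0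
        linarith
      · linarith)
    (by
      intro x hx n hn j
      have hx5 : (10 ^ 5 : ℝ) ≤ x := by linarith
      have hnx : (n : ℝ) ≤ x / 100 := by rw [hn]; exact Nat.floor_le (by linarith)
      by_cases hMj : M ≤ j
      swap
      · left
        rw [if_neg hMj]
      obtain ⟨p, rfl⟩ := Nat.exists_eq_add_of_le hMj
      rcases le_or_gt ((n : ℝ) + x / 80) p with h | h
      · right
        have hnj : n ≤ p := by
          have : (n : ℝ) ≤ p := by linarith
          exact_mod_cast this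
        obtain ⟨p', rfl⟩ := Nat.exists_eq_add_of_le hnj
        push_cast at h
        refine ⟨M + p', ?_⟩
        have h1 := step1 x hx n hn (M + p') (by push_cast; linarith [show (0 : ℝ) ≤ M by positivity])
        rw [abs_le] at h1
        rw [if_pos hMj]
        have e1 : ∀ i : ℕ, (if M ≤ M + p' then g * PW (M + p' - M) (bk x n i) - Gs (EV (Ψ 0) c (M + p')) W (c + bk x n i) else 0) =
            g * PW p' (bk x n i) - Gs (EV (Ψ 0) c (M + p')) W (c + bk x n i) := by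
          intro i
          rw [if_pos (by omega), Nat.add_sub_cancel_left]
        rw [show (fun i => if M ≤ M + p' then g * PW (M + p' - M) (bk x n i) - Gs (EV (Ψ 0) c (M + p')) W (c + bk x n i) else 0) =
          fun i => g * PW p' (bk x n i) - Gs (EV (Ψ 0) c (M + p')) W (c + bk x n i) from funext e1]
        rw [Eo_sub_fun, Eo_mul, Nat.add_sub_cancel_left, PW_add, show M + (n + p') = n + (M + p') by ring]
        linarith
      · left
        rw [if_pos hMj, Nat.add_sub_cancel_left, PW_zero (by linarith), mul_zero]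
        have := Gs_nonneg (hfam.nonneg (M + p)) W (c + x)
        linarith)
    N0 hN1 (κ / 2) (by positivity)
    (by
      intro b hb1' hb2' j
      split_ifs with h
      · have h1 : Gs (Ψ 0) W (c + b) ≤ Gs (EV (Ψ 0) c M) W (c + b) + 12 * Real.exp (-((M : ℝ) / 5000)) :=
          base_cmp (hΨ.le_one 0) (hfam.nonneg M) hW0 hW1 hMpos hcM (by linarith) (by linarith) (EV_ge hΨ hmo hYc M)
        have h2 := hL b hb1' hb2'
        have h3 := mul_le_mul_of_nonneg_left (PW_le_one (j - M) b) hg0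
        have h4 := Gs_mono (hmono h) W (c + b)
        linarith
      · positivity)
  intro b hb j
  constructor
  · have := up b hb j
    linarith
  · intro h
    have := lo b hb j
    rw [if_pos h] at this
    linarith

end Pool.Agent.Helper3.HT
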