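import Pool.Agent.Helper3.HT.JntA

/-! Several levels: the product law in windows, by induction on the number of levels. -/

namespace Pool.Agent.Helper3.HT

open Pool.Agent.Helper3.ND Pool.Agent.Helper3.TD Filter Topology

theorem PW_anti (j : ℕ) {a b : ℝ} (hab : a ≤ b) : PW j b ≤ PW j a := by
  unfold PW
  apply Eo_mono'
  intro i _
  have : bk a j i ≤ bk b j i := by unfold bk; linarith
  split_ifs with h1 h2
  · exact le_rfl
  · exact absurd (le_trans this h1) h2
  · exact zero_le_one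
  · exact le_rfl

/-- the window averages of `Ψ n K` near the scale `c n` tend to `g`, uniformly on bounded ranges -/
def WL (Ψ : ℕ → ℕ → ℤ → ℝ) (c : ℕ → ℝ) (W g : ℝ) : Prop :=
  ∀ K : ℕ, ∀ R κ : ℝ, 0 < κ → ∀ᶠ n in atTop, ∀ b : ℝ, |b| ≤ R → |Gs (Ψ n K) W (c n + b) - g| ≤ κ

theorem WL_seq {Ψ : ℕ → ℕ → ℤ → ℝ} {c : ℕ → ℝ} {W g : ℝ} (h : WL Ψ c W g) (K : ℕ) (b : ℝ) :
    Tendsto (fun n => Gs (Ψ n K) W (c n + b)) atTop (𝓝 g) := by
  rw [Metric.tendsto_nhds]
  intro ε hε
  filter_upwards [h K |b| (ε / 2) (by positivity)] with n hn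
  rw [Real.dist_eq]
  have := hn b le_rfl
  linarith

/-- **one more level** -/
theorem stage (hBIN : ST_BIN) {Ψ : ℕ → ℕ → ℤ → ℝ} {c Y : ℕ → ℝ} {W g : ℝ} (hW0 : 0 < W) (hW1 : W ≤ 1) (hg0 : 0 ≤ g)
    (hfam : ∀ n, Fam (Ψ n) (Y n)) (hmo : ∀ n j N, Ψ n j N ≤ Ψ n (j + 1) N) (hYc : ∀ᶠ n in atTop, Y n ≤ Real.exp (c n))
    (hc : Tendsto c atTop atTop) (h : WL Ψ c W g) {c' : ℕ → ℝ} (hL : Tendsto (fun n => c' n - c n) atTop atTop)
    {J : ℕ → ℕ} {s : ℝ} (hJ : Tendsto J atTop atTop)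
    (hs : Tendsto (fun n : ℕ => ((J n : ℝ) * TD.mu - (c' n - c n)) / (Real.log 3 / 2 * Real.sqrt (J n))) atTop (𝓝 s)) :
    WL (fun n K => EV (Ψ n 0) (c n) (J n + K)) c' W (g * gs s) := by
  intro K R κ hκ
  obtain ⟨M, N0, H⟩ := walkG hW0 hW1 hg0 (show 0 < κ / 2 by positivity)
  have hR : 0 ≤ |R| := abs_nonneg R
  have hup : Tendsto (fun n => PW (J n + K + M) (c' n - c n - |R|)) atTop (𝓝 (gs s)) := by
    obtain ⟨h1, h2⟩ := shift_ok (J' := fun n => J n + K + M) (L' := fun n : ℕ => c' n - c n - |R|) (D := K + M) (E := |R|) hJ hs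
      (Eventually.of_forall (fun X => by
        push_cast
        rw [show (J X : ℝ) + K + M - J X = K + M by ring, abs_of_nonneg (by positivity)]))
      (fun X => by rw [show c' X - c X - |R| - (c' X - c X) = -|R| by ring, abs_neg, abs_abs])
    exact hBIN s _ _ h1 h2
  have hlo : Tendsto (fun n => PW (J n + K - M) (c' n - c n + |R|)) atTop (𝓝 (gs s)) := by
    obtain ⟨h1, h2⟩ := shift_ok (J' := fun n => J n + K - M) (L' := fun n : ℕ => c' n - c n + |R|) (D := K + M) (E := |R|) hJ hs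
      (by
        filter_upwards [hJ.eventually_ge_atTop M] with X hX
        rw [Nat.cast_sub (by omega)]
        push_cast
        rw [abs_le]
        have h3 : (0 : ℝ) ≤ K := Nat.cast_nonneg K
        have h4 : (0 : ℝ) ≤ M := Nat.cast_nonneg M
        constructor <;> linarith)
      (fun X => by rw [show c' X - c X + |R| - (c' X - c X) = |R| by ring, abs_abs])
    exact hBIN s _ _ h1 h2
  have hup2 := (tendsto_order.1 (hup.const_mul g)).2 (g * gs s + κ / 2) (by linarith)
  have hlo2 := (tendsto_order.1 (hlo.const_mul g)).1 (g * gs s - κ / 2) (by linarith)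
  filter_upwards [hup2, hlo2, hYc, hc.eventually_ge_atTop (2 * (M : ℝ) + 1), h M (2 * N0) (κ / 2 / 8) (by positivity),
    h 0 (2 * N0) (κ / 2 / 8) (by positivity), hL.eventually_ge_atTop (N0 + |R|), hJ.eventually_ge_atTop M] with n g1 g2 g3 g4 g5 g6 g7 g8
  intro b hb
  have hbR : |b| ≤ |R| := le_trans hb (le_abs_self R)
  rw [abs_le] at hbR
  have hN0 : (0 : ℝ) ≤ N0 := Nat.cast_nonneg N0
  have h1 := H (c n) g4 (Ψ n) (Y n) (hfam n) (hmo n) g3
    (by
      intro b' hb1 hb2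
      have := g5 b' (by rw [abs_of_nonneg (by linarith)]; exact hb2)
      rw [abs_le] at this
      linarith)
    (by
      intro b' hb1 hb2
      have := g6 b' (by rw [abs_of_nonneg (by linarith)]; exact hb2)
      rw [abs_le] at this
      linarith)
    (c' n - c n + b) (by linarith) (J n + K)
  rw [show c n + (c' n - c n + b) = c' n + b by ring] at h1
  obtain ⟨h2, h3⟩ := h1
  have h3' := h3 (by omega)
  have h4 := mul_le_mul_of_nonneg_left (PW_anti (J n + K + M) (show c' n - c n - |R| ≤ c' n - c n + b by linarith)) hg0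
  have h5 := mul_le_mul_of_nonneg_left (PW_anti (J n + K - M) (show c' n - c n + b ≤ c' n - c n + |R| by linarith)) hg0
  rw [abs_le]
  constructor <;> linarith

/-- the value of `φ` at the end of `r` stages: from the level `c i` to the level `c (i + 1)` within `J i` steps -/
noncomputable def ES (φ : ℤ → ℝ) : ℕ → (ℕ → ℝ) → (ℕ → ℕ) → ℕ → ℤ → ℝ
  | 0, _, _, _ => φ
  | r + 1, c, J, K => EV (ES φ r (fun i => c (i + 1)) (fun i => J (i + 1)) 0) (c 1) (J 0 + K)

theorem ES_nonneg {φ : ℤ → ℝ} (h : ∀ N, 0 ≤ φ N) (r : ℕ) : ∀ (c : ℕ → ℝ) (J : ℕ → ℕ) (K : ℕ) (N : ℤ), 0 ≤ ES φ r c J K N := by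
  induction r with
  | zero => intro c J K N; exact h N
  | succ r ih => intro c J K N; exact EV_nonneg (ih _ _ _) _ _ N

theorem ES_le_one {φ : ℤ → ℝ} (h : ∀ N, φ N ≤ 1) (r : ℕ) : ∀ (c : ℕ → ℝ) (J : ℕ → ℕ) (K : ℕ) (N : ℤ), ES φ r c J K N ≤ 1 := by
  induction r with
  | zero => intro c J K N; exact h N
  | succ r ih => intro c J K N; exact EV_le_one (ih _ _ _) _ _ N

theorem ES_fam {φ : ℤ → ℝ} {Y0 : ℝ} (hφ : Inv φ Y0) (r : ℕ) (c : ℕ → ℝ) (J : ℕ → ℕ) :
    Fam (ES φ r c J) (if r = 0 then Y0 else Real.exp (c 1)) := by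
  rcases r with _ | r
  · rw [if_pos rfl]
    exact ⟨fun _ => hφ.nonneg, fun _ => hφ.le_one, fun _ N hN => hφ.inv N hN⟩
  · rw [if_neg (Nat.succ_ne_zero r)]
    have hf := EV_fam (ES_nonneg hφ.nonneg r (fun i => c (i + 1)) (fun i => J (i + 1)) 0)
      (ES_le_one hφ.le_one r (fun i => c (i + 1)) (fun i => J (i + 1)) 0) (c 1)
    exact ⟨fun K => hf.nonneg _, fun K => hf.le_one _, fun K N hN => hf.inv (J 0 + K) N hN⟩

theorem ES_mono {φ : ℤ → ℝ} (h : ∀ N, 0 ≤ φ N) (r : ℕ) (c : ℕ → ℝ) (J : ℕ → ℕ) (K : ℕ) (N : ℤ) :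
    ES φ r c J K N ≤ ES φ r c J (K + 1) N := by
  rcases r with _ | r
  · exact le_rfl
  · exact EV_mono_succ (ES_nonneg h r _ _ 0) (c 1) (J 0 + K) N

/-- **the product law in windows** -/
theorem winJ (hBIN : ST_BIN) {φ : ℤ → ℝ} {Y0 : ℝ} (hφ : Inv φ Y0) {W g : ℝ} (hW0 : 0 < W) (hW1 : W ≤ 1) (hg0 : 0 ≤ g)
    (hg : Tendsto (fun b => Gs φ W b) atTop (𝓝 g)) (r : ℕ) :
    ∀ (c : ℕ → ℕ → ℝ) (J : ℕ → ℕ → ℕ) (s : ℕ → ℝ), Tendsto (c r) atTop atTop →
      (∀ i : ℕ, i < r → Tendsto (fun n => c i n - c (i + 1) n) atTop atTop) →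
      (∀ i : ℕ, i < r → Tendsto (J i) atTop atTop) →
      (∀ i : ℕ, i < r → Tendsto (fun n : ℕ => ((J i n : ℝ) * TD.mu - (c i n - c (i + 1) n)) / (Real.log 3 / 2 * Real.sqrt (J i n))) atTop (𝓝 (s i))) →
      WL (fun n K => ES φ r (fun i => c i n) (fun i => J i n) K) (c 0) W (g * ∏ i ∈ Finset.range r, gs (s i)) := by
  induction r with
  | zero =>
    intro c J s hc _ _ _ K R κ hκ
    rw [Finset.prod_range_zero, mul_one]
    have hev := (tendsto_order.1 hg)
    obtain ⟨b1, hb1⟩ := eventually_atTop.1 (hev.2 (g + κ) (by linarith))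
    obtain ⟨b2, hb2⟩ := eventually_atTop.1 (hev.1 (g - κ) (by linarith))
    filter_upwards [hc.eventually_ge_atTop (max b1 b2 + |R|)] with n hn
    intro b hb
    have hbR : |b| ≤ |R| := le_trans hb (le_abs_self R)
    rw [abs_le] at hbR
    have h1 := hb1 (c 0 n + b) (by have := le_max_left b1 b2; linarith)
    have h2 := hb2 (c 0 n + b) (by have := le_max_right b1 b2; linarith)
    show |Gs φ W (c 0 n + b) - g| ≤ κ
    rw [abs_le]
    constructor <;> linarith
  | succ r ih =>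
    intro c J s hc hcd hJ hs
    have h1 := ih (fun i => c (i + 1)) (fun i => J (i + 1)) (fun i => s (i + 1)) hc
      (fun i hi => hcd (i + 1) (by omega)) (fun i hi => hJ (i + 1) (by omega)) (fun i hi => hs (i + 1) (by omega))
    have hc1 : Tendsto (c 1) atTop atTop := by
      have : ∀ p : ℕ, p ≤ r → Tendsto (c (r + 1 - p)) atTop atTop := by
        intro p
        induction p with
        | zero => intro _; exact hc
        | succ p ihp =>
          intro hp
          have h2 := ihp (by omega)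
          have h3 := hcd (r + 1 - (p + 1)) (by omega)
          rw [show r + 1 - (p + 1) + 1 = r + 1 - p by omega] at h3
          have h4 := h3.atTop_add_atTop h2
          refine h4.congr (fun n => ?_)
          ring
      have h2 := this r le_rfl
      rwa [show r + 1 - r = 1 by omega] at h2
    have h2 := stage hBIN (Ψ := fun n K => ES φ r (fun i => c (i + 1) n) (fun i => J (i + 1) n) K)
      (Y := fun n => if r = 0 then Y0 else Real.exp (c 2 n)) hW0 hW1
      (mul_nonneg hg0 (Finset.prod_nonneg (fun i _ => gs_nonneg _)))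
      (fun n => ES_fam hφ r (fun i => c (i + 1) n) (fun i => J (i + 1) n))
      (fun n j N => ES_mono hφ.nonneg r _ _ j N)
      (by
        by_cases hr : r = 0
        · filter_upwards [hc1.eventually_ge_atTop |Y0|] with n hn
          rw [if_pos hr]
          have h1 := Real.add_one_le_exp (c 1 n)
          have h2 := le_abs_self Y0
          linarith
        · filter_upwards [(hcd 1 (by omega)).eventually_ge_atTop 0] with n hn
          rw [if_neg hr]
          exact Real.exp_le_exp.mpr (by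
            simp only [show 1 + 1 = 2 by norm_num] at hn
            linarith)) hc1 h1 (hcd 0 (by omega)) (hJ 0 (by omega)) (hs 0 (by omega))
    rw [Finset.prod_range_succ', ← mul_assoc]
    exact h2

end Pool.Agent.Helper3.HT
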