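import Pool.Agent.Helper3.HT.JntB
import Pool.Agent.Helper3.HT.LevG

/-! Several levels: residue classes, for general families of functions. -/

namespace Pool.Agent.Helper3.HT

open Pool.Agent.Helper3.ND Pool.Agent.Helper3.TD Filter Topology

/-- the windows in a class of an odd modulus, uniformly in the level and in the time -/
theorem class_F (B : ℕ) (hB : Odd B) (r : ℤ) {W : ℝ} (hW0 : 0 < W) (hW1 : W ≤ 1) {ε : ℝ} (hε : 0 < ε) :
    ∃ t : ℕ, ∃ b0 : ℝ, ∀ c : ℝ, 0 ≤ c → ∀ Ψ : ℕ → ℤ → ℝ, Fam Ψ (Real.exp c) → ∀ b : ℝ, b0 ≤ b → ∀ j : ℕ, t ≤ j →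
      |Gs (fun N => Ψ j N * ic B r N) W (c + b) - Gs (Ψ j) W (c + b) / B| ≤ ε := by
  have hBpos : 0 < B := hB.pos
  have h1 : Tendsto (fun t : ℕ => Real.exp (-((t : ℝ) ^ (1 / 10 : ℝ)))) atTop (𝓝 0) :=
    Real.tendsto_exp_neg_atTop_nhds_zero.comp ((tendsto_rpow_atTop (show (0 : ℝ) < 1 / 10 by norm_num)).comp tendsto_natCast_atTop_atTop)
  have h2 : Tendsto (fun t : ℕ => (1 / 5 : ℝ) ^ t) atTop (𝓝 0) := tendsto_pow_atTop_nhds_zero_of_lt_one (by norm_num) (by norm_num)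
  have h3 : ∀ᶠ t : ℕ in atTop, Real.exp (-((t : ℝ) ^ (1 / 10 : ℝ))) < ε / 100 := h1.eventually (gt_mem_nhds (by positivity))
  have h4 : ∀ᶠ t : ℕ in atTop, (1 / 5 : ℝ) ^ t < ε / 100 := h2.eventually (gt_mem_nhds (by positivity))
  obtain ⟨T0, hT0⟩ := (h3.and h4).exists_forall_of_atTop
  obtain ⟨t, m, ht0, ht3, hm, hmix⟩ := mix_all B hB (show 0 < ε / 100 by positivity) T0
  obtain ⟨q1, q2⟩ := hT0 t ht0
  have hexp : Tendsto (fun a : ℝ => Real.exp (a - W)) atTop atTop :=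
    Real.tendsto_exp_atTop.comp (tendsto_atTop_add_const_right atTop (-W) tendsto_id)
  obtain ⟨b0, hb0⟩ := eventually_atTop.1 (hexp.eventually_ge_atTop (16 * 10 ^ t * B / W + 4 * 2 ^ t))
  refine ⟨t, b0, ?_⟩
  intro c hc0 Ψ hfam b hb j hj
  have ha := hb0 b hb
  obtain ⟨j', rfl⟩ := Nat.exists_eq_add_of_le' hj
  have p1 : 0 ≤ 16 * (10 : ℝ) ^ t * B / W := by positivity
  have p2 : 0 ≤ 4 * (2 : ℝ) ^ t := by positivity
  have p4 : 0 < (2 : ℝ) ^ t := by positivity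
  have hec : Real.exp (c + b - W) = Real.exp c * Real.exp (b - W) := by rw [← Real.exp_add]; congr 1; ring
  have hc1 : 1 ≤ Real.exp c := Real.one_le_exp hc0
  have hmono : Real.exp (b - W) ≤ Real.exp (c + b - W) := Real.exp_le_exp.mpr (by linarith)
  have hz : 16 * (10 : ℝ) ^ t * B ≤ W * Real.exp (c + b - W) := by
    have : 16 * (10 : ℝ) ^ t * B / W ≤ Real.exp (c + b - W) := by linarith
    rw [div_le_iff₀ hW0] at this
    linarith
  have hq : 4 * (2 : ℝ) ^ t ≤ Real.exp (c + b - W) := by linarith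
  obtain ⟨X, hX⟩ : ∃ X : ℤ, X = ⌈(2 : ℝ) ^ t * Real.exp (c + b + W)⌉ := ⟨_, rfl⟩
  have hX1 : 2 ^ t * Real.exp (c + b + W) ≤ X := by rw [hX]; exact Int.le_ceil _
  have hX2 : Real.exp (c + b + W) ≤ X := by
    refine le_trans ?_ hX1
    have h5 : (1 : ℝ) ≤ 2 ^ t := one_le_pow₀ (by norm_num)
    have h6 := Real.exp_pos (c + b + W)
    nlinarith
  have hmain := class_SS2 (hfam.nonneg (j' + t)) (hfam.le_one (j' + t)) (hfam.nonneg j') (hfam.le_one j') ht3 hm hW0 hW1 B hBpos hz hq X hX1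
    (fun N hN => by
      apply hfam.iter (Real.exp_pos c).le t j' N
      refine lt_of_le_of_lt ?_ hN
      rw [hec]
      exact mul_le_mul_of_nonneg_left (by linarith) (Real.exp_pos c).le) r
  rw [Gs_eq _ hW0 hX2, Gs_eq (Ψ (j' + t)) hW0 hX2] at hmain
  refine le_trans hmain ?_
  have hm2 := hmix r
  have h7 : 4 * Real.exp (-((t : ℝ) ^ (1 / 10 : ℝ))) * (2 * W + 1) ≤ 4 * (ε / 100) * 3 := by
    apply mul_le_mul _ (by linarith) (by linarith) (by positivity)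
    linarith
  linarith

/-- the law in the classes of odd moduli -/
theorem odd_modG {Ψ : ℕ → ℕ → ℤ → ℝ} {c : ℕ → ℝ} (hfam : ∀ n, Fam (Ψ n) (Real.exp (c n))) {G : ℝ} (hG : 0 ≤ G)
    {B : ℕ} (hB : Odd B) (r : ℤ) {J Z : ℕ → ℕ} (hJ : Tendsto J atTop atTop) (hZ : Tendsto Z atTop atTop)
    (hc : Tendsto c atTop atTop) (hL : Tendsto (fun n => Real.log (Z n) - c n) atTop atTop)
    (hwin : ∀ (l : ℕ) (x : ℝ), Tendsto (fun n => Gs (Ψ n (J n)) ((1 / 2) ^ l) (Real.log (Z n : ℝ) - x)) atTop (𝓝 (G * (1 / 2) ^ l))) :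
    Tendsto (fun n : ℕ => Nc (fun N => if (B : ℤ) ∣ N - r then Ψ n (J n) N else 0) (Z n) / Z n) atTop (𝓝 (G / B)) := by
  have hBpos : (0 : ℝ) < B := by exact_mod_cast hB.pos
  have e : ∀ n : ℕ, (fun N : ℤ => if (B : ℤ) ∣ N - r then Ψ n (J n) N else 0) = fun N => Ψ n (J n) N * ic B r N := by
    intro n
    funext N
    unfold ic
    split_ifs
    · rw [mul_one]
    · rw [mul_zero]
  simp only [e]
  have hp : 0 ≤ G / B := by positivity
  refine natS (Φ := fun n N => Ψ n (J n) N * ic B r N) hZ ?_ ?_ hp ?_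
  · intro n N
    exact mul_nonneg ((hfam n).nonneg _ N) (ic_nonneg B r N)
  · intro n N
    exact mul_le_one₀ ((hfam n).le_one _ N) (ic_nonneg B r N) (ic_le_one B r N)
  · intro l x
    have h1 := (hwin l x).div_const (B : ℝ)
    have hcx : ∀ X : ℕ, Real.log (Z X : ℝ) - x = c X + (Real.log (Z X : ℝ) - c X - x) := fun X => by ring
    have h2 : Tendsto (fun n => Gs (fun N => Ψ n (J n) N * ic B r N) ((1 / 2) ^ l) (Real.log (Z n : ℝ) - x) -
        Gs (Ψ n (J n)) ((1 / 2) ^ l) (Real.log (Z n : ℝ) - x) / B) atTop (𝓝 0) := by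
      rw [Metric.tendsto_nhds]
      intro ε hε
      obtain ⟨t, b0, H⟩ := class_F B hB r (W := (1 / 2) ^ l) (by positivity) (pow_le_one₀ (by norm_num) (by norm_num))
        (show 0 < ε / 2 by positivity)
      have hb : Tendsto (fun X : ℕ => Real.log (Z X : ℝ) - c X - x) atTop atTop :=
        tendsto_atTop_add_const_right atTop (-x) hL
      filter_upwards [hb.eventually_ge_atTop b0, hJ.eventually_ge_atTop t, hc.eventually_ge_atTop 0] with n h3 h4 h5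
      rw [Real.dist_eq, sub_zero]
      have := H (c n) h5 (Ψ n) (hfam n) _ h3 (J n) h4
      rw [← hcx] at this
      linarith
    have h3 := h2.add h1
    rw [zero_add] at h3
    rw [show G / B * (1 / 2) ^ l = G * (1 / 2) ^ l / B by ring]
    refine h3.congr (fun n => ?_)
    ring

open Pool.Agent.Helper32.EQ in
/-- comparison of a class modulo `2^l q` with its image under `T^l` -/
theorem R_iterG {Ψ : ℕ → ℤ → ℝ} {c : ℝ} (hfam0 : Fam Ψ (Real.exp c)) (l q : ℕ) (hq : 0 < q) (b : ℤ) (j Z : ℕ) :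
    |R (Ψ (j + l)) (2 ^ l * q) b Z - R (Ψ j) (3 ^ od l b * q) (T^[l] b) Z| ≤ 2 * ((b.natAbs : ℝ) + Real.exp c * 2 ^ l + 1) + 1 := by
  classical
  obtain ⟨Y, hYd⟩ : ∃ Y : ℝ, Y = Real.exp c := ⟨_, rfl⟩
  have hY : 0 ≤ Y := by rw [hYd]; exact (Real.exp_pos c).le
  obtain ⟨K0, hK0⟩ : ∃ K0 : ℕ, K0 = b.natAbs + ⌈Y * 2 ^ l⌉₊ := ⟨_, rfl⟩
  have hcard : (((Finset.Icc (-(K0 : ℤ)) K0).card : ℕ) : ℝ) ≤ 2 * ((b.natAbs : ℝ) + Real.exp c * 2 ^ l + 1) + 1 := by
    have h1 : (Finset.Icc (-(K0 : ℤ)) K0).card = 2 * K0 + 1 := by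
      rw [Int.card_Icc]; omega
    rw [h1]
    have h2 : ((⌈Y * 2 ^ l⌉₊ : ℕ) : ℝ) < Y * 2 ^ l + 1 := Nat.ceil_lt_add_one (by positivity)
    rw [hK0, ← hYd]
    push_cast
    linarith
  refine le_trans ?_ hcard
  unfold R
  rw [← Finset.sum_sub_distrib]
  have h1 : ∀ t ∈ Finset.Icc (-(Z : ℤ)) Z, t ∉ Finset.Icc (-(K0 : ℤ)) K0 →
      Ψ (j + l) (b + ((2 ^ l * q : ℕ) : ℤ) * t) - Ψ j (T^[l] b + ((3 ^ od l b * q : ℕ) : ℤ) * t) = 0 := by
    intro t _ ht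
    rw [Finset.mem_Icc] at ht
    have h2 := (shift l b (q * t)).2
    have e1 : b + ((2 ^ l * q : ℕ) : ℤ) * t = b + 2 ^ l * (q * t) := by push_cast; ring
    have e2 : T^[l] b + ((3 ^ od l b * q : ℕ) : ℤ) * t = T^[l] b + 3 ^ od l b * (q * t) := by push_cast; ring
    have hfam : ∀ N : ℤ, Y * 2 ^ l < |(N : ℝ)| → Ψ j (T^[l] N) = Ψ (j + l) N := by
      intro N hN
      exact hfam0.iter (Real.exp_pos c).le l j N (by rw [← hYd]; exact hN)
    rw [e1, e2, ← h2, hfam, sub_self]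
    have h3 : (K0 : ℤ) + 1 ≤ |t| := by
      rcases le_or_gt 0 t with h4 | h4
      · rw [abs_of_nonneg h4]; omega
      · rw [abs_of_neg h4]; omega
    have h5 : |t| ≤ |(2 ^ l * (q * t) : ℤ)| := by
      rw [abs_mul, abs_mul]
      have a1 : (1 : ℤ) ≤ |(2 : ℤ) ^ l| := by
        rw [abs_of_pos (by positivity)]
        exact one_le_pow₀ (by norm_num)
      have a2 : (1 : ℤ) ≤ |(q : ℤ)| := by
        rw [abs_of_nonneg (by positivity)]
        exact_mod_cast hq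
      have a3 := abs_nonneg t
      calc |t| = 1 * (1 * |t|) := by ring
        _ ≤ |(2 : ℤ) ^ l| * (|(q : ℤ)| * |t|) := by
          apply mul_le_mul a1 _ (by positivity) (by positivity)
          exact mul_le_mul_of_nonneg_right a2 a3
    have h6 : |(2 ^ l * (q * t) : ℤ)| - |b| ≤ |b + 2 ^ l * (q * t)| := by
      have := abs_sub_abs_le_abs_sub (2 ^ l * (q * t)) (-b)
      rw [abs_neg, sub_neg_eq_add, add_comm (2 ^ l * (q * t)) b] at this
      exact this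
    have h7 : (⌈Y * 2 ^ l⌉₊ : ℤ) + 1 ≤ |b + 2 ^ l * (q * t)| := by
      have h8 : |b| = (b.natAbs : ℤ) := Int.abs_eq_natAbs b
      have h9 : (K0 : ℤ) = b.natAbs + ⌈Y * 2 ^ l⌉₊ := by rw [hK0]; push_cast; ring
      omega
    have h8 : ((⌈Y * 2 ^ l⌉₊ : ℕ) : ℝ) + 1 ≤ |((b + 2 ^ l * (q * t) : ℤ) : ℝ)| := by
      rw [← Int.cast_abs]; exact_mod_cast h7
    have h9 := Nat.le_ceil (Y * 2 ^ l)
    linarith
  have h2 : ∑ t ∈ Finset.Icc (-(Z : ℤ)) Z, (Ψ (j + l) (b + ((2 ^ l * q : ℕ) : ℤ) * t) - Ψ j (T^[l] b + ((3 ^ od l b * q : ℕ) : ℤ) * t)) =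
      ∑ t ∈ Finset.Icc (-(Z : ℤ)) Z ∩ Finset.Icc (-(K0 : ℤ)) K0, (Ψ (j + l) (b + ((2 ^ l * q : ℕ) : ℤ) * t) - Ψ j (T^[l] b + ((3 ^ od l b * q : ℕ) : ℤ) * t)) := by
    symm
    apply Finset.sum_subset Finset.inter_subset_left
    intro t ht1 ht2
    apply h1 t ht1
    intro h3
    exact ht2 (Finset.mem_inter.mpr ⟨ht1, h3⟩)
  rw [h2]
  calc |∑ t ∈ Finset.Icc (-(Z : ℤ)) Z ∩ Finset.Icc (-(K0 : ℤ)) K0, (Ψ (j + l) (b + ((2 ^ l * q : ℕ) : ℤ) * t) - Ψ j (T^[l] b + ((3 ^ od l b * q : ℕ) : ℤ) * t))|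
      ≤ ∑ t ∈ Finset.Icc (-(Z : ℤ)) Z ∩ Finset.Icc (-(K0 : ℤ)) K0, |Ψ (j + l) (b + ((2 ^ l * q : ℕ) : ℤ) * t) - Ψ j (T^[l] b + ((3 ^ od l b * q : ℕ) : ℤ) * t)| :=
        Finset.abs_sum_le_sum_abs _ _
    _ ≤ ∑ t ∈ Finset.Icc (-(Z : ℤ)) Z ∩ Finset.Icc (-(K0 : ℤ)) K0, (1 : ℝ) := by
        apply Finset.sum_le_sum
        intro t _
        rw [abs_le]
        have a1 := hfam0.nonneg (j + l) (b + ((2 ^ l * q : ℕ) : ℤ) * t)
        have a2 := hfam0.le_one (j + l) (b + ((2 ^ l * q : ℕ) : ℤ) * t)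
        have a3 := hfam0.nonneg j (T^[l] b + ((3 ^ od l b * q : ℕ) : ℤ) * t)
        have a4 := hfam0.le_one j (T^[l] b + ((3 ^ od l b * q : ℕ) : ℤ) * t)
        constructor <;> linarith
    _ = (((Finset.Icc (-(Z : ℤ)) Z ∩ Finset.Icc (-(K0 : ℤ)) K0).card : ℕ) : ℝ) := by simp
    _ ≤ (((Finset.Icc (-(K0 : ℤ)) K0).card : ℕ) : ℝ) := by
        exact_mod_cast Finset.card_le_card Finset.inter_subset_right

open Pool.Agent.Helper32.EQ in
/-- **the law in all classes, for the steps of `T`** -/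
theorem clsG {Ψ : ℕ → ℕ → ℤ → ℝ} {c : ℕ → ℝ} (hfam : ∀ n, Fam (Ψ n) (Real.exp (c n))) {G : ℝ} (hG : 0 ≤ G)
    {J Z : ℕ → ℕ} (hJ : Tendsto J atTop atTop) (hZ : Tendsto Z atTop atTop) (hc : Tendsto c atTop atTop)
    (hL : Tendsto (fun n => Real.log (Z n) - c n) atTop atTop)
    (hwin : ∀ (J' Z' : ℕ → ℕ) (D E : ℝ), (∀ᶠ n in atTop, |(J' n : ℝ) - J n| ≤ D) → (∀ᶠ n in atTop, |Real.log (Z' n) - Real.log (Z n)| ≤ E) →
      ∀ (l : ℕ) (x : ℝ), Tendsto (fun n => Gs (Ψ n (J' n)) ((1 / 2) ^ l) (Real.log (Z' n : ℝ) - x)) atTop (𝓝 (G * (1 / 2) ^ l)))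
    {M : ℕ} (hM : 0 < M) (b : ℤ) :
    Tendsto (fun n : ℕ => Nc (fun N => if (M : ℤ) ∣ N - b then Ψ n (J n) N else 0) (Z n) / Z n) atTop (𝓝 (G / M)) := by
  obtain ⟨l, q, hq, rfl⟩ : ∃ l q : ℕ, Odd q ∧ M = 2 ^ l * q := by
    obtain ⟨l, q, h1, h2⟩ := Nat.exists_eq_two_pow_mul_odd hM.ne'
    exact ⟨l, q, h1, h2⟩
  have hq0 : 0 < q := hq.pos
  obtain ⟨B, hBd⟩ : ∃ B : ℕ, B = 3 ^ od l b * q := ⟨_, rfl⟩
  have hB : Odd B := by rw [hBd]; exact (Odd.pow (by decide)).mul hq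
  have hBr : (0 : ℝ) < B := by exact_mod_cast hB.pos
  obtain ⟨P, hPd⟩ : ∃ P : ℕ, P = 2 ^ l * q := ⟨_, rfl⟩
  have hP : 0 < P := by rw [hPd]; positivity
  have hPr : (0 : ℝ) < P := by exact_mod_cast hP
  rw [← hPd]
  have hZr : Tendsto (fun n => (Z n : ℝ)) atTop atTop := tendsto_natCast_atTop_atTop.comp hZ
  have hZP : Tendsto (fun n => Z n / P) atTop atTop := (Nat.tendsto_div_const_atTop hP.ne').comp hZ
  have hZ' : Tendsto (fun n => B * (Z n / P)) atTop atTop := hZP.const_mul_atTop' hB.pos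
  have hdl : ∀ᶠ n in atTop, |Real.log ((B * (Z n / P) : ℕ) : ℝ) - Real.log (Z n)| ≤ Real.log B + Real.log (2 * P) := by
    filter_upwards [hZ.eventually_ge_atTop P] with n hn
    have h1 : 1 ≤ Z n / P := Nat.div_pos hn hP
    have h1r : (1 : ℝ) ≤ ((Z n / P : ℕ) : ℝ) := by exact_mod_cast h1
    have h2 : P * (Z n / P) ≤ Z n := Nat.mul_div_le _ _
    have h3 : Z n < P * (Z n / P + 1) := Nat.lt_mul_div_succ _ hP
    have h2r : (P : ℝ) * ((Z n / P : ℕ) : ℝ) ≤ Z n := by exact_mod_cast h2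
    have h3r : (Z n : ℝ) < P * (((Z n / P : ℕ) : ℝ) + 1) := by exact_mod_cast h3
    have hP1 : (1 : ℝ) ≤ P := by exact_mod_cast hP
    have hB1 : (1 : ℝ) ≤ B := by exact_mod_cast hB.pos
    have h4 : ((Z n / P : ℕ) : ℝ) ≤ Z n := by nlinarith
    have h5 : (Z n : ℝ) ≤ 2 * P * ((Z n / P : ℕ) : ℝ) := by nlinarith
    have h6 := Real.log_le_log (by linarith) h4
    have h7 := Real.log_le_log (by linarith) h5
    have h8 := Real.log_nonneg hB1
    have h9 : 0 ≤ Real.log (2 * P) := Real.log_nonneg (by linarith)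
    rw [Real.log_mul (by positivity) (by linarith)] at h7
    push_cast
    rw [Real.log_mul (by positivity) (by linarith), abs_le]
    constructor <;> linarith
  have e1 : Tendsto (fun n => J n - l) atTop atTop := (tendsto_sub_atTop_nat l).comp hJ
  have hL' : Tendsto (fun n : ℕ => Real.log ((B * (Z n / P) : ℕ) : ℝ) - c n) atTop atTop := by
    apply tendsto_atTop_mono' atTop (f₁ := fun n => Real.log (Z n) - c n - (Real.log B + Real.log (2 * P)))
    · filter_upwards [hdl] with n hn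
      rw [abs_le] at hn
      linarith
    · exact tendsto_atTop_add_const_right atTop (-(Real.log B + Real.log (2 * P))) hL
  have h1 := odd_modG (J := fun n => J n - l) hfam hG hB (T^[l] b) e1 hZ' hc hL' (hwin (fun n => J n - l) (fun n => B * (Z n / P)) l
    (Real.log B + Real.log (2 * P))
    (by
      filter_upwards [hJ.eventually_ge_atTop l] with n hn
      rw [Nat.cast_sub hn, show (J n : ℝ) - l - J n = -(l : ℝ) by ring, abs_neg, abs_of_nonneg (by positivity)]) hdl)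
  -- from the class modulo B to the parametrised sum
  obtain ⟨K1, hK1⟩ := Nc_RU hB.pos (T^[l] b)
  obtain ⟨K2, hK2⟩ := Nc_RU hP b
  -- the ratio
  have hratio : Tendsto (fun n => ((B * (Z n / P) : ℕ) : ℝ) / Z n) atTop (𝓝 (B / P)) := by
    have h2 := ((div_tends hP).comp hZ).const_mul (B : ℝ)
    rw [mul_one_div] at h2
    refine h2.congr (fun n => ?_)
    simp only [Function.comp]
    push_cast
    ring
  have h2 := h1.mul hratio
  have e3 : G / B * (B / P) = G / P := by field_simp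
  rw [e3] at h2
  have h3 : Tendsto (fun n => Nc (fun N => if (B : ℤ) ∣ N - T^[l] b then Ψ n (J n - l) N else 0) (B * (Z n / P)) / Z n) atTop (𝓝 (G / P)) := by
    refine h2.congr' ?_
    filter_upwards [hZ.eventually_ge_atTop P] with n hn
    have h4 : 0 < Z n / P := Nat.div_pos hn hP
    have h5 : ((B * (Z n / P) : ℕ) : ℝ) ≠ 0 := by
      have : 0 < B * (Z n / P) := Nat.mul_pos hB.pos h4
      exact_mod_cast this.ne'
    have h6 : (Z n : ℝ) ≠ 0 := by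
      have : 0 < Z n := by omega
      exact_mod_cast this.ne'
    field_simp
  -- the error is small
  have hexp0 : Tendsto (fun n => Real.exp (c n) / Z n) atTop (𝓝 0) := by
    have h4 := Real.tendsto_exp_neg_atTop_nhds_zero.comp hL
    refine h4.congr' ?_
    filter_upwards [hZr.eventually_gt_atTop 0] with n hn
    simp only [Function.comp]
    rw [show -(Real.log (Z n : ℝ) - c n) = c n - Real.log (Z n : ℝ) by ring, Real.exp_sub, Real.exp_log hn]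
  have hKsm : Tendsto (fun n => (K2 + (2 * ((b.natAbs : ℝ) + Real.exp (c n) * 2 ^ l + 1) + 1) + K1) / Z n) atTop (𝓝 0) := by
    have h4 := (hexp0.const_mul (2 * 2 ^ l : ℝ)).add (Tendsto.div_atTop (tendsto_const_nhds (x := K2 + (2 * ((b.natAbs : ℝ) + 1) + 1) + K1)) hZr)
    rw [mul_zero, add_zero] at h4
    refine h4.congr (fun n => ?_)
    ring
  apply tends_smallS hZ _ hKsm h3
  filter_upwards [hJ.eventually_ge_atTop l] with n hn
  have hfam0 := hfam n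
  have hK3 := R_iterG hfam0 l q hq0 b (J n - l) (Z n / P)
  rw [← hBd, ← hPd] at hK3
  have a1 := hK2 (Ψ n (J n)) (hfam0.nonneg _) (hfam0.le_one _) (Z n)
  rw [Nat.sub_add_cancel hn] at hK3
  have a3 := hK1 (Ψ n (J n - l)) (hfam0.nonneg _) (hfam0.le_one _) (B * (Z n / P))
  rw [Nat.mul_div_cancel_left _ hB.pos] at a3
  rw [abs_le] at a1 hK3 a3 ⊢
  constructor <;> linarith

end Pool.Agent.Helper3.HT
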