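import Pool.Agent.Helper3.HT.LevE

/-! Levels: the final statement. -/

namespace Pool.Agent.Helper3.HT

open Pool.Agent.Helper3.ND Pool.Agent.Helper3.TD Pool.Agent.Helper32.HT Pool.Agent.Helper32.EQ Filter Topology

theorem AA_eq (s X : ℝ) : AA s X = 2 / Real.log (4 / 3) * Real.log X +
    s * Real.log 3 * Real.sqrt 2 / (Real.log (4 / 3) * Real.sqrt (Real.log (4 / 3))) * Real.sqrt (Real.log X) := by
  unfold AA sg DD
  ring

/-- the thresholds are large -/
theorem AA_evR (s : ℝ) : ∀ᶠ X : ℝ in atTop, 0 ≤ AA s X - Real.sqrt (Real.sqrt (Real.log X)) := by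
  have hD := DD_pos
  have hr : Tendsto (fun X : ℝ => Real.sqrt (Real.log X)) atTop atTop := Real.tendsto_sqrt_atTop.comp Real.tendsto_log_atTop
  filter_upwards [hr.eventually_ge_atTop ((|sg s| + 1) * DD), hr.eventually_ge_atTop 1] with X h1 h2
  have hl : 0 ≤ Real.log X := by
    by_contra hc
    rw [Real.sqrt_eq_zero_of_nonpos (not_le.mp hc).le] at h2
    linarith
  have e1 : Real.sqrt (Real.log X) * Real.sqrt (Real.log X) = Real.log X := Real.mul_self_sqrt hl
  have e2 : Real.sqrt (Real.sqrt (Real.log X)) ≤ Real.sqrt (Real.log X) := by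
    rw [Real.sqrt_le_left (by linarith)]
    nlinarith
  have e3 : (|sg s| + 1) * Real.sqrt (Real.log X) ≤ 2 * Real.log X / DD := by
    rw [le_div_iff₀ hD]
    have := mul_le_mul_of_nonneg_right h1 (Real.sqrt_nonneg (Real.log X))
    nlinarith
  have e4 := neg_abs_le (sg s)
  unfold AA
  nlinarith

/-- **the normal law for the time to come down to any level** -/
theorem lev (hBIN : ST_BIN) {S : Set ℤ} {Y : ℕ} (hS : SI Y S) : ∃ d : ℝ, Tendsto (fun x : ℝ => ((cS S x : ℕ) : ℝ) / x) atTop (𝓝 d) ∧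
  ∀ f : ℝ → ℝ, Tendsto f atTop atTop → Tendsto (fun x => x / f x) atTop atTop → ∀ s : ℝ,
    Tendsto (fun x : ℝ => ((cP (fun N => N ∈ S ∧ ∃ k : ℕ, |((syr^[k] N : ℤ) : ℝ)| ≤ f x ∧ Cnd s (x / f x) k) x : ℕ) : ℝ) / x)
      atTop (𝓝 (d * gs s)) := by
  obtain ⟨d, hd, H⟩ := levO hBIN hS
  refine ⟨d, hd, fun f hf hxf s => ?_⟩
  apply tendsto_of_seq_tendsto
  intro u hu
  obtain ⟨c, hc⟩ : ∃ c : ℕ → ℝ, c = fun n => Real.log (f (u n)) := ⟨_, rfl⟩
  obtain ⟨X, hX⟩ : ∃ X : ℕ → ℝ, X = fun n => u n / f (u n) := ⟨_, rfl⟩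
  obtain ⟨Z, hZ⟩ : ∃ Z : ℕ → ℕ, Z = fun n => ⌊u n⌋₊ := ⟨_, rfl⟩
  have hXt : Tendsto X atTop atTop := by rw [hX]; exact hxf.comp hu
  have hfu : Tendsto (fun n => f (u n)) atTop atTop := hf.comp hu
  have hct : Tendsto c atTop atTop := by rw [hc]; exact Real.tendsto_log_atTop.comp hfu
  have hZt : Tendsto Z atTop atTop := by rw [hZ]; exact (tendsto_nat_floor_atTop (α := ℝ)).comp hu
  have hLt : Tendsto (fun n => Real.log (X n)) atTop atTop := Real.tendsto_log_atTop.comp hXt
  have hr : Tendsto (fun n => Real.sqrt (Real.log (X n))) atTop atTop := Real.tendsto_sqrt_atTop.comp hLt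
  have hdiff : ∀ᶠ n in atTop, |(Real.log (Z n : ℝ) - c n) - Real.log (X n)| ≤ 1 := by
    filter_upwards [hu.eventually_ge_atTop 2, hfu.eventually_gt_atTop 0] with n h1 h2
    have hZ1 : 1 ≤ Z n := by rw [hZ]; exact Nat.le_floor (by push_cast; linarith)
    have hZ1r : (1 : ℝ) ≤ Z n := by exact_mod_cast hZ1
    have h3 : (Z n : ℝ) ≤ u n := by rw [hZ]; exact Nat.floor_le (by linarith)
    have h4 : u n ≤ 2 * (Z n : ℝ) := by
      have := Nat.lt_floor_add_one (u n)
      have e : (Z n : ℝ) = ((⌊u n⌋₊ : ℕ) : ℝ) := by rw [hZ]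
      rw [← e] at this
      linarith
    have h5 := Real.log_le_log (by linarith) h3
    have h6 := Real.log_le_log (by linarith) h4
    rw [Real.log_mul (by norm_num) (by linarith)] at h6
    have h7 : Real.log (X n) = Real.log (u n) - c n := by
      rw [hX, hc]
      exact Real.log_div (by linarith) h2.ne'
    rw [h7]
    have := Real.log_two_lt_d9
    rw [abs_le]
    constructor <;> linarith
  have hLZ : Tendsto (fun n => Real.log (Z n : ℝ) - c n) atTop atTop := by
    apply tendsto_atTop_mono' atTop (f₁ := fun n => Real.log (X n) - 1)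
    · filter_upwards [hdiff] with n hn
      rw [abs_le] at hn
      linarith
    · exact tendsto_atTop_add_const_right atTop (-1) hLt
  -- the two limits
  have hlim : ∀ (J : ℕ → ℕ), (∀ᶠ n in atTop, |(J n : ℝ) - AA s (X n)| ≤ 2 + Real.sqrt (Real.sqrt (Real.log (X n)))) →
      Tendsto (fun n : ℕ => ((cP (EN S (c n) (J n)) (Z n : ℝ) : ℕ) : ℝ) / Z n) atTop (𝓝 (d * gs s)) := by
    intro J hJ
    have h0 : Tendsto (fun n => (2 : ℝ) / Real.sqrt (Real.log (X n)) + (Real.sqrt (Real.sqrt (Real.log (X n))))⁻¹) atTop (𝓝 (0 + 0)) :=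
      (Tendsto.div_atTop tendsto_const_nhds hr).add (tendsto_inv_atTop_zero.comp (Real.tendsto_sqrt_atTop.comp hr))
    rw [add_zero] at h0
    obtain ⟨h1, h2⟩ := Pool.Agent.Helper3.HT.norm_lim (L := fun n => Real.log (X n)) (J := J) (s := s) hLt rfl (by
      apply squeeze_zero_norm' _ h0
      filter_upwards [hJ, hr.eventually_gt_atTop 0] with n h3 h4
      rw [← AA_eq, Real.norm_eq_abs, abs_div, abs_of_pos h4]
      have h5 : 0 < Real.sqrt (Real.sqrt (Real.log (X n))) := Real.sqrt_pos.mpr h4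
      have e2 : Real.sqrt (Real.log (X n)) = Real.sqrt (Real.sqrt (Real.log (X n))) * Real.sqrt (Real.sqrt (Real.log (X n))) :=
        (Real.mul_self_sqrt h4.le).symm
      have e3 : (2 : ℝ) / Real.sqrt (Real.log (X n)) + (Real.sqrt (Real.sqrt (Real.log (X n))))⁻¹ =
          (2 + Real.sqrt (Real.sqrt (Real.log (X n)))) / Real.sqrt (Real.log (X n)) := by
        rw [add_div]
        congr 1
        rw [eq_div_iff h4.ne']
        nth_rewrite 2 [e2]
        field_simp
      rw [e3]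
      exact div_le_div_of_nonneg_right h3 h4.le)
    obtain ⟨_, h4⟩ := shift_ev (J' := J) (L' := fun n => Real.log (Z n : ℝ) - c n) (D := 0) (E := 1) h1 h2
      (Eventually.of_forall (fun n => by rw [sub_self, abs_zero])) hdiff
    exact H s J Z c h1 hZt hct hLZ h4
  have hup := hlim (fun n => ⌊AA s (X n) + 1⌋₊) (by
    filter_upwards [hXt.eventually (AA_evR s)] with n h1
    have h2 := Real.sqrt_nonneg (Real.sqrt (Real.log (X n)))
    have h3 := Nat.floor_le (show 0 ≤ AA s (X n) + 1 by linarith)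
    have h4 := Nat.lt_floor_add_one (AA s (X n) + 1)
    rw [abs_le]
    constructor <;> linarith)
  have hlo := hlim (fun n => ⌊AA s (X n) - Real.sqrt (Real.sqrt (Real.log (X n)))⌋₊) (by
    filter_upwards [hXt.eventually (AA_evR s)] with n h1
    have h2 := Real.sqrt_nonneg (Real.sqrt (Real.log (X n)))
    have h3 := Nat.floor_le h1
    have h4 := Nat.lt_floor_add_one (AA s (X n) - Real.sqrt (Real.sqrt (Real.log (X n))))
    rw [abs_le]
    constructor <;> linarith)
  -- the ratio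
  have hrat : Tendsto (fun n => (Z n : ℝ) / u n) atTop (𝓝 1) := by
    rw [hZ]
    exact (tendsto_nat_floor_div_atTop (R := ℝ)).comp hu
  have hup2 := hup.mul hrat
  have hlo2 := hlo.mul hrat
  rw [mul_one] at hup2 hlo2
  have h3 : Tendsto (fun n => (Real.log (X n))⁻¹ + (u n)⁻¹) atTop (𝓝 (0 + 0)) :=
    (tendsto_inv_atTop_zero.comp hLt).add (tendsto_inv_atTop_zero.comp hu)
  have h4 := hlo2.sub h3
  rw [add_zero, sub_zero] at h4
  refine tendsto_of_tendsto_of_tendsto_of_le_of_le' h4 hup2 ?_ ?_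
  · filter_upwards [hXt.eventually (AA_evR s), hXt.eventually (ev_XR s), hu.eventually_ge_atTop 2, hfu.eventually_ge_atTop 1] with n g1 g2 g3 g4
    obtain ⟨e1, e2, e3⟩ := g2
    have hfp : 0 < f (u n) := by linarith
    have hec : Real.exp (c n) = f (u n) := by rw [hc]; exact Real.exp_log hfp
    have hXn : X n = u n / Real.exp (c n) := by rw [hec, hX]
    have hc0 : 0 ≤ c n := by rw [hc]; exact Real.log_nonneg g4
    have hup0 : 0 < u n := by linarith
    have hZ1 : 1 ≤ Z n := by rw [hZ]; exact Nat.le_floor (by push_cast; linarith)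
    have hZ0 : (0 : ℝ) < Z n := by exact_mod_cast hZ1
    have hZu : (Z n : ℝ) ≤ u n := by rw [hZ]; exact Nat.floor_le (by linarith)
    have h5 : cP (EN S (c n) ⌊AA s (X n) - Real.sqrt (Real.sqrt (Real.log (X n)))⌋₊) (Z n : ℝ) ≤
        cP (fun N => N ∈ S ∧ ∃ k : ℕ, |((syr^[k] N : ℤ) : ℝ)| ≤ f (u n) ∧ Cnd s (u n / f (u n)) k) (u n) +
          cP (fun _ => True) (u n / Real.log (X n)) := by
      apply cP_union
      rintro N b1 b2 b3 ⟨b4, b5⟩
      by_cases hc' : u n ≤ (-(N : ℝ)) * Real.log (X n)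
      · left
        refine ⟨by linarith, b4, ?_⟩
        rw [← hec]
        rw [hXn] at e1 e2 e3 hc' b5 g1
        exact lev_down hup0 hc0 e1 e2 e3 b2 b1 hc' (Nat.floor_le g1) b5
      · right
        refine ⟨?_, trivial⟩
        have h6 : (-(N : ℝ)) ≤ u n / Real.log (X n) := by
          rw [le_div_iff₀ e1]
          exact (not_le.mp hc').le
        linarith
    have h6 : (cP (fun _ => True) (u n / Real.log (X n)) : ℝ) ≤ u n / Real.log (X n) + 1 := cP_small _ (div_pos hup0 e1).le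
    have h7 : ((cP (EN S (c n) ⌊AA s (X n) - Real.sqrt (Real.sqrt (Real.log (X n)))⌋₊) (Z n : ℝ) : ℕ) : ℝ) ≤
        ((cP (fun N => N ∈ S ∧ ∃ k : ℕ, |((syr^[k] N : ℤ) : ℝ)| ≤ f (u n) ∧ Cnd s (u n / f (u n)) k) (u n) : ℕ) : ℝ) +
          (cP (fun _ => True) (u n / Real.log (X n)) : ℝ) := by
      exact_mod_cast h5
    simp only [Function.comp]
    rw [div_mul_div_cancel₀ hZ0.ne']
    have h8 : (Real.log (X n))⁻¹ + (u n)⁻¹ = (u n / Real.log (X n) + 1) / u n := by
      field_simp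
    rw [h8, ← sub_div]
    apply div_le_div_of_nonneg_right _ hup0.le
    linarith
  · filter_upwards [hu.eventually_ge_atTop 2, hfu.eventually_ge_atTop 1] with n g3 g4
    have hfp : 0 < f (u n) := by linarith
    have hec : Real.exp (c n) = f (u n) := by rw [hc]; exact Real.exp_log hfp
    have hXn : X n = u n / Real.exp (c n) := by rw [hec, hX]
    have hup0 : 0 < u n := by linarith
    have hZ1 : 1 ≤ Z n := by rw [hZ]; exact Nat.le_floor (by push_cast; linarith)
    have hZ0 : (0 : ℝ) < Z n := by exact_mod_cast hZ1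
    simp only [Function.comp]
    rw [div_mul_div_cancel₀ hZ0.ne']
    apply div_le_div_of_nonneg_right _ hup0.le
    have h5 : cP (fun N => N ∈ S ∧ ∃ k : ℕ, |((syr^[k] N : ℤ) : ℝ)| ≤ f (u n) ∧ Cnd s (u n / f (u n)) k) (u n) ≤
        cP (EN S (c n) ⌊AA s (X n) + 1⌋₊) (Z n : ℝ) := by
      apply cP_mono
      rintro N b1 b2 b3 ⟨b4, k, b5, b6⟩
      rw [← hec] at b5 b6
      refine ⟨?_, b4, ?_⟩
      · have h5 : (((-N).toNat : ℕ) : ℝ) ≤ u n := by
          have : (((-N).toNat : ℕ) : ℤ) = -N := Int.toNat_of_nonneg (by omega)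
          have h6 : (((-N).toNat : ℕ) : ℝ) = -(N : ℝ) := by exact_mod_cast congrArg (Int.cast : ℤ → ℝ) this
          rw [h6]; linarith
        have h6 := Nat.le_floor h5
        have hZn : Z n = ⌊u n⌋₊ := by rw [hZ]
        have h7 : -(Z n : ℤ) ≤ N := by omega
        exact_mod_cast h7
      · rw [hXn]
        exact lev_up2 hup0 b2 b1 b3 b5 b6
    exact_mod_cast h5

end Pool.Agent.Helper3.HT
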