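import Pool.Agent.Helper3.HT.JntC
import Pool.Agent.Helper3.HT.LevF

/-! Several levels: from the stages of `T` to the Syracuse steps. -/

namespace Pool.Agent.Helper3.HT

open Pool.Agent.Helper3.ND Pool.Agent.Helper3.TD Pool.Agent.Helper32.HT Filter Topology

/-- the times at which the orbit under `T` is in `[-exp c, exp c]` -/
def tS (c : ℝ) (N : ℤ) : Set ℕ := {t : ℕ | |((T^[t] N : ℤ) : ℝ)| ≤ Real.exp c}

/-- the times at which the orbit under the Syracuse map is in `[-exp c, exp c]` -/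
def kS (c : ℝ) (N : ℤ) : Set ℕ := {t : ℕ | |((syr^[t] N : ℤ) : ℝ)| ≤ Real.exp c}

theorem EV_first {ψ : ℤ → ℝ} {c : ℝ} (t : ℕ) : ∀ (j : ℕ) (N : ℤ), IsLeast (tS c N) t → t ≤ j → EV ψ c j N = ψ (T^[t] N) := by
  induction t with
  | zero =>
    intro j N h _
    have h1 : |(N : ℝ)| ≤ Real.exp c := by simpa [tS] using h.1
    rw [EV_low h1]; rfl
  | succ t ih =>
    intro j N h hj
    have h1 : Real.exp c < |(N : ℝ)| := by
      by_contra hc
      have := h.2 (show 0 ∈ tS c N by simpa [tS] using hc)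
      omega
    obtain ⟨j, rfl⟩ : ∃ j', j = j' + 1 := ⟨j - 1, by omega⟩
    rw [EV_step h1, Function.iterate_succ_apply]
    apply ih j (T N) _ (by omega)
    constructor
    · have := h.1
      simp only [tS, Set.mem_setOf_eq, Function.iterate_succ_apply] at this ⊢
      exact this
    · intro u hu
      have h2 : u + 1 ∈ tS c N := by
        simp only [tS, Set.mem_setOf_eq, Function.iterate_succ_apply] at hu ⊢
        exact hu
      have := h.2 h2
      omega

theorem tS_shift {c1 c2 : ℝ} (h21 : c2 ≤ c1) {N : ℤ} {t1 u : ℕ} (h : IsLeast (tS c1 N) t1) :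
    IsLeast (tS c2 N) (t1 + u) ↔ IsLeast (tS c2 (T^[t1] N)) u := by
  have key : ∀ v : ℕ, t1 + v ∈ tS c2 N ↔ v ∈ tS c2 (T^[t1] N) := by
    intro v
    simp only [tS, Set.mem_setOf_eq]
    rw [add_comm t1 v, Function.iterate_add_apply]
  have hsub : ∀ t : ℕ, t ∈ tS c2 N → t1 ≤ t := by
    intro t ht
    apply h.2
    simp only [tS, Set.mem_setOf_eq] at ht ⊢
    exact le_trans ht (Real.exp_le_exp.mpr h21)
  constructor
  · intro h2
    refine ⟨(key u).mp h2.1, fun v hv => ?_⟩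
    have := h2.2 ((key v).mpr hv)
    omega
  · intro h2
    refine ⟨(key u).mpr h2.1, fun t ht => ?_⟩
    have h3 := hsub t ht
    obtain ⟨v, rfl⟩ := Nat.exists_eq_add_of_le h3
    have := h2.2 ((key v).mp ht)
    omega

theorem phi_iter {φ : ℤ → ℝ} {Y0 : ℝ} (hφ : Inv φ Y0) {c : ℝ} (hc : Y0 ≤ Real.exp c) (t : ℕ) :
    ∀ N : ℤ, (∀ u : ℕ, u < t → u ∉ tS c N) → φ (T^[t] N) = φ N := by
  induction t with
  | zero => intro N _; rfl
  | succ t ih =>
    intro N h
    rw [Function.iterate_succ_apply, ih (T N)]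
    · apply hφ.inv
      have := h 0 (by omega)
      simp only [tS, Set.mem_setOf_eq, Function.iterate_zero, id_eq, not_le] at this
      exact lt_of_le_of_lt hc this
    · intro u hu
      have := h (u + 1) (by omega)
      simp only [tS, Set.mem_setOf_eq, Function.iterate_succ_apply] at this ⊢
      exact this

/-- the stages as first passage times -/
def TEv (r : ℕ) (c : ℕ → ℝ) (J : ℕ → ℕ) (N : ℤ) : Prop :=
  ∃ τ : ℕ → ℕ, τ 0 = 0 ∧ ∀ i : ℕ, i < r → IsLeast (tS (c (i + 1)) N) (τ (i + 1)) ∧ τ (i + 1) ≤ τ i + J i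

open Classical in
theorem ES_eq {φ : ℤ → ℝ} {Y0 : ℝ} (hφ : Inv φ Y0) (r : ℕ) : ∀ (c : ℕ → ℝ) (J : ℕ → ℕ), (0 < r → Y0 ≤ Real.exp (c r)) →
    (∀ i : ℕ, 1 ≤ i → i < r → c (i + 1) ≤ c i) → ∀ N : ℤ, ES φ r c J 0 N = if TEv r c J N then φ N else 0 := by
  induction r with
  | zero =>
    intro c J _ _ N
    rw [if_pos]
    · rfl
    · exact ⟨fun _ => 0, rfl, fun i hi => absurd hi (by omega)⟩
  | succ r ih =>
    intro c J hY hc N
    have hc1 : ∀ i : ℕ, i ≤ r → c (i + 1) ≤ c 1 := by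
      intro i
      induction i with
      | zero => intro _; exact le_rfl
      | succ i ihi =>
        intro hi
        exact le_trans (hc (i + 1) (by omega) (by omega)) (ihi (by omega))
    have hY1 : Y0 ≤ Real.exp (c 1) := le_trans (hY (by omega)) (Real.exp_le_exp.mpr (hc1 r le_rfl))
    have e0 : ES φ (r + 1) c J 0 N = EV (ES φ r (fun i => c (i + 1)) (fun i => J (i + 1)) 0) (c 1) (J 0) N := by
      rw [ES, Nat.add_zero]
    rw [e0]
    by_cases hex : ∃ t, IsLeast (tS (c 1) N) t ∧ t ≤ J 0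
    · obtain ⟨t1, ht1, ht2⟩ := hex
      rw [EV_first t1 (J 0) N ht1 ht2, ih (fun i => c (i + 1)) (fun i => J (i + 1)) (fun _ => hY (by omega))
        (fun i hi1 hi2 => hc (i + 1) (by omega) (by omega)) (T^[t1] N)]
      have hφ1 : φ (T^[t1] N) = φ N := phi_iter hφ hY1 t1 N (fun u hu hu2 => by have := ht1.2 hu2; omega)
      rw [hφ1]
      apply if_congr _ rfl rfl
      constructor
      · rintro ⟨τ', h0, h1⟩
        refine ⟨fun i => Nat.casesOn i 0 (fun i => t1 + τ' i), rfl, ?_⟩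
        intro i hi
        rcases i with _ | i
        · refine ⟨?_, ?_⟩
          · show IsLeast (tS (c 1) N) (t1 + τ' 0)
            rw [h0]; exact ht1
          · show t1 + τ' 0 ≤ 0 + J 0
            rw [h0]; omega
        · obtain ⟨h2, h3⟩ := h1 i (by omega)
          refine ⟨?_, ?_⟩
          · show IsLeast (tS (c (i + 1 + 1)) N) (t1 + τ' (i + 1))
            exact (tS_shift (hc1 (i + 1) (by omega)) ht1).mpr h2
          · show t1 + τ' (i + 1) ≤ t1 + τ' i + J (i + 1)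
            have h4 : τ' (i + 1) ≤ τ' i + J (i + 1) := h3
            omega
      · rintro ⟨τ, h0, h1⟩
        have ht : τ 1 = t1 := (h1 0 (by omega)).1.unique ht1
        have hge : ∀ i : ℕ, i ≤ r → t1 ≤ τ (i + 1) := by
          intro i hi
          have h2 := (h1 i (by omega)).1.1
          apply ht1.2
          simp only [tS, Set.mem_setOf_eq] at h2 ⊢
          exact le_trans h2 (Real.exp_le_exp.mpr (hc1 i hi))
        refine ⟨fun i => τ (i + 1) - t1, by simp only [Nat.zero_add]; omega, ?_⟩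
        intro i hi
        obtain ⟨h2, h3⟩ := h1 (i + 1) (by omega)
        have g1 := hge i (by omega)
        have g2 := hge (i + 1) (by omega)
        refine ⟨?_, ?_⟩
        · show IsLeast (tS (c (i + 1 + 1)) (T^[t1] N)) (τ (i + 1 + 1) - t1)
          apply (tS_shift (hc1 (i + 1) (by omega)) ht1).mp
          rw [Nat.add_sub_cancel' g2]
          exact h2
        · show τ (i + 1 + 1) - t1 ≤ τ (i + 1) - t1 + J (i + 1)
          have h4 : τ (i + 1 + 1) ≤ τ (i + 1) + J (i + 1) := h3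
          omega
    · rw [EV_none, if_neg]
      · rintro ⟨τ, h0, h1⟩
        obtain ⟨h2, h3⟩ := h1 0 (by omega)
        have h4 : τ 1 ≤ τ 0 + J 0 := h3
        exact hex ⟨τ 1, h2, by omega⟩
      · intro i hi
        by_contra hc'
        rw [not_lt] at hc'
        have hne : ∃ t : ℕ, |((T^[t] N : ℤ) : ℝ)| ≤ Real.exp (c 1) := ⟨i, hc'⟩
        apply hex
        refine ⟨Nat.find hne, ⟨Nat.find_spec hne, fun u hu => Nat.find_min' hne hu⟩, ?_⟩
        exact le_trans (Nat.find_min' hne hc') hi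

theorem od_mono {a b : ℕ} (h : a ≤ b) (N : ℤ) : od a N ≤ od b N := by
  obtain ⟨u, rfl⟩ := Nat.exists_eq_add_of_le h
  rw [od_add]; omega

theorem least_syr {N : ℤ} (ho : Odd N) (h0 : N < 0) {c : ℝ} {τ : ℕ} (h : IsLeast (tS c N) τ) : IsLeast (kS c N) (od τ N) := by
  constructor
  · obtain ⟨e, he1, he2⟩ := det_orbit ho τ
    have h1 := h.1
    simp only [tS, kS, Set.mem_setOf_eq] at h1 ⊢
    refine le_trans ?_ h1
    rw [he1]
    push_cast
    rw [abs_mul, abs_of_pos (by positivity : (0 : ℝ) < 2 ^ e)]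
    have : (1 : ℝ) ≤ 2 ^ e := one_le_pow₀ (by norm_num)
    nlinarith [abs_nonneg ((syr^[od τ N] N : ℤ) : ℝ)]
  · intro k hk
    obtain ⟨t, t1, t2, _⟩ := hit_upK ho h0 k
    have h1 : t ∈ tS c N := by
      simp only [tS, kS, Set.mem_setOf_eq] at hk ⊢
      rw [t1]; exact hk
    have h2 := od_mono (h.2 h1) N
    omega

theorem least_T {N : ℤ} (ho : Odd N) (h0 : N < 0) {c : ℝ} {k : ℕ} (h : IsLeast (kS c N) k) : ∃ τ, IsLeast (tS c N) τ ∧ od τ N = k := by
  classical
  obtain ⟨t, t1, t2, _⟩ := hit_upK ho h0 k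
  have hne : ∃ t : ℕ, |((T^[t] N : ℤ) : ℝ)| ≤ Real.exp c := ⟨t, by rw [t1]; exact h.1⟩
  have hl : IsLeast (tS c N) (Nat.find hne) := ⟨Nat.find_spec hne, fun u hu => Nat.find_min' hne hu⟩
  exact ⟨_, hl, (least_syr ho h0 hl).unique h⟩

/-- one stage, upper bound for the number of steps of `T` -/
theorem stg_up {s c c' : ℝ} {n : ℤ} (h0 : n < 0) (hn : |(n : ℝ)| ≤ Real.exp c) {u : ℕ} (hu : IsLeast (tS c' n) u)
    (hc : Cnd s (Real.exp (c - c')) (od u n)) : u ≤ ⌊AA s (Real.exp (c - c')) + 1⌋₊ := by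
  rcases Nat.eq_zero_or_pos u with h | h
  · rw [h]; exact Nat.zero_le _
  obtain ⟨w, rfl⟩ := Nat.exists_eq_succ_of_ne_zero (by omega : u ≠ 0)
  have h1 : Real.exp c' < |((T^[w] n : ℤ) : ℝ)| := by
    by_contra hc'
    have := hu.2 (show w ∈ tS c' n from not_lt.mp hc')
    omega
  have h2 := abs_T_iter_ge 1 (T^[w] n)
  rw [pow_one, Function.iterate_one, ← Function.iterate_succ_apply' T w n] at h2
  have h3 : |((T^[w] n : ℤ) : ℝ)| ≤ 2 * |((T^[w + 1] n : ℤ) : ℝ)| := by exact_mod_cast h2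
  have h4 := affine (w + 1) n
  have h5 := cc_nonneg (w + 1) n
  have h6 := det_iter_neg h0 (w + 1)
  have h4r : (2 : ℝ) ^ (w + 1) * ((T^[w + 1] n : ℤ) : ℝ) = 3 ^ od (w + 1) n * (n : ℝ) + (cc (w + 1) n : ℝ) := by exact_mod_cast h4
  have h5r : (0 : ℝ) ≤ (cc (w + 1) n : ℝ) := by exact_mod_cast h5
  have h6r : ((T^[w + 1] n : ℤ) : ℝ) < 0 := by exact_mod_cast h6
  have h0r : (n : ℝ) < 0 := by exact_mod_cast h0
  have h7 : (2 : ℝ) ^ (w + 1) * |((T^[w + 1] n : ℤ) : ℝ)| ≤ 3 ^ od (w + 1) n * |(n : ℝ)| := by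
    rw [abs_of_neg h6r, abs_of_neg h0r]
    linarith
  obtain ⟨k, hk⟩ : ∃ k, k = od (w + 1) n := ⟨_, rfl⟩
  rw [show w.succ = w + 1 from rfl, ← hk] at hc
  rw [← hk] at h7
  have hE := Real.exp_pos c'
  have h8 : (2 : ℝ) ^ (w + 1) * Real.exp c' ≤ 2 * (3 ^ k * Real.exp c) := by
    calc (2 : ℝ) ^ (w + 1) * Real.exp c' ≤ 2 ^ (w + 1) * (2 * |((T^[w + 1] n : ℤ) : ℝ)|) :=
          mul_le_mul_of_nonneg_left (by linarith) (by positivity)
      _ = 2 * ((2 : ℝ) ^ (w + 1) * |((T^[w + 1] n : ℤ) : ℝ)|) := by ring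
      _ ≤ 2 * (3 ^ k * |(n : ℝ)|) := by linarith
      _ ≤ 2 * (3 ^ k * Real.exp c) := by gcongr
  have h9 : (2 : ℝ) ^ (w + 1) ≤ 2 * (3 ^ k * Real.exp (c - c')) := by
    rw [← le_div_iff₀ hE] at h8
    refine le_trans h8 (le_of_eq ?_)
    rw [Real.exp_sub]
    ring
  apply Nat.le_floor
  have hX : 0 < Real.exp (c - c') := Real.exp_pos _
  have h10 := Real.log_le_log (by positivity) h9
  rw [Real.log_mul (by norm_num) (by positivity), Real.log_mul (by positivity) hX.ne', Real.log_pow, Real.log_pow] at h10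
  have h11 := (KK_iff s (Real.exp (c - c')) k).mp hc
  have h12 := KK_AA s (Real.exp (c - c'))
  have hl2 : 0 < Real.log 2 := Real.log_pos (by norm_num)
  have hl3 : 0 < Real.log 3 := Real.log_pos (by norm_num)
  have h13 : (k : ℝ) * Real.log 3 ≤ KK s (Real.exp (c - c')) * Real.log 3 := mul_le_mul_of_nonneg_right h11 hl3.le
  have h14 : (((w + 1 : ℕ)) : ℝ) * Real.log 2 ≤ (AA s (Real.exp (c - c')) + 1) * Real.log 2 := by linarith
  exact le_of_mul_le_mul_right h14 hl2

/-- one stage, lower bound for the number of steps of `T` -/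
theorem stg_down {s c c' : ℝ} (hc0 : 0 ≤ c') {X : ℝ} (hX : X = Real.exp (c - c')) (hlX : 0 < Real.log X) (hK : 0 ≤ KK s X)
    (hev : Real.log (KK s X + 1) + 0 + Real.log (Real.log X) < Real.log 2 * Real.sqrt (Real.sqrt (Real.log X)))
    {n : ℤ} (h0 : n < 0) (hn : Real.exp c ≤ |(n : ℝ)| * Real.log X) {u : ℕ} (hu : IsLeast (tS c' n) u)
    (hj : (u : ℝ) ≤ AA s X - Real.sqrt (Real.sqrt (Real.log X))) : Cnd s X (od u n) := by
  have hi2 : ∀ i' : ℕ, i' < u → Real.exp c' < |((T^[i'] n : ℤ) : ℝ)| := by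
    intro i' h
    by_contra hc'
    have := hu.2 (show i' ∈ tS c' n from not_lt.mp hc')
    omega
  have hi1 : |((T^[u] n : ℤ) : ℝ)| ≤ Real.exp c' := hu.1
  have hinj : ∀ p q : ℕ, p < q → q < u → T^[p] n ≠ T^[q] n := by
    intro p q hpq hq he
    have e1 : T^[u - q] (T^[q] n) = T^[u] n := by
      rw [← Function.iterate_add_apply, Nat.sub_add_cancel hq.le]
    have e2 : T^[u - q] (T^[p] n) = T^[u - (q - p)] n := by
      rw [← Function.iterate_add_apply, show u - q + p = u - (q - p) by omega]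
    have e3 := hi2 (u - (q - p)) (by omega)
    rw [← e2, he, e1] at e3
    linarith
  have hone : ∀ p : ℕ, p < u → T^[p] n ≠ -1 := by
    intro p hp he
    have e3 := hi2 p hp
    rw [he] at e3
    have e4 : 1 ≤ Real.exp c' := Real.one_le_exp hc0
    simp at e3
    linarith
  have hP := prod_ge h0 hinj hone
  have hE := Real.exp_pos c'
  have h0r : (n : ℝ) < 0 := by exact_mod_cast h0
  have hX0 : 0 < X := by rw [hX]; exact Real.exp_pos _
  apply down_real (ν := -(n : ℝ) / Real.exp c') hX0 hlX hK hev (div_pos (by linarith) hE) _ hj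
  · rw [abs_of_neg h0r] at hP
    have h5 : ((od u n : ℝ) + 1) * (2 ^ u * |((T^[u] n : ℤ) : ℝ)|) ≤ ((od u n : ℝ) + 1) * (2 ^ u * Real.exp c') := by
      gcongr
    have h6 : (3 : ℝ) ^ od u n * -(n : ℝ) ≤ (((od u n : ℝ) + 1) * 2 ^ u) * Real.exp c' := by linarith
    rw [← mul_div_assoc, div_le_iff₀ hE]
    exact h6
  · rw [div_mul_eq_mul_div, le_div_iff₀ hE]
    have h8 : X * Real.exp c' = Real.exp c := by
      rw [hX, Real.exp_sub, div_mul_cancel₀ _ hE.ne']
    rw [h8, ← abs_of_neg h0r]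
    exact hn

/-- the condition on the Syracuse first passage times -/
def SEv (r : ℕ) (c s : ℕ → ℝ) (N : ℤ) : Prop :=
  ∃ k : ℕ → ℕ, k 0 = 0 ∧ ∀ i : ℕ, i < r → IsLeast (kS (c (i + 1)) N) (k (i + 1)) ∧ Cnd (s i) (Real.exp (c i - c (i + 1))) (k (i + 1) - k i)

theorem SEv_up {r : ℕ} {c s : ℕ → ℝ} (hc : ∀ i : ℕ, i < r → c (i + 1) ≤ c i) {N : ℤ} (ho : Odd N) (h0 : N < 0)
    (hN : |(N : ℝ)| ≤ Real.exp (c 0)) (h : SEv r c s N) :
    TEv r c (fun i => ⌊AA (s i) (Real.exp (c i - c (i + 1))) + 1⌋₊) N := by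
  obtain ⟨k, hk0, hk⟩ := h
  have hch : ∀ i : ℕ, ∃ t : ℕ, i < r → IsLeast (tS (c (i + 1)) N) t ∧ od t N = k (i + 1) := by
    intro i
    by_cases hi : i < r
    · obtain ⟨t, h1, h2⟩ := least_T ho h0 (hk i hi).1
      exact ⟨t, fun _ => ⟨h1, h2⟩⟩
    · exact ⟨0, fun h => absurd h hi⟩
  choose g hg using hch
  obtain ⟨τ, hτ0, hτ⟩ : ∃ τ : ℕ → ℕ, τ 0 = 0 ∧ ∀ i, τ (i + 1) = g i := ⟨fun i => Nat.casesOn i 0 g, rfl, fun i => rfl⟩
  have hL : ∀ i : ℕ, i ≤ r → IsLeast (tS (c i) N) (τ i) ∧ od (τ i) N = k i := by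
    intro i hi
    rcases i with _ | i
    · rw [hτ0, hk0]
      refine ⟨⟨?_, fun _ _ => Nat.zero_le _⟩, rfl⟩
      simpa [tS] using hN
    · rw [hτ]
      exact hg i (by omega)
  refine ⟨τ, hτ0, fun i hi => ⟨(hL (i + 1) (by omega)).1, ?_⟩⟩
  obtain ⟨a1, a2⟩ := hL i (by omega)
  obtain ⟨b1, b2⟩ := hL (i + 1) (by omega)
  have hle : τ i ≤ τ (i + 1) := by
    apply a1.2
    have := b1.1
    simp only [tS, Set.mem_setOf_eq] at this ⊢
    exact le_trans this (Real.exp_le_exp.mpr (hc i hi))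
  obtain ⟨u, hu⟩ := Nat.exists_eq_add_of_le hle
  rw [hu] at b1 b2 ⊢
  have h1 := (tS_shift (hc i hi) a1).mp b1
  rw [od_add, a2] at b2
  have h2 := (hk i hi).2
  rw [← b2, Nat.add_sub_cancel_left] at h2
  have h3 := stg_up (det_iter_neg h0 (τ i)) a1.1 h1 h2
  show τ i + u ≤ τ i + ⌊AA (s i) (Real.exp (c i - c (i + 1))) + 1⌋₊
  omega

theorem SEv_down {r : ℕ} {c s : ℕ → ℝ} (hc : ∀ i : ℕ, i < r → c (i + 1) ≤ c i) (hcr : 0 ≤ c r) {N : ℤ} (ho : Odd N) (h0 : N < 0)
    (hN : |(N : ℝ)| ≤ Real.exp (c 0)) (hN2 : 0 < r → Real.exp (c 0) ≤ |(N : ℝ)| * Real.log (Real.exp (c 0 - c 1)))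
    (hev : ∀ i : ℕ, i < r → 2 ≤ Real.log (Real.exp (c i - c (i + 1))) ∧ 0 ≤ KK (s i) (Real.exp (c i - c (i + 1))) ∧
      Real.log (KK (s i) (Real.exp (c i - c (i + 1))) + 1) + 0 + Real.log (Real.log (Real.exp (c i - c (i + 1)))) <
        Real.log 2 * Real.sqrt (Real.sqrt (Real.log (Real.exp (c i - c (i + 1))))) ∧
      0 ≤ AA (s i) (Real.exp (c i - c (i + 1))) - Real.sqrt (Real.sqrt (Real.log (Real.exp (c i - c (i + 1))))))
    (h : TEv r c (fun i => ⌊AA (s i) (Real.exp (c i - c (i + 1))) - Real.sqrt (Real.sqrt (Real.log (Real.exp (c i - c (i + 1)))))⌋₊) N) :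
    SEv r c s N := by
  obtain ⟨τ, hτ0, hτ⟩ := h
  have hL : ∀ i : ℕ, i ≤ r → IsLeast (tS (c i) N) (τ i) := by
    intro i hi
    rcases i with _ | i
    · rw [hτ0]
      refine ⟨?_, fun _ _ => Nat.zero_le _⟩
      simpa [tS] using hN
    · exact (hτ i (by omega)).1
  have hcle : ∀ p : ℕ, p ≤ r → 0 ≤ c (r - p) := by
    intro p
    induction p with
    | zero => intro _; exact hcr
    | succ p ih =>
      intro hp
      have h1 := hc (r - (p + 1)) (by omega)
      rw [show r - (p + 1) + 1 = r - p by omega] at h1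
      exact le_trans (ih (by omega)) h1
  refine ⟨fun i => od (τ i) N, by simp only [hτ0]; rfl, fun i hi => ⟨least_syr ho h0 (hL (i + 1) (by omega)), ?_⟩⟩
  have a1 := hL i (by omega)
  have b1 := hL (i + 1) (by omega)
  have hle : τ i ≤ τ (i + 1) := by
    apply a1.2
    have := b1.1
    simp only [tS, Set.mem_setOf_eq] at this ⊢
    exact le_trans this (Real.exp_le_exp.mpr (hc i hi))
  obtain ⟨u, hu⟩ := Nat.exists_eq_add_of_le hle
  have hb := (hτ i hi).2
  rw [hu] at b1 hb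
  have hb' : τ i + u ≤ τ i + ⌊AA (s i) (Real.exp (c i - c (i + 1))) - Real.sqrt (Real.sqrt (Real.log (Real.exp (c i - c (i + 1)))))⌋₊ := hb
  have h1 := (tS_shift (hc i hi) a1).mp b1
  show Cnd (s i) (Real.exp (c i - c (i + 1))) (od (τ (i + 1)) N - od (τ i) N)
  rw [hu, od_add, Nat.add_sub_cancel_left]
  obtain ⟨e1, e2, e3, e4⟩ := hev i hi
  refine stg_down (by have := hcle (r - (i + 1)) (by omega); rwa [show r - (r - (i + 1)) = i + 1 by omega] at this) rfl (by linarith) e2 e3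
    (det_iter_neg h0 (τ i)) ?_ h1 ?_
  · rcases Nat.eq_zero_or_pos i with hi0 | hi0
    · subst hi0
      rw [hτ0]
      exact hN2 (by omega)
    · -- a later stage starts at a first entry
      have hpos : 1 ≤ τ i := by
        by_contra hcon
        have h00 : τ i = 0 := by omega
        have h2 := a1.1
        rw [h00] at h2
        simp only [tS, Set.mem_setOf_eq, Function.iterate_zero, id_eq] at h2
        have hci : c i ≤ c 1 := by
          have : ∀ q : ℕ, q + 1 ≤ r → c (q + 1) ≤ c 1 := by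
            intro q
            induction q with
            | zero => intro _; exact le_rfl
            | succ q ih => intro hq; exact le_trans (hc (q + 1) (by omega)) (ih (by omega))
          have h3 := this (i - 1) (by omega)
          rwa [Nat.sub_add_cancel hi0] at h3
        have h3 := hN2 (by omega)
        have h4 : |(N : ℝ)| ≤ Real.exp (c 1) := le_trans h2 (Real.exp_le_exp.mpr hci)
        have h5 := (hev 0 (by omega)).1
        rw [Real.log_exp] at h3 h5
        simp only [Nat.zero_add] at h5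
        have h6 : Real.exp (c 0) ≤ Real.exp (c 1) * (c 0 - c 1) := le_trans h3 (mul_le_mul_of_nonneg_right h4 (by linarith))
        have h7 : Real.exp (c 0) = Real.exp (c 1) * Real.exp (c 0 - c 1) := by rw [← Real.exp_add]; congr 1; ring
        rw [h7] at h6
        have h8 := le_of_mul_le_mul_left h6 (Real.exp_pos _)
        have h9 := Real.add_one_le_exp (c 0 - c 1)
        linarith
      obtain ⟨w, hw⟩ : ∃ w, τ i = w + 1 := ⟨τ i - 1, by omega⟩
      have h2 : Real.exp (c i) < |((T^[w] N : ℤ) : ℝ)| := by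
        by_contra hc'
        have := a1.2 (show w ∈ tS (c i) N from not_lt.mp hc')
        omega
      have h3 := abs_T_iter_ge 1 (T^[w] N)
      rw [pow_one, Function.iterate_one, ← Function.iterate_succ_apply' T w N, show w.succ = w + 1 from rfl, ← hw] at h3
      have h4 : |((T^[w] N : ℤ) : ℝ)| ≤ 2 * |((T^[τ i] N : ℤ) : ℝ)| := by exact_mod_cast h3
      have h5 := mul_le_mul_of_nonneg_left e1 (abs_nonneg ((T^[τ i] N : ℤ) : ℝ))
      linarith
  · have h2 := Nat.floor_le e4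
    have h3 : u ≤ ⌊AA (s i) (Real.exp (c i - c (i + 1))) - Real.sqrt (Real.sqrt (Real.log (Real.exp (c i - c (i + 1)))))⌋₊ := by omega
    have h4 : (u : ℝ) ≤ (⌊AA (s i) (Real.exp (c i - c (i + 1))) - Real.sqrt (Real.sqrt (Real.log (Real.exp (c i - c (i + 1)))))⌋₊ : ℕ) := by
      exact_mod_cast h3
    linarith

end Pool.Agent.Helper3.HT
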