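import Pool.Agent.Helper3.HT.LevF
import Pool.Agent.Helper3.HT.LevG
import Pool.Agent.Helper32.EQ.Fin2

/-! Levels: the final statement in residue classes and for unions of invariant sets. -/

namespace Pool.Agent.Helper3.HT

open Pool.Agent.Helper3.ND Pool.Agent.Helper3.TD Pool.Agent.Helper32.HT Pool.Agent.Helper32.EQ Filter Topology

theorem cR_EN {R : ℤ → Prop} [DecidablePred R] (hR : ∀ N, R N → Odd N) (S : Set ℤ) (c : ℝ) (j : ℕ) (X : ℕ) :
    Nc (fun N => if R N then LV (phi S) c j N else 0) X = cR R (EN S c j) (X : ℝ) := by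
  classical
  have h2 : cR R (fun n => n < 0 ∧ EN S c j n) (X : ℝ) = cR R (EN S c j) (X : ℝ) := by
    apply le_antisymm
    · exact cR_mono (fun N _ _ b3 b4 => ⟨b3, b4.2⟩)
    · exact cR_mono (fun N b1 _ b3 b4 => ⟨b3, b1, b4⟩)
  rw [← h2, ← cR_card R (fun n => n < 0 ∧ EN S c j n) (fun n hn h => absurd h.1 (not_lt.mpr hn)) X]
  unfold Nc
  apply Finset.sum_congr rfl
  intro n _
  beta_reduce
  by_cases hr : R n
  · rw [if_pos hr, if_pos hr]
    have ho := hR n hr
    by_cases hE : n < 0 ∧ EN S c j n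
    · rw [if_pos hE]
      obtain ⟨a1, a2, a3⟩ := hE
      unfold LV
      rw [if_pos a3]
      unfold phi
      rw [if_pos ((PS_odd ho).mpr ⟨a1, a2⟩)]
    · rw [if_neg hE]
      unfold LV
      by_cases h3 : ∃ i : ℕ, i ≤ j ∧ |((T^[i] n : ℤ) : ℝ)| ≤ Real.exp c
      · rw [if_pos h3]
        unfold phi
        rw [if_neg]
        intro h4
        obtain ⟨a1, a2⟩ := (PS_odd ho).mp h4
        exact hE ⟨a1, a2, h3⟩
      · rw [if_neg h3]
  · rw [if_neg hr, if_neg hr]

theorem cR_phi {R : ℤ → Prop} [DecidablePred R] (hR : ∀ N, R N → Odd N) (S : Set ℤ) (X : ℕ) :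
    Nc (fun N => if R N then phi S N else 0) X = cR R (fun N => N ∈ S) (X : ℝ) := by
  classical
  have h2 : cR R (fun n => n < 0 ∧ n ∈ S) (X : ℝ) = cR R (fun n => n ∈ S) (X : ℝ) := by
    apply le_antisymm
    · exact cR_mono (fun N _ _ b3 b4 => ⟨b3, b4.2⟩)
    · exact cR_mono (fun N b1 _ b3 b4 => ⟨b3, b1, b4⟩)
  rw [← h2, ← cR_card R (fun n => n < 0 ∧ n ∈ S) (fun n hn h => absurd h.1 (not_lt.mpr hn)) X]
  unfold Nc
  apply Finset.sum_congr rfl
  intro n _
  beta_reduce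
  by_cases hr : R n
  · rw [if_pos hr, if_pos hr]
    unfold phi
    by_cases hp : PS S n
    · rw [if_pos hp, if_pos ((PS_odd (hR n hr)).mp hp)]
    · rw [if_neg hp, if_neg (fun h => hp ((PS_odd (hR n hr)).mpr h))]
  · rw [if_neg hr, if_neg hr]

/-- **the normal law for the time to come down to any level, in residue classes** -/
theorem levC (hBIN : ST_BIN) {S : Set ℤ} {Y : ℕ} (hS : SI Y S) : ∃ d : ℝ, ∀ m : ℕ, 1 ≤ m → ∀ b : ℤ, Odd b →
    Tendsto (fun x : ℝ => (cR (fun N => (2 * m : ℤ) ∣ N - b) (fun N => N ∈ S) x : ℝ) / x) atTop (𝓝 (d / m)) ∧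
  ∀ f : ℝ → ℝ, Tendsto f atTop atTop → Tendsto (fun x => x / f x) atTop atTop → ∀ s : ℝ,
    Tendsto (fun x : ℝ => (cR (fun N => (2 * m : ℤ) ∣ N - b) (fun N => N ∈ S ∧ ∃ k : ℕ, |((syr^[k] N : ℤ) : ℝ)| ≤ f x ∧ Cnd s (x / f x) k) x : ℝ) / x)
      atTop (𝓝 (d / m * gs s)) := by
  classical
  obtain ⟨g, hg0, H0⟩ := clsL hBIN (Nat.cast_nonneg Y) (phi_invY hS)
  refine ⟨g / 2, fun m hm b hb => ?_⟩
  obtain ⟨H1, H⟩ := H0 (2 * m) (by omega) b
  obtain ⟨R, hRd⟩ : ∃ R : ℤ → Prop, R = fun N => (2 * m : ℤ) ∣ N - b := ⟨_, rfl⟩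
  have hR : ∀ N : ℤ, R N → Odd N := by
    intro N hN
    rw [hRd] at hN
    obtain ⟨q, hq⟩ := hN
    obtain ⟨r, rfl⟩ := hb
    refine ⟨m * q + r, ?_⟩
    linarith
  have hcast : ∀ N : ℤ, (((2 * m : ℕ) : ℤ) ∣ N - b) ↔ R N := by
    intro N; rw [hRd]; push_cast; rfl
  have hm0 : (m : ℝ) ≠ 0 := by
    have : (0 : ℝ) < m := by exact_mod_cast hm
    exact this.ne'
  have hcm : g / ((2 * m : ℕ) : ℝ) = g / 2 / m := by
    push_cast
    field_simp
  rw [hcm] at H1 H
  simp only [hcast] at H1 H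
  rw [← hRd]
  constructor
  · apply real_lim (G := fun x => (cR R (fun N => N ∈ S) x : ℝ))
    · refine H1.congr (fun X => ?_)
      rw [← cR_phi hR S X]
    · filter_upwards [eventually_ge_atTop 1] with x hx
      have h3 := Nat.floor_le (show 0 ≤ x by linarith)
      have h4 := Nat.lt_floor_add_one x
      constructor
      · exact_mod_cast cR_mono (fun N _ _ b3 b4 => ⟨by linarith, b4⟩)
      · exact_mod_cast cR_mono (fun N _ _ b3 b4 => ⟨by push_cast; linarith, b4⟩)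
  intro f hf hxf s
  apply tendsto_of_seq_tendsto
  intro u hu
  obtain ⟨c, hc⟩ : ∃ c : ℕ → ℝ, c = fun n => Real.log (f (u n)) := ⟨_, rfl⟩
  obtain ⟨X, hX⟩ : ∃ X : ℕ → ℝ, X = fun n => u n / f (u n) := ⟨_, rfl⟩
  obtain ⟨Z, hZ⟩ : ∃ Z : ℕ → ℕ, Z = fun n => ⌊u n⌋₊ := ⟨_, rfl⟩
  have hXt : Tendsto X atTop atTop := by rw [hX]; exact hxf.comp hu
  have hfu : Tendsto (fun n => f (u n)) atTop atTop := hf.comp hu
  have hct : Tendsto c atTop atTop := by rw [hc]; exact Real.tendsto_log_atTop.comp hfu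
  have hZt : Tendsto Z atTop atTop := by rw [hZ]; exact (tendsto_nat_floor_atTop (α := ℝ)).comp hu
  have hLt : Tendsto (fun n => Real.log (X n)) atTop atTop := Real.tendsto_log_atTop.comp hXt
  have hr : Tendsto (fun n => Real.sqrt (Real.log (X n))) atTop atTop := Real.tendsto_sqrt_atTop.comp hLt
  have hdiff : ∀ᶠ n in atTop, |(Real.log (Z n : ℝ) - c n) - Real.log (X n)| ≤ 1 := by
    filter_upwards [hu.eventually_ge_atTop 2, hfu.eventually_gt_atTop 0] with n h1 h2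
    have hZ1 : 1 ≤ Z n := by rw [hZ]; exact Nat.le_floor (by push_cast; linarith)
    have hZ1r : (1 : ℝ) ≤ Z n := by exact_mod_cast hZ1
    have h3 : (Z n : ℝ) ≤ u n := by rw [hZ]; exact Nat.floor_le (by linarith)
    have h4 : u n ≤ 2 * (Z n : ℝ) := by
      have := Nat.lt_floor_add_one (u n)
      have e : (Z n : ℝ) = ((⌊u n⌋₊ : ℕ) : ℝ) := by rw [hZ]
      rw [← e] at this
      linarith
    have h5 := Real.log_le_log (by linarith) h3
    have h6 := Real.log_le_log (by linarith) h4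
    rw [Real.log_mul (by norm_num) (by linarith)] at h6
    have h7 : Real.log (X n) = Real.log (u n) - c n := by
      rw [hX, hc]
      exact Real.log_div (by linarith) h2.ne'
    rw [h7]
    have := Real.log_two_lt_d9
    rw [abs_le]
    constructor <;> linarith
  have hLZ : Tendsto (fun n => Real.log (Z n : ℝ) - c n) atTop atTop := by
    apply tendsto_atTop_mono' atTop (f₁ := fun n => Real.log (X n) - 1)
    · filter_upwards [hdiff] with n hn
      rw [abs_le] at hn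
      linarith
    · exact tendsto_atTop_add_const_right atTop (-1) hLt
  -- the two limits
  have hlim : ∀ (J : ℕ → ℕ), (∀ᶠ n in atTop, |(J n : ℝ) - AA s (X n)| ≤ 2 + Real.sqrt (Real.sqrt (Real.log (X n)))) →
      Tendsto (fun n : ℕ => ((cR R (EN S (c n) (J n)) (Z n : ℝ) : ℕ) : ℝ) / Z n) atTop (𝓝 (g / 2 / m * gs s)) := by
    intro J hJ
    have h0 : Tendsto (fun n => (2 : ℝ) / Real.sqrt (Real.log (X n)) + (Real.sqrt (Real.sqrt (Real.log (X n))))⁻¹) atTop (𝓝 (0 + 0)) :=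
      (Tendsto.div_atTop tendsto_const_nhds hr).add (tendsto_inv_atTop_zero.comp (Real.tendsto_sqrt_atTop.comp hr))
    rw [add_zero] at h0
    obtain ⟨h1, h2⟩ := Pool.Agent.Helper3.HT.norm_lim (L := fun n => Real.log (X n)) (J := J) (s := s) hLt rfl (by
      apply squeeze_zero_norm' _ h0
      filter_upwards [hJ, hr.eventually_gt_atTop 0] with n h3 h4
      rw [← AA_eq, Real.norm_eq_abs, abs_div, abs_of_pos h4]
      have h5 : 0 < Real.sqrt (Real.sqrt (Real.log (X n))) := Real.sqrt_pos.mpr h4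
      have e2 : Real.sqrt (Real.log (X n)) = Real.sqrt (Real.sqrt (Real.log (X n))) * Real.sqrt (Real.sqrt (Real.log (X n))) :=
        (Real.mul_self_sqrt h4.le).symm
      have e3 : (2 : ℝ) / Real.sqrt (Real.log (X n)) + (Real.sqrt (Real.sqrt (Real.log (X n))))⁻¹ =
          (2 + Real.sqrt (Real.sqrt (Real.log (X n)))) / Real.sqrt (Real.log (X n)) := by
        rw [add_div]
        congr 1
        rw [eq_div_iff h4.ne']
        nth_rewrite 2 [e2]
        field_simp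
      rw [e3]
      exact div_le_div_of_nonneg_right h3 h4.le)
    obtain ⟨_, h4⟩ := shift_ev (J' := J) (L' := fun n => Real.log (Z n : ℝ) - c n) (D := 0) (E := 1) h1 h2
      (Eventually.of_forall (fun n => by rw [sub_self, abs_zero])) hdiff
    refine (H s J Z c h1 hZt hct hLZ h4).congr (fun n => ?_)
    rw [← cR_EN hR S (c n) (J n) (Z n)]
  have hup := hlim (fun n => ⌊AA s (X n) + 1⌋₊) (by
    filter_upwards [hXt.eventually (AA_evR s)] with n h1
    have h2 := Real.sqrt_nonneg (Real.sqrt (Real.log (X n)))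
    have h3 := Nat.floor_le (show 0 ≤ AA s (X n) + 1 by linarith)
    have h4 := Nat.lt_floor_add_one (AA s (X n) + 1)
    rw [abs_le]
    constructor <;> linarith)
  have hlo := hlim (fun n => ⌊AA s (X n) - Real.sqrt (Real.sqrt (Real.log (X n)))⌋₊) (by
    filter_upwards [hXt.eventually (AA_evR s)] with n h1
    have h2 := Real.sqrt_nonneg (Real.sqrt (Real.log (X n)))
    have h3 := Nat.floor_le h1
    have h4 := Nat.lt_floor_add_one (AA s (X n) - Real.sqrt (Real.sqrt (Real.log (X n))))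
    rw [abs_le]
    constructor <;> linarith)
  -- the ratio
  have hrat : Tendsto (fun n => (Z n : ℝ) / u n) atTop (𝓝 1) := by
    rw [hZ]
    exact (tendsto_nat_floor_div_atTop (R := ℝ)).comp hu
  have hup2 := hup.mul hrat
  have hlo2 := hlo.mul hrat
  rw [mul_one] at hup2 hlo2
  have h3 : Tendsto (fun n => (Real.log (X n))⁻¹ + (u n)⁻¹) atTop (𝓝 (0 + 0)) :=
    (tendsto_inv_atTop_zero.comp hLt).add (tendsto_inv_atTop_zero.comp hu)
  have h4 := hlo2.sub h3
  rw [add_zero, sub_zero] at h4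
  refine tendsto_of_tendsto_of_tendsto_of_le_of_le' h4 hup2 ?_ ?_
  · filter_upwards [hXt.eventually (AA_evR s), hXt.eventually (ev_XR s), hu.eventually_ge_atTop 2, hfu.eventually_ge_atTop 1] with n g1 g2 g3 g4
    obtain ⟨e1, e2, e3⟩ := g2
    have hfp : 0 < f (u n) := by linarith
    have hec : Real.exp (c n) = f (u n) := by rw [hc]; exact Real.exp_log hfp
    have hXn : X n = u n / Real.exp (c n) := by rw [hec, hX]
    have hc0 : 0 ≤ c n := by rw [hc]; exact Real.log_nonneg g4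
    have hup0 : 0 < u n := by linarith
    have hZ1 : 1 ≤ Z n := by rw [hZ]; exact Nat.le_floor (by push_cast; linarith)
    have hZ0 : (0 : ℝ) < Z n := by exact_mod_cast hZ1
    have hZu : (Z n : ℝ) ≤ u n := by rw [hZ]; exact Nat.floor_le (by linarith)
    have h5 : cR R (EN S (c n) ⌊AA s (X n) - Real.sqrt (Real.sqrt (Real.log (X n)))⌋₊) (Z n : ℝ) ≤
        cR R (fun N => N ∈ S ∧ ∃ k : ℕ, |((syr^[k] N : ℤ) : ℝ)| ≤ f (u n) ∧ Cnd s (u n / f (u n)) k) (u n) +
          cR R (fun _ => True) (u n / Real.log (X n)) := by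
      apply cR_union
      rintro N b1 b2 b3 ⟨b4, b5⟩
      by_cases hc' : u n ≤ (-(N : ℝ)) * Real.log (X n)
      · left
        refine ⟨by linarith, b4, ?_⟩
        rw [← hec]
        rw [hXn] at e1 e2 e3 hc' b5 g1
        exact lev_down hup0 hc0 e1 e2 e3 (hR N b2) b1 hc' (Nat.floor_le g1) b5
      · right
        refine ⟨?_, trivial⟩
        have h6 : (-(N : ℝ)) ≤ u n / Real.log (X n) := by
          rw [le_div_iff₀ e1]
          exact (not_le.mp hc').le
        linarith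
    have h6 : (cR R (fun _ => True) (u n / Real.log (X n)) : ℝ) ≤ u n / Real.log (X n) + 1 := cR_small _ _ (div_pos hup0 e1).le
    have h7 : ((cR R (EN S (c n) ⌊AA s (X n) - Real.sqrt (Real.sqrt (Real.log (X n)))⌋₊) (Z n : ℝ) : ℕ) : ℝ) ≤
        ((cR R (fun N => N ∈ S ∧ ∃ k : ℕ, |((syr^[k] N : ℤ) : ℝ)| ≤ f (u n) ∧ Cnd s (u n / f (u n)) k) (u n) : ℕ) : ℝ) +
          (cR R (fun _ => True) (u n / Real.log (X n)) : ℝ) := by
      exact_mod_cast h5
    simp only [Function.comp]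
    rw [div_mul_div_cancel₀ hZ0.ne']
    have h8 : (Real.log (X n))⁻¹ + (u n)⁻¹ = (u n / Real.log (X n) + 1) / u n := by
      field_simp
    rw [h8, ← sub_div]
    apply div_le_div_of_nonneg_right _ hup0.le
    linarith
  · filter_upwards [hu.eventually_ge_atTop 2, hfu.eventually_ge_atTop 1] with n g3 g4
    have hfp : 0 < f (u n) := by linarith
    have hec : Real.exp (c n) = f (u n) := by rw [hc]; exact Real.exp_log hfp
    have hXn : X n = u n / Real.exp (c n) := by rw [hec, hX]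
    have hup0 : 0 < u n := by linarith
    have hZ1 : 1 ≤ Z n := by rw [hZ]; exact Nat.le_floor (by push_cast; linarith)
    have hZ0 : (0 : ℝ) < Z n := by exact_mod_cast hZ1
    simp only [Function.comp]
    rw [div_mul_div_cancel₀ hZ0.ne']
    apply div_le_div_of_nonneg_right _ hup0.le
    have h5 : cR R (fun N => N ∈ S ∧ ∃ k : ℕ, |((syr^[k] N : ℤ) : ℝ)| ≤ f (u n) ∧ Cnd s (u n / f (u n)) k) (u n) ≤
        cR R (EN S (c n) ⌊AA s (X n) + 1⌋₊) (Z n : ℝ) := by
      apply cR_mono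
      rintro N b1 b2 b3 ⟨b4, k, b5, b6⟩
      rw [← hec] at b5 b6
      refine ⟨?_, b4, ?_⟩
      · have h5 : (((-N).toNat : ℕ) : ℝ) ≤ u n := by
          have : (((-N).toNat : ℕ) : ℤ) = -N := Int.toNat_of_nonneg (by omega)
          have h6 : (((-N).toNat : ℕ) : ℝ) = -(N : ℝ) := by exact_mod_cast congrArg (Int.cast : ℤ → ℝ) this
          rw [h6]; linarith
        have h6 := Nat.le_floor h5
        have hZn : Z n = ⌊u n⌋₊ := by rw [hZ]
        have h7 : -(Z n : ℤ) ≤ N := by omega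
        exact_mod_cast h7
      · rw [hXn]
        exact lev_up2 hup0 (hR N b2) b1 b3 b5 b6
    exact_mod_cast h5

theorem cS_card (S : Set ℤ) (m : ℕ) (b : ℤ) (x : ℝ) : (Nat.card {N : ℤ // N ∈ S ∧ N < 0 ∧ (2 * m : ℤ) ∣ N - b ∧ -x ≤ (N : ℝ)} : ℝ) =
    (cR (fun N => (2 * m : ℤ) ∣ N - b) (fun N => N ∈ S) x : ℝ) := by
  unfold cR
  rw [← Nat.card_coe_set_eq]
  congr 1
  apply Nat.card_congr
  apply Equiv.subtypeEquivRight
  intro N
  constructor
  · rintro ⟨c1, c2, c3, c4⟩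
    exact ⟨c2, c3, c4, c1⟩
  · rintro ⟨c2, c3, c4, c1⟩
    exact ⟨c1, c2, c3, c4⟩

/-- **unions of invariant sets** -/
theorem levU (hBIN : ST_BIN) (Y : ℕ) (S : ℕ → Set ℤ)
    (hinv : ∀ i : ℕ, ∀ N : ℤ, N < -(Y : ℤ) → Odd N → (N ∈ S i ↔ (3 * N + 1) / 2 ^ padicValInt 2 (3 * N + 1) ∈ S i))
    (hdis : ∀ i j : ℕ, i ≠ j → Disjoint (S i) (S j)) :
    ∃ d : ℕ → ℝ, Summable d ∧ ∀ I : Set ℕ, ∀ m : ℕ, 1 ≤ m → ∀ b : ℤ, Odd b →
      Tendsto (fun x : ℝ => (cR (fun N => (2 * m : ℤ) ∣ N - b) (fun N => ∃ i ∈ I, N ∈ S i) x : ℝ) / x) atTop (𝓝 ((∑' i : I, d i) / m)) ∧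
      ∀ f : ℝ → ℝ, Tendsto f atTop atTop → Tendsto (fun x => x / f x) atTop atTop → ∀ s : ℝ,
        Tendsto (fun x : ℝ => (cR (fun N => (2 * m : ℤ) ∣ N - b)
          (fun N => (∃ i ∈ I, N ∈ S i) ∧ ∃ k : ℕ, |((syr^[k] N : ℤ) : ℝ)| ≤ f x ∧ Cnd s (x / f x) k) x : ℝ) / x)
          atTop (𝓝 ((∑' i : I, d i) / m * gs s)) := by
  classical
  obtain ⟨d, hd, H⟩ := fin2 dcH Y S hinv hdis
  refine ⟨d, hd, fun I => ?_⟩
  obtain ⟨S', hS'⟩ : ∃ S' : ℕ → Set ℤ, S' = fun i => if i ∈ I then S i else ∅ := ⟨_, rfl⟩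
  obtain ⟨d', hd', H'⟩ := fin2 dcH Y S' (by
    intro i N h1 h2
    rw [hS']
    dsimp only
    split_ifs
    · exact hinv i N h1 h2
    · simp) (by
    intro i j hij
    rw [hS']
    dsimp only
    split_ifs
    · exact hdis i j hij
    · exact Set.disjoint_empty _
    · exact Set.empty_disjoint _
    · exact Set.empty_disjoint _)
  have hdd : ∀ i, d' i = I.indicator d i := by
    intro i
    have h1 := (H' 1 le_rfl 1 (by decide)).1 i
    by_cases hi : i ∈ I
    · have h2 := (H 1 le_rfl 1 (by decide)).1 i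
      have e : S' i = S i := by rw [hS']; dsimp only; rw [if_pos hi]
      rw [e] at h1
      have h3 := tendsto_nhds_unique h1 h2
      rw [Set.indicator_of_mem hi]
      simpa using h3
    · have e : S' i = ∅ := by rw [hS']; dsimp only; rw [if_neg hi]
      rw [e] at h1
      rw [Set.indicator_of_notMem hi]
      have h2 : Tendsto (fun x : ℝ => (Nat.card {N : ℤ // N ∈ (∅ : Set ℤ) ∧ N < 0 ∧ (2 * ((1 : ℕ) : ℤ) : ℤ) ∣ N - 1 ∧ -x ≤ (N : ℝ)} : ℝ) / x) atTop (𝓝 0) := by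
        apply tendsto_const_nhds.congr
        intro x
        have : IsEmpty {N : ℤ // N ∈ (∅ : Set ℤ) ∧ N < 0 ∧ (2 * ((1 : ℕ) : ℤ) : ℤ) ∣ N - 1 ∧ -x ≤ (N : ℝ)} := ⟨fun N => N.2.1⟩
        rw [Nat.card_of_isEmpty]
        simp
      have h3 := tendsto_nhds_unique h1 h2
      simpa using h3
  have hsum : (∑' i : I, d i) = ∑' i, d' i := by
    rw [tsum_subtype I d]
    exact tsum_congr (fun i => (hdd i).symm)
  have hU : SI Y {N : ℤ | ∃ i ∈ I, N ∈ S i} := by
    intro N h1 h2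
    constructor
    · rintro ⟨i, hi, h3⟩
      exact ⟨i, hi, (hinv i N h1 h2).mp h3⟩
    · rintro ⟨i, hi, h3⟩
      exact ⟨i, hi, (hinv i N h1 h2).mpr h3⟩
  obtain ⟨δ, hδ⟩ := levC hBIN hU
  have hδd : δ = ∑' i : I, d i := by
    have h1 := (hδ 1 le_rfl 1 (by decide)).1
    have h2 := (H' 1 le_rfl 1 (by decide)).2
    rw [hsum]
    have h3 : Tendsto (fun x : ℝ => (cR (fun N => (2 * ((1 : ℕ) : ℤ) : ℤ) ∣ N - 1) (fun N => N ∈ {N : ℤ | ∃ i ∈ I, N ∈ S i}) x : ℝ) / x) atTop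
        (𝓝 ((∑' i, d' i) / ((1 : ℕ) : ℝ))) := by
      refine h2.congr (fun x => ?_)
      rw [← cS_card]
      congr 2
      apply Nat.card_congr
      apply Equiv.subtypeEquivRight
      intro N
      rw [hS']
      constructor
      · rintro ⟨⟨i, hi⟩, c2⟩
        dsimp only at hi
        by_cases hI : i ∈ I
        · rw [if_pos hI] at hi
          exact ⟨⟨i, hI, hi⟩, c2⟩
        · rw [if_neg hI] at hi
          exact absurd hi (Set.notMem_empty _)
      · rintro ⟨⟨i, hI, hi⟩, c2⟩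
        refine ⟨⟨i, ?_⟩, c2⟩
        dsimp only
        rw [if_pos hI]
        exact hi
    have h4 := tendsto_nhds_unique h1 h3
    simpa using h4
  intro m hm b hb
  rw [← hδd]
  exact hδ m hm b hb

end Pool.Agent.Helper3.HT
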