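import Pool.Agent.Helper3.HT.JntD
import Pool.Agent.Helper3.HT.LevH

/-! Several levels: the joint law in residue classes. -/

namespace Pool.Agent.Helper3.HT

open Pool.Agent.Helper3.ND Pool.Agent.Helper3.TD Pool.Agent.Helper32.HT Pool.Agent.Helper32.EQ Filter Topology

/-- the joint law in all classes, for the steps of `T`, along sequences -/
theorem clsJ (hBIN : ST_BIN) {φ : ℤ → ℝ} {Y0 : ℝ} (hφ : Inv φ Y0) {g : ℝ} (hg0 : 0 ≤ g)
    (hg : ∀ l : ℕ, Tendsto (fun a : ℝ => Gs φ ((1 / 2) ^ l) a) atTop (𝓝 (g * (1 / 2) ^ l)))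
    (r : ℕ) (c : ℕ → ℕ → ℝ) (J : ℕ → ℕ → ℕ) (s : ℕ → ℝ) (Z : ℕ → ℕ) (hZ : Tendsto Z atTop atTop)
    (hcr : Tendsto (c (r + 1)) atTop atTop)
    (hcd : ∀ i : ℕ, i < r + 1 → Tendsto (fun n => c i n - c (i + 1) n) atTop atTop)
    (hJ : ∀ i : ℕ, i < r + 1 → Tendsto (J i) atTop atTop)
    (hs : ∀ i : ℕ, i < r + 1 → Tendsto (fun n : ℕ => ((J i n : ℝ) * TD.mu - (c i n - c (i + 1) n)) / (Real.log 3 / 2 * Real.sqrt (J i n))) atTop (𝓝 (s i)))
    {E0 : ℝ} (hE0 : ∀ᶠ n in atTop, |Real.log (Z n) - c 0 n| ≤ E0) {M : ℕ} (hM : 0 < M) (b : ℤ) :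
    Tendsto (fun n : ℕ => Nc (fun N => if (M : ℤ) ∣ N - b then ES φ (r + 1) (fun i => c i n) (fun i => J i n) 0 N else 0) (Z n) / Z n) atTop
      (𝓝 (g * (∏ i ∈ Finset.range (r + 1), gs (s i)) / M)) := by
  have hc1 : Tendsto (c 1) atTop atTop := by
    have : ∀ p : ℕ, p ≤ r → Tendsto (c (r + 1 - p)) atTop atTop := by
      intro p
      induction p with
      | zero => intro _; exact hcr
      | succ p ihp =>
        intro hp
        have h2 := ihp (by omega)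
        have h3 := hcd (r + 1 - (p + 1)) (by omega)
        rw [show r + 1 - (p + 1) + 1 = r + 1 - p by omega] at h3
        have h4 := h3.atTop_add_atTop h2
        refine h4.congr (fun n => ?_)
        ring
    have h2 := this r le_rfl
    rwa [show r + 1 - r = 1 by omega] at h2
  have hL : Tendsto (fun n => Real.log (Z n) - c 1 n) atTop atTop := by
    apply tendsto_atTop_mono' atTop (f₁ := fun n => c 0 n - c (0 + 1) n - E0)
    · filter_upwards [hE0] with n hn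
      rw [abs_le] at hn
      simp only [Nat.zero_add]
      linarith
    · exact tendsto_atTop_add_const_right atTop (-E0) (hcd 0 (by omega))
  have hfam : ∀ n : ℕ, Fam (EV (ES φ r (fun i => c (i + 1) n) (fun i => J (i + 1) n) 0) (c 1 n)) (Real.exp (c 1 n)) :=
    fun n => EV_fam (ES_nonneg hφ.nonneg r _ _ 0) (ES_le_one hφ.le_one r _ _ 0) (c 1 n)
  have hG : 0 ≤ g * (∏ i ∈ Finset.range (r + 1), gs (s i)) := mul_nonneg hg0 (Finset.prod_nonneg (fun i _ => gs_nonneg _))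
  have h := clsG (Ψ := fun n => EV (ES φ r (fun i => c (i + 1) n) (fun i => J (i + 1) n) 0) (c 1 n)) (c := c 1) hfam hG
    (hJ 0 (by omega)) hZ hc1 hL ?_ hM b
  · exact h
  intro J' Z' D E hJ' hZ' l x
  obtain ⟨W, hWd⟩ : ∃ W : ℝ, W = (1 / 2) ^ l := ⟨_, rfl⟩
  have hW0 : 0 < W := by rw [hWd]; positivity
  have hW1 : W ≤ 1 := by rw [hWd]; exact pow_le_one₀ (by norm_num) (by norm_num)
  have hgl := hg l
  rw [← hWd] at hgl ⊢
  have hdist : ∀ᶠ n in atTop, |(Real.log (Z' n) - c (0 + 1) n) - (c 0 n - c (0 + 1) n)| ≤ E + E0 := by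
    filter_upwards [hZ', hE0] with n h1 h2
    rw [abs_le] at h1 h2 ⊢
    constructor <;> linarith
  obtain ⟨e1, e2⟩ := shift_ev (hJ 0 (by omega)) (hs 0 (by omega)) hJ' hdist
  have hw := winJ hBIN hφ hW0 hW1 (mul_nonneg hg0 hW0.le) hgl (r + 1)
    (fun i => Nat.casesOn i (fun n => Real.log (Z' n)) (fun i => c (i + 1)))
    (fun i => Nat.casesOn i J' (fun i => J (i + 1))) s hcr
    (by
      intro i hi
      rcases i with _ | i
      · show Tendsto (fun n => Real.log (Z' n) - c 1 n) atTop atTop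
        apply tendsto_atTop_mono' atTop (f₁ := fun n => c 0 n - c (0 + 1) n - (E + E0))
        · filter_upwards [hdist] with n hn
          rw [abs_le] at hn
          simp only [Nat.zero_add] at hn ⊢
          linarith
        · exact tendsto_atTop_add_const_right atTop (-(E + E0)) (hcd 0 (by omega))
      · exact hcd (i + 1) hi)
    (by
      intro i hi
      rcases i with _ | i
      · exact e1
      · exact hJ (i + 1) hi)
    (by
      intro i hi
      rcases i with _ | i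
      · exact e2
      · exact hs (i + 1) hi)
  have h2 := WL_seq hw 0 (-x)
  rw [show g * (∏ i ∈ Finset.range (r + 1), gs (s i)) * W = g * W * ∏ i ∈ Finset.range (r + 1), gs (s i) by ring]
  exact h2

theorem cR_phiQ {R : ℤ → Prop} [DecidablePred R] (hR : ∀ N, R N → Odd N) (S : Set ℤ) (Q : ℤ → Prop) [DecidablePred Q] (X : ℕ) :
    Nc (fun N => if R N then (if Q N then phi S N else 0) else 0) X = cR R (fun N => N ∈ S ∧ Q N) (X : ℝ) := by
  classical
  have h2 : cR R (fun n => n < 0 ∧ (n ∈ S ∧ Q n)) (X : ℝ) = cR R (fun n => n ∈ S ∧ Q n) (X : ℝ) := by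
    apply le_antisymm
    · exact cR_mono (fun N _ _ b3 b4 => ⟨b3, b4.2⟩)
    · exact cR_mono (fun N b1 _ b3 b4 => ⟨b3, b1, b4⟩)
  rw [← h2, ← cR_card R (fun n => n < 0 ∧ (n ∈ S ∧ Q n)) (fun n hn h => absurd h.1 (not_lt.mpr hn)) X]
  unfold Nc
  apply Finset.sum_congr rfl
  intro n _
  beta_reduce
  by_cases hr : R n
  · rw [if_pos hr, if_pos hr]
    have ho := hR n hr
    by_cases hE : n < 0 ∧ (n ∈ S ∧ Q n)
    · rw [if_pos hE]
      obtain ⟨a1, a2, a3⟩ := hE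
      rw [if_pos a3]
      unfold phi
      rw [if_pos ((PS_odd ho).mpr ⟨a1, a2⟩)]
    · rw [if_neg hE]
      by_cases h3 : Q n
      · rw [if_pos h3]
        unfold phi
        rw [if_neg]
        intro h4
        obtain ⟨a1, a2⟩ := (PS_odd ho).mp h4
        exact hE ⟨a1, a2, h3⟩
      · rw [if_neg h3]
  · rw [if_neg hr, if_neg hr]

/-- the condition on the first passage times through the levels `f (i + 1) x` -/
def Pv (r : ℕ) (f : ℕ → ℝ → ℝ) (s : ℕ → ℝ) (x : ℝ) (N : ℤ) : Prop :=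
  ∃ k : ℕ → ℕ, k 0 = 0 ∧ ∀ i : ℕ, i < r → IsLeast {t : ℕ | |((syr^[t] N : ℤ) : ℝ)| ≤ f (i + 1) x} (k (i + 1)) ∧
    (((k (i + 1) : ℝ) - k i) * DD - Real.log (f i x / f (i + 1) x)) * Real.sqrt DD ≤
      s i * (Real.log 2 * Real.sqrt (2 * Real.log (f i x / f (i + 1) x)))

theorem Pv_iff {r : ℕ} {f : ℕ → ℝ → ℝ} {s : ℕ → ℝ} {x : ℝ} {c : ℕ → ℝ} (hc : ∀ i : ℕ, i ≤ r → Real.exp (c i) = f i x)
    (hcd : ∀ i : ℕ, i < r → c (i + 1) ≤ c i) {N : ℤ} : Pv r f s x N ↔ SEv r c s N := by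
  have hq : ∀ i : ℕ, i < r → f i x / f (i + 1) x = Real.exp (c i - c (i + 1)) := by
    intro i hi
    rw [Real.exp_sub, hc i (by omega), hc (i + 1) (by omega)]
  have hset : ∀ i : ℕ, i < r → {t : ℕ | |((syr^[t] N : ℤ) : ℝ)| ≤ f (i + 1) x} = kS (c (i + 1)) N := by
    intro i hi
    unfold kS
    rw [hc (i + 1) (by omega)]
  have hmono : ∀ k : ℕ → ℕ, k 0 = 0 → (∀ i : ℕ, i < r → IsLeast (kS (c (i + 1)) N) (k (i + 1))) → ∀ i : ℕ, i < r → k i ≤ k (i + 1) := by
    intro k hk0 hk i hi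
    rcases i with _ | i
    · rw [hk0]; exact Nat.zero_le _
    · apply (hk i (by omega)).2
      have h1 := (hk (i + 1) hi).1
      unfold kS at h1 ⊢
      exact le_trans h1 (Real.exp_le_exp.mpr (hcd (i + 1) hi))
  constructor
  · rintro ⟨k, hk0, hk⟩
    have h1 : ∀ i : ℕ, i < r → IsLeast (kS (c (i + 1)) N) (k (i + 1)) := fun i hi => by
      rw [← hset i hi]; exact (hk i hi).1
    refine ⟨k, hk0, fun i hi => ⟨h1 i hi, ?_⟩⟩
    unfold Cnd
    rw [Nat.cast_sub (hmono k hk0 h1 i hi), ← hq i hi]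
    exact (hk i hi).2
  · rintro ⟨k, hk0, hk⟩
    have h1 : ∀ i : ℕ, i < r → IsLeast (kS (c (i + 1)) N) (k (i + 1)) := fun i hi => (hk i hi).1
    refine ⟨k, hk0, fun i hi => ⟨by rw [hset i hi]; exact h1 i hi, ?_⟩⟩
    have h2 := (hk i hi).2
    unfold Cnd at h2
    rw [Nat.cast_sub (hmono k hk0 h1 i hi), ← hq i hi] at h2
    exact h2

end Pool.Agent.Helper3.HT
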