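import Pool.Agent.Helper3.HT.JntE

/-! Several levels: the final statement in residue classes. -/

namespace Pool.Agent.Helper3.HT

open Pool.Agent.Helper3.ND Pool.Agent.Helper3.TD Pool.Agent.Helper32.HT Pool.Agent.Helper32.EQ Filter Topology

theorem ev_all {p : ℕ → ℕ → Prop} (r : ℕ) (h : ∀ i : ℕ, i < r → ∀ᶠ n in atTop, p i n) : ∀ᶠ n in atTop, ∀ i : ℕ, i < r → p i n := by
  have := (Filter.eventually_all_finset (Finset.range r)).mpr (fun i hi => h i (Finset.mem_range.mp hi))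
  filter_upwards [this] with n hn i hi
  exact hn i (Finset.mem_range.mpr hi)

/-- times at a bounded distance plus a small power are normalised correctly -/
theorem J_norm {L : ℕ → ℝ} {J : ℕ → ℕ} {s : ℝ} (hL : Tendsto L atTop atTop)
    (hJ : ∀ᶠ n in atTop, |(J n : ℝ) - AA s (Real.exp (L n))| ≤ 2 + Real.sqrt (Real.sqrt (L n))) :
    Tendsto J atTop atTop ∧ Tendsto (fun n => ((J n : ℝ) * TD.mu - L n) / (Real.log 3 / 2 * Real.sqrt (J n))) atTop (𝓝 s) := by
  have hr : Tendsto (fun n => Real.sqrt (L n)) atTop atTop := Real.tendsto_sqrt_atTop.comp hL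
  have h0 : Tendsto (fun n => (2 : ℝ) / Real.sqrt (L n) + (Real.sqrt (Real.sqrt (L n)))⁻¹) atTop (𝓝 (0 + 0)) :=
    (Tendsto.div_atTop tendsto_const_nhds hr).add (tendsto_inv_atTop_zero.comp (Real.tendsto_sqrt_atTop.comp hr))
  rw [add_zero] at h0
  refine Pool.Agent.Helper3.HT.norm_lim (L := L) (J := J) (s := s) hL rfl ?_
  apply squeeze_zero_norm' _ h0
  filter_upwards [hJ, hr.eventually_gt_atTop 0] with n h3 h4
  rw [AA_eq, Real.log_exp] at h3
  rw [Real.norm_eq_abs, abs_div, abs_of_pos h4]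
  have h5 : 0 < Real.sqrt (Real.sqrt (L n)) := Real.sqrt_pos.mpr h4
  have e2 : Real.sqrt (L n) = Real.sqrt (Real.sqrt (L n)) * Real.sqrt (Real.sqrt (L n)) := (Real.mul_self_sqrt h4.le).symm
  have e3 : (2 : ℝ) / Real.sqrt (L n) + (Real.sqrt (Real.sqrt (L n)))⁻¹ = (2 + Real.sqrt (Real.sqrt (L n))) / Real.sqrt (L n) := by
    rw [add_div]
    congr 1
    rw [eq_div_iff h4.ne']
    nth_rewrite 2 [e2]
    field_simp
  rw [e3]
  exact div_le_div_of_nonneg_right h3 h4.le

/-- **the joint law of the times to come down through finitely many levels, in residue classes** -/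
theorem jntC (hBIN : ST_BIN) {S : Set ℤ} {Y : ℕ} (hS : SI Y S) : ∃ d : ℝ, ∀ m : ℕ, 1 ≤ m → ∀ b : ℤ, Odd b →
    ∀ (r : ℕ) (f : ℕ → ℝ → ℝ) (s : ℕ → ℝ), (∀ x, f 0 x = x) → Tendsto (f r) atTop atTop →
      (∀ i : ℕ, i < r → Tendsto (fun x => f i x / f (i + 1) x) atTop atTop) →
      Tendsto (fun x : ℝ => (cR (fun N => (2 * m : ℤ) ∣ N - b) (fun N => N ∈ S ∧ Pv r f s x N) x : ℝ) / x) atTop
        (𝓝 (d / m * ∏ i ∈ Finset.range r, gs (s i))) := by
  classical
  have hφ := phi_invY hS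
  obtain ⟨g, hg⟩ := Gs_lim (Nat.cast_nonneg Y) hφ
  have hg0 : 0 ≤ g := by
    have h1 := hg 0
    simp only [pow_zero, mul_one] at h1
    exact ge_of_tendsto' h1 (fun b => Gs_nonneg hφ.nonneg _ _)
  refine ⟨g / 2, fun m hm b hb r f s hf0 hfr hfd => ?_⟩
  obtain ⟨R, hRd⟩ : ∃ R : ℤ → Prop, R = fun N => (2 * m : ℤ) ∣ N - b := ⟨_, rfl⟩
  have hR : ∀ N : ℤ, R N → Odd N := by
    intro N hN
    rw [hRd] at hN
    obtain ⟨q, hq⟩ := hN
    obtain ⟨r, rfl⟩ := hb
    refine ⟨m * q + r, ?_⟩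
    linarith
  have hcast : ∀ N : ℤ, (((2 * m : ℕ) : ℤ) ∣ N - b) ↔ R N := by
    intro N; rw [hRd]; push_cast; rfl
  have hm0 : (m : ℝ) ≠ 0 := by
    have : (0 : ℝ) < m := by exact_mod_cast hm
    exact this.ne'
  rw [← hRd]
  rcases Nat.eq_zero_or_pos r with hr0 | hr0
  · -- the density
    subst hr0
    have H1 := all_classes dcH (Nat.cast_nonneg Y) hφ (nat_dens_of hφ hg) (2 * m) (by omega) b
    have hcm : g / ((2 * m : ℕ) : ℝ) = g / 2 / m := by
      push_cast
      field_simp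
    rw [hcm] at H1
    simp only [hcast] at H1
    rw [Finset.prod_range_zero, mul_one]
    have he : ∀ x : ℝ, cR R (fun N => N ∈ S ∧ Pv 0 f s x N) x = cR R (fun N => N ∈ S) x := by
      intro x
      apply le_antisymm
      · exact cR_mono (fun N _ _ b3 b4 => ⟨b3, b4.1⟩)
      · exact cR_mono (fun N _ _ b3 b4 => ⟨b3, b4, ⟨fun _ => 0, rfl, fun i hi => absurd hi (by omega)⟩⟩)
    simp only [he]
    apply real_lim (G := fun x => (cR R (fun N => N ∈ S) x : ℝ))
    · refine H1.congr (fun X => ?_)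
      rw [← cR_phi hR S X]
    · filter_upwards [eventually_ge_atTop 1] with x hx
      have h3 := Nat.floor_le (show 0 ≤ x by linarith)
      have h4 := Nat.lt_floor_add_one x
      constructor
      · exact_mod_cast cR_mono (fun N _ _ b3 b4 => ⟨by linarith, b4⟩)
      · exact_mod_cast cR_mono (fun N _ _ b3 b4 => ⟨by push_cast; linarith, b4⟩)
  obtain ⟨r', rfl⟩ : ∃ r', r = r' + 1 := ⟨r - 1, by omega⟩
  have hft : ∀ i : ℕ, i ≤ r' + 1 → Tendsto (f i) atTop atTop := by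
    have : ∀ p : ℕ, p ≤ r' + 1 → Tendsto (f (r' + 1 - p)) atTop atTop := by
      intro p
      induction p with
      | zero => intro _; exact hfr
      | succ p ihp =>
        intro hp
        have h2 := ihp (by omega)
        have h3 := hfd (r' + 1 - (p + 1)) (by omega)
        rw [show r' + 1 - (p + 1) + 1 = r' + 1 - p by omega] at h3
        have h4 := h3.atTop_mul_atTop₀ h2
        refine h4.congr' ?_
        filter_upwards [h2.eventually_gt_atTop 0] with x hx
        rw [div_mul_cancel₀ _ hx.ne']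
    intro i hi
    have h2 := this (r' + 1 - i) (by omega)
    rwa [show r' + 1 - (r' + 1 - i) = i by omega] at h2
  apply tendsto_of_seq_tendsto
  intro u hu
  obtain ⟨c, hc⟩ : ∃ c : ℕ → ℕ → ℝ, c = fun i n => Real.log (f i (u n)) := ⟨_, rfl⟩
  obtain ⟨Z, hZ⟩ : ∃ Z : ℕ → ℕ, Z = fun n => ⌊u n⌋₊ := ⟨_, rfl⟩
  have hfu : ∀ i : ℕ, i ≤ r' + 1 → Tendsto (fun n => f i (u n)) atTop atTop := fun i hi => (hft i hi).comp hu
  have hct : ∀ i : ℕ, i ≤ r' + 1 → Tendsto (c i) atTop atTop := fun i hi => by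
    rw [hc]; exact Real.tendsto_log_atTop.comp (hfu i hi)
  have hZt : Tendsto Z atTop atTop := by rw [hZ]; exact (tendsto_nat_floor_atTop (α := ℝ)).comp hu
  have hcd : ∀ i : ℕ, i < r' + 1 → Tendsto (fun n => c i n - c (i + 1) n) atTop atTop := by
    intro i hi
    have h1 := Real.tendsto_log_atTop.comp ((hfd i hi).comp hu)
    refine h1.congr' ?_
    filter_upwards [(hfu i (by omega)).eventually_gt_atTop 0, (hfu (i + 1) (by omega)).eventually_gt_atTop 0] with n h2 h3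
    simp only [Function.comp, hc]
    exact Real.log_div h2.ne' h3.ne'
  have hexp : ∀ᶠ n in atTop, ∀ i : ℕ, i < r' + 2 → Real.exp (c i n) = f i (u n) := by
    apply ev_all
    intro i hi
    filter_upwards [(hfu i (by omega)).eventually_gt_atTop 0] with n h2
    rw [hc]
    exact Real.exp_log h2
  have hdec : ∀ᶠ n in atTop, ∀ i : ℕ, i < r' + 1 → c (i + 1) n ≤ c i n := by
    apply ev_all
    intro i hi
    filter_upwards [(hcd i hi).eventually_ge_atTop 0] with n h2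
    linarith
  have hdiff : ∀ᶠ n in atTop, |Real.log (Z n : ℝ) - c 0 n| ≤ 1 := by
    filter_upwards [hu.eventually_ge_atTop 2] with n h1
    have hZ1 : 1 ≤ Z n := by rw [hZ]; exact Nat.le_floor (by push_cast; linarith)
    have hZ1r : (1 : ℝ) ≤ Z n := by exact_mod_cast hZ1
    have h3 : (Z n : ℝ) ≤ u n := by rw [hZ]; exact Nat.floor_le (by linarith)
    have h4 : u n ≤ 2 * (Z n : ℝ) := by
      have := Nat.lt_floor_add_one (u n)
      have e : (Z n : ℝ) = ((⌊u n⌋₊ : ℕ) : ℝ) := by rw [hZ]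
      rw [← e] at this
      linarith
    have h5 := Real.log_le_log (by linarith) h3
    have h6 := Real.log_le_log (by linarith) h4
    rw [Real.log_mul (by norm_num) (by linarith)] at h6
    have h7 : c 0 n = Real.log (u n) := by rw [hc]; simp only [hf0]
    rw [h7]
    have := Real.log_two_lt_d9
    rw [abs_le]
    constructor <;> linarith
  have hYe : ∀ᶠ n in atTop, ((Y : ℕ) : ℝ) ≤ Real.exp (c (r' + 1) n) := by
    filter_upwards [(hct (r' + 1) le_rfl).eventually_ge_atTop ((Y : ℕ) : ℝ)] with n h1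
    have := Real.add_one_le_exp (c (r' + 1) n)
    linarith
  -- the limits
  have hlim : ∀ (J : ℕ → ℕ → ℕ), (∀ i : ℕ, i < r' + 1 → ∀ᶠ n in atTop, |(J i n : ℝ) - AA (s i) (Real.exp (c i n - c (i + 1) n))| ≤
        2 + Real.sqrt (Real.sqrt (c i n - c (i + 1) n))) →
      Tendsto (fun n : ℕ => ((cR R (fun N => N ∈ S ∧ TEv (r' + 1) (fun i => c i n) (fun i => J i n) N) (Z n : ℝ) : ℕ) : ℝ) / Z n) atTop
        (𝓝 (g / 2 / m * ∏ i ∈ Finset.range (r' + 1), gs (s i))) := by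
    intro J hJ
    have h1 : ∀ i : ℕ, i < r' + 1 → Tendsto (J i) atTop atTop ∧
        Tendsto (fun n => ((J i n : ℝ) * TD.mu - (c i n - c (i + 1) n)) / (Real.log 3 / 2 * Real.sqrt (J i n))) atTop (𝓝 (s i)) :=
      fun i hi => J_norm (L := fun n => c i n - c (i + 1) n) (hcd i hi) (hJ i hi)
    have h2 := clsJ hBIN hφ hg0 hg r' c J s Z hZt (hct (r' + 1) le_rfl) hcd (fun i hi => (h1 i hi).1) (fun i hi => (h1 i hi).2) hdiff
      (M := 2 * m) (by omega) b
    have hcm : g * (∏ i ∈ Finset.range (r' + 1), gs (s i)) / ((2 * m : ℕ) : ℝ) = g / 2 / m * ∏ i ∈ Finset.range (r' + 1), gs (s i) := by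
      push_cast
      field_simp
    rw [hcm] at h2
    refine h2.congr' ?_
    filter_upwards [hdec, hYe] with n h3 h4
    rw [← cR_phiQ hR S (TEv (r' + 1) (fun i => c i n) (fun i => J i n)) (Z n)]
    congr 1
    congr 1
    funext N
    rw [ES_eq hφ (r' + 1) (fun i => c i n) (fun i => J i n) (fun _ => h4) (fun i _ hi => h3 i hi) N]
    exact if_congr (hcast N) rfl rfl
  have hXt : ∀ i : ℕ, i < r' + 1 → Tendsto (fun n => Real.exp (c i n - c (i + 1) n)) atTop atTop := fun i hi =>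
    Real.tendsto_exp_atTop.comp (hcd i hi)
  have hup := hlim (fun i n => ⌊AA (s i) (Real.exp (c i n - c (i + 1) n)) + 1⌋₊) (by
    intro i hi
    filter_upwards [(hXt i hi).eventually (AA_evR (s i))] with n h1
    rw [Real.log_exp] at h1
    have h2 := Real.sqrt_nonneg (Real.sqrt (c i n - c (i + 1) n))
    have h3 := Nat.floor_le (show 0 ≤ AA (s i) (Real.exp (c i n - c (i + 1) n)) + 1 by linarith)
    have h4 := Nat.lt_floor_add_one (AA (s i) (Real.exp (c i n - c (i + 1) n)) + 1)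
    rw [abs_le]
    constructor <;> linarith)
  have hlo := hlim (fun i n => ⌊AA (s i) (Real.exp (c i n - c (i + 1) n)) -
      Real.sqrt (Real.sqrt (Real.log (Real.exp (c i n - c (i + 1) n))))⌋₊) (by
    intro i hi
    filter_upwards [(hXt i hi).eventually (AA_evR (s i))] with n h1
    have h2 := Real.sqrt_nonneg (Real.sqrt (Real.log (Real.exp (c i n - c (i + 1) n))))
    have h3 := Nat.floor_le h1
    have h4 := Nat.lt_floor_add_one (AA (s i) (Real.exp (c i n - c (i + 1) n)) - Real.sqrt (Real.sqrt (Real.log (Real.exp (c i n - c (i + 1) n)))))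
    rw [Real.log_exp] at h2 h3 h4 ⊢
    rw [abs_le]
    constructor <;> linarith)
  -- the ratio
  have hrat : Tendsto (fun n => (Z n : ℝ) / u n) atTop (𝓝 1) := by
    rw [hZ]
    exact (tendsto_nat_floor_div_atTop (R := ℝ)).comp hu
  have hup2 := hup.mul hrat
  have hlo2 := hlo.mul hrat
  rw [mul_one] at hup2 hlo2
  have hL0 := hcd 0 (by omega)
  have h3 : Tendsto (fun n => (c 0 n - c (0 + 1) n)⁻¹ + (u n)⁻¹) atTop (𝓝 (0 + 0)) :=
    (tendsto_inv_atTop_zero.comp hL0).add (tendsto_inv_atTop_zero.comp hu)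
  have h4 := hlo2.sub h3
  rw [add_zero, sub_zero] at h4
  have hev : ∀ᶠ n in atTop, ∀ i : ℕ, i < r' + 1 → 2 ≤ Real.log (Real.exp (c i n - c (i + 1) n)) ∧
      0 ≤ KK (s i) (Real.exp (c i n - c (i + 1) n)) ∧
      Real.log (KK (s i) (Real.exp (c i n - c (i + 1) n)) + 1) + 0 + Real.log (Real.log (Real.exp (c i n - c (i + 1) n))) <
        Real.log 2 * Real.sqrt (Real.sqrt (Real.log (Real.exp (c i n - c (i + 1) n)))) ∧
      0 ≤ AA (s i) (Real.exp (c i n - c (i + 1) n)) - Real.sqrt (Real.sqrt (Real.log (Real.exp (c i n - c (i + 1) n)))) := by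
    apply ev_all
    intro i hi
    filter_upwards [(hXt i hi).eventually (AA_evR (s i)), (hXt i hi).eventually (ev_XR (s i)), (hcd i hi).eventually_ge_atTop 2] with n g1 g2 g3
    exact ⟨by rw [Real.log_exp]; exact g3, g2.2.1, g2.2.2, g1⟩
  refine tendsto_of_tendsto_of_tendsto_of_le_of_le' h4 hup2 ?_ ?_
  · filter_upwards [hev, hexp, hdec, hu.eventually_ge_atTop 2, (hct (r' + 1) le_rfl).eventually_ge_atTop 0] with n g1 g2 g3 g4 g5
    have hup0 : 0 < u n := by linarith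
    have hZ1 : 1 ≤ Z n := by rw [hZ]; exact Nat.le_floor (by push_cast; linarith)
    have hZ0 : (0 : ℝ) < Z n := by exact_mod_cast hZ1
    have hZu : (Z n : ℝ) ≤ u n := by rw [hZ]; exact Nat.floor_le (by linarith)
    have hc0 : Real.exp (c 0 n) = u n := by rw [g2 0 (by omega), hf0]
    have hl2 : 2 ≤ c 0 n - c (0 + 1) n := by
      have := (g1 0 (by omega)).1
      rwa [Real.log_exp] at this
    have e1 : 0 < c 0 n - c (0 + 1) n := by linarith
    have h5 : cR R (fun N => N ∈ S ∧ TEv (r' + 1) (fun i => c i n) (fun i => ⌊AA (s i) (Real.exp (c i n - c (i + 1) n)) -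
          Real.sqrt (Real.sqrt (Real.log (Real.exp (c i n - c (i + 1) n))))⌋₊) N) (Z n : ℝ) ≤
        cR R (fun N => N ∈ S ∧ Pv (r' + 1) f s (u n) N) (u n) + cR R (fun _ => True) (u n / (c 0 n - c (0 + 1) n)) := by
      apply cR_union
      rintro N b1 b2 b3 ⟨b4, b5⟩
      have hNr : (N : ℝ) < 0 := by exact_mod_cast b1
      by_cases hc' : u n ≤ (-(N : ℝ)) * (c 0 n - c (0 + 1) n)
      · left
        refine ⟨by linarith, b4, ?_⟩
        rw [Pv_iff (c := fun i => c i n) (fun i hi => g2 i (by omega)) g3]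
        refine SEv_down (c := fun i => c i n) g3 g5 (hR N b2) b1 ?_ ?_ g1 b5
        · rw [hc0, abs_of_neg hNr]; linarith
        · intro _
          rw [hc0, abs_of_neg hNr, Real.log_exp]
          exact hc'
      · right
        refine ⟨?_, trivial⟩
        have h6 : (-(N : ℝ)) ≤ u n / (c 0 n - c (0 + 1) n) := by
          rw [le_div_iff₀ e1]
          exact (not_le.mp hc').le
        linarith
    have h6 : (cR R (fun _ => True) (u n / (c 0 n - c (0 + 1) n)) : ℝ) ≤ u n / (c 0 n - c (0 + 1) n) + 1 :=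
      cR_small _ _ (div_pos hup0 e1).le
    have h7 : ((cR R (fun N => N ∈ S ∧ TEv (r' + 1) (fun i => c i n) (fun i => ⌊AA (s i) (Real.exp (c i n - c (i + 1) n)) -
          Real.sqrt (Real.sqrt (Real.log (Real.exp (c i n - c (i + 1) n))))⌋₊) N) (Z n : ℝ) : ℕ) : ℝ) ≤
        ((cR R (fun N => N ∈ S ∧ Pv (r' + 1) f s (u n) N) (u n) : ℕ) : ℝ) +
          (cR R (fun _ => True) (u n / (c 0 n - c (0 + 1) n)) : ℝ) := by
      exact_mod_cast h5
    simp only [Function.comp]
    rw [div_mul_div_cancel₀ hZ0.ne']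
    have h8 : (c 0 n - c (0 + 1) n)⁻¹ + (u n)⁻¹ = (u n / (c 0 n - c (0 + 1) n) + 1) / u n := by
      field_simp
    rw [h8, ← sub_div]
    apply div_le_div_of_nonneg_right _ hup0.le
    linarith
  · filter_upwards [hexp, hdec, hu.eventually_ge_atTop 2] with n g2 g3 g4
    have hup0 : 0 < u n := by linarith
    have hZ1 : 1 ≤ Z n := by rw [hZ]; exact Nat.le_floor (by push_cast; linarith)
    have hZ0 : (0 : ℝ) < Z n := by exact_mod_cast hZ1
    have hc0 : Real.exp (c 0 n) = u n := by rw [g2 0 (by omega), hf0]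
    simp only [Function.comp]
    rw [div_mul_div_cancel₀ hZ0.ne']
    apply div_le_div_of_nonneg_right _ hup0.le
    have h5 : cR R (fun N => N ∈ S ∧ Pv (r' + 1) f s (u n) N) (u n) ≤
        cR R (fun N => N ∈ S ∧ TEv (r' + 1) (fun i => c i n) (fun i => ⌊AA (s i) (Real.exp (c i n - c (i + 1) n)) + 1⌋₊) N) (Z n : ℝ) := by
      apply cR_mono
      rintro N b1 b2 b3 ⟨b4, b5⟩
      have hNr : (N : ℝ) < 0 := by exact_mod_cast b1
      refine ⟨?_, b4, ?_⟩
      · have h5 : (((-N).toNat : ℕ) : ℝ) ≤ u n := by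
          have : (((-N).toNat : ℕ) : ℤ) = -N := Int.toNat_of_nonneg (by omega)
          have h6 : (((-N).toNat : ℕ) : ℝ) = -(N : ℝ) := by exact_mod_cast congrArg (Int.cast : ℤ → ℝ) this
          rw [h6]; linarith
        have h6 := Nat.le_floor h5
        have hZn : Z n = ⌊u n⌋₊ := by rw [hZ]
        have h7 : -(Z n : ℤ) ≤ N := by omega
        exact_mod_cast h7
      · rw [Pv_iff (c := fun i => c i n) (fun i hi => g2 i (by omega)) g3] at b5
        exact SEv_up (c := fun i => c i n) g3 (hR N b2) b1 (by rw [hc0, abs_of_neg hNr]; linarith) b5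
    exact_mod_cast h5

/-- **the joint law for unions of invariant sets** -/
theorem jntU (hBIN : ST_BIN) (Y : ℕ) (S : ℕ → Set ℤ)
    (hinv : ∀ i : ℕ, ∀ N : ℤ, N < -(Y : ℤ) → Odd N → (N ∈ S i ↔ (3 * N + 1) / 2 ^ padicValInt 2 (3 * N + 1) ∈ S i))
    (hdis : ∀ i j : ℕ, i ≠ j → Disjoint (S i) (S j)) :
    ∃ d : ℕ → ℝ, Summable d ∧ ∀ I : Set ℕ, ∀ m : ℕ, 1 ≤ m → ∀ b : ℤ, Odd b → ∀ (r : ℕ) (f : ℕ → ℝ → ℝ) (s : ℕ → ℝ),
      (∀ x, f 0 x = x) → Tendsto (f r) atTop atTop → (∀ i : ℕ, i < r → Tendsto (fun x => f i x / f (i + 1) x) atTop atTop) →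
      Tendsto (fun x : ℝ => (cR (fun N => (2 * m : ℤ) ∣ N - b) (fun N => (∃ i ∈ I, N ∈ S i) ∧ Pv r f s x N) x : ℝ) / x) atTop
        (𝓝 ((∑' i : I, d i) / m * ∏ i ∈ Finset.range r, gs (s i))) := by
  obtain ⟨d, hd, H⟩ := levU hBIN Y S hinv hdis
  refine ⟨d, hd, fun I => ?_⟩
  have hU : SI Y {N : ℤ | ∃ i ∈ I, N ∈ S i} := by
    intro N h1 h2
    constructor
    · rintro ⟨i, hi, h3⟩
      exact ⟨i, hi, (hinv i N h1 h2).mp h3⟩
    · rintro ⟨i, hi, h3⟩
      exact ⟨i, hi, (hinv i N h1 h2).mpr h3⟩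
  obtain ⟨δ, hδ⟩ := jntC hBIN hU
  have hδd : δ = ∑' i : I, d i := by
    have h1 := (H I 1 le_rfl 1 (by decide)).1
    have h2 := hδ 1 le_rfl 1 (by decide) 0 (fun _ x => x) (fun _ => 0) (fun _ => rfl) tendsto_id (fun i hi => absurd hi (by omega))
    have he : ∀ x : ℝ, cR (fun N => (2 * ((1 : ℕ) : ℤ) : ℤ) ∣ N - 1) (fun N => N ∈ {N : ℤ | ∃ i ∈ I, N ∈ S i} ∧ Pv 0 (fun _ x => x) (fun _ => 0) x N) x =
        cR (fun N => (2 * ((1 : ℕ) : ℤ) : ℤ) ∣ N - 1) (fun N => ∃ i ∈ I, N ∈ S i) x := by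
      intro x
      apply le_antisymm
      · exact cR_mono (fun N _ _ b3 b4 => ⟨b3, b4.1⟩)
      · exact cR_mono (fun N _ _ b3 b4 => ⟨b3, b4, ⟨fun _ => 0, rfl, fun i hi => absurd hi (by omega)⟩⟩)
    simp only [he] at h2
    have h3 := tendsto_nhds_unique h2 h1
    simpa using h3
  intro m hm b hb
  rw [← hδd]
  exact hδ m hm b hb

end Pool.Agent.Helper3.HT
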