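import Pool.Agent.Helper3.HT.Stmts

/-! One-sided propagation of bounds through the scales, for a general function of time and scale. -/

namespace Pool.Agent.Helper3.HT

open Pool.Agent.Helper3.ND Pool.Agent.Helper3.TD Filter Topology

theorem prop_gen {C K : ℝ} (hC : 0 ≤ C) (hK : 0 ≤ K) : ∃ C' : ℝ, 0 < C' ∧ ∀ D : ℕ → ℝ → ℝ, ∀ A0 : ℝ, 10 ^ 5 ≤ A0 →
    (∀ (j : ℕ) (b : ℝ), 3 ≤ b → D j b ≤ K) →
    (∀ a : ℝ, A0 ≤ a → ∀ n : ℕ, n = ⌊a / 100⌋₊ → ∀ j : ℕ,
      D j a ≤ 0 ∨ ∃ j' : ℕ, D j a ≤ Eo n (fun i => D j' (bk a n i)) + C / a ^ 2) →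
    ∀ N0 : ℕ, A0 ≤ N0 → ∀ B : ℝ, 0 ≤ B → (∀ b : ℝ, (N0 : ℝ) ≤ b → b ≤ 2 * N0 → ∀ j : ℕ, D j b ≤ B) →
    ∀ a : ℝ, (N0 : ℝ) ≤ a → ∀ j : ℕ, D j a ≤ B + C' / N0 := by
  refine ⟨2 * (C + 2 * K * (2 * (10 ^ 6) ^ 2) + 1), by positivity, ?_⟩
  intro D A0 hA0 hbd hstep N0 hN0 B hB hyp
  obtain ⟨C1, hC1⟩ : ∃ C1, C1 = C + 2 * K * (2 * (10 ^ 6) ^ 2) + 1 := ⟨_, rfl⟩
  have hC10 : 0 < C1 := by rw [hC1]; positivity
  rw [← hC1]
  have hN5 : (10 ^ 5 : ℝ) ≤ N0 := by linarith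
  have hN0pos : (0 : ℝ) < N0 := by linarith
  have hN1 : 2 ≤ N0 := by
    have : (2 : ℝ) ≤ N0 := by linarith
    exact_mod_cast this
  -- one step
  have one : ∀ a : ℝ, (2 * N0 : ℝ) ≤ a → ∀ B' : ℝ, 0 ≤ B' → (∀ b : ℝ, (N0 : ℝ) ≤ b → b ≤ a - 1 → ∀ j : ℕ, D j b ≤ B') →
      ∀ j : ℕ, D j a ≤ B' + C1 / a ^ 2 := by
    intro a ha B' hB' hb j
    have ha5 : (10 ^ 5 : ℝ) ≤ a := by linarith
    have ha0 : 0 < a := by linarith
    obtain ⟨n, hn⟩ : ∃ n, n = ⌊a / 100⌋₊ := ⟨_, rfl⟩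
    have hn1 : (n : ℝ) ≤ a / 100 := by rw [hn]; exact Nat.floor_le (by positivity)
    have hn2 : a / 100 - 1 < n := by rw [hn]; exact Nat.sub_one_lt_floor _
    have hn3 : a / 200 ≤ n := by linarith
    have hn0 : (0 : ℝ) < n := by linarith
    have hp : 0 ≤ C1 / a ^ 2 := by positivity
    rcases hstep a (by linarith) n hn j with h | ⟨j', h⟩
    · linarith
    · have h3 : Eo n (fun i => D j' (bk a n i)) ≤ Eo n (fun i => B' + K * (if (n : ℝ) / 100 ≤ |(i : ℝ) - n / 2| then (1 : ℝ) else 0)) := by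
        apply Eo_mono'
        intro i hi
        obtain ⟨b1, b2⟩ := bk_bounds (a := a) hi
        split_ifs with h4
        · have := hbd j' (bk a n i) (by linarith)
          linarith
        · rw [not_le] at h4
          have h5 := bk_typ (A := a) h4
          have := hb (bk a n i) (by linarith) (by linarith) j'
          linarith
      rw [Eo_add_fun, Eo_const, Eo_mul] at h3
      have h4 := Eo_tail (n := n) (by exact_mod_cast hn0)
      have h5 : Real.exp (-((n : ℝ) / 5000)) ≤ 2 * (10 ^ 6) ^ 2 / a ^ 2 := by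
        have h6 := exp_neg_powK 2 (show 0 < (n : ℝ) / 5000 by positivity)
        refine le_trans h6 ?_
        rw [show ((Nat.factorial 2 : ℕ) : ℝ) = 2 by norm_num [Nat.factorial], div_le_div_iff₀ (by positivity) (by positivity)]
        have h7 : a ^ 2 ≤ (10 ^ 6 * (n / 5000)) ^ 2 := by
          apply pow_le_pow_left₀ ha0.le
          linarith
        nlinarith
      have h6 : K * Eo n (fun i => if (n : ℝ) / 100 ≤ |(i : ℝ) - n / 2| then (1 : ℝ) else 0) ≤ 2 * K * (2 * (10 ^ 6) ^ 2) / a ^ 2 := by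
        calc K * Eo n (fun i => if (n : ℝ) / 100 ≤ |(i : ℝ) - n / 2| then (1 : ℝ) else 0) ≤ K * (2 * Real.exp (-((n : ℝ) / 5000))) := by gcongr
          _ ≤ K * (2 * (2 * (10 ^ 6) ^ 2 / a ^ 2)) := by gcongr
          _ = _ := by ring
      have h7 : C1 / a ^ 2 = C / a ^ 2 + 2 * K * (2 * (10 ^ 6) ^ 2) / a ^ 2 + 1 / a ^ 2 := by rw [hC1]; ring
      have h8 : 0 ≤ 1 / a ^ 2 := by positivity
      rw [h7]
      linarith
  have key : ∀ n : ℕ, ∀ a : ℝ, (N0 : ℝ) ≤ a → a ≤ 2 * N0 + n → ∀ j : ℕ,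
      D j a ≤ B + C1 * ∑ i ∈ Finset.range n, 1 / ((N0 : ℝ) + i) ^ 2 := by
    intro n
    induction n with
    | zero =>
      intro a h1 h2 j
      simpa using hyp a h1 (by simpa using h2) j
    | succ n ih =>
      intro a h1 h2 j
      rw [Finset.sum_range_succ, mul_add, ← add_assoc]
      have hpos : 0 ≤ C1 * (1 / ((N0 : ℝ) + n) ^ 2) := by positivity
      rcases le_total a (2 * N0 + n) with h | h
      · have := ih a h1 h j
        linarith
      · push_cast at h2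
        have hn0 : (0 : ℝ) ≤ n := by positivity
        have h3 := one a (by linarith) (B + C1 * ∑ i ∈ Finset.range n, 1 / ((N0 : ℝ) + i) ^ 2) (by
            have : 0 ≤ ∑ i ∈ Finset.range n, 1 / ((N0 : ℝ) + i) ^ 2 := Finset.sum_nonneg (fun i _ => by positivity)
            positivity) (fun b hb1 hb2 j' => ih b hb1 (by linarith) j') j
        refine le_trans h3 ?_
        have h4 : C1 / a ^ 2 ≤ C1 * (1 / ((N0 : ℝ) + n) ^ 2) := by
          rw [mul_one_div]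
          apply div_le_div_of_nonneg_left hC10.le (by positivity)
          apply pow_le_pow_left₀ (by positivity)
          linarith
        linarith
  intro a ha j
  obtain ⟨n, hn⟩ := exists_nat_ge (a - 2 * N0)
  have h1 := key n a ha (by linarith) j
  have h2 : ∑ i ∈ Finset.range n, 1 / ((N0 : ℝ) + i) ^ 2 ≤ 2 / (N0 : ℝ) := by
    have h3 := sum_inv_pow 0 (N0 - 1) (N0 - 1 + n) (by omega)
    rw [Finset.sum_Ico_eq_sum_range, Nat.add_sub_cancel_left] at h3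
    have h4 : ∀ i ∈ Finset.range n, 1 / ((N0 : ℝ) + i) ^ 2 = 1 / (((N0 - 1 + i + 1 : ℕ) : ℝ)) ^ (0 + 2) := by
      intro i _
      rw [zero_add]
      congr 2
      have : N0 - 1 + i + 1 = N0 + i := by omega
      rw [this]; push_cast; ring
    rw [Finset.sum_congr rfl h4]
    refine le_trans h3 ?_
    rw [zero_add, pow_one, div_le_div_iff₀ (by exact_mod_cast (by omega : 0 < N0 - 1)) (by positivity), one_mul]
    have : N0 ≤ 2 * (N0 - 1) := by omega
    exact_mod_cast this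
  refine le_trans h1 ?_
  have h3 : C1 * ∑ i ∈ Finset.range n, 1 / ((N0 : ℝ) + i) ^ 2 ≤ C1 * (2 / (N0 : ℝ)) :=
    mul_le_mul_of_nonneg_left h2 hC10.le
  have h4 : C1 * (2 / (N0 : ℝ)) = 2 * C1 / N0 := by ring
  linarith

end Pool.Agent.Helper3.HT
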