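import Pool.Agent.Helper3.HT.WalkA
import Pool.Agent.Helper3.HT.Prop

/-! Levels: averaging formula at a scale above a level `c`, uniform in `c`. -/

namespace Pool.Agent.Helper3.HT

open Pool.Agent.Helper3.ND Pool.Agent.Helper3.TD Filter Topology

theorem bk_add (c a : ℝ) (n i : ℕ) : bk (c + a) n i = c + bk a n i := by unfold bk; ring

theorem fineGL (q : ℕ) : ∃ C : ℝ, 0 < C ∧ ∀ W : ℝ, 0 < W → W ≤ 1 → ∃ A0 : ℝ, 10 ^ 5 + 200 / W ≤ A0 ∧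
    ∀ A : ℝ, A0 ≤ A → ∀ c : ℝ, 0 ≤ c → ∀ T m : ℕ, T = ⌊A / 100⌋₊ → m = T / 20 → ∀ Φ : ℕ → ℤ → ℝ, Fam Φ (Real.exp c) →
    ∀ s1 : ℕ, T ≤ s1 → s1 ≤ 3 * T → ∀ j : ℕ, ∀ a : ℝ, A / 2 ≤ a → a ≤ 2 * A → ∀ X : ℤ, Real.exp (c + 3 * A) ≤ X →
    |Gs (Φ (j + (s1 + 3 * m))) W (c + a) - Eo s1 (fun i => ee (Φ j) X m (3 * m) W (bk (c + a) s1 i))| ≤ C / A ^ q := by
  obtain ⟨C, hC, t0, ht0, H⟩ := fineK q
  refine ⟨C * 200 ^ q, by positivity, ?_⟩
  intro W hW0 hW1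
  refine ⟨10 ^ 5 + 200 / W + 100 * (t0 + 1), by
    have : (0 : ℝ) ≤ 100 * ((t0 : ℝ) + 1) := by positivity
    linarith, ?_⟩
  intro A hA c hc T m hT hm Φ hΦ s1 hs1 hs3 j a ha1 ha2 X hX
  have hWp : 0 < 200 / W := by positivity
  have ht0p : (0 : ℝ) ≤ t0 := by positivity
  have hA5 : (10 ^ 5 : ℝ) ≤ A := by linarith
  have hA0 : 0 < A := by linarith
  have hT1 : (T : ℝ) ≤ A / 100 := by rw [hT]; exact Nat.floor_le (by positivity)
  have hT2 : A / 100 - 1 < T := by rw [hT]; exact Nat.sub_one_lt_floor _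
  have hT50 : 50 ≤ T := by
    have : (50 : ℝ) ≤ T := by linarith
    exact_mod_cast this
  have hTt0 : t0 ≤ T := by
    have : (t0 : ℝ) ≤ T := by linarith
    exact_mod_cast this
  have ht30 : ((s1 + 3 * m : ℕ) : ℝ) ≤ A / 30 := by
    have h1 : 20 * (s1 + 3 * m) ≤ 63 * T := by omega
    have h2 : (20 : ℝ) * ((s1 + 3 * m : ℕ) : ℝ) ≤ 63 * (T : ℝ) := by exact_mod_cast h1
    linarith
  obtain ⟨c1', c2'⟩ := condK hW0 hW1 (A := A) (Y := 1) (by linarith)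
    (Real.one_le_exp (by positivity)) ht30 (show A / 4 ≤ a by linarith)
  have hec : Real.exp (c + a - W) = Real.exp c * Real.exp (a - W) := by rw [← Real.exp_add]; congr 1; ring
  have hc1 : 1 ≤ Real.exp c := Real.one_le_exp hc
  have c1 : 16 * 10 ^ (s1 + 3 * m) ≤ W * Real.exp (c + a - W) := by
    refine le_trans c1' ?_
    apply mul_le_mul_of_nonneg_left _ hW0.le
    exact Real.exp_le_exp.mpr (by linarith)
  have c2 : Real.exp c * 2 ^ (s1 + 3 * m) < Real.exp (c + a - W) := by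
    rw [hec]
    rw [one_mul] at c2'
    exact mul_lt_mul_of_pos_left c2' (Real.exp_pos c)
  have hX2 : 2 ^ (s1 + 3 * m) * Real.exp (c + a + W) ≤ X := by
    refine le_trans ?_ hX
    calc 2 ^ (s1 + 3 * m) * Real.exp (c + a + W) ≤ Real.exp ((s1 + 3 * m : ℕ) : ℝ) * Real.exp (c + a + W) :=
          mul_le_mul_of_nonneg_right (two_pow _) (Real.exp_pos _).le
      _ = Real.exp (((s1 + 3 * m : ℕ) : ℝ) + (c + a + W)) := (Real.exp_add _ _).symm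
      _ ≤ _ := Real.exp_le_exp.mpr (by linarith)
  have h1 := H s1 (3 * m) m (by omega) (by omega) le_rfl (c + a) W hW0 hW1 c1 X hX2 (Φ (j + (s1 + 3 * m))) (Φ j)
    (hΦ.nonneg _) (hΦ.le_one _) (hΦ.nonneg _) (hΦ.le_one _)
    (fun N hN => hΦ.iter (Real.exp_pos _).le _ j N (lt_trans c2 hN))
  rw [Gs_eq _ hW0 (by
    refine le_trans ?_ hX
    exact Real.exp_le_exp.mpr (by linarith))] at h1
  refine le_trans h1 ?_
  have h3 : A / 200 ≤ ((s1 + 3 * m : ℕ) : ℝ) := by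
    have : T ≤ s1 + 3 * m := by omega
    have : (T : ℝ) ≤ ((s1 + 3 * m : ℕ) : ℝ) := by exact_mod_cast this
    linarith
  have h4 : (A / 200) ^ q ≤ ((s1 + 3 * m : ℕ) : ℝ) ^ q := pow_le_pow_left₀ (by positivity) h3 q
  calc C / ((s1 + 3 * m : ℕ) : ℝ) ^ q ≤ C / (A / 200) ^ q := div_le_div_of_nonneg_left hC.le (by positivity) h4
    _ = C * 200 ^ q / A ^ q := by rw [div_pow]; field_simp

/-- averaging over `n` steps above the level `c` -/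
theorem avgL (q : ℕ) : ∃ C : ℝ, 0 < C ∧ ∀ W : ℝ, 0 < W → W ≤ 1 → ∃ A0 : ℝ, 10 ^ 5 + 200 / W ≤ A0 ∧
    ∀ A : ℝ, A0 ≤ A → ∀ c : ℝ, 0 ≤ c → ∀ Φ : ℕ → ℤ → ℝ, Fam Φ (Real.exp c) → ∀ n : ℕ, (n : ℝ) ≤ A / 100 →
    ∀ j : ℕ, A / 80 ≤ j → ∀ a : ℝ, 3 / 5 * A ≤ a → a ≤ 19 / 10 * A →
    |Gs (Φ (j + n)) W (c + a) - Eo n (fun i => Gs (Φ j) W (c + bk a n i))| ≤ C / A ^ q := by
  obtain ⟨C, hC, H⟩ := fineGL q
  refine ⟨2 * C, by positivity, ?_⟩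
  intro W hW0 hW1
  obtain ⟨A0, hA0, H2⟩ := H W hW0 hW1
  have hWp : 0 < 200 / W := by positivity
  refine ⟨A0, hA0, ?_⟩
  intro A hA c hc Φ hΦ n hn j hj a ha1 ha2
  have hA5 : (10 ^ 5 : ℝ) ≤ A := by linarith
  obtain ⟨T, hT⟩ : ∃ T, T = ⌊A / 100⌋₊ := ⟨_, rfl⟩
  obtain ⟨m, hm⟩ : ∃ m, m = T / 20 := ⟨_, rfl⟩
  obtain ⟨X, hX⟩ : ∃ X : ℤ, Real.exp (c + 3 * A) ≤ X := ⟨⌈Real.exp (c + 3 * A)⌉, Int.le_ceil _⟩
  have hT1 : (T : ℝ) ≤ A / 100 := by rw [hT]; exact Nat.floor_le (by positivity)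
  have hnT : n ≤ T := by rw [hT]; exact Nat.le_floor hn
  have hjT : T + 3 * m ≤ j := by
    have h1 : 20 * (T + 3 * m) ≤ 23 * T := by omega
    have h2 : (20 : ℝ) * ((T + 3 * m : ℕ) : ℝ) ≤ 23 * (T : ℝ) := by exact_mod_cast h1
    have h3 : ((T + 3 * m : ℕ) : ℝ) ≤ j := by linarith
    exact_mod_cast h3
  obtain ⟨j', hj'⟩ : ∃ j', j = j' + (T + 3 * m) := ⟨j - (T + 3 * m), by omega⟩
  have h1 := H2 A hA c hc T m hT hm Φ hΦ (n + T) (by omega) (by omega) j' a (by linarith) (by linarith) X hX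
  rw [Eo_add, show j' + (n + T + 3 * m) = j + n by omega] at h1
  have h2 : |Eo n (fun i => Eo T (fun k => ee (Φ j') X m (3 * m) W (bk (c + a) (n + T) (i + k)))) - Eo n (fun i => Gs (Φ j) W (c + bk a n i))| ≤
      C / A ^ q := by
    rw [← Eo_sub_fun]
    apply Eo_abs_le
    intro i hi
    obtain ⟨b1, b2⟩ := bk_bounds (a := a) hi
    have h3 := H2 A hA c hc T m hT hm Φ hΦ T le_rfl (by omega) j' (bk a n i) (by linarith) (by linarith) X hX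
    rw [abs_sub_comm, ← hj'] at h3
    have e : (fun k => ee (Φ j') X m (3 * m) W (bk (c + bk a n i) T k)) = fun k => ee (Φ j') X m (3 * m) W (bk (c + a) (n + T) (i + k)) := by
      funext k; rw [← bk_add, bk_bk]
    rw [e] at h3
    exact h3
  have h3 := abs_sub_le (Gs (Φ (j + n)) W (c + a)) (Eo n (fun i => Eo T (fun k => ee (Φ j') X m (3 * m) W (bk (c + a) (n + T) (i + k))))) (Eo n (fun i => Gs (Φ j) W (c + bk a n i)))
  have e : 2 * C / A ^ q = C / A ^ q + C / A ^ q := by ring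
  rw [e]
  linarith

open Classical in
/-- the function `Φ` on the integers whose orbit enters `[-exp c, exp c]` within `j` steps -/
noncomputable def LV (Φ : ℤ → ℝ) (c : ℝ) (j : ℕ) (N : ℤ) : ℝ :=
  if ∃ i : ℕ, i ≤ j ∧ |((T^[i] N : ℤ) : ℝ)| ≤ Real.exp c then Φ N else 0

theorem LV_nonneg {Φ : ℤ → ℝ} (h : ∀ N, 0 ≤ Φ N) (c : ℝ) (j : ℕ) (N : ℤ) : 0 ≤ LV Φ c j N := by
  unfold LV; split_ifs
  · exact h N
  · exact le_rfl

theorem LV_le {Φ : ℤ → ℝ} (h : ∀ N, 0 ≤ Φ N) (c : ℝ) (j : ℕ) (N : ℤ) : LV Φ c j N ≤ Φ N := by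
  unfold LV; split_ifs
  · exact le_rfl
  · exact h N

theorem LV_fam {Φ : ℤ → ℝ} {Y0 : ℝ} (hΦ : Inv Φ Y0) {c : ℝ} (hc : Y0 ≤ Real.exp c) : Fam (LV Φ c) (Real.exp c) := by
  classical
  refine ⟨LV_nonneg hΦ.nonneg c, fun j N => le_trans (LV_le hΦ.nonneg c j N) (hΦ.le_one N), ?_⟩
  intro j N hN
  unfold LV
  have h1 : (∃ i : ℕ, i ≤ j ∧ |((T^[i] (T N) : ℤ) : ℝ)| ≤ Real.exp c) ↔ ∃ i : ℕ, i ≤ j + 1 ∧ |((T^[i] N : ℤ) : ℝ)| ≤ Real.exp c := by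
    constructor
    · rintro ⟨i, h1, h2⟩
      exact ⟨i + 1, by omega, by rw [Function.iterate_succ_apply]; exact h2⟩
    · rintro ⟨i, h1, h2⟩
      rcases i with _ | i
      · exact absurd h2 (not_le.mpr hN)
      · rw [Function.iterate_succ_apply] at h2
        exact ⟨i, by omega, h2⟩
  rw [hΦ.inv N (lt_of_le_of_lt hc hN)]
  exact if_congr h1 rfl rfl

theorem Gs_LV_zero {Φ : ℤ → ℝ} {c : ℝ} {j : ℕ} {W b : ℝ} (hW0 : 0 < W) (h : (2 : ℝ) ^ j ≤ Real.exp (b - W)) : Gs (LV Φ c j) W (c + b) = 0 := by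
  unfold Gs SS
  apply Finset.sum_eq_zero
  intro N _
  by_cases h0 : om (c + b) W N = 0
  · rw [h0, mul_zero]
  · obtain ⟨h1, h2⟩ := om_ne_zero hW0 h0
    rw [abs_lt] at h2
    have h3 : Real.exp (c + b - W) < |(N : ℝ)| := by
      rw [← Real.lt_log_iff_exp_lt h1]; linarith
    have : LV Φ c j N = 0 := by
      unfold LV
      rw [if_neg]
      rintro ⟨i, h4, h5⟩
      have h6 := abs_T_iter_ge i N
      have h7 : |(N : ℝ)| ≤ 2 ^ i * |((T^[i] N : ℤ) : ℝ)| := by exact_mod_cast h6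
      have h8 : (2 : ℝ) ^ i ≤ 2 ^ j := pow_le_pow_right₀ (by norm_num) h4
      have h9 : |(N : ℝ)| ≤ Real.exp (b - W) * Real.exp c := by
        calc |(N : ℝ)| ≤ 2 ^ i * |((T^[i] N : ℤ) : ℝ)| := h7
          _ ≤ Real.exp (b - W) * Real.exp c := mul_le_mul (le_trans h8 h) h5 (abs_nonneg _) (Real.exp_pos _).le
      rw [← Real.exp_add] at h9
      have h10 : b - W + c = c + b - W := by ring
      rw [h10] at h9
      linarith
    rw [this, zero_mul]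

end Pool.Agent.Helper3.HT
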