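import Pool.Agent.Helper3.HT.LevA

/-! Levels: the time to enter `[-exp c, exp c]` behaves like the exit time of the walk of the scales. -/

namespace Pool.Agent.Helper3.HT

open Pool.Agent.Helper3.ND Pool.Agent.Helper3.TD Filter Topology

theorem LV_mono {Φ : ℤ → ℝ} (h : ∀ N, 0 ≤ Φ N) (c : ℝ) {j k : ℕ} (hjk : j ≤ k) (N : ℤ) : LV Φ c j N ≤ LV Φ c k N := by
  unfold LV
  by_cases h1 : ∃ i : ℕ, i ≤ j ∧ |((T^[i] N : ℤ) : ℝ)| ≤ Real.exp c
  · rw [if_pos h1, if_pos]
    obtain ⟨i, h2, h3⟩ := h1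
    exact ⟨i, by omega, h3⟩
  · rw [if_neg h1]
    split_ifs
    · exact h N
    · exact le_rfl

open Classical in
/-- atypical parity vectors -/
noncomputable def aty (M : ℕ) (N : ℤ) : ℝ := if (M : ℝ) / 100 ≤ |(od M N : ℝ) - M / 2| then 1 else 0

theorem aty_nonneg (M : ℕ) (N : ℤ) : 0 ≤ aty M N := by unfold aty; split_ifs <;> norm_num

theorem aty_per (M : ℕ) (N : ℤ) : aty M (N + (2 ^ M : ℕ)) = aty M N := by
  unfold aty
  have h := (shift M N 1).1
  rw [mul_one] at h
  have e : N + ((2 ^ M : ℕ) : ℤ) = N + 2 ^ M := by push_cast; ring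
  rw [e, h]

theorem aty_av {M : ℕ} (hM : 1 ≤ M) : AvQ (2 ^ M) (aty M) ≤ 2 * Real.exp (-((M : ℝ) / 5000)) := by
  classical
  have hM0 : (0 : ℝ) < M := by exact_mod_cast hM
  have h1 := card_od M hM ((M : ℝ) / 100) (by positivity)
  have e : 2 * ((M : ℝ) / 100) ^ 2 / M = M / 5000 := by field_simp; norm_num
  rw [e] at h1
  unfold AvQ aty
  rw [div_le_iff₀ (by positivity), ← Finset.sum_filter, Finset.sum_const, nsmul_eq_mul, mul_one]
  push_cast
  linarith

theorem typ_small {M : ℕ} (hM : 1 ≤ M) {N : ℤ} (h : |(od M N : ℝ) - M / 2| < M / 100) {c b W : ℝ} (hW1 : W ≤ 1) (hc : 2 * (M : ℝ) + 1 ≤ c)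
    (hb : b + 2 ≤ 0.129 * M) (hN : 0 < |(N : ℝ)|) (hN2 : Real.log |(N : ℝ)| ≤ c + b + W) : |((T^[M] N : ℤ) : ℝ)| ≤ Real.exp c := by
  have h1 := affine M N
  have h2 := cc_le M N
  have h3 := cc_nonneg M N
  have h1r : (2 : ℝ) ^ M * ((T^[M] N : ℤ) : ℝ) = 3 ^ od M N * (N : ℝ) + (cc M N : ℝ) := by exact_mod_cast h1
  have h2r : (cc M N : ℝ) ≤ 3 ^ od M N * 2 ^ M := by exact_mod_cast h2
  have h3r : (0 : ℝ) ≤ (cc M N : ℝ) := by exact_mod_cast h3
  have hp : (0 : ℝ) < 2 ^ M := by positivity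
  have h4 : 2 ^ M * |((T^[M] N : ℤ) : ℝ)| ≤ 3 ^ od M N * |(N : ℝ)| + 3 ^ od M N * 2 ^ M := by
    have : 2 ^ M * |((T^[M] N : ℤ) : ℝ)| = |(2 : ℝ) ^ M * ((T^[M] N : ℤ) : ℝ)| := by rw [abs_mul, abs_of_pos hp]
    rw [this, h1r]
    refine le_trans (abs_add_le _ _) ?_
    rw [abs_mul, abs_of_pos (by positivity : (0 : ℝ) < 3 ^ od M N), abs_of_nonneg h3r]
    linarith
  -- the main term
  have h5 := bk_typ (A := Real.log |(N : ℝ)|) h
  have h6 : 3 ^ od M N * |(N : ℝ)| = 2 ^ M * Real.exp (bk (Real.log |(N : ℝ)|) M (od M N)) := by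
    have := exp_bk (Real.log |(N : ℝ)|) M (od M N) 0
    rw [add_zero, add_zero, Real.exp_log hN] at this
    rw [this]
    field_simp
  have h7 : Real.exp (bk (Real.log |(N : ℝ)|) M (od M N)) ≤ Real.exp (c - 1) := Real.exp_le_exp.mpr (by linarith)
  have h8 : (3 : ℝ) ^ od M N ≤ Real.exp (c - 1) := by
    have h9 : (3 : ℝ) ^ od M N ≤ 3 ^ M := pow_le_pow_right₀ (by norm_num) (od_le M N)
    have h10 : (3 : ℝ) ≤ Real.exp 2 := by
      have := Real.add_one_le_exp (2 : ℝ)
      linarith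
    have h11 : (3 : ℝ) ^ M ≤ Real.exp 2 ^ M := pow_le_pow_left₀ (by norm_num) h10 M
    rw [← Real.exp_nat_mul] at h11
    refine le_trans h9 (le_trans h11 (Real.exp_le_exp.mpr (by linarith)))
  have h12 : Real.exp (c - 1) * 2 ≤ Real.exp c := by
    have e : Real.exp c = Real.exp (c - 1) * Real.exp 1 := by rw [← Real.exp_add]; congr 1; ring
    rw [e]
    have := Real.add_one_le_exp (1 : ℝ)
    nlinarith [Real.exp_pos (c - 1)]
  have h13 : 2 ^ M * |((T^[M] N : ℤ) : ℝ)| ≤ 2 ^ M * Real.exp c := by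
    calc 2 ^ M * |((T^[M] N : ℤ) : ℝ)| ≤ 3 ^ od M N * |(N : ℝ)| + 3 ^ od M N * 2 ^ M := h4
      _ = 2 ^ M * (Real.exp (bk (Real.log |(N : ℝ)|) M (od M N)) + 3 ^ od M N) := by rw [h6]; ring
      _ ≤ 2 ^ M * (Real.exp (c - 1) + Real.exp (c - 1)) := by gcongr
      _ ≤ _ := mul_le_mul_of_nonneg_left (by linarith) hp.le
  exact le_of_mul_le_mul_left h13 hp

theorem base_lev {Φ : ℤ → ℝ} (h0 : ∀ N, 0 ≤ Φ N) (h1 : ∀ N, Φ N ≤ 1) {W : ℝ} (hW0 : 0 < W) (hW1 : W ≤ 1) {M : ℕ} (hM : 1 ≤ M)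
    {c b : ℝ} (hc : 2 * (M : ℝ) + 1 ≤ c) (hb3 : 3 ≤ b) (hb : b + 2 ≤ 0.129 * M) :
    Gs Φ W (c + b) ≤ Gs (LV Φ c M) W (c + b) + 12 * Real.exp (-((M : ℝ) / 5000)) := by
  classical
  have hM0 : (0 : ℝ) < M := by exact_mod_cast hM
  obtain ⟨X, hX⟩ : ∃ X : ℤ, X = ⌈Real.exp (c + b + W)⌉ := ⟨_, rfl⟩
  have hwin := win_sum (q := 2 ^ M) (f := aty M) (Nat.one_le_two_pow) (aty_per M) (aty_nonneg M) (b := c + b) (v := W) hW0.le (by
    push_cast
    have e1 : (4 : ℝ) * 2 ^ M ≤ Real.exp 2 * Real.exp M := by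
      have e2 : (4 : ℝ) ≤ Real.exp 2 := by
        have e3 : Real.exp 2 = Real.exp 1 * Real.exp 1 := by rw [← Real.exp_add]; norm_num
        have := Real.add_one_le_exp (1 : ℝ)
        nlinarith
      exact mul_le_mul e2 (two_pow M) (by positivity) (Real.exp_pos _).le
    rw [← Real.exp_add] at e1
    exact le_trans e1 (Real.exp_le_exp.mpr (by linarith))) X
  have hav := aty_av hM
  have hle : Gs Φ W (c + b) ≤ Gs (LV Φ c M) W (c + b) +
      ∑ N ∈ Finset.Icc (-X) X, (if |Real.log |(N : ℝ)| - (c + b)| ≤ W then aty M N / |(N : ℝ)| else 0) := by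
    unfold Gs SS
    rw [← hX, ← Finset.sum_add_distrib]
    apply Finset.sum_le_sum
    intro N _
    by_cases h2 : om (c + b) W N = 0
    · rw [h2, mul_zero, mul_zero, zero_add]
      split_ifs
      · exact div_nonneg (aty_nonneg M N) (abs_nonneg _)
      · exact le_rfl
    · obtain ⟨h3, h4⟩ := om_ne_zero hW0 h2
      rw [if_pos h4.le]
      by_cases h5 : (M : ℝ) / 100 ≤ |(od M N : ℝ) - M / 2|
      · have h6 : aty M N = 1 := by unfold aty; rw [if_pos h5]
        rw [h6]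
        have h7 : 0 ≤ LV Φ c M N * om (c + b) W N := mul_nonneg (LV_nonneg h0 c M N) (om_nonneg _ _ _)
        have h8 : Φ N * om (c + b) W N ≤ 1 * (1 / |(N : ℝ)|) :=
          mul_le_mul (h1 N) (om_le _ _ _) (om_nonneg _ _ _) (by norm_num)
        linarith
      · rw [not_le] at h5
        have h6 : LV Φ c M N = Φ N := by
          unfold LV
          rw [if_pos]
          rw [abs_lt] at h4
          exact ⟨M, le_rfl, typ_small hM h5 hW1 hc hb h3 (by linarith)⟩
        rw [h6]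
        have : 0 ≤ aty M N / |(N : ℝ)| := div_nonneg (aty_nonneg M N) (abs_nonneg _)
        linarith
  have hav0 : 0 ≤ AvQ (2 ^ M) (aty M) := by
    unfold AvQ
    exact div_nonneg (Finset.sum_nonneg (fun x _ => aty_nonneg M _)) (by positivity)
  have h9 : 2 * AvQ (2 ^ M) (aty M) * (2 * W + 1) ≤ 12 * Real.exp (-((M : ℝ) / 5000)) := by
    nlinarith
  linarith

/-- **the walk above a level** -/
theorem walkL {Φ : ℤ → ℝ} {Y0 : ℝ} (hΦ : Inv Φ Y0) {W g : ℝ} (hW0 : 0 < W) (hW1 : W ≤ 1) (hg0 : 0 ≤ g)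
    (hg : Tendsto (fun b => Gs Φ W b) atTop (𝓝 g)) {κ : ℝ} (hκ : 0 < κ) :
    ∃ M : ℕ, ∃ N0 c0 : ℝ, ∀ c : ℝ, c0 ≤ c → ∀ b : ℝ, N0 ≤ b → ∀ j : ℕ,
      Gs (LV Φ c j) W (c + b) ≤ g * PW (j + M) b + κ ∧ (M ≤ j → g * PW (j - M) b ≤ Gs (LV Φ c j) W (c + b) + κ) := by
  obtain ⟨C, hC, H⟩ := avgL 2
  obtain ⟨A0, hA0, H2⟩ := H W hW0 hW1
  obtain ⟨C', hC', HP⟩ := prop_gen (C := C) (K := 6 + g) hC.le (by linarith)
  have hWp : 0 < 200 / W := by positivity
  have hev := (tendsto_order.1 hg)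
  obtain ⟨b1, hb1⟩ := eventually_atTop.1 (hev.2 (g + κ / 8) (by linarith))
  obtain ⟨b2, hb2⟩ := eventually_atTop.1 (hev.1 (g - κ / 8) (by linarith))
  have hA15 : (10 ^ 5 : ℝ) ≤ A0 := by linarith
  obtain ⟨N0, hN0⟩ := exists_nat_ge (max A0 (4 * C' / κ))
  have hN1 : A0 ≤ N0 := le_trans (le_max_left _ _) hN0
  have hN2 : 4 * C' / κ ≤ N0 := le_trans (le_max_right _ _) hN0
  have hNpos : (0 : ℝ) < N0 := by linarith
  have hCN : C' / N0 ≤ κ / 4 := by
    rw [div_le_iff₀ hNpos]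
    rw [div_le_iff₀ hκ] at hN2
    linarith
  -- the delay
  have hlim : Tendsto (fun M : ℕ => (g + 12) * (2 * Real.exp (-((M : ℝ) / 5000)))) atTop (𝓝 0) := by
    have h1 : Tendsto (fun M : ℕ => (M : ℝ) / 5000) atTop atTop :=
      Tendsto.atTop_div_const (by norm_num) tendsto_natCast_atTop_atTop
    have h2 := (Real.tendsto_exp_neg_atTop_nhds_zero.comp h1).const_mul 2
    have h3 := h2.const_mul (g + 12)
    simpa using h3
  obtain ⟨M1, hM1⟩ := eventually_atTop.1 ((tendsto_order.1 hlim).2 (κ / 8) (by positivity))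
  obtain ⟨M, hM⟩ : ∃ M, M = max M1 (2004 * N0) := ⟨_, rfl⟩
  have hMa : M1 ≤ M := by rw [hM]; exact le_max_left _ _
  have hMb : 2004 * N0 ≤ M := by rw [hM]; exact le_max_right _ _
  have hMc : (2004 : ℝ) * N0 ≤ M := by exact_mod_cast hMb
  have hM2 := hM1 M hMa
  have hexpM : 0 < Real.exp (-((M : ℝ) / 5000)) := Real.exp_pos _
  have hM3 : g * (2 * Real.exp (-((M : ℝ) / 5000))) ≤ κ / 8 := by nlinarith
  have hM4 : 12 * Real.exp (-((M : ℝ) / 5000)) ≤ κ / 8 := by nlinarith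
  have hMpos : 1 ≤ M := by
    have : (1 : ℝ) ≤ M := by linarith
    exact_mod_cast this
  obtain ⟨c0, hc0⟩ : ∃ c0 : ℝ, c0 = max (max (2 * (M : ℝ) + 1) |Y0|) (max |b1| |b2|) := ⟨_, rfl⟩
  refine ⟨M, N0, c0, ?_⟩
  intro c hc
  have hcM : 2 * (M : ℝ) + 1 ≤ c := le_trans (le_trans (le_max_left _ _) (le_max_left _ _)) (by rw [← hc0]; exact hc)
  have hcY : |Y0| ≤ c := le_trans (le_trans (le_max_right _ _) (le_max_left _ _)) (by rw [← hc0]; exact hc)
  have hcb1 : |b1| ≤ c := le_trans (le_trans (le_max_left _ _) (le_max_right _ _)) (by rw [← hc0]; exact hc)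
  have hcb2 : |b2| ≤ c := le_trans (le_trans (le_max_right _ _) (le_max_right _ _)) (by rw [← hc0]; exact hc)
  have hcp : 0 ≤ c := le_trans (abs_nonneg _) hcY
  have hYc : Y0 ≤ Real.exp c := by
    have h1 := Real.add_one_le_exp c
    have h2 := le_abs_self Y0
    linarith
  have hb1' := le_abs_self b1
  have hb2' := le_abs_self b2
  have hfam := LV_fam hΦ hYc
  -- facts at large scales
  have step0 : ∀ x : ℝ, A0 ≤ x → ∀ j : ℕ, (j : ℝ) ≤ x / 40 → Gs (LV Φ c j) W (c + x) = 0 := by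
    intro x hx j hj
    apply Gs_LV_zero hW0
    exact le_trans (two_pow j) (Real.exp_le_exp.mpr (by linarith))
  have step1 : ∀ x : ℝ, A0 ≤ x → ∀ n : ℕ, n = ⌊x / 100⌋₊ → ∀ j : ℕ, x / 80 ≤ j →
      |Gs (LV Φ c (n + j)) W (c + x) - Eo n (fun i => Gs (LV Φ c j) W (c + bk x n i))| ≤ C / x ^ 2 := by
    intro x hx n hn j hj
    have h1 : (n : ℝ) ≤ x / 100 := by rw [hn]; exact Nat.floor_le (by linarith)
    have h2 := H2 x hx c hcp (LV Φ c) hfam n h1 j hj x (by linarith) (by linarith)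
    rwa [add_comm j n] at h2
  have baseU : ∀ b : ℝ, (N0 : ℝ) ≤ b → Gs Φ W (c + b) ≤ g + κ / 8 := fun b hb => (hb1 (c + b) (by linarith)).le
  have baseL : ∀ b : ℝ, (N0 : ℝ) ≤ b → g - κ / 8 ≤ Gs Φ W (c + b) := fun b hb => (hb2 (c + b) (by linarith)).le
  -- upper bound
  have up := HP (fun j b => Gs (LV Φ c j) W (c + b) - g * PW (j + M) b) A0 hA15
    (by
      intro j b hb
      have h1 := Gs_six (hfam.nonneg j) (hfam.le_one j) hW0 hW1 (b := c + b) (by linarith)
      have h2 := mul_nonneg hg0 (PW_nonneg (j + M) b)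
      linarith)
    (by
      intro x hx n hn j
      have hx5 : (10 ^ 5 : ℝ) ≤ x := by linarith
      have hnx : (n : ℝ) ≤ x / 100 := by rw [hn]; exact Nat.floor_le (by linarith)
      rcases le_or_gt ((n : ℝ) + x / 80) j with h | h
      · right
        have hnj : n ≤ j := by
          have : (n : ℝ) ≤ j := by linarith
          exact_mod_cast this
        obtain ⟨j', rfl⟩ := Nat.exists_eq_add_of_le hnj
        push_cast at h
        refine ⟨j', ?_⟩
        have h1 := step1 x hx n hn j' (by linarith)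
        rw [abs_le] at h1
        rw [Eo_sub_fun, Eo_mul, add_assoc n j' M, PW_add]
        linarith
      · left
        rw [step0 x hx j (by linarith)]
        have := mul_nonneg hg0 (PW_nonneg (j + M) x)
        linarith)
    N0 hN1 (κ / 4) (by positivity)
    (by
      intro b hb1' hb2' j
      have h1 := Gs_mono (LV_le hΦ.nonneg c j) W (c + b)
      have h2 := baseU b hb1'
      have h3 := PW_large (j := j + M) (by omega) (a := b) (by push_cast; linarith [show (0 : ℝ) ≤ j by positivity])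
      have h4 : Real.exp (-(((j + M : ℕ) : ℝ) / 5000)) ≤ Real.exp (-((M : ℝ) / 5000)) := by
        apply Real.exp_le_exp.mpr
        push_cast
        linarith [show (0 : ℝ) ≤ j by positivity]
      have h5 : g * (1 - 2 * Real.exp (-((M : ℝ) / 5000))) ≤ g * PW (j + M) b := by
        apply mul_le_mul_of_nonneg_left _ hg0
        linarith
      have h6 : g * (1 - 2 * Real.exp (-((M : ℝ) / 5000))) = g - g * (2 * Real.exp (-((M : ℝ) / 5000))) := by ring
      linarith)
  -- lower bound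
  have lo := HP (fun j b => if M ≤ j then g * PW (j - M) b - Gs (LV Φ c j) W (c + b) else 0) A0 hA15
    (by
      intro j b hb
      split_ifs with h
      · have h1 := Gs_nonneg (hfam.nonneg j) W (c + b)
        have h2 := mul_le_mul_of_nonneg_left (PW_le_one (j - M) b) hg0
        linarith
      · linarith)
    (by
      intro x hx n hn j
      have hx5 : (10 ^ 5 : ℝ) ≤ x := by linarith
      have hnx : (n : ℝ) ≤ x / 100 := by rw [hn]; exact Nat.floor_le (by linarith)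
      by_cases hMj : M ≤ j
      swap
      · left
        rw [if_neg hMj]
      obtain ⟨p, rfl⟩ := Nat.exists_eq_add_of_le hMj
      rcases le_or_gt ((n : ℝ) + x / 80) p with h | h
      · right
        have hnj : n ≤ p := by
          have : (n : ℝ) ≤ p := by linarith
          exact_mod_cast this
        obtain ⟨p', rfl⟩ := Nat.exists_eq_add_of_le hnj
        push_cast at h
        refine ⟨M + p', ?_⟩
        have h1 := step1 x hx n hn (M + p') (by push_cast; linarith [show (0 : ℝ) ≤ M by positivity])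
        rw [abs_le] at h1
        rw [if_pos hMj]
        have e1 : ∀ i : ℕ, (if M ≤ M + p' then g * PW (M + p' - M) (bk x n i) - Gs (LV Φ c (M + p')) W (c + bk x n i) else 0) =
            g * PW p' (bk x n i) - Gs (LV Φ c (M + p')) W (c + bk x n i) := by
          intro i
          rw [if_pos (by omega), Nat.add_sub_cancel_left]
        rw [show (fun i => if M ≤ M + p' then g * PW (M + p' - M) (bk x n i) - Gs (LV Φ c (M + p')) W (c + bk x n i) else 0) =
          fun i => g * PW p' (bk x n i) - Gs (LV Φ c (M + p')) W (c + bk x n i) from funext e1]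
        rw [Eo_sub_fun, Eo_mul, Nat.add_sub_cancel_left, PW_add, show M + (n + p') = n + (M + p') by ring]
        linarith
      · left
        rw [if_pos hMj, Nat.add_sub_cancel_left, PW_zero (by linarith), mul_zero]
        have := Gs_nonneg (hfam.nonneg (M + p)) W (c + x)
        linarith)
    N0 hN1 (κ / 4) (by positivity)
    (by
      intro b hb1' hb2' j
      split_ifs with h
      · have h1 := base_lev hΦ.nonneg hΦ.le_one hW0 hW1 hMpos hcM (b := b) (by linarith) (by linarith)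
        have h2 := baseL b hb1'
        have h3 := mul_le_mul_of_nonneg_left (PW_le_one (j - M) b) hg0
        have h4 := Gs_mono (LV_mono hΦ.nonneg c h) W (c + b)
        linarith
      · positivity)
  intro b hb j
  constructor
  · have := up b hb j
    linarith
  · intro h
    have := lo b hb j
    rw [if_pos h] at this
    linarith

end Pool.Agent.Helper3.HT
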