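import Pool.Agent.Helper3.HT.TT

/-! From windows to natural density and the normal law for `T`, along arbitrary sequences. -/

namespace Pool.Agent.Helper3.HT

open Pool.Agent.Helper3.ND Pool.Agent.Helper3.TD Filter Topology

theorem natS {Φ : ℕ → ℤ → ℝ} {Z : ℕ → ℕ} {c : ℝ} (hZ : Tendsto Z atTop atTop) (hΦ0 : ∀ X N, 0 ≤ Φ X N) (hΦ1 : ∀ X N, Φ X N ≤ 1)
    (hc0 : 0 ≤ c)
    (hG : ∀ (l : ℕ) (x : ℝ), Tendsto (fun X : ℕ => Gs (Φ X) ((1 / 2) ^ l) (Real.log (Z X) - x)) atTop (𝓝 (c * (1 / 2) ^ l))) :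
    Tendsto (fun X : ℕ => Nc (Φ X) (Z X) / Z X) atTop (𝓝 c) := by
  -- the parameters
  have hd : Tendsto (fun l : ℕ => ((1 : ℝ) / 2) ^ l) atTop (𝓝 0) :=
    tendsto_pow_atTop_nhds_zero_of_lt_one (by norm_num) (by norm_num)
  have he : Tendsto (fun l : ℕ => Real.exp (-(l : ℝ))) atTop (𝓝 0) :=
    Real.tendsto_exp_neg_atTop_nhds_zero.comp tendsto_natCast_atTop_atTop
  have hU : Tendsto (fun l : ℕ => c * (Real.exp ((1 / 2) ^ l) * (1 + (1 / 2) ^ l)) + 2 * Real.exp (-(l : ℝ))) atTop (𝓝 c) := by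
    have h1 : Tendsto (fun l : ℕ => Real.exp (((1 : ℝ) / 2) ^ l)) atTop (𝓝 (Real.exp 0)) := (Real.continuous_exp.tendsto 0).comp hd
    have h2 := ((h1.mul (hd.const_add 1)).const_mul c).add (he.const_mul 2)
    rw [Real.exp_zero] at h2
    simpa using h2
  have hL : Tendsto (fun l : ℕ => c * (Real.exp (-(2 * (1 / 2) ^ l)) * (1 - Real.exp (-(l : ℝ))))) atTop (𝓝 c) := by
    have h0 : Tendsto (fun l : ℕ => -(2 * ((1 : ℝ) / 2) ^ l)) atTop (𝓝 0) := by
      have := (hd.const_mul 2).neg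
      simpa using this
    have h1 : Tendsto (fun l : ℕ => Real.exp (-(2 * ((1 : ℝ) / 2) ^ l))) atTop (𝓝 (Real.exp 0)) := (Real.continuous_exp.tendsto 0).comp h0
    have h2 := (h1.mul (he.const_sub 1)).const_mul c
    rw [Real.exp_zero] at h2
    simpa using h2
  have hinv : Tendsto (fun X : ℕ => (1 : ℝ) / Z X) atTop (𝓝 0) := tendsto_one_div_atTop_nhds_zero_nat.comp hZ
  rw [tendsto_order]
  constructor
  · intro a ha
    obtain ⟨l, hl⟩ := ((tendsto_order.1 hL).1 a ha).exists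
    obtain ⟨δ, hδ⟩ : ∃ δ : ℝ, δ = (1 / 2) ^ l := ⟨_, rfl⟩
    have hδ0 : 0 < δ := by rw [hδ]; positivity
    obtain ⟨K, hK⟩ : ∃ K : ℕ, K = l * 2 ^ l := ⟨_, rfl⟩
    have hKδ : (K : ℝ) * δ = l := by
      rw [hK, hδ, one_div_pow]; push_cast; field_simp
    have h1 : Tendsto (fun X : ℕ => ∑ i ∈ Finset.range K, Real.exp (-(((i : ℕ) + 1) * δ) - δ) * Gs (Φ X) δ (Real.log (Z X) - ((i : ℕ) + 1) * δ)) atTop
        (𝓝 (∑ i ∈ Finset.range K, Real.exp (-(((i : ℕ) + 1) * δ) - δ) * (c * δ))) := by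
      apply tendsto_finsetSum
      intro i _
      apply Tendsto.const_mul
      have := hG l (((i : ℕ) + 1) * δ)
      rw [← hδ] at this
      exact this
    have h2 : a < ∑ i ∈ Finset.range K, Real.exp (-(((i : ℕ) + 1) * δ) - δ) * (c * δ) := by
      rw [← hδ] at hl
      refine lt_of_lt_of_le hl ?_
      have e : ∑ i ∈ Finset.range K, Real.exp (-(((i : ℕ) + 1) * δ) - δ) * (c * δ) =
          c * Real.exp (-(2 * δ)) * (δ * ∑ i ∈ Finset.range K, Real.exp (-(i * δ))) := by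
        rw [Finset.mul_sum, Finset.mul_sum]
        apply Finset.sum_congr rfl
        intro i _
        rw [show -(((i : ℕ) + 1) * δ) - δ = -(2 * δ) + -(i * δ) by ring, Real.exp_add]
        ring
      rw [e]
      have h3 := geo_lower hδ0 K
      rw [hKδ, div_le_iff₀ hδ0] at h3
      calc c * (Real.exp (-(2 * δ)) * (1 - Real.exp (-(l : ℝ)))) = c * Real.exp (-(2 * δ)) * (1 - Real.exp (-(l : ℝ))) := by ring
        _ ≤ c * Real.exp (-(2 * δ)) * (δ * ∑ i ∈ Finset.range K, Real.exp (-(i * δ))) := by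
            apply mul_le_mul_of_nonneg_left _ (by positivity)
            linarith
    filter_upwards [(tendsto_order.1 h1).1 a h2, hZ.eventually_ge_atTop 1] with X hX hX1
    have h4 := Nc_lower (hΦ0 X) hδ0 K hX1
    have hX0 : (0 : ℝ) < Z X := by exact_mod_cast hX1
    rw [lt_div_iff₀ hX0]
    calc a * Z X < (∑ i ∈ Finset.range K, Real.exp (-(((i : ℕ) + 1) * δ) - δ) * Gs (Φ X) δ (Real.log (Z X) - ((i : ℕ) + 1) * δ)) * Z X :=
          mul_lt_mul_of_pos_right hX hX0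
      _ = Z X * ∑ i ∈ Finset.range K, Real.exp (-(((i : ℕ) + 1) * δ) - δ) * Gs (Φ X) δ (Real.log (Z X) - ((i : ℕ) + 1) * δ) := mul_comm _ _
      _ ≤ _ := h4
  · intro a ha
    obtain ⟨l, hl⟩ := ((tendsto_order.1 hU).2 a ha).exists
    obtain ⟨δ, hδ⟩ : ∃ δ : ℝ, δ = (1 / 2) ^ l := ⟨_, rfl⟩
    have hδ0 : 0 < δ := by rw [hδ]; positivity
    obtain ⟨K, hK⟩ : ∃ K : ℕ, K = l * 2 ^ l := ⟨_, rfl⟩
    have hKδ : (K : ℝ) * δ = l := by
      rw [hK, hδ, one_div_pow]; push_cast; field_simp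
    have h1 : Tendsto (fun X : ℕ => ∑ i ∈ Finset.range (K + 1), Real.exp (-((i : ℕ) * δ) + δ) * Gs (Φ X) δ (Real.log (Z X) - (i : ℕ) * δ)) atTop
        (𝓝 (∑ i ∈ Finset.range (K + 1), Real.exp (-((i : ℕ) * δ) + δ) * (c * δ))) := by
      apply tendsto_finsetSum
      intro i _
      apply Tendsto.const_mul
      have := hG l ((i : ℕ) * δ)
      rw [← hδ] at this
      exact this
    have h2 : Tendsto (fun X : ℕ => ∑ i ∈ Finset.range (K + 1), Real.exp (-((i : ℕ) * δ) + δ) * Gs (Φ X) δ (Real.log (Z X) - (i : ℕ) * δ) +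
        (2 * Real.exp (-(l : ℝ)) + (1 : ℝ) / Z X)) atTop
        (𝓝 (∑ i ∈ Finset.range (K + 1), Real.exp (-((i : ℕ) * δ) + δ) * (c * δ) + (2 * Real.exp (-(l : ℝ)) + 0))) :=
      h1.add (hinv.const_add _)
    have h3 : ∑ i ∈ Finset.range (K + 1), Real.exp (-((i : ℕ) * δ) + δ) * (c * δ) + (2 * Real.exp (-(l : ℝ)) + 0) < a := by
      rw [← hδ] at hl
      refine lt_of_le_of_lt ?_ hl
      have e : ∑ i ∈ Finset.range (K + 1), Real.exp (-((i : ℕ) * δ) + δ) * (c * δ) =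
          c * Real.exp δ * (δ * ∑ i ∈ Finset.range (K + 1), Real.exp (-(i * δ))) := by
        rw [Finset.mul_sum, Finset.mul_sum]
        apply Finset.sum_congr rfl
        intro i _
        rw [Real.exp_add]
        ring
      rw [e, add_zero]
      have h4 := geo_upper hδ0 (K + 1)
      rw [le_div_iff₀ hδ0] at h4
      have h5 : c * Real.exp δ * (δ * ∑ i ∈ Finset.range (K + 1), Real.exp (-(i * δ))) ≤ c * Real.exp δ * (1 + δ) := by
        apply mul_le_mul_of_nonneg_left _ (by positivity)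
        linarith
      linarith
    filter_upwards [(tendsto_order.1 h2).2 a h3, hZ.eventually_ge_atTop 1] with X hX hX1
    have h4 := Nc_upper (hΦ0 X) (hΦ1 X) hδ0 K hX1
    have hX0 : (0 : ℝ) < Z X := by exact_mod_cast hX1
    rw [hKδ] at h4
    rw [div_lt_iff₀ hX0]
    refine lt_of_le_of_lt h4 ?_
    have h5 := mul_lt_mul_of_pos_right hX hX0
    refine lt_of_eq_of_lt ?_ h5
    obtain ⟨S, hS⟩ : ∃ S, S = ∑ i ∈ Finset.range (K + 1), Real.exp (-((i : ℕ) * δ) + δ) * Gs (Φ X) δ (Real.log (Z X) - (i : ℕ) * δ) := ⟨_, rfl⟩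
    rw [← hS]
    field_simp

/-- TT along arbitrary sequences -/
def ST_TTS : Prop := ∀ a : ℤ, a ≠ 0 → ∃ c : ℝ, 0 ≤ c ∧ Tendsto (fun X : ℕ => Nc (FI a) X / X) atTop (𝓝 c) ∧
  ∀ (s : ℝ) (J Z : ℕ → ℕ), Tendsto J atTop atTop → Tendsto Z atTop atTop →
    Tendsto (fun n : ℕ => ((J n : ℝ) * TD.mu - Real.log (Z n)) / (Real.log 3 / 2 * Real.sqrt (J n))) atTop (𝓝 s) →
    Tendsto (fun n : ℕ => Nc (FH a (J n)) (Z n) / Z n) atTop (𝓝 (c * gs s))

theorem ttS (hBIN : ST_BIN) (hW : ST_WALK) : ST_TTS := by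
  intro a ha
  obtain ⟨c, hc⟩ := Gs_lim (abs_nonneg (a : ℝ)) (FI_inv a)
  have hc0 : 0 ≤ c := by
    have h1 := hc 0
    simp only [pow_zero, mul_one] at h1
    exact ge_of_tendsto' h1 (fun b => Gs_nonneg (FI_nonneg a) _ _)
  refine ⟨c, hc0, nat_dens_of (FI_inv a) hc, ?_⟩
  intro s J Z hJ hZ hs
  refine natS (Φ := fun X => FH a (J X)) hZ (fun X => FH_nonneg a (J X)) (fun X => FH_le_one a (J X))
    (mul_nonneg hc0 (gs_nonneg s)) ?_
  intro l x
  obtain ⟨W, hWd⟩ : ∃ W : ℝ, W = (1 / 2) ^ l := ⟨_, rfl⟩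
  have hW0 : 0 < W := by rw [hWd]; positivity
  have hW1 : W ≤ 1 := by rw [hWd]; exact pow_le_one₀ (by norm_num) (by norm_num)
  have hcl := hc l
  rw [← hWd] at hcl ⊢
  have hcW : 0 ≤ c * W := by positivity
  have hb : Tendsto (fun X : ℕ => Real.log (Z X : ℝ) - x) atTop atTop :=
    tendsto_atTop_add_const_right atTop (-x) (Real.tendsto_log_atTop.comp (tendsto_natCast_atTop_atTop.comp hZ))
  -- limits of the comparison functions
  have hup : ∀ M : ℕ, Tendsto (fun X => PW (J X + M) (Real.log (Z X : ℝ) - x)) atTop (𝓝 (gs s)) := by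
    intro M
    obtain ⟨h1, h2⟩ := shift_ok (J' := fun X => J X + M) (L' := fun X : ℕ => Real.log (Z X : ℝ) - x) (D := M) (E := |x|) hJ hs
      (Eventually.of_forall (fun X => by
        push_cast
        rw [add_sub_cancel_left, abs_of_nonneg (by positivity)]))
      (fun X => by rw [show Real.log (Z X : ℝ) - x - Real.log (Z X : ℝ) = -x by ring, abs_neg])
    exact hBIN s _ _ h1 h2
  have hlo : ∀ M : ℕ, Tendsto (fun X => PW (J X - M) (Real.log (Z X : ℝ) - x)) atTop (𝓝 (gs s)) := by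
    intro M
    obtain ⟨h1, h2⟩ := shift_ok (J' := fun X => J X - M) (L' := fun X : ℕ => Real.log (Z X : ℝ) - x) (D := M) (E := |x|) hJ hs
      (by
        filter_upwards [hJ.eventually_ge_atTop M] with X hX
        rw [Nat.cast_sub hX, show (J X : ℝ) - M - J X = -(M : ℝ) by ring, abs_neg, abs_of_nonneg (by positivity)])
      (fun X => by rw [show Real.log (Z X : ℝ) - x - Real.log (Z X : ℝ) = -x by ring, abs_neg])
    exact hBIN s _ _ h1 h2
  rw [show c * gs s * W = (c * W) * gs s by ring, tendsto_order]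
  constructor
  · intro u hu
    obtain ⟨κ, hκ⟩ : ∃ κ, κ = ((c * W) * gs s - u) / 3 := ⟨_, rfl⟩
    have hκ0 : 0 < κ := by rw [hκ]; linarith
    obtain ⟨M, N0, H⟩ := hW a W (c * W) ha hW0 hW1 hcW hcl κ hκ0
    have h1 := ((hlo M).const_mul (c * W))
    filter_upwards [(tendsto_order.1 h1).1 ((c * W) * gs s - κ) (by linarith), hb.eventually_ge_atTop N0,
      hJ.eventually_ge_atTop M] with X h2 h3 h4
    have h5 := (H (Real.log (Z X : ℝ) - x) h3 (J X)).2 h4
    linarith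
  · intro u hu
    obtain ⟨κ, hκ⟩ : ∃ κ, κ = (u - (c * W) * gs s) / 3 := ⟨_, rfl⟩
    have hκ0 : 0 < κ := by rw [hκ]; linarith
    obtain ⟨M, N0, H⟩ := hW a W (c * W) ha hW0 hW1 hcW hcl κ hκ0
    have h1 := ((hup M).const_mul (c * W))
    filter_upwards [(tendsto_order.1 h1).2 ((c * W) * gs s + κ) (by linarith), hb.eventually_ge_atTop N0] with X h2 h3
    have h5 := (H (Real.log (Z X : ℝ) - x) h3 (J X)).1
    linarith

end Pool.Agent.Helper3.HT
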