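import Pool.Agent.Helper3.HT.LevB
import Pool.Agent.Helper3.HT.TTS

/-! Levels: natural density and the normal law for the steps of `T`, along sequences. -/

namespace Pool.Agent.Helper3.HT

open Pool.Agent.Helper3.ND Pool.Agent.Helper3.TD Filter Topology

theorem levT (hBIN : ST_BIN) {Φ : ℤ → ℝ} {Y0 : ℝ} (hY0 : 0 ≤ Y0) (hΦ : Inv Φ Y0) :
    ∃ g : ℝ, 0 ≤ g ∧ Tendsto (fun X : ℕ => Nc Φ X / X) atTop (𝓝 g) ∧
  ∀ (s : ℝ) (J Z : ℕ → ℕ) (c : ℕ → ℝ), Tendsto J atTop atTop → Tendsto Z atTop atTop → Tendsto c atTop atTop →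
    Tendsto (fun n => Real.log (Z n) - c n) atTop atTop →
    Tendsto (fun n : ℕ => ((J n : ℝ) * TD.mu - (Real.log (Z n) - c n)) / (Real.log 3 / 2 * Real.sqrt (J n))) atTop (𝓝 s) →
    Tendsto (fun n : ℕ => Nc (LV Φ (c n) (J n)) (Z n) / Z n) atTop (𝓝 (g * gs s)) := by
  obtain ⟨g, hg⟩ := Gs_lim hY0 hΦ
  have hg0 : 0 ≤ g := by
    have h1 := hg 0
    simp only [pow_zero, mul_one] at h1
    exact ge_of_tendsto' h1 (fun b => Gs_nonneg hΦ.nonneg _ _)
  refine ⟨g, hg0, nat_dens_of hΦ hg, ?_⟩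
  intro s J Z c hJ hZ hc hL hs
  refine natS (Φ := fun X => LV Φ (c X) (J X)) hZ (fun X => LV_nonneg hΦ.nonneg (c X) (J X))
    (fun X N => le_trans (LV_le hΦ.nonneg (c X) (J X) N) (hΦ.le_one N)) (mul_nonneg hg0 (gs_nonneg s)) ?_
  intro l x
  obtain ⟨W, hWd⟩ : ∃ W : ℝ, W = (1 / 2) ^ l := ⟨_, rfl⟩
  have hW0 : 0 < W := by rw [hWd]; positivity
  have hW1 : W ≤ 1 := by rw [hWd]; exact pow_le_one₀ (by norm_num) (by norm_num)
  have hgl := hg l
  rw [← hWd] at hgl ⊢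
  have hgW : 0 ≤ g * W := by positivity
  have hb : Tendsto (fun X : ℕ => Real.log (Z X : ℝ) - c X - x) atTop atTop :=
    tendsto_atTop_add_const_right atTop (-x) hL
  -- limits of the comparison functions
  have hup : ∀ M : ℕ, Tendsto (fun X => PW (J X + M) (Real.log (Z X : ℝ) - c X - x)) atTop (𝓝 (gs s)) := by
    intro M
    obtain ⟨h1, h2⟩ := shift_ok (J' := fun X => J X + M) (L' := fun X : ℕ => Real.log (Z X : ℝ) - c X - x) (D := M) (E := |x|) hJ hs
      (Eventually.of_forall (fun X => by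
        push_cast
        rw [add_sub_cancel_left, abs_of_nonneg (by positivity)]))
      (fun X => by rw [show Real.log (Z X : ℝ) - c X - x - (Real.log (Z X : ℝ) - c X) = -x by ring, abs_neg])
    exact hBIN s _ _ h1 h2
  have hlo : ∀ M : ℕ, Tendsto (fun X => PW (J X - M) (Real.log (Z X : ℝ) - c X - x)) atTop (𝓝 (gs s)) := by
    intro M
    obtain ⟨h1, h2⟩ := shift_ok (J' := fun X => J X - M) (L' := fun X : ℕ => Real.log (Z X : ℝ) - c X - x) (D := M) (E := |x|) hJ hs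
      (by
        filter_upwards [hJ.eventually_ge_atTop M] with X hX
        rw [Nat.cast_sub hX, show (J X : ℝ) - M - J X = -(M : ℝ) by ring, abs_neg, abs_of_nonneg (by positivity)])
      (fun X => by rw [show Real.log (Z X : ℝ) - c X - x - (Real.log (Z X : ℝ) - c X) = -x by ring, abs_neg])
    exact hBIN s _ _ h1 h2
  have hcx : ∀ X : ℕ, Real.log (Z X : ℝ) - x = c X + (Real.log (Z X : ℝ) - c X - x) := fun X => by ring
  rw [show g * gs s * W = (g * W) * gs s by ring, tendsto_order]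
  constructor
  · intro u hu
    obtain ⟨κ, hκ⟩ : ∃ κ, κ = ((g * W) * gs s - u) / 3 := ⟨_, rfl⟩
    have hκ0 : 0 < κ := by rw [hκ]; linarith
    obtain ⟨M, N0, c0, H⟩ := walkL hΦ hW0 hW1 hgW hgl hκ0
    have h1 := ((hlo M).const_mul (g * W))
    filter_upwards [(tendsto_order.1 h1).1 ((g * W) * gs s - κ) (by linarith), hb.eventually_ge_atTop N0,
      hJ.eventually_ge_atTop M, hc.eventually_ge_atTop c0] with X h2 h3 h4 h6
    have h5 := (H (c X) h6 (Real.log (Z X : ℝ) - c X - x) h3 (J X)).2 h4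
    rw [← hcx] at h5
    linarith
  · intro u hu
    obtain ⟨κ, hκ⟩ : ∃ κ, κ = (u - (g * W) * gs s) / 3 := ⟨_, rfl⟩
    have hκ0 : 0 < κ := by rw [hκ]; linarith
    obtain ⟨M, N0, c0, H⟩ := walkL hΦ hW0 hW1 hgW hgl hκ0
    have h1 := ((hup M).const_mul (g * W))
    filter_upwards [(tendsto_order.1 h1).2 ((g * W) * gs s + κ) (by linarith), hb.eventually_ge_atTop N0, hc.eventually_ge_atTop c0] with X h2 h3 h6
    have h5 := (H (c X) h6 (Real.log (Z X : ℝ) - c X - x) h3 (J X)).1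
    rw [← hcx] at h5
    linarith

end Pool.Agent.Helper3.HT
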