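import Pool.Agent.Helper3.HT.TTS
import Pool.Agent.Helper3.TD.Cls

/-! The odd integers. -/

namespace Pool.Agent.Helper3.HT

open Pool.Agent.Helper3.ND Pool.Agent.Helper3.TD Filter Topology

open Classical in
/-- sum over the odd integers up to `X` in absolute value -/
noncomputable def No (Φ : ℤ → ℝ) (X : ℕ) : ℝ := ∑ n ∈ (Finset.Icc (-(X : ℤ)) X).filter (fun n => Odd n), Φ n

/-- normal law for the steps of `T`, odd starting values -/
def ST_ODD : Prop := ∀ a : ℤ, a ≠ 0 → ∃ c : ℝ, 0 ≤ c ∧ Tendsto (fun X : ℕ => No (FI a) X / X) atTop (𝓝 c) ∧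
  ∀ (s : ℝ) (J Z : ℕ → ℕ), Tendsto J atTop atTop → Tendsto Z atTop atTop →
    Tendsto (fun n : ℕ => ((J n : ℝ) * TD.mu - Real.log (Z n)) / (Real.log 3 / 2 * Real.sqrt (J n))) atTop (𝓝 s) →
    Tendsto (fun n : ℕ => No (FH a (J n)) (Z n) / Z n) atTop (𝓝 (c * gs s))

theorem Nc_split (Φ : ℤ → ℝ) (X : ℕ) : Nc Φ X = No Φ X + Nc (fun n => Φ (2 * n)) (X / 2) := by
  classical
  have h1 : Nc Φ X = ∑ n ∈ (Finset.Icc (-(X : ℤ)) X).filter (fun n => Odd n), Φ n +
      ∑ n ∈ (Finset.Icc (-(X : ℤ)) X).filter (fun n => ¬ Odd n), Φ n := by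
    unfold Nc
    exact (Finset.sum_filter_add_sum_filter_not _ _ _).symm
  have h2 : ∑ n ∈ (Finset.Icc (-(X : ℤ)) X).filter (fun n => ¬ Odd n), Φ n = Nc (fun n => Φ (2 * n)) (X / 2) := by
    unfold Nc
    symm
    apply Finset.sum_nbij' (fun n => 2 * n) (fun n => n / 2)
    · intro n hn
      rw [Finset.mem_Icc] at hn
      rw [Finset.mem_filter, Finset.mem_Icc, Int.not_odd_iff_even]
      refine ⟨by omega, n, by ring⟩
    · intro n hn
      rw [Finset.mem_filter, Finset.mem_Icc, Int.not_odd_iff_even] at hn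
      obtain ⟨hn1, k, hk⟩ := hn
      rw [Finset.mem_Icc]
      omega
    · intro n _
      omega
    · intro n hn
      rw [Finset.mem_filter, Finset.mem_Icc, Int.not_odd_iff_even] at hn
      obtain ⟨hn1, k, hk⟩ := hn
      omega
    · intro n _
      rfl
  rw [h1, h2]
  unfold No
  rfl

/-- two functions that agree outside a bounded range have nearly the same counting function -/
theorem Nc_close {Φ Ψ : ℤ → ℝ} {y : ℝ} (hy : 0 ≤ y) (h0 : ∀ n, |Φ n - Ψ n| ≤ 1) (h1 : ∀ n : ℤ, y < |(n : ℝ)| → Φ n = Ψ n) (X : ℕ) :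
    |Nc Φ X - Nc Ψ X| ≤ 2 * y + 1 := by
  classical
  unfold Nc
  rw [← Finset.sum_sub_distrib]
  refine le_trans (Finset.abs_sum_le_sum_abs _ _) ?_
  have h2 : ∀ n ∈ Finset.Icc (-(X : ℤ)) X, |Φ n - Ψ n| ≤ if |(n : ℝ)| ≤ y then (1 : ℝ) else 0 := by
    intro n _
    split_ifs with h
    · exact h0 n
    · rw [h1 n (not_le.mp h), sub_self, abs_zero]
  refine le_trans (Finset.sum_le_sum h2) ?_
  rw [← Finset.sum_filter, Finset.sum_const, nsmul_eq_mul, mul_one]
  exact card_small X hy

theorem half_lim {f : ℕ → ℝ} {Z : ℕ → ℕ} {c : ℝ} (hZ : Tendsto Z atTop atTop)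
    (hf : Tendsto (fun n => f n / ((Z n / 2 : ℕ) : ℝ)) atTop (𝓝 c)) : Tendsto (fun n => f n / Z n) atTop (𝓝 (c / 2)) := by
  have hZr : Tendsto (fun n => (Z n : ℝ)) atTop atTop := tendsto_natCast_atTop_atTop.comp hZ
  have hq : Tendsto (fun n => ((Z n / 2 : ℕ) : ℝ) / Z n) atTop (𝓝 (1 / 2)) := by
    have h3 : Tendsto (fun n => (1 : ℝ) / (Z n : ℝ)) atTop (𝓝 0) := Tendsto.div_atTop tendsto_const_nhds hZr
    rw [tendsto_iff_norm_sub_tendsto_zero]
    apply squeeze_zero' (Eventually.of_forall (fun _ => norm_nonneg _)) _ h3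
    filter_upwards [hZr.eventually_gt_atTop 0] with n hn
    rw [Real.norm_eq_abs, div_sub' hn.ne', abs_div, abs_of_pos hn]
    apply div_le_div_of_nonneg_right _ hn.le
    have h5 : 2 * (Z n / 2) ≤ Z n := Nat.mul_div_le _ _
    have h6 : Z n < 2 * (Z n / 2) + 2 := by omega
    have h7 : (2 : ℝ) * ((Z n / 2 : ℕ) : ℝ) ≤ Z n := by exact_mod_cast h5
    have h8 : (Z n : ℝ) < 2 * ((Z n / 2 : ℕ) : ℝ) + 2 := by exact_mod_cast h6
    rw [abs_le]
    constructor <;> linarith
  have h := hf.mul hq
  have e : c * (1 / 2) = c / 2 := by ring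
  rw [e] at h
  apply h.congr'
  filter_upwards [hZ.eventually_ge_atTop 2] with n hn
  have h5 : 1 ≤ Z n / 2 := by omega
  have h6 : (0 : ℝ) < ((Z n / 2 : ℕ) : ℝ) := by exact_mod_cast h5
  have h7 : (0 : ℝ) < (Z n : ℝ) := by exact_mod_cast (by omega : 0 < Z n)
  field_simp

theorem odd_law (h : ST_TTS) : ST_ODD := by
  classical
  intro a ha
  obtain ⟨c, hc0, hc, H⟩ := h a ha
  refine ⟨c / 2, by linarith, ?_, ?_⟩
  · -- all
    have h1 : Tendsto (fun X : ℕ => Nc (FI a) (X / 2) / ((X / 2 : ℕ) : ℝ)) atTop (𝓝 c) :=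
      hc.comp (Nat.tendsto_div_const_atTop (by norm_num))
    have h2 := half_lim (f := fun X : ℕ => Nc (FI a) (X / 2)) (Z := fun X => X) tendsto_id h1
    have h3 : Tendsto (fun X : ℕ => (Nc (FI a) (X / 2) - Nc (fun n => FI a (2 * n)) (X / 2)) / X) atTop (𝓝 0) := by
      have h4 : Tendsto (fun X : ℕ => (2 * |(a : ℝ)| + 1) / (X : ℝ)) atTop (𝓝 0) :=
        Tendsto.div_atTop tendsto_const_nhds tendsto_natCast_atTop_atTop
      apply squeeze_zero_norm' _ h4
      filter_upwards [eventually_gt_atTop 0] with X hX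
      have hX0 : (0 : ℝ) < X := by exact_mod_cast hX
      rw [Real.norm_eq_abs, abs_div, abs_of_pos hX0]
      apply div_le_div_of_nonneg_right _ hX0.le
      apply Nc_close (abs_nonneg _)
      · intro n
        have b1 := FI_nonneg a n
        have b2 := FI_le_one a n
        have b3 := FI_nonneg a (2 * n)
        have b4 := FI_le_one a (2 * n)
        rw [abs_le]; constructor <;> linarith
      · intro n hn
        have h5 : |(a : ℝ)| < |((2 * n : ℤ) : ℝ)| := by
          push_cast
          rw [abs_mul, abs_two]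
          linarith [abs_nonneg (n : ℝ)]
        have h6 := (FI_inv a).inv (2 * n) h5
        have h7 : T (2 * n) = n := by
          have := T_even (n := 2 * n) (by omega)
          omega
        rw [h7] at h6
        exact h6
    have h4 := (hc.sub h2).add h3
    rw [show c - c / 2 + 0 = c / 2 by ring] at h4
    apply h4.congr
    intro X
    rw [Nc_split (FI a) X]
    ring
  · intro s J Z hJ hZ hs
    have h0 := H s J Z hJ hZ hs
    have hZ2 : Tendsto (fun n => Z n / 2) atTop atTop := (Nat.tendsto_div_const_atTop (by norm_num)).comp hZ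
    obtain ⟨e1, e2⟩ := shift_ok (J' := fun n => J n - 1) (L := fun n : ℕ => Real.log (Z n)) (L' := fun n : ℕ => Real.log ((Z n / 2 : ℕ) : ℝ))
      (D := 1) (E := 2) hJ hs
      (by
        filter_upwards [hJ.eventually_ge_atTop 1] with n hn
        rw [Nat.cast_sub hn, show (J n : ℝ) - ((1 : ℕ) : ℝ) - J n = -1 by push_cast; ring, abs_neg, abs_one])
      (by
        intro n
        rcases Nat.lt_or_ge (Z n) 2 with h2 | h2
        · have h3 : Z n / 2 = 0 := by omega
          rw [h3]
          have h4 : Real.log (Z n) = 0 := by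
            interval_cases (Z n) <;> simp
          rw [h4]; simp
        · have h3 : 1 ≤ Z n / 2 := by omega
          have h3' : (1 : ℝ) ≤ ((Z n / 2 : ℕ) : ℝ) := by exact_mod_cast h3
          have h4 : ((Z n / 2 : ℕ) : ℝ) ≤ Z n := by exact_mod_cast Nat.div_le_self _ _
          have h5 : (Z n : ℝ) ≤ 3 * ((Z n / 2 : ℕ) : ℝ) := by
            have : Z n ≤ 3 * (Z n / 2) := by omega
            exact_mod_cast this
          have h6 := Real.log_le_log (by linarith) h4
          have h7 := Real.log_le_log (by linarith) h5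
          rw [Real.log_mul (by norm_num) (by linarith)] at h7
          have h8 := log_three_le
          rw [abs_le]
          constructor <;> linarith)
    have h1 := H s _ _ e1 hZ2 e2
    have h2 := half_lim (f := fun n : ℕ => Nc (FH a (J n - 1)) (Z n / 2)) (Z := Z) hZ h1
    have h3 : Tendsto (fun n : ℕ => (Nc (FH a (J n - 1)) (Z n / 2) - Nc (fun m => FH a (J n) (2 * m)) (Z n / 2)) / Z n) atTop (𝓝 0) := by
      have h4 : Tendsto (fun n : ℕ => (2 * |(a : ℝ)| + 1) / (Z n : ℝ)) atTop (𝓝 0) :=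
        Tendsto.div_atTop tendsto_const_nhds (tendsto_natCast_atTop_atTop.comp hZ)
      apply squeeze_zero_norm' _ h4
      filter_upwards [hZ.eventually_gt_atTop 0, hJ.eventually_ge_atTop 1] with X hX hJX
      have hX0 : (0 : ℝ) < Z X := by exact_mod_cast hX
      rw [Real.norm_eq_abs, abs_div, abs_of_pos hX0]
      apply div_le_div_of_nonneg_right _ hX0.le
      apply Nc_close (abs_nonneg _)
      · intro n
        have b1 := FH_nonneg a (J X - 1) n
        have b2 := FH_le_one a (J X - 1) n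
        have b3 := FH_nonneg a (J X) (2 * n)
        have b4 := FH_le_one a (J X) (2 * n)
        rw [abs_le]; constructor <;> linarith
      · intro n hn
        have h5 : |(a : ℝ)| < |((2 * n : ℤ) : ℝ)| := by
          push_cast
          rw [abs_mul, abs_two]
          linarith [abs_nonneg (n : ℝ)]
        have h6 := (FH_fam a).inv (J X - 1) (2 * n) h5
        have h7 : T (2 * n) = n := by
          have := T_even (n := 2 * n) (by omega)
          omega
        rw [h7, Nat.sub_add_cancel hJX] at h6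
        exact h6
    have h4 := (h0.sub h2).add h3
    rw [show c * gs s - c * gs s / 2 + 0 = c / 2 * gs s by ring] at h4
    apply h4.congr
    intro n
    rw [Nc_split (FH a (J n)) (Z n)]
    ring

end Pool.Agent.Helper3.HT
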