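import Pool.Agent.Helper3.HT.LevC
import Pool.Agent.Helper3.HT.OddS
import Pool.Agent.Helper3.HT.ClsC
import Pool.Agent.Helper32.HT.Cnt
import Pool.Agent.Helper32.EQ.Cls4
import Pool.Agent.Helper18.HT.DET

/-! Levels: the odd integers. -/

namespace Pool.Agent.Helper3.HT

open Pool.Agent.Helper3.ND Pool.Agent.Helper3.TD Pool.Agent.Helper32.HT Pool.Agent.Helper32.EQ Filter Topology

/-- `N ∈ S` and the orbit of `N` under `T` enters `[-exp c, exp c]` within `j` steps -/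
def EN (S : Set ℤ) (c : ℝ) (j : ℕ) (N : ℤ) : Prop := N ∈ S ∧ ∃ i : ℕ, i ≤ j ∧ |((T^[i] N : ℤ) : ℝ)| ≤ Real.exp c

theorem LV_two (S : Set ℤ) (c : ℝ) (j : ℕ) (m : ℤ) : LV (phi S) c (j + 1) (2 * m) = LV (phi S) c j m := by
  classical
  have h1 : phi S (2 * m) = phi S m := by
    unfold phi
    exact if_congr (PS_two m) rfl rfl
  have h2 : (∃ i : ℕ, i ≤ j + 1 ∧ |((T^[i] (2 * m) : ℤ) : ℝ)| ≤ Real.exp c) ↔ ∃ i : ℕ, i ≤ j ∧ |((T^[i] m : ℤ) : ℝ)| ≤ Real.exp c := by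
    constructor
    · rintro ⟨i, h3, h4⟩
      rcases i with _ | i
      · refine ⟨0, by omega, ?_⟩
        simp only [Function.iterate_zero, id_eq] at h4 ⊢
        push_cast at h4
        rw [abs_mul, abs_two] at h4
        linarith [abs_nonneg (m : ℝ)]
      · rw [Function.iterate_succ_apply, det_T_two] at h4
        exact ⟨i, by omega, h4⟩
    · rintro ⟨i, h3, h4⟩
      exact ⟨i + 1, by omega, by rw [Function.iterate_succ_apply, det_T_two]; exact h4⟩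
  unfold LV
  rw [h1]
  exact if_congr h2 rfl rfl

theorem cP_EN (S : Set ℤ) (c : ℝ) (j : ℕ) (X : ℕ) :
    ((cP (EN S c (j + 1)) (X : ℝ) : ℕ) : ℝ) = Nc (LV (phi S) c (j + 1)) X - Nc (LV (phi S) c j) (X / 2) := by
  classical
  rw [← odd_sum (LV (phi S) c (j + 1)) (LV (phi S) c j) (LV_two S c j) X]
  have h1 := odd_card (fun n => n < 0 ∧ EN S c (j + 1) n) (fun n hn h => absurd h.1 (not_lt.mpr hn)) X
  have h2 : cP (fun n => n < 0 ∧ EN S c (j + 1) n) (X : ℝ) = cP (EN S c (j + 1)) (X : ℝ) := by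
    apply le_antisymm
    · exact cP_mono (fun N _ _ b3 b4 => ⟨b3, b4.2⟩)
    · exact cP_mono (fun N b1 _ b3 b4 => ⟨b3, b1, b4⟩)
  rw [← h2, ← h1]
  apply Finset.sum_congr rfl
  intro n hn
  have ho := (Finset.mem_filter.mp hn).2
  by_cases hE : n < 0 ∧ EN S c (j + 1) n
  · rw [if_pos hE]
    obtain ⟨a1, a2, a3⟩ := hE
    unfold LV
    rw [if_pos a3]
    unfold phi
    rw [if_pos ((PS_odd ho).mpr ⟨a1, a2⟩)]
  · rw [if_neg hE]
    unfold LV
    by_cases h3 : ∃ i : ℕ, i ≤ j + 1 ∧ |((T^[i] n : ℤ) : ℝ)| ≤ Real.exp c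
    · rw [if_pos h3]
      unfold phi
      rw [if_neg]
      intro h4
      obtain ⟨a1, a2⟩ := (PS_odd ho).mp h4
      exact hE ⟨a1, a2, h3⟩
    · rw [if_neg h3]

theorem levO (hBIN : ST_BIN) {S : Set ℤ} {Y : ℕ} (hS : SI Y S) : ∃ d : ℝ, Tendsto (fun x : ℝ => ((cS S x : ℕ) : ℝ) / x) atTop (𝓝 d) ∧
  ∀ (s : ℝ) (J Z : ℕ → ℕ) (c : ℕ → ℝ), Tendsto J atTop atTop → Tendsto Z atTop atTop → Tendsto c atTop atTop →
    Tendsto (fun n => Real.log (Z n) - c n) atTop atTop →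
    Tendsto (fun n : ℕ => ((J n : ℝ) * TD.mu - (Real.log (Z n) - c n)) / (Real.log 3 / 2 * Real.sqrt (J n))) atTop (𝓝 s) →
    Tendsto (fun n : ℕ => ((cP (EN S (c n) (J n)) (Z n : ℝ) : ℕ) : ℝ) / Z n) atTop (𝓝 (d * gs s)) := by
  obtain ⟨g, hg0, hg1, H⟩ := levT hBIN (Nat.cast_nonneg Y) (phi_invY hS)
  obtain ⟨d, hd⟩ := dens_existsY dcH hS
  have hdg : d = g / 2 := by
    have h1 : Tendsto (fun X : ℕ => ((cS S (X : ℝ) : ℕ) : ℝ) / X) atTop (𝓝 d) := hd.comp tendsto_natCast_atTop_atTop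
    have h2 : Tendsto (fun X : ℕ => Nc (phi S) (X / 2) / ((X / 2 : ℕ) : ℝ)) atTop (𝓝 g) :=
      hg1.comp (Nat.tendsto_div_const_atTop (by norm_num))
    have h3 := half_lim (f := fun X : ℕ => Nc (phi S) (X / 2)) (Z := fun X => X) tendsto_id h2
    have h4 := hg1.sub h3
    have h5 : Tendsto (fun X : ℕ => ((cS S (X : ℝ) : ℕ) : ℝ) / X) atTop (𝓝 (g - g / 2)) := by
      refine h4.congr (fun X => ?_)
      rw [cS_eq]; ring
    have := tendsto_nhds_unique h1 h5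
    linarith
  refine ⟨d, hd, ?_⟩
  intro s J Z c hJ hZ hc hL hs
  have h0 := H s J Z c hJ hZ hc hL hs
  have hZ2 : Tendsto (fun n => Z n / 2) atTop atTop := (Nat.tendsto_div_const_atTop (by norm_num)).comp hZ
  have hlog : ∀ᶠ n in atTop, |(Real.log ((Z n / 2 : ℕ) : ℝ) - c n) - (Real.log (Z n) - c n)| ≤ 2 := by
    filter_upwards [hZ.eventually_ge_atTop 2] with n h2
    have h3 : 1 ≤ Z n / 2 := by omega
    have h4 : (1 : ℝ) ≤ ((Z n / 2 : ℕ) : ℝ) := by exact_mod_cast h3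
    have h5 : Z n ≤ 3 * (Z n / 2) := by omega
    have h6 : (Z n : ℝ) ≤ 3 * ((Z n / 2 : ℕ) : ℝ) := by exact_mod_cast h5
    have h7 : 2 * (Z n / 2) ≤ Z n := Nat.mul_div_le _ _
    have h8 : 2 * ((Z n / 2 : ℕ) : ℝ) ≤ (Z n : ℝ) := by exact_mod_cast h7
    have h9 := Real.log_le_log (by linarith) h6
    have h10 := Real.log_le_log (by linarith) h8
    rw [Real.log_mul (by norm_num) (by linarith)] at h9 h10
    have h11 := log_three_le
    have h12 := Real.log_pos (show (1 : ℝ) < 2 by norm_num)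
    rw [abs_le]
    constructor <;> linarith
  obtain ⟨e1, e2⟩ := shift_ev (J' := fun n => J n - 1) (L' := fun n : ℕ => Real.log ((Z n / 2 : ℕ) : ℝ) - c n) (D := 1) (E := 2) hJ hs
    (by
      filter_upwards [hJ.eventually_ge_atTop 1] with n hn
      rw [Nat.cast_sub hn, show (J n : ℝ) - ((1 : ℕ) : ℝ) - J n = -1 by push_cast; ring, abs_neg, abs_one]) hlog
  have hL2 : Tendsto (fun n => Real.log ((Z n / 2 : ℕ) : ℝ) - c n) atTop atTop := by
    apply tendsto_atTop_mono' atTop (f₁ := fun n => Real.log (Z n) - c n - 2)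
    · filter_upwards [hlog] with n hn
      rw [abs_le] at hn
      linarith
    · exact tendsto_atTop_add_const_right atTop (-2) hL
  have h1 := H s (fun n => J n - 1) (fun n => Z n / 2) c e1 hZ2 hc hL2 e2
  have h2 := half_lim (f := fun n : ℕ => Nc (LV (phi S) (c n) (J n - 1)) (Z n / 2)) (Z := Z) hZ h1
  have h3 := h0.sub h2
  rw [show g * gs s - g * gs s / 2 = d * gs s by rw [hdg]; ring] at h3
  refine h3.congr' ?_
  filter_upwards [hJ.eventually_ge_atTop 1] with n hn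
  obtain ⟨j, hj⟩ : ∃ j, J n = j + 1 := ⟨J n - 1, by omega⟩
  rw [hj, cP_EN, Nat.add_sub_cancel]
  ring

end Pool.Agent.Helper3.HT
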