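import Pool.Agent.Helper3.HT.ClsB

/-! The normalisation of the times. -/

namespace Pool.Agent.Helper3.HT

open Pool.Agent.Helper3.ND Pool.Agent.Helper3.TD Filter Topology

theorem D_pos : 0 < Real.log (4 / 3) := Real.log_pos (by norm_num)

theorem D_eq : Real.log (4 / 3) = 2 * Real.log 2 - Real.log 3 := by
  rw [Real.log_div (by norm_num) (by norm_num), show (4 : ℝ) = 2 ^ 2 by norm_num, Real.log_pow]
  push_cast
  ring

theorem mu_D : TD.mu = Real.log (4 / 3) / 2 := by
  rw [D_eq]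
  unfold TD.mu
  ring

/-- times `2 L / D + B sqrt L + o (sqrt L)` are normalised correctly -/
theorem norm_lim {L : ℕ → ℝ} {J : ℕ → ℕ} {s B : ℝ} (hL : Tendsto L atTop atTop)
    (hB : B = s * Real.log 3 * Real.sqrt 2 / (Real.log (4 / 3) * Real.sqrt (Real.log (4 / 3))))
    (hJ : Tendsto (fun n => ((J n : ℝ) - (2 / Real.log (4 / 3) * L n + B * Real.sqrt (L n))) / Real.sqrt (L n)) atTop (𝓝 0)) :
    Tendsto J atTop atTop ∧
    Tendsto (fun n => ((J n : ℝ) * TD.mu - L n) / (Real.log 3 / 2 * Real.sqrt (J n))) atTop (𝓝 s) := by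
  obtain ⟨D, hD⟩ : ∃ D, D = Real.log (4 / 3) := ⟨_, rfl⟩
  have hD0 : 0 < D := by rw [hD]; exact D_pos
  rw [← hD] at hB hJ
  have hl3 : 0 < Real.log 3 := Real.log_pos (by norm_num)
  have hsL : Tendsto (fun n => Real.sqrt (L n)) atTop atTop := Real.tendsto_sqrt_atTop.comp hL
  have hinv : Tendsto (fun n => (1 : ℝ) / Real.sqrt (L n)) atTop (𝓝 0) := Tendsto.div_atTop tendsto_const_nhds hsL
  -- J / L
  have hq : Tendsto (fun n => (J n : ℝ) / L n) atTop (𝓝 (2 / D)) := by
    have h1 := ((hJ.const_add B).mul hinv).const_add (2 / D)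
    rw [add_zero, mul_zero, add_zero] at h1
    apply h1.congr'
    filter_upwards [hL.eventually_gt_atTop 0] with n hn
    have h2 : 0 < Real.sqrt (L n) := Real.sqrt_pos.mpr hn
    have h3 : Real.sqrt (L n) * Real.sqrt (L n) = L n := Real.mul_self_sqrt hn.le
    have h4 : L n ≠ 0 := hn.ne'
    rw [eq_div_iff h4]
    have e : (2 / D + (B + ((J n : ℝ) - (2 / D * L n + B * Real.sqrt (L n))) / Real.sqrt (L n)) * (1 / Real.sqrt (L n))) * L n =
        2 / D * L n + (B + ((J n : ℝ) - (2 / D * L n + B * Real.sqrt (L n))) / Real.sqrt (L n)) * (L n / Real.sqrt (L n)) := by ring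
    rw [e]
    have e2 : L n / Real.sqrt (L n) = Real.sqrt (L n) := by
      rw [div_eq_iff h2.ne', h3]
    rw [e2, add_mul, div_mul_cancel₀ _ h2.ne']
    ring
  have hJr : Tendsto (fun n => (J n : ℝ)) atTop atTop := by
    have h1 := hq.pos_mul_atTop (show 0 < 2 / D by positivity) hL
    apply h1.congr'
    filter_upwards [hL.eventually_gt_atTop 0] with n hn
    rw [div_mul_cancel₀ _ hn.ne']
  refine ⟨tendsto_natCast_atTop_iff.1 hJr, ?_⟩
  have hsq : Tendsto (fun n => Real.log 3 / 2 * Real.sqrt ((J n : ℝ) / L n)) atTop (𝓝 (Real.log 3 / 2 * Real.sqrt (2 / D))) :=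
    ((Real.continuous_sqrt.tendsto _).comp hq).const_mul _
  have hnum : Tendsto (fun n => (B + ((J n : ℝ) - (2 / D * L n + B * Real.sqrt (L n))) / Real.sqrt (L n)) * (D / 2)) atTop (𝓝 (B * (D / 2))) := by
    have := (hJ.const_add B).mul_const (D / 2)
    rwa [add_zero] at this
  have hs0 : 0 < Real.sqrt (2 / D) := Real.sqrt_pos.mpr (by positivity)
  have h := hnum.div hsq (by positivity)
  have hval : B * (D / 2) / (Real.log 3 / 2 * Real.sqrt (2 / D)) = s := by
    have h5 : 0 < Real.sqrt D := Real.sqrt_pos.mpr hD0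
    have h6 : 0 < Real.sqrt 2 := Real.sqrt_pos.mpr (by norm_num)
    rw [hB, Real.sqrt_div (by norm_num)]
    field_simp
  rw [hval] at h
  apply h.congr'
  filter_upwards [hL.eventually_gt_atTop 0, hJr.eventually_gt_atTop 0] with n hn hn2
  have h2 : 0 < Real.sqrt (L n) := Real.sqrt_pos.mpr hn
  have h3 : 0 < Real.sqrt (J n) := Real.sqrt_pos.mpr hn2
  have h4 : Real.sqrt (L n) * Real.sqrt (L n) = L n := Real.mul_self_sqrt hn.le
  rw [mu_D, ← hD]
  simp only [Pi.div_apply]
  rw [Real.sqrt_div hn2.le]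
  have e : (B + ((J n : ℝ) - (2 / D * L n + B * Real.sqrt (L n))) / Real.sqrt (L n)) * (D / 2) =
      ((J n : ℝ) * (D / 2) - L n) / Real.sqrt (L n) := by
    field_simp
    ring
  rw [e, div_div, div_eq_div_iff (by positivity) (by positivity)]
  field_simp

end Pool.Agent.Helper3.HT
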