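import Pool.Agent.Helper3.HT.SlowA

/-! Hitting times: growing targets. -/

namespace Pool.Agent.Helper3.HT

open Pool.Agent.Helper3.ND Pool.Agent.Helper3.TD Pool.Agent.Helper32.HT Filter Topology

theorem od_pow2 (v : ℕ) (n : ℤ) : od v (2 ^ v * n) = 0 := by
  induction v with
  | zero => rfl
  | succ v ih =>
    have h0 : (2 : ℤ) ^ (v + 1) * n = 2 * (2 ^ v * n) := by ring
    have h1 : (2 * (2 ^ v * n)) % 2 = 0 := by omega
    rw [h0, od_succ_even h1, det_T_two, ih]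

theorem hit_upK {N : ℤ} (ho : Odd N) (h0 : N < 0) (k : ℕ) :
    ∃ t : ℕ, T^[t] N = syr^[k] N ∧ od t N = k ∧ 2 ^ t * (-(syr^[k] N)) ≤ 3 ^ k * (-N) := by
  induction k with
  | zero => exact ⟨0, rfl, rfl, by simp⟩
  | succ k ih =>
    obtain ⟨j, h1, h1', h2⟩ := ih
    have hM := iter_odd ho k
    obtain ⟨v, hv, _, hT, hTT⟩ := det_step hM
    refine ⟨j + (v + 1), ?_, ?_, ?_⟩
    · rw [add_comm j, Function.iterate_add_apply, h1, hTT, Function.iterate_succ_apply']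
    · rw [od_add, h1', h1, od_succ_odd (Int.odd_iff.mp hM), hT, od_pow2]
    · rw [Function.iterate_succ_apply']
      have h4 : (2 : ℤ) ^ (j + (v + 1)) * (-(syr (syr^[k] N))) = 2 ^ j * (-(3 * (syr^[k] N) + 1)) := by
        rw [hv, pow_add]; ring
      have h5 : (2 : ℤ) ^ j * (-(3 * (syr^[k] N) + 1)) ≤ 2 ^ j * (3 * (-(syr^[k] N))) := by
        apply mul_le_mul_of_nonneg_left _ (by positivity)
        linarith
      rw [h4]
      calc (2 : ℤ) ^ j * (-(3 * (syr^[k] N) + 1)) ≤ 2 ^ j * (3 * (-(syr^[k] N))) := h5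
        _ = 3 * (2 ^ j * (-(syr^[k] N))) := by ring
        _ ≤ 3 * (3 ^ k * (-N)) := by linarith
        _ = 3 ^ (k + 1) * (-N) := by ring

theorem det_flex {A : Finset ℤ} (hA : ∀ a ∈ A, a < 0 ∧ Odd a) {Y : ℝ} (hAY : ∀ a ∈ A, |(a : ℝ)| ≤ Y) {L : ℕ} {N : ℤ}
    (ho : Odd N) (h0 : N < 0) {k k0 : ℕ} (hk0 : syr^[k0] N ∈ A) (hk : |((syr^[k] N : ℤ) : ℝ)| ≤ Y) :
    (∃ k' : ℕ, k' ≤ k + L ∧ syr^[k'] N ∈ A) ∨ ∃ i : ℕ, (2 : ℤ) ^ i ≤ 3 ^ k * (-N) ∧ SE A L Y i N := by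
  classical
  obtain ⟨t, t1, t2, t3⟩ := hit_upK ho h0 k
  have hex : ∃ i : ℕ, |((T^[i] N : ℤ) : ℝ)| ≤ Y := ⟨t, by rw [t1]; exact hk⟩
  obtain ⟨i, hi⟩ : ∃ i, i = Nat.find hex := ⟨_, rfl⟩
  have hi1 : |((T^[i] N : ℤ) : ℝ)| ≤ Y := by rw [hi]; exact Nat.find_spec hex
  have hi2 : ∀ i' : ℕ, i' < i → Y < |((T^[i'] N : ℤ) : ℝ)| := by
    intro i' h
    rw [hi] at h
    exact not_le.mp (Nat.find_min hex h)
  have hit : i ≤ t := by
    rw [hi]
    exact Nat.find_min' hex (by rw [t1]; exact hk)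
  by_cases h : ∃ l : ℕ, l ≤ L ∧ T^[l] (T^[i] N) ∈ A
  · left
    obtain ⟨l, hl, hl2⟩ := h
    rw [← Function.iterate_add_apply] at hl2
    obtain ⟨e, he1, he2⟩ := det_orbit ho (l + i)
    have ha := (hA _ hl2).2
    have h3 : T^[l + i] N = syr^[od (l + i) N] N := by
      apply odd_part_unique (a := 0) (b := e) ha he2
      rw [pow_zero, one_mul]; exact he1
    refine ⟨od (l + i) N, ?_, by rw [← h3]; exact hl2⟩
    rw [add_comm l i, od_add]
    have h5 := od_le l (T^[i] N)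
    have h6 : od i N ≤ od t N := by
      obtain ⟨u, rfl⟩ := Nat.exists_eq_add_of_le hit
      rw [od_add]; omega
    omega
  · right
    refine ⟨i, ?_, i, le_rfl, hi1, hi2, ?_, h⟩
    · have h5 : (1 : ℤ) ≤ -(syr^[k] N) := by have := iter_neg ho h0 k; omega
      calc (2 : ℤ) ^ i ≤ 2 ^ t := pow_le_pow_right₀ (by norm_num) hit
        _ = 2 ^ t * 1 := (mul_one _).symm
        _ ≤ 2 ^ t * (-(syr^[k] N)) := mul_le_mul_of_nonneg_left h5 (by positivity)
        _ ≤ _ := t3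
    · obtain ⟨t0, u1, u2, _⟩ := hit_upK ho h0 k0
      have h6 : i ≤ t0 := by
        rw [hi]
        apply Nat.find_min' hex
        rw [u1]; exact hAY _ hk0
      obtain ⟨w, rfl⟩ := Nat.exists_eq_add_of_le' h6
      exact ⟨w, by rw [← Function.iterate_add_apply, u1]; exact hk0⟩

theorem cR_SE (R : ℤ → Prop) (A : Finset ℤ) (L : ℕ) (Y : ℝ) (j : ℕ) {x : ℝ} (_hx : 0 ≤ x) :
    (cR R (SE A L Y j) x : ℝ) ≤ Nc (SF A L Y j) ⌊x⌋₊ := by
  classical
  have h1 : {N : ℤ | N < 0 ∧ R N ∧ -x ≤ (N : ℝ) ∧ SE A L Y j N} ⊆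
      (((Finset.Icc (-(⌊x⌋₊ : ℤ)) ⌊x⌋₊).filter (fun N => SE A L Y j N) : Finset ℤ) : Set ℤ) := by
    rintro N ⟨a1, _, a2, a3⟩
    rw [Finset.mem_coe, Finset.mem_filter, Finset.mem_Icc]
    have h5 : (((-N).toNat : ℕ) : ℝ) ≤ x := by
      have : (((-N).toNat : ℕ) : ℤ) = -N := Int.toNat_of_nonneg (by omega)
      have h6 : (((-N).toNat : ℕ) : ℝ) = -(N : ℝ) := by exact_mod_cast congrArg (Int.cast : ℤ → ℝ) this
      rw [h6]; linarith
    have h6 := Nat.le_floor h5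
    exact ⟨⟨by omega, by omega⟩, a3⟩
  have h2 := Set.ncard_le_ncard h1 (Finset.finite_toSet _)
  rw [Set.ncard_coe_finset] at h2
  have h3 : Nc (SF A L Y j) ⌊x⌋₊ = (((Finset.Icc (-(⌊x⌋₊ : ℤ)) ⌊x⌋₊).filter (fun N => SE A L Y j N)).card : ℝ) := by
    unfold Nc SF
    rw [← Finset.sum_filter, Finset.sum_const, nsmul_eq_mul, mul_one]
  rw [h3]
  exact_mod_cast h2

theorem SE_mono {A : Finset ℤ} {L : ℕ} {Y : ℝ} {i j : ℕ} (hij : i ≤ j) {N : ℤ} (h : SE A L Y i N) : SE A L Y j N := by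
  obtain ⟨l, h1, h2⟩ := h
  exact ⟨l, le_trans h1 hij, h2⟩

theorem KK_ev (s : ℝ) : ∀ᶠ x : ℝ in atTop, KK s x ≤ 4 * Real.log x := by
  have hD := DD_pos
  have hD2 : 1 / DD < 4 := by
    have h1 : (1 : ℝ) / 4 < DD := by
      unfold DD
      have h2 : Real.exp (1 / 4) < 4 / 3 := by
        have h3 : Real.exp (1 / 4) ^ 4 = Real.exp 1 := by rw [← Real.exp_nat_mul]; norm_num
        have h4 := Real.exp_one_lt_d9
        by_contra hc
        rw [not_lt] at hc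
        have h5 : (4 / 3 : ℝ) ^ 4 ≤ Real.exp (1 / 4) ^ 4 := pow_le_pow_left₀ (by norm_num) hc 4
        rw [h3] at h5
        norm_num at h5
        linarith
      exact (Real.lt_log_iff_exp_lt (by norm_num)).mpr h2
    rw [div_lt_iff₀ hD]; linarith
  obtain ⟨q, hq⟩ : ∃ q : ℝ, q = 4 - 1 / DD := ⟨_, rfl⟩
  have hq0 : 0 < q := by rw [hq]; linarith
  have hsD : 0 < Real.sqrt DD := Real.sqrt_pos.mpr hD
  obtain ⟨c, hc⟩ : ∃ c : ℝ, c = s * (Real.log 2 * Real.sqrt 2) / (DD * Real.sqrt DD) := ⟨_, rfl⟩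
  have h1 : Tendsto (fun x : ℝ => q * Real.sqrt (Real.log x)) atTop atTop :=
    (Real.tendsto_sqrt_atTop.comp Real.tendsto_log_atTop).const_mul_atTop hq0
  filter_upwards [h1.eventually_ge_atTop c, eventually_ge_atTop 1] with x h2 h3
  have hl : 0 ≤ Real.log x := Real.log_nonneg h3
  have e1 : Real.sqrt (Real.log x) * Real.sqrt (Real.log x) = Real.log x := Real.mul_self_sqrt hl
  have e2 := Real.sqrt_nonneg (Real.log x)
  have e3 : KK s x = Real.log x * (1 / DD) + c * Real.sqrt (Real.log x) := by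
    unfold KK
    rw [Real.sqrt_mul (by norm_num : (0 : ℝ) ≤ 2), hc]
    ring
  rw [e3]
  have e4 := mul_le_mul_of_nonneg_right h2 e2
  have e5 : q * Real.sqrt (Real.log x) * Real.sqrt (Real.log x) = q * Real.log x := by rw [mul_assoc, e1]
  rw [e5, hq] at e4
  linarith

/-- the time needed to enter -/
theorem time_ev (s : ℝ) : ∀ᶠ x : ℝ in atTop, ∀ N : ℤ, -x ≤ (N : ℝ) → N < 0 → ∀ k : ℕ, Cnd s x k → ∀ i : ℕ,
    (2 : ℤ) ^ i ≤ 3 ^ k * (-N) → i ≤ ⌈1000 * Real.log x⌉₊ := by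
  filter_upwards [KK_ev s, eventually_ge_atTop 1] with x hx hx1 N hN hN0 k hk i hi
  have hl : 0 ≤ Real.log x := Real.log_nonneg hx1
  have h1 : (k : ℝ) ≤ 4 * Real.log x := le_trans ((KK_iff s x k).mp hk) hx
  have hNr : (0 : ℝ) < -(N : ℝ) := by
    have : (N : ℝ) < 0 := by exact_mod_cast hN0
    linarith
  have h2 : (2 : ℝ) ^ i ≤ 3 ^ k * (-(N : ℝ)) := by exact_mod_cast hi
  have h3 : (2 : ℝ) ^ i ≤ 3 ^ k * x := le_trans h2 (mul_le_mul_of_nonneg_left (by linarith) (by positivity))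
  have h4 := Real.log_le_log (by positivity) h3
  rw [Real.log_pow, Real.log_mul (by positivity) (by linarith), Real.log_pow] at h4
  have h5 := log_three_le
  have h6 := Real.log_two_gt_d9
  have h7 : (k : ℝ) * Real.log 3 ≤ 4 * Real.log x * 2 := by
    have h8 : 0 ≤ Real.log 3 := Real.log_nonneg (by norm_num)
    have h9 : Real.log 3 ≤ 2 := by linarith
    calc (k : ℝ) * Real.log 3 ≤ (4 * Real.log x) * Real.log 3 := mul_le_mul_of_nonneg_right h1 h8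
      _ ≤ (4 * Real.log x) * 2 := mul_le_mul_of_nonneg_left h9 (by positivity)
      _ = _ := by ring
  have h8 : (i : ℝ) ≤ 1000 * Real.log x := by
    have h9 : (i : ℝ) * (1 / 2) ≤ (i : ℝ) * Real.log 2 := mul_le_mul_of_nonneg_left (by linarith) (by positivity)
    nlinarith
  exact_mod_cast le_trans h8 (Nat.le_ceil _)

/-- **upper bound for growing targets** -/
theorem flex_up (hB : ST_BASE) {A : Finset ℤ} (hA : ∀ a ∈ A, a < 0 ∧ Odd a) {R : ℤ → Prop} (hR : ∀ N, R N → Odd N)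
    {f : ℝ → ℝ} (hf : Tendsto (fun x => Real.log (f x) / Real.sqrt (Real.log x)) atTop (𝓝 0)) {s t κ : ℝ} (hst : s < t) (hκ : 0 < κ) :
    ∀ᶠ x : ℝ in atTop, (cR R (fun N => (∃ k : ℕ, syr^[k] N ∈ A) ∧ ∃ k : ℕ, |((syr^[k] N : ℤ) : ℝ)| ≤ f x ∧ Cnd s x k) x : ℝ) ≤
      cR R (fun N => ∃ k : ℕ, syr^[k] N ∈ A ∧ Cnd t x k) x + κ * x := by
  classical
  obtain ⟨N1, hN1⟩ := slow_nat hB A (fun a ha => (hA a ha).1.ne) (κ := κ / 2) (by positivity)
  obtain ⟨g, hg⟩ : ∃ g : ℝ → ℕ, g = fun x => ⌈8 * Real.log (f x)⌉₊ + N1 := ⟨_, rfl⟩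
  have hr : Tendsto (fun x : ℝ => Real.sqrt (Real.log x)) atTop atTop := Real.tendsto_sqrt_atTop.comp Real.tendsto_log_atTop
  have hD := DD_pos
  have hDD : 0 < DD * Real.sqrt DD := mul_pos hD (Real.sqrt_pos.mpr hD)
  have hgl : Tendsto (fun x => (g x : ℝ) / Real.sqrt (Real.log x)) atTop (𝓝 0) := by
    have h1 : Tendsto (fun x => 8 * |Real.log (f x) / Real.sqrt (Real.log x)| + ((N1 : ℝ) + 1) / Real.sqrt (Real.log x)) atTop (𝓝 (8 * |0| + 0)) := by
      apply Tendsto.add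
      · exact (hf.abs).const_mul 8
      · exact Tendsto.div_atTop tendsto_const_nhds hr
    rw [abs_zero, mul_zero, add_zero] at h1
    apply squeeze_zero' _ _ h1
    · filter_upwards with x
      exact div_nonneg (Nat.cast_nonneg _) (Real.sqrt_nonneg _)
    · filter_upwards [hr.eventually_gt_atTop 0] with x hx
      rw [abs_div, abs_of_pos hx, ← mul_div_assoc, ← add_div]
      apply div_le_div_of_nonneg_right _ hx.le
      rw [hg]
      push_cast
      have h2 : ((⌈8 * Real.log (f x)⌉₊ : ℕ) : ℝ) ≤ 8 * |Real.log (f x)| + 1 := by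
        rcases le_or_gt 0 (Real.log (f x)) with h3 | h3
        · have := Nat.ceil_lt_add_one (show 0 ≤ 8 * Real.log (f x) by positivity)
          rw [abs_of_nonneg h3]; linarith
        · have : ⌈8 * Real.log (f x)⌉₊ = 0 := Nat.ceil_eq_zero.mpr (by linarith)
          rw [this]
          push_cast
          positivity
      linarith
  obtain ⟨ε, hε⟩ : ∃ ε : ℝ, ε = min 1 ((t - s) * (Real.log 2 * Real.sqrt 2) / (2004 * (DD * Real.sqrt DD))) := ⟨_, rfl⟩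
  have hl2 : 0 < Real.log 2 := Real.log_pos (by norm_num)
  have hts : 0 < t - s := by linarith
  have hε0 : 0 < ε := by
    rw [hε]
    apply lt_min one_pos
    positivity
  have hε1 : ε ≤ 1 := by rw [hε]; exact min_le_left _ _
  have hε2 : 2004 * (DD * Real.sqrt DD) * ε ≤ (t - s) * (Real.log 2 * Real.sqrt 2) := by
    have : ε ≤ (t - s) * (Real.log 2 * Real.sqrt 2) / (2004 * (DD * Real.sqrt DD)) := by rw [hε]; exact min_le_right _ _
    rw [le_div_iff₀ (by positivity)] at this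
    linarith
  have hsq : Tendsto (fun x : ℝ => κ / 2 * Real.sqrt x) atTop atTop :=
    Real.tendsto_sqrt_atTop.const_mul_atTop (by positivity)
  filter_upwards [(tendsto_order.1 hgl).2 ε hε0, hr.eventually_ge_atTop 4, eventually_ge_atTop 2, time_ev s, hsq.eventually_ge_atTop 7]
    with x h1 h2 h3 h4 h5
  have hr0 : 0 < Real.sqrt (Real.log x) := by linarith
  have hl : 0 ≤ Real.log x := Real.log_nonneg (by linarith)
  have e1 : Real.sqrt (Real.log x) * Real.sqrt (Real.log x) = Real.log x := Real.mul_self_sqrt hl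
  rw [div_lt_iff₀ hr0] at h1
  have hg1 : (g x : ℝ) ≤ Real.sqrt (Real.log x) := by nlinarith
  have hg2 : (g x : ℝ) ≤ Real.log x / 2 := by nlinarith
  have hNg : N1 ≤ g x := by rw [hg]; exact Nat.le_add_left _ _
  obtain ⟨k1, k2⟩ := hN1 (g x) hNg
  obtain ⟨j, hj⟩ : ∃ j, j = ⌈1000 * Real.log x⌉₊ := ⟨_, rfl⟩
  have hX1 : 1 ≤ ⌊x⌋₊ := Nat.le_floor (by push_cast; linarith)
  have hX0 : (0 : ℝ) < ((⌊x⌋₊ : ℕ) : ℝ) := by exact_mod_cast hX1
  have hXx : ((⌊x⌋₊ : ℕ) : ℝ) ≤ x := Nat.floor_le (by linarith)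
  have hlX : Real.log ((⌊x⌋₊ : ℕ) : ℝ) ≤ Real.log x := Real.log_le_log hX0 hXx
  have hlX2 : Real.log x / 2 ≤ Real.log ((⌊x⌋₊ : ℕ) : ℝ) := by
    have h6 : x ≤ 2 * ((⌊x⌋₊ : ℕ) : ℝ) := by
      have := Nat.lt_floor_add_one x
      have h7 : (1 : ℝ) ≤ ((⌊x⌋₊ : ℕ) : ℝ) := by exact_mod_cast hX1
      linarith
    have h7 := Real.log_le_log (by linarith) h6
    rw [Real.log_mul (by norm_num) hX0.ne'] at h7
    have := Real.log_two_lt_d9
    nlinarith
  have hjX : 900 * Real.log ((⌊x⌋₊ : ℕ) : ℝ) ≤ j := by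
    have : 1000 * Real.log x ≤ j := by rw [hj]; exact Nat.le_ceil _
    linarith
  have k3 := k2 ⌊x⌋₊ (by linarith) j hjX
  have hfY : f x ≤ Real.exp ((g x : ℝ) / 8) := by
    refine le_trans (Real.le_exp_log _) (Real.exp_le_exp.mpr ?_)
    have := Nat.le_ceil (8 * Real.log (f x))
    rw [hg]
    push_cast
    have h0 : (0 : ℝ) ≤ N1 := Nat.cast_nonneg _
    linarith
  have hu := cR_union (R := R) (P := fun N => (∃ k : ℕ, syr^[k] N ∈ A) ∧ ∃ k : ℕ, |((syr^[k] N : ℤ) : ℝ)| ≤ f x ∧ Cnd s x k)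
    (Q := fun N => ∃ k : ℕ, syr^[k] N ∈ A ∧ Cnd t x k) (S := SE A (2004 * g x) (Real.exp ((g x : ℝ) / 8)) j) (x := x) (y := x) (z := x) (by
      rintro N b1 b2 b3 ⟨⟨k0, b4⟩, k, b5, b6⟩
      rcases det_flex hA k1 (L := 2004 * g x) (hR N b2) b1 b4 (le_trans b5 hfY) with ⟨k', c1, c2⟩ | ⟨i, c1, c2⟩
      · left
        refine ⟨b3, k', c2, ?_⟩
        have c3 : (k' : ℝ) ≤ k + 2004 * g x := by exact_mod_cast c1
        unfold Cnd at b6 ⊢
        have c4 : (k' : ℝ) * (DD * Real.sqrt DD) ≤ (k + 2004 * g x) * (DD * Real.sqrt DD) := mul_le_mul_of_nonneg_right c3 hDD.le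
        have c5 : 2004 * (g x : ℝ) * (DD * Real.sqrt DD) ≤ (t - s) * (Real.log 2 * Real.sqrt (2 * Real.log x)) := by
          rw [Real.sqrt_mul (by norm_num : (0 : ℝ) ≤ 2)]
          calc 2004 * (g x : ℝ) * (DD * Real.sqrt DD) ≤ 2004 * (ε * Real.sqrt (Real.log x)) * (DD * Real.sqrt DD) := by gcongr
            _ = (2004 * (DD * Real.sqrt DD) * ε) * Real.sqrt (Real.log x) := by ring
            _ ≤ ((t - s) * (Real.log 2 * Real.sqrt 2)) * Real.sqrt (Real.log x) := mul_le_mul_of_nonneg_right hε2 hr0.le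
            _ = _ := by ring
        have c6 : ((k' : ℝ) * DD - Real.log x) * Real.sqrt DD = (k' : ℝ) * (DD * Real.sqrt DD) - Real.log x * Real.sqrt DD := by ring
        have c7 : ((k : ℝ) * DD - Real.log x) * Real.sqrt DD = (k : ℝ) * (DD * Real.sqrt DD) - Real.log x * Real.sqrt DD := by ring
        rw [c6]
        rw [c7] at b6
        nlinarith
      · right
        refine ⟨b3, SE_mono ?_ c2⟩
        rw [hj]
        exact h4 N b3 b1 k b6 i c1)
  have hu2 : (cR R (fun N => (∃ k : ℕ, syr^[k] N ∈ A) ∧ ∃ k : ℕ, |((syr^[k] N : ℤ) : ℝ)| ≤ f x ∧ Cnd s x k) x : ℝ) ≤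
      cR R (fun N => ∃ k : ℕ, syr^[k] N ∈ A ∧ Cnd t x k) x + cR R (SE A (2004 * g x) (Real.exp ((g x : ℝ) / 8)) j) x := by
    exact_mod_cast hu
  have hse := cR_SE R A (2004 * g x) (Real.exp ((g x : ℝ) / 8)) j (show 0 ≤ x by linarith)
  have hexp : 6 * Real.exp (g x : ℝ) + 1 ≤ κ / 2 * x := by
    have hs1 : Real.exp (g x : ℝ) ≤ Real.sqrt x := by
      rw [← Real.log_le_log_iff (Real.exp_pos _) (Real.sqrt_pos.mpr (by linarith)), Real.log_exp, Real.log_sqrt (by linarith)]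
      exact hg2
    have hs2 : Real.sqrt x * Real.sqrt x = x := Real.mul_self_sqrt (by linarith)
    have hs3 : 1 ≤ Real.sqrt x := by
      rw [Real.one_le_sqrt]; linarith
    nlinarith
  have hkx : κ / 2 * ((⌊x⌋₊ : ℕ) : ℝ) ≤ κ / 2 * x := mul_le_mul_of_nonneg_left hXx (by positivity)
  linarith

end Pool.Agent.Helper3.HT
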