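import Pool.Agent.Helper3.HT.LevD
import Pool.Agent.Helper3.HT.NormL
import Pool.Agent.Helper3.HT.SlowB
import Pool.Agent.Helper32.HT.FINC

/-! Levels: from the steps of `T` to the Syracuse steps. -/

namespace Pool.Agent.Helper3.HT

open Pool.Agent.Helper3.ND Pool.Agent.Helper3.TD Pool.Agent.Helper32.HT Pool.Agent.Helper32.EQ Filter Topology

theorem prod_ge {N : ℤ} (hN : N < 0) {i : ℕ} (hinj : ∀ p q : ℕ, p < q → q < i → T^[p] N ≠ T^[q] N)
    (hone : ∀ p : ℕ, p < i → T^[p] N ≠ -1) :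
    3 ^ (od i N) * |(N : ℝ)| ≤ ((od i N : ℝ) + 1) * (2 ^ i * |((T^[i] N : ℤ) : ℝ)|) := by
  classical
  obtain ⟨hc, hf⟩ := det_formula hN i
  obtain ⟨k, hk⟩ : ∃ k : ℕ, k = od i N := ⟨_, rfl⟩
  rw [← hk] at hc hf ⊢
  -- the half sizes
  obtain ⟨g, hg⟩ : ∃ g : ℕ → ℕ, g = fun l => ((-(T^[l] N) - 1) / 2).toNat := ⟨_, rfl⟩
  have hgs : ∀ l ∈ oS N i, (T^[l] N = -(2 * (g l : ℤ) + 1)) ∧ 1 ≤ g l := by
    intro l hl
    unfold oS at hl
    rw [Finset.mem_filter, Finset.mem_range] at hl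
    have e1 := det_iter_neg hN l
    have e2 := hone l hl.1
    have e3 : (g l : ℤ) = (-(T^[l] N) - 1) / 2 := by
      rw [hg]
      exact Int.toNat_of_nonneg (by omega)
    have e4 : T^[l] N = -(2 * (g l : ℤ) + 1) := by omega
    refine ⟨e4, ?_⟩
    by_contra h
    have : g l = 0 := by omega
    rw [this] at e4
    apply e2
    rw [e4]; norm_num
  have hginj : ∀ p ∈ oS N i, ∀ q ∈ oS N i, g p = g q → p = q := by
    intro p hp q hq he
    have e1 := (hgs p hp).1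
    have e2 := (hgs q hq).1
    have e3 : T^[p] N = T^[q] N := by rw [e1, e2, he]
    have hp' : p < i := by unfold oS at hp; rw [Finset.mem_filter, Finset.mem_range] at hp; exact hp.1
    have hq' : q < i := by unfold oS at hq; rw [Finset.mem_filter, Finset.mem_range] at hq; exact hq.1
    rcases lt_trichotomy p q with h | h | h
    · exact absurd e3 (hinj p q h hq')
    · exact h
    · exact absurd e3.symm (hinj q p h hp')
  have hcard : ((oS N i).image g).card = k := by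
    rw [Finset.card_image_of_injOn (fun p hp q hq he => hginj p hp q hq he), ← hc]
  have hP := det_prod k ((oS N i).image g) hcard (by
    intro l hl
    rw [Finset.mem_image] at hl
    obtain ⟨i', hi, rfl⟩ := hl
    exact (hgs i' hi).2)
  rw [Finset.prod_image (fun p hp q hq he => hginj p hp q hq he)] at hP
  have hle : ∏ l ∈ oS N i, ((g l : ℝ) / (g l + 1)) ≤ ∏ l ∈ oS N i, (1 - 1 / (3 * |((T^[l] N : ℤ) : ℝ)|)) := by
    apply Finset.prod_le_prod
    · intro l _; positivity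
    · intro l hl
      obtain ⟨e1, e2⟩ := hgs l hl
      have e3 : |((T^[l] N : ℤ) : ℝ)| = 2 * (g l : ℝ) + 1 := by
        rw [e1]; push_cast
        rw [abs_neg, abs_of_pos (by positivity)]
      rw [e3]
      have e4 : (1 : ℝ) ≤ g l := by exact_mod_cast e2
      rw [le_sub_iff_add_le, div_add_div _ _ (by positivity) (by positivity), div_le_one (by positivity)]
      nlinarith
  have hQ := le_trans hP hle
  rw [hf]
  have hA : 0 ≤ (3 : ℝ) ^ k * |(N : ℝ)| := by positivity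
  have hk1 : (0 : ℝ) < (k : ℝ) + 1 := by positivity
  calc 3 ^ k * |(N : ℝ)| = ((k : ℝ) + 1) * (3 ^ k * |(N : ℝ)| * (1 / ((k : ℝ) + 1))) := by field_simp
    _ ≤ ((k : ℝ) + 1) * (3 ^ k * |(N : ℝ)| * ∏ l ∈ oS N i, (1 - 1 / (3 * |((T^[l] N : ℤ) : ℝ)|))) := by gcongr

/-- the first entry into `[-exp c, exp c]` in terms of the number of Syracuse steps -/
theorem lev_up {N : ℤ} (ho : Odd N) (h0 : N < 0) {c : ℝ} {k : ℕ} (hk : |((syr^[k] N : ℤ) : ℝ)| ≤ Real.exp c) :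
    ∃ i : ℕ, |((T^[i] N : ℤ) : ℝ)| ≤ Real.exp c ∧ (i = 0 ∨ (2 : ℝ) ^ i * Real.exp c ≤ 2 * (3 ^ k * |(N : ℝ)|)) := by
  classical
  obtain ⟨t, t1, t2, t3⟩ := hit_upK ho h0 k
  have hex : ∃ i : ℕ, |((T^[i] N : ℤ) : ℝ)| ≤ Real.exp c := ⟨t, by rw [t1]; exact hk⟩
  obtain ⟨i, hi⟩ : ∃ i, i = Nat.find hex := ⟨_, rfl⟩
  have hi1 : |((T^[i] N : ℤ) : ℝ)| ≤ Real.exp c := by rw [hi]; exact Nat.find_spec hex
  have hi2 : ∀ i' : ℕ, i' < i → Real.exp c < |((T^[i'] N : ℤ) : ℝ)| := by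
    intro i' h
    rw [hi] at h
    exact not_le.mp (Nat.find_min hex h)
  have hit : i ≤ t := by
    rw [hi]
    exact Nat.find_min' hex (by rw [t1]; exact hk)
  have hod : od i N ≤ k := by
    rw [← t2]
    obtain ⟨u, rfl⟩ := Nat.exists_eq_add_of_le hit
    rw [od_add]; omega
  refine ⟨i, hi1, ?_⟩
  rcases Nat.eq_zero_or_pos i with h | h
  · exact Or.inl h
  · right
    obtain ⟨w, rfl⟩ := Nat.exists_eq_succ_of_ne_zero (by omega : i ≠ 0)
    have h1 := hi2 w (by omega)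
    have h2 := abs_T_iter_ge 1 (T^[w] N)
    rw [pow_one, Function.iterate_one, ← Function.iterate_succ_apply' T w N] at h2
    have h3 : |((T^[w] N : ℤ) : ℝ)| ≤ 2 * |((T^[w + 1] N : ℤ) : ℝ)| := by exact_mod_cast h2
    have h4 := affine (w + 1) N
    have h5 := cc_nonneg (w + 1) N
    have h6 := det_iter_neg h0 (w + 1)
    have h4r : (2 : ℝ) ^ (w + 1) * ((T^[w + 1] N : ℤ) : ℝ) = 3 ^ od (w + 1) N * (N : ℝ) + (cc (w + 1) N : ℝ) := by exact_mod_cast h4
    have h5r : (0 : ℝ) ≤ (cc (w + 1) N : ℝ) := by exact_mod_cast h5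
    have h6r : ((T^[w + 1] N : ℤ) : ℝ) < 0 := by exact_mod_cast h6
    have h0r : (N : ℝ) < 0 := by exact_mod_cast h0
    have h7 : (2 : ℝ) ^ (w + 1) * |((T^[w + 1] N : ℤ) : ℝ)| ≤ 3 ^ od (w + 1) N * |(N : ℝ)| := by
      rw [abs_of_neg h6r, abs_of_neg h0r]
      linarith
    have h8 : (3 : ℝ) ^ od (w + 1) N ≤ 3 ^ k := pow_le_pow_right₀ (by norm_num) hod
    calc (2 : ℝ) ^ (w + 1) * Real.exp c ≤ 2 ^ (w + 1) * (2 * |((T^[w + 1] N : ℤ) : ℝ)|) :=
          mul_le_mul_of_nonneg_left (by linarith) (by positivity)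
      _ = 2 * ((2 : ℝ) ^ (w + 1) * |((T^[w + 1] N : ℤ) : ℝ)|) := by ring
      _ ≤ 2 * (3 ^ od (w + 1) N * |(N : ℝ)|) := by linarith
      _ ≤ 2 * (3 ^ k * |(N : ℝ)|) := by gcongr

theorem lev_up2 {s x c : ℝ} (hx : 0 < x) {N : ℤ} (ho : Odd N) (h0 : N < 0) (hN : -x ≤ (N : ℝ)) {k : ℕ}
    (hk : |((syr^[k] N : ℤ) : ℝ)| ≤ Real.exp c) (hc : Cnd s (x / Real.exp c) k) :
    ∃ i : ℕ, i ≤ ⌊AA s (x / Real.exp c) + 1⌋₊ ∧ |((T^[i] N : ℤ) : ℝ)| ≤ Real.exp c := by
  obtain ⟨i, h1, h2⟩ := lev_up ho h0 hk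
  refine ⟨i, ?_, h1⟩
  rcases h2 with h2 | h2
  · rw [h2]; exact Nat.zero_le _
  apply Nat.le_floor
  have hE := Real.exp_pos c
  have hX : 0 < x / Real.exp c := by positivity
  have hNr : |(N : ℝ)| ≤ x := by
    have h0r : (N : ℝ) < 0 := by exact_mod_cast h0
    rw [abs_of_neg h0r]; linarith
  have h3 : (2 : ℝ) ^ i ≤ 2 * (3 ^ k * (x / Real.exp c)) := by
    have h4 : (2 : ℝ) ^ i * Real.exp c ≤ 2 * (3 ^ k * x) := le_trans h2 (by gcongr)
    rw [← le_div_iff₀ hE] at h4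
    refine le_trans h4 (le_of_eq ?_)
    ring
  have h5 := Real.log_le_log (by positivity) h3
  rw [Real.log_mul (by norm_num) (by positivity), Real.log_mul (by positivity) hX.ne', Real.log_pow, Real.log_pow] at h5
  have h6 := (KK_iff s (x / Real.exp c) k).mp hc
  have h7 := KK_AA s (x / Real.exp c)
  have hl2 : 0 < Real.log 2 := Real.log_pos (by norm_num)
  have hl3 : 0 < Real.log 3 := Real.log_pos (by norm_num)
  have h8 : (k : ℝ) * Real.log 3 ≤ KK s (x / Real.exp c) * Real.log 3 := mul_le_mul_of_nonneg_right h6 hl3.le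
  have h9 : (i : ℝ) * Real.log 2 ≤ (AA s (x / Real.exp c) + 1) * Real.log 2 := by linarith
  exact le_of_mul_le_mul_right h9 hl2

theorem down_real {s X : ℝ} (hX : 0 < X) (hlX : 0 < Real.log X) (hK : 0 ≤ KK s X)
    (hev : Real.log (KK s X + 1) + 0 + Real.log (Real.log X) < Real.log 2 * Real.sqrt (Real.sqrt (Real.log X)))
    {ν : ℝ} (hν : 0 < ν) (hN : X ≤ ν * Real.log X) {j k : ℕ}
    (hj : (j : ℝ) ≤ AA s X - Real.sqrt (Real.sqrt (Real.log X))) (h2 : (3 : ℝ) ^ k * ν ≤ ((k : ℝ) + 1) * 2 ^ j) :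
    Cnd s X k := by
  by_contra hc
  have h3 : KK s X < k := by
    by_contra h4
    exact hc ((KK_iff s X k).mpr (not_lt.mp h4))
  have hk0 : (0 : ℝ) < (k : ℝ) + 1 := by positivity
  have h5 := Real.log_le_log (by positivity) h2
  rw [Real.log_mul (by positivity) hν.ne', Real.log_mul hk0.ne' (by positivity), Real.log_pow, Real.log_pow] at h5
  have h6 := Real.log_le_log hX hN
  rw [Real.log_mul hν.ne' hlX.ne'] at h6
  have hK1 : 0 < KK s X + 1 := by linarith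
  have h7 : Real.log ((k : ℝ) + 1) - Real.log (KK s X + 1) ≤ k - KK s X := by
    rw [← Real.log_div hk0.ne' hK1.ne']
    have h8 := Real.log_le_sub_one_of_pos (div_pos hk0 hK1)
    have h9 : ((k : ℝ) + 1) / (KK s X + 1) - 1 = (k - KK s X) / (KK s X + 1) := by
      field_simp
      ring
    have h10 : ((k : ℝ) - KK s X) / (KK s X + 1) ≤ k - KK s X := div_le_self (by linarith) (by linarith)
    linarith
  have h11 := KK_AA s X
  have h12 : ((k : ℝ) - KK s X) * 1 ≤ ((k : ℝ) - KK s X) * Real.log 3 :=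
    mul_le_mul_of_nonneg_left log3_ge (by linarith)
  have hl2 : 0 < Real.log 2 := Real.log_pos (by norm_num)
  have h13 : (j : ℝ) * Real.log 2 ≤ (AA s X - Real.sqrt (Real.sqrt (Real.log X))) * Real.log 2 :=
    mul_le_mul_of_nonneg_right hj hl2.le
  nlinarith

theorem lev_down {s x c : ℝ} (hx : 0 < x) (hc0 : 0 ≤ c) (hlX : 0 < Real.log (x / Real.exp c)) (hK : 0 ≤ KK s (x / Real.exp c))
    (hev : Real.log (KK s (x / Real.exp c) + 1) + 0 + Real.log (Real.log (x / Real.exp c)) <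
      Real.log 2 * Real.sqrt (Real.sqrt (Real.log (x / Real.exp c))))
    {N : ℤ} (ho : Odd N) (h0 : N < 0) (hN : x ≤ (-(N : ℝ)) * Real.log (x / Real.exp c)) {j : ℕ}
    (hj : (j : ℝ) ≤ AA s (x / Real.exp c) - Real.sqrt (Real.sqrt (Real.log (x / Real.exp c))))
    (hT : ∃ i : ℕ, i ≤ j ∧ |((T^[i] N : ℤ) : ℝ)| ≤ Real.exp c) :
    ∃ k : ℕ, |((syr^[k] N : ℤ) : ℝ)| ≤ Real.exp c ∧ Cnd s (x / Real.exp c) k := by
  classical
  obtain ⟨i0, hi0, hi0'⟩ := hT
  have hex : ∃ i : ℕ, |((T^[i] N : ℤ) : ℝ)| ≤ Real.exp c := ⟨i0, hi0'⟩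
  obtain ⟨i, hi⟩ : ∃ i, i = Nat.find hex := ⟨_, rfl⟩
  have hi1 : |((T^[i] N : ℤ) : ℝ)| ≤ Real.exp c := by rw [hi]; exact Nat.find_spec hex
  have hi2 : ∀ i' : ℕ, i' < i → Real.exp c < |((T^[i'] N : ℤ) : ℝ)| := by
    intro i' h
    rw [hi] at h
    exact not_le.mp (Nat.find_min hex h)
  have hij : i ≤ j := by
    rw [hi]
    exact le_trans (Nat.find_min' hex hi0') hi0
  have hinj : ∀ p q : ℕ, p < q → q < i → T^[p] N ≠ T^[q] N := by
    intro p q hpq hq he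
    have e1 : T^[i - q] (T^[q] N) = T^[i] N := by
      rw [← Function.iterate_add_apply, Nat.sub_add_cancel hq.le]
    have e2 : T^[i - q] (T^[p] N) = T^[i - (q - p)] N := by
      rw [← Function.iterate_add_apply, show i - q + p = i - (q - p) by omega]
    have e3 := hi2 (i - (q - p)) (by omega)
    rw [← e2, he, e1] at e3
    linarith
  have hone : ∀ p : ℕ, p < i → T^[p] N ≠ -1 := by
    intro p hp he
    have e3 := hi2 p hp
    rw [he] at e3
    have e4 : 1 ≤ Real.exp c := Real.one_le_exp hc0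
    simp at e3
    linarith
  have hP := prod_ge h0 hinj hone
  obtain ⟨e, he1, he2⟩ := det_orbit ho i
  refine ⟨od i N, ?_, ?_⟩
  · refine le_trans ?_ hi1
    rw [he1]
    push_cast
    rw [abs_mul, abs_of_pos (by positivity : (0 : ℝ) < 2 ^ e)]
    have : (1 : ℝ) ≤ 2 ^ e := one_le_pow₀ (by norm_num)
    nlinarith [abs_nonneg ((syr^[od i N] N : ℤ) : ℝ)]
  · have hE := Real.exp_pos c
    have h0r : (N : ℝ) < 0 := by exact_mod_cast h0
    apply down_real (ν := -(N : ℝ) / Real.exp c) (by positivity) hlX hK hev (div_pos (by linarith) hE) _ hj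
    · rw [abs_of_neg h0r] at hP
      have h5 : ((od i N : ℝ) + 1) * (2 ^ i * |((T^[i] N : ℤ) : ℝ)|) ≤ ((od i N : ℝ) + 1) * (2 ^ j * Real.exp c) := by
        gcongr
        norm_num
      have h6 : (3 : ℝ) ^ od i N * -(N : ℝ) ≤ (((od i N : ℝ) + 1) * 2 ^ j) * Real.exp c := by linarith
      rw [← mul_div_assoc, div_le_iff₀ hE]
      exact h6
    · rw [div_mul_eq_mul_div]
      exact div_le_div_of_nonneg_right hN hE.le

theorem ev_XR (s : ℝ) : ∀ᶠ X : ℝ in atTop, 0 < Real.log X ∧ 0 ≤ KK s X ∧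
    Real.log (KK s X + 1) + 0 + Real.log (Real.log X) < Real.log 2 * Real.sqrt (Real.sqrt (Real.log X)) := by
  have hq : Tendsto (fun X : ℝ => Real.sqrt (Real.sqrt (Real.sqrt (Real.log X)))) atTop atTop :=
    Real.tendsto_sqrt_atTop.comp (Real.tendsto_sqrt_atTop.comp (Real.tendsto_sqrt_atTop.comp Real.tendsto_log_atTop))
  have h1 := hq.eventually (ev_q (s * Real.log 2 * Real.sqrt 2 / (DD * Real.sqrt DD)) 0)
  filter_upwards [h1] with X hX
  obtain ⟨h2, h3, h4⟩ := hX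
  have hr2 : 0 < Real.sqrt (Real.sqrt (Real.log X)) := by
    by_contra hc
    rw [Real.sqrt_eq_zero_of_nonpos (not_lt.mp hc)] at h2
    exact lt_irrefl _ h2
  have hr1 : 0 < Real.sqrt (Real.log X) := by
    by_contra hc
    rw [Real.sqrt_eq_zero_of_nonpos (not_lt.mp hc)] at hr2
    exact lt_irrefl _ hr2
  have hr0 : 0 < Real.log X := by
    by_contra hc
    rw [Real.sqrt_eq_zero_of_nonpos (not_lt.mp hc)] at hr1
    exact lt_irrefl _ hr1
  have e1 : (Real.sqrt (Real.sqrt (Real.sqrt (Real.log X)))) ^ 2 = Real.sqrt (Real.sqrt (Real.log X)) := Real.sq_sqrt hr2.le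
  have e2 : (Real.sqrt (Real.sqrt (Real.log X))) ^ 2 = Real.sqrt (Real.log X) := Real.sq_sqrt hr1.le
  have e3 : (Real.sqrt (Real.log X)) ^ 2 = Real.log X := Real.sq_sqrt hr0.le
  have e4 : (Real.sqrt (Real.sqrt (Real.sqrt (Real.log X)))) ^ 4 = Real.sqrt (Real.log X) := by
    rw [show (4 : ℕ) = 2 * 2 by norm_num, pow_mul, e1, e2]
  rw [e4, e3] at h3 h4
  rw [e1] at h4
  have e5 : Real.log X / DD + s * Real.log 2 * Real.sqrt 2 / (DD * Real.sqrt DD) * Real.sqrt (Real.log X) = KK s X := by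
    unfold KK
    rw [Real.sqrt_mul (by norm_num : (0 : ℝ) ≤ 2)]
    ring
  rw [e5] at h3 h4
  exact ⟨hr0, h3, h4⟩

end Pool.Agent.Helper3.HT
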