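import Pool.Agent.Helper3.HT.Stmts

/-! From windows to natural density, for a sequence of functions. -/

namespace Pool.Agent.Helper3.HT

open Pool.Agent.Helper3.ND Pool.Agent.Helper3.TD Filter Topology

theorem nat : ST_NAT := by
  intro Φ c hΦ0 hΦ1 hc0 hG
  -- the parameters
  have hd : Tendsto (fun l : ℕ => ((1 : ℝ) / 2) ^ l) atTop (𝓝 0) :=
    tendsto_pow_atTop_nhds_zero_of_lt_one (by norm_num) (by norm_num)
  have he : Tendsto (fun l : ℕ => Real.exp (-(l : ℝ))) atTop (𝓝 0) :=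
    Real.tendsto_exp_neg_atTop_nhds_zero.comp tendsto_natCast_atTop_atTop
  have hU : Tendsto (fun l : ℕ => c * (Real.exp ((1 / 2) ^ l) * (1 + (1 / 2) ^ l)) + 2 * Real.exp (-(l : ℝ))) atTop (𝓝 c) := by
    have h1 : Tendsto (fun l : ℕ => Real.exp (((1 : ℝ) / 2) ^ l)) atTop (𝓝 (Real.exp 0)) := (Real.continuous_exp.tendsto 0).comp hd
    have h2 := ((h1.mul (hd.const_add 1)).const_mul c).add (he.const_mul 2)
    rw [Real.exp_zero] at h2
    simpa using h2
  have hL : Tendsto (fun l : ℕ => c * (Real.exp (-(2 * (1 / 2) ^ l)) * (1 - Real.exp (-(l : ℝ))))) atTop (𝓝 c) := by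
    have h0 : Tendsto (fun l : ℕ => -(2 * ((1 : ℝ) / 2) ^ l)) atTop (𝓝 0) := by
      have := (hd.const_mul 2).neg
      simpa using this
    have h1 : Tendsto (fun l : ℕ => Real.exp (-(2 * ((1 : ℝ) / 2) ^ l))) atTop (𝓝 (Real.exp 0)) := (Real.continuous_exp.tendsto 0).comp h0
    have h2 := (h1.mul (he.const_sub 1)).const_mul c
    rw [Real.exp_zero] at h2
    simpa using h2
  have hinv : Tendsto (fun X : ℕ => (1 : ℝ) / X) atTop (𝓝 0) := tendsto_one_div_atTop_nhds_zero_nat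
  rw [tendsto_order]
  constructor
  · intro a ha
    obtain ⟨l, hl⟩ := ((tendsto_order.1 hL).1 a ha).exists
    obtain ⟨δ, hδ⟩ : ∃ δ : ℝ, δ = (1 / 2) ^ l := ⟨_, rfl⟩
    have hδ0 : 0 < δ := by rw [hδ]; positivity
    obtain ⟨K, hK⟩ : ∃ K : ℕ, K = l * 2 ^ l := ⟨_, rfl⟩
    have hKδ : (K : ℝ) * δ = l := by
      rw [hK, hδ, one_div_pow]; push_cast; field_simp
    have h1 : Tendsto (fun X : ℕ => ∑ i ∈ Finset.range K, Real.exp (-(((i : ℕ) + 1) * δ) - δ) * Gs (Φ X) δ (Real.log X - ((i : ℕ) + 1) * δ)) atTop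
        (𝓝 (∑ i ∈ Finset.range K, Real.exp (-(((i : ℕ) + 1) * δ) - δ) * (c * δ))) := by
      apply tendsto_finsetSum
      intro i _
      apply Tendsto.const_mul
      have := hG l (((i : ℕ) + 1) * δ)
      rw [← hδ] at this
      exact this
    have h2 : a < ∑ i ∈ Finset.range K, Real.exp (-(((i : ℕ) + 1) * δ) - δ) * (c * δ) := by
      rw [← hδ] at hl
      refine lt_of_lt_of_le hl ?_
      have e : ∑ i ∈ Finset.range K, Real.exp (-(((i : ℕ) + 1) * δ) - δ) * (c * δ) =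
          c * Real.exp (-(2 * δ)) * (δ * ∑ i ∈ Finset.range K, Real.exp (-(i * δ))) := by
        rw [Finset.mul_sum, Finset.mul_sum]
        apply Finset.sum_congr rfl
        intro i _
        rw [show -(((i : ℕ) + 1) * δ) - δ = -(2 * δ) + -(i * δ) by ring, Real.exp_add]
        ring
      rw [e]
      have h3 := geo_lower hδ0 K
      rw [hKδ, div_le_iff₀ hδ0] at h3
      calc c * (Real.exp (-(2 * δ)) * (1 - Real.exp (-(l : ℝ)))) = c * Real.exp (-(2 * δ)) * (1 - Real.exp (-(l : ℝ))) := by ring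
        _ ≤ c * Real.exp (-(2 * δ)) * (δ * ∑ i ∈ Finset.range K, Real.exp (-(i * δ))) := by
            apply mul_le_mul_of_nonneg_left _ (by positivity)
            linarith
    filter_upwards [(tendsto_order.1 h1).1 a h2, eventually_ge_atTop 1] with X hX hX1
    have h4 := Nc_lower (hΦ0 X) hδ0 K hX1
    have hX0 : (0 : ℝ) < X := by exact_mod_cast hX1
    rw [lt_div_iff₀ hX0]
    calc a * X < (∑ i ∈ Finset.range K, Real.exp (-(((i : ℕ) + 1) * δ) - δ) * Gs (Φ X) δ (Real.log X - ((i : ℕ) + 1) * δ)) * X :=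
          mul_lt_mul_of_pos_right hX hX0
      _ = X * ∑ i ∈ Finset.range K, Real.exp (-(((i : ℕ) + 1) * δ) - δ) * Gs (Φ X) δ (Real.log X - ((i : ℕ) + 1) * δ) := mul_comm _ _
      _ ≤ _ := h4
  · intro a ha
    obtain ⟨l, hl⟩ := ((tendsto_order.1 hU).2 a ha).exists
    obtain ⟨δ, hδ⟩ : ∃ δ : ℝ, δ = (1 / 2) ^ l := ⟨_, rfl⟩
    have hδ0 : 0 < δ := by rw [hδ]; positivity
    obtain ⟨K, hK⟩ : ∃ K : ℕ, K = l * 2 ^ l := ⟨_, rfl⟩
    have hKδ : (K : ℝ) * δ = l := by
      rw [hK, hδ, one_div_pow]; push_cast; field_simp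
    have h1 : Tendsto (fun X : ℕ => ∑ i ∈ Finset.range (K + 1), Real.exp (-((i : ℕ) * δ) + δ) * Gs (Φ X) δ (Real.log X - (i : ℕ) * δ)) atTop
        (𝓝 (∑ i ∈ Finset.range (K + 1), Real.exp (-((i : ℕ) * δ) + δ) * (c * δ))) := by
      apply tendsto_finsetSum
      intro i _
      apply Tendsto.const_mul
      have := hG l ((i : ℕ) * δ)
      rw [← hδ] at this
      exact this
    have h2 : Tendsto (fun X : ℕ => ∑ i ∈ Finset.range (K + 1), Real.exp (-((i : ℕ) * δ) + δ) * Gs (Φ X) δ (Real.log X - (i : ℕ) * δ) +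
        (2 * Real.exp (-(l : ℝ)) + (1 : ℝ) / X)) atTop
        (𝓝 (∑ i ∈ Finset.range (K + 1), Real.exp (-((i : ℕ) * δ) + δ) * (c * δ) + (2 * Real.exp (-(l : ℝ)) + 0))) :=
      h1.add (hinv.const_add _)
    have h3 : ∑ i ∈ Finset.range (K + 1), Real.exp (-((i : ℕ) * δ) + δ) * (c * δ) + (2 * Real.exp (-(l : ℝ)) + 0) < a := by
      rw [← hδ] at hl
      refine lt_of_le_of_lt ?_ hl
      have e : ∑ i ∈ Finset.range (K + 1), Real.exp (-((i : ℕ) * δ) + δ) * (c * δ) =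
          c * Real.exp δ * (δ * ∑ i ∈ Finset.range (K + 1), Real.exp (-(i * δ))) := by
        rw [Finset.mul_sum, Finset.mul_sum]
        apply Finset.sum_congr rfl
        intro i _
        rw [Real.exp_add]
        ring
      rw [e, add_zero]
      have h4 := geo_upper hδ0 (K + 1)
      rw [le_div_iff₀ hδ0] at h4
      have h5 : c * Real.exp δ * (δ * ∑ i ∈ Finset.range (K + 1), Real.exp (-(i * δ))) ≤ c * Real.exp δ * (1 + δ) := by
        apply mul_le_mul_of_nonneg_left _ (by positivity)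
        linarith
      linarith
    filter_upwards [(tendsto_order.1 h2).2 a h3, eventually_ge_atTop 1] with X hX hX1
    have h4 := Nc_upper (hΦ0 X) (hΦ1 X) hδ0 K hX1
    have hX0 : (0 : ℝ) < X := by exact_mod_cast hX1
    rw [hKδ] at h4
    rw [div_lt_iff₀ hX0]
    refine lt_of_le_of_lt h4 ?_
    have h5 := mul_lt_mul_of_pos_right hX hX0
    refine lt_of_eq_of_lt ?_ h5
    obtain ⟨S, hS⟩ : ∃ S, S = ∑ i ∈ Finset.range (K + 1), Real.exp (-((i : ℕ) * δ) + δ) * Gs (Φ X) δ (Real.log X - (i : ℕ) * δ) := ⟨_, rfl⟩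
    rw [← hS]
    field_simp

end Pool.Agent.Helper3.HT
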