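import Pool.Agent.Helper32.HT.FINC
import Mathlib.Probability.CDF

/-! Hitting times of finite sets. -/

namespace Pool.Agent.Helper3.HT

open Pool.Agent.Helper3.ND Pool.Agent.Helper3.TD Pool.Agent.Helper32.HT Filter Topology

/-- FINS: normal law for the number of Syracuse steps needed to meet a finite set -/
def ST_FINS : Prop := ∀ A : Finset ℤ, (∀ a ∈ A, a < 0 ∧ Odd a) → ∃ d : ℝ, ∀ m : ℕ, 1 ≤ m → ∀ b : ℤ, Odd b →
  Tendsto (fun x : ℝ => (Nat.card {N : ℤ // N < 0 ∧ (2 * m : ℤ) ∣ N - b ∧ -x ≤ (N : ℝ) ∧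
    ∃ k : ℕ, (fun n : ℤ => (3 * n + 1) / 2 ^ padicValInt 2 (3 * n + 1))^[k] N ∈ A} : ℝ) / x) atTop (𝓝 (d / m)) ∧
  ∀ s : ℝ, Tendsto (fun x : ℝ => (Nat.card {N : ℤ // N < 0 ∧ (2 * m : ℤ) ∣ N - b ∧ -x ≤ (N : ℝ) ∧
    ∃ k : ℕ, (fun n : ℤ => (3 * n + 1) / 2 ^ padicValInt 2 (3 * n + 1))^[k] N ∈ A ∧
      ((k : ℝ) * Real.log (4 / 3) - Real.log x) * Real.sqrt (Real.log (4 / 3)) ≤
        s * (Real.log 2 * Real.sqrt (2 * Real.log x))} : ℝ) / x) atTop (𝓝 (d / m * gs s))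

/-- representatives -/
theorem rep (f : ℤ → ℤ) (A : Finset ℤ) : ∃ B : Finset ℤ, B ⊆ A ∧ (∀ a ∈ A, ∃ k : ℕ, f^[k] a ∈ B) ∧
    (∀ b ∈ B, ∀ b' ∈ B, b ≠ b' → ¬ ∃ k : ℕ, f^[k] b = b') := by
  classical
  induction A using Finset.induction_on with
  | empty => exact ⟨∅, Finset.Subset.refl _, by simp, by simp⟩
  | insert a A ha ih =>
    obtain ⟨B, h1, h2, h3⟩ := ih
    by_cases h : ∃ k : ℕ, f^[k] a ∈ B
    · refine ⟨B, h1.trans (Finset.subset_insert _ _), ?_, h3⟩
      intro a' ha'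
      rcases Finset.mem_insert.mp ha' with rfl | h4
      · exact h
      · exact h2 a' h4
    · refine ⟨insert a (B.filter (fun b => ¬ ∃ k : ℕ, f^[k] b = a)), ?_, ?_, ?_⟩
      · apply Finset.insert_subset_insert
        exact (Finset.filter_subset _ _).trans h1
      · intro a' ha'
        rcases Finset.mem_insert.mp ha' with rfl | h4
        · exact ⟨0, Finset.mem_insert_self _ _⟩
        · obtain ⟨k, hk⟩ := h2 a' h4
          by_cases h5 : ∃ k' : ℕ, f^[k'] (f^[k] a') = a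
          · obtain ⟨k', hk'⟩ := h5
            refine ⟨k' + k, ?_⟩
            rw [Function.iterate_add_apply, hk']
            exact Finset.mem_insert_self _ _
          · exact ⟨k, Finset.mem_insert_of_mem (Finset.mem_filter.mpr ⟨hk, h5⟩)⟩
      · intro b hb b' hb' hne
        rcases Finset.mem_insert.mp hb with rfl | h4
        · rcases Finset.mem_insert.mp hb' with rfl | h5
          · exact absurd rfl hne
          · rintro ⟨k, hk⟩
            apply h
            refine ⟨k, ?_⟩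
            rw [hk]
            exact (Finset.mem_filter.mp h5).1
        · rcases Finset.mem_insert.mp hb' with rfl | h5
          · exact (Finset.mem_filter.mp h4).2
          · exact h3 b (Finset.mem_filter.mp h4).1 b' (Finset.mem_filter.mp h5).1 hne

theorem hits_one {f : ℤ → ℤ} {B : Finset ℤ} (hB : ∀ b ∈ B, ∀ b' ∈ B, b ≠ b' → ¬ ∃ k : ℕ, f^[k] b = b') {b b' : ℤ}
    (hb : b ∈ B) (hb' : b' ∈ B) {N : ℤ} {i j : ℕ} (hi : f^[i] N = b) (hj : f^[j] N = b') : b = b' := by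
  by_contra hne
  rcases le_total i j with h | h
  · obtain ⟨k, rfl⟩ := Nat.exists_eq_add_of_le' h
    rw [Function.iterate_add_apply, hi] at hj
    exact hB b hb b' hb' hne ⟨k, hj⟩
  · obtain ⟨k, rfl⟩ := Nat.exists_eq_add_of_le' h
    rw [Function.iterate_add_apply, hj] at hi
    exact hB b' hb' b hb (fun h => hne h.symm) ⟨k, hi⟩

/-- the count for a set of representatives is the sum of the counts -/
theorem cR_sum {f : ℤ → ℤ} {B : Finset ℤ} (hB : ∀ b ∈ B, ∀ b' ∈ B, b ≠ b' → ¬ ∃ k : ℕ, f^[k] b = b')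
    (R : ℤ → Prop) (Q : ℕ → Prop) (x : ℝ) :
    cR R (fun N => ∃ k : ℕ, f^[k] N ∈ B ∧ Q k) x = ∑ b ∈ B, cR R (fun N => ∃ k : ℕ, f^[k] N = b ∧ Q k) x := by
  classical
  induction B using Finset.induction_on with
  | empty =>
    rw [Finset.sum_empty]
    unfold cR
    rw [Set.ncard_eq_zero (cR_fin _ _ _)]
    ext N
    simp
  | insert a B ha ih =>
    have hB' : ∀ b ∈ B, ∀ b' ∈ B, b ≠ b' → ¬ ∃ k : ℕ, f^[k] b = b' := fun b hb b' hb' =>
      hB b (Finset.mem_insert_of_mem hb) b' (Finset.mem_insert_of_mem hb')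
    rw [Finset.sum_insert ha, ← ih hB']
    unfold cR
    rw [← Set.ncard_union_eq _ (cR_fin _ _ _) (cR_fin _ _ _)]
    · congr 1
      ext N
      simp only [Set.mem_setOf_eq, Set.mem_union, Finset.mem_insert]
      constructor
      · rintro ⟨h1, h2, h3, k, h4 | h4, h5⟩
        · exact Or.inl ⟨h1, h2, h3, k, h4, h5⟩
        · exact Or.inr ⟨h1, h2, h3, k, h4, h5⟩
      · rintro (⟨h1, h2, h3, k, h4, h5⟩ | ⟨h1, h2, h3, k, h4, h5⟩)
        · exact ⟨h1, h2, h3, k, Or.inl h4, h5⟩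
        · exact ⟨h1, h2, h3, k, Or.inr h4, h5⟩
    · rw [Set.disjoint_left]
      rintro N ⟨_, _, _, k, h4, _⟩ ⟨_, _, _, k', h4', _⟩
      have := hits_one hB (Finset.mem_insert_self a B) (Finset.mem_insert_of_mem h4') h4 rfl
      rw [this] at ha
      exact ha h4'

theorem gs_right (s : ℝ) : Tendsto gs (𝓝[>] s) (𝓝 (gs s)) := by
  have h1 := (ProbabilityTheory.cdf (ProbabilityTheory.gaussianReal 0 1)).right_continuous s
  have h2 : ∀ t : ℝ, gs t = ProbabilityTheory.cdf (ProbabilityTheory.gaussianReal 0 1) t := by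
    intro t
    unfold gs
    rw [ProbabilityTheory.cdf_eq_real]
  have h3 : gs = fun t => ProbabilityTheory.cdf (ProbabilityTheory.gaussianReal 0 1) t := funext h2
  rw [h3]
  exact h1.tendsto.mono_left (nhdsWithin_mono s Set.Ioi_subset_Ici_self)

theorem sig_top : Tendsto (fun x : ℝ => Real.log 2 * Real.sqrt (2 * Real.log x)) atTop atTop := by
  apply Tendsto.const_mul_atTop (Real.log_pos (by norm_num))
  apply Real.tendsto_sqrt_atTop.comp
  exact Tendsto.const_mul_atTop (by norm_num) Real.tendsto_log_atTop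

theorem fins (h : ST_FINC) : ST_FINS := by
  classical
  intro A hA
  obtain ⟨f, hf⟩ : ∃ f : ℤ → ℤ, f = (fun n : ℤ => (3 * n + 1) / 2 ^ padicValInt 2 (3 * n + 1)) := ⟨_, rfl⟩
  obtain ⟨B, hBA, hk, hB⟩ := rep f A
  choose! K hK using hk
  obtain ⟨C, hC⟩ : ∃ C : ℕ, C = A.sup K := ⟨_, rfl⟩
  have hKC : ∀ a ∈ A, K a ≤ C := by
    intro a ha
    rw [hC]
    exact Finset.le_sup ha
  choose! D hD using h
  refine ⟨∑ b ∈ B, D b, fun m hm b hb => ?_⟩
  obtain ⟨R, hR⟩ : ∃ R : ℤ → Prop, R = fun N => (2 * m : ℤ) ∣ N - b := ⟨_, rfl⟩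
  have hD1 : ∀ a ∈ B, Tendsto (fun x : ℝ => (cR R (fun N => ∃ k : ℕ, f^[k] N = a ∧ True) x : ℝ) / x) atTop (𝓝 (D a / m)) := by
    intro a ha
    have h1 := (hD a (hA a (hBA ha)).1 (hA a (hBA ha)).2 m hm b hb).1
    refine h1.congr (fun x => ?_)
    congr 2
    rw [hR, hf]
    simp only [and_true]
    rfl
  have hD2 : ∀ s : ℝ, ∀ a ∈ B, Tendsto (fun x : ℝ => (cR R (fun N => ∃ k : ℕ, f^[k] N = a ∧ Cnd s x k) x : ℝ) / x) atTop
      (𝓝 (D a / m * gs s)) := by
    intro s a ha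
    have h1 := (hD a (hA a (hBA ha)).1 (hA a (hBA ha)).2 m hm b hb).2 s
    refine h1.congr (fun x => ?_)
    congr 2
    rw [hR, hf]
    rfl
  have hS1 : Tendsto (fun x : ℝ => (cR R (fun N => ∃ k : ℕ, f^[k] N ∈ B ∧ True) x : ℝ) / x) atTop (𝓝 ((∑ b ∈ B, D b) / m)) := by
    have h1 := tendsto_finsetSum B hD1
    rw [Finset.sum_div]
    refine h1.congr (fun x => ?_)
    rw [cR_sum hB R (fun _ => True) x]
    push_cast
    rw [Finset.sum_div]
  have hS2 : ∀ s : ℝ, Tendsto (fun x : ℝ => (cR R (fun N => ∃ k : ℕ, f^[k] N ∈ B ∧ Cnd s x k) x : ℝ) / x) atTop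
      (𝓝 ((∑ b ∈ B, D b) / m * gs s)) := by
    intro s
    have h1 := tendsto_finsetSum B (hD2 s)
    rw [Finset.sum_div, Finset.sum_mul]
    refine h1.congr (fun x => ?_)
    rw [cR_sum hB R (Cnd s x) x]
    push_cast
    rw [Finset.sum_div]
  constructor
  · refine hS1.congr (fun x => ?_)
    have e : (Nat.card {N : ℤ // N < 0 ∧ (2 * m : ℤ) ∣ N - b ∧ -x ≤ (N : ℝ) ∧
        ∃ k : ℕ, (fun n : ℤ => (3 * n + 1) / 2 ^ padicValInt 2 (3 * n + 1))^[k] N ∈ A}) = cR R (fun N => ∃ k : ℕ, f^[k] N ∈ A) x := by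
      rw [hR, hf]; rfl
    rw [e]
    congr 2
    apply le_antisymm
    · apply cR_mono
      rintro N b1 b2 b3 ⟨k, b4, _⟩
      exact ⟨b3, k, hBA b4⟩
    · apply cR_mono
      rintro N b1 b2 b3 ⟨k, b4⟩
      refine ⟨b3, K (f^[k] N) + k, ?_, trivial⟩
      rw [Function.iterate_add_apply]
      exact hK _ b4
  · intro s
    have e : ∀ x : ℝ, (Nat.card {N : ℤ // N < 0 ∧ (2 * m : ℤ) ∣ N - b ∧ -x ≤ (N : ℝ) ∧
        ∃ k : ℕ, (fun n : ℤ => (3 * n + 1) / 2 ^ padicValInt 2 (3 * n + 1))^[k] N ∈ A ∧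
        ((k : ℝ) * Real.log (4 / 3) - Real.log x) * Real.sqrt (Real.log (4 / 3)) ≤
          s * (Real.log 2 * Real.sqrt (2 * Real.log x))}) = cR R (fun N => ∃ k : ℕ, f^[k] N ∈ A ∧ Cnd s x k) x := by
      intro x
      rw [hR, hf]; rfl
    simp only [e]
    rw [tendsto_order]
    constructor
    · intro u hu
      filter_upwards [(tendsto_order.1 (hS2 s)).1 u hu, eventually_gt_atTop 0] with x hx hx0
      refine lt_of_lt_of_le hx ?_
      apply div_le_div_of_nonneg_right _ hx0.le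
      have : cR R (fun N => ∃ k : ℕ, f^[k] N ∈ B ∧ Cnd s x k) x ≤ cR R (fun N => ∃ k : ℕ, f^[k] N ∈ A ∧ Cnd s x k) x := by
        apply cR_mono
        rintro N b1 b2 b3 ⟨k, b4, b5⟩
        exact ⟨b3, k, hBA b4, b5⟩
      exact_mod_cast this
    · intro u hu
      have h1 : Tendsto (fun t => (∑ b ∈ B, D b) / m * gs t) (𝓝[>] s) (𝓝 ((∑ b ∈ B, D b) / m * gs s)) :=
        (gs_right s).const_mul _
      obtain ⟨t, ht1, ht2⟩ := (((tendsto_order.1 h1).2 u hu).and self_mem_nhdsWithin).exists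
      have ht3 : s < t := ht2
      have h2 := (sig_top.const_mul_atTop (show 0 < t - s by linarith)).eventually_ge_atTop (C * (DD * Real.sqrt DD))
      filter_upwards [(tendsto_order.1 (hS2 t)).2 u ht1, eventually_gt_atTop 0, h2] with x hx hx0 hx2
      refine lt_of_le_of_lt ?_ hx
      apply div_le_div_of_nonneg_right _ hx0.le
      have : cR R (fun N => ∃ k : ℕ, f^[k] N ∈ A ∧ Cnd s x k) x ≤ cR R (fun N => ∃ k : ℕ, f^[k] N ∈ B ∧ Cnd t x k) x := by
        apply cR_mono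
        rintro N b1 b2 b3 ⟨k, b4, b5⟩
        refine ⟨b3, K (f^[k] N) + k, ?_, ?_⟩
        · rw [Function.iterate_add_apply]
          exact hK _ b4
        · have h3 : ((K (f^[k] N) : ℕ) : ℝ) ≤ C := by exact_mod_cast hKC _ b4
          have h4 : 0 ≤ DD * Real.sqrt DD := mul_nonneg DD_pos.le (Real.sqrt_nonneg _)
          have h5 := mul_le_mul_of_nonneg_right h3 h4
          unfold Cnd at b5 ⊢
          push_cast
          have e1 : (((K (f^[k] N) : ℕ) : ℝ) + (k : ℝ)) * DD - Real.log x =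
              ((k : ℝ) * DD - Real.log x) + ((K (f^[k] N) : ℕ) : ℝ) * DD := by ring
          rw [e1, add_mul]
          have e2 : ((K (f^[k] N) : ℕ) : ℝ) * DD * Real.sqrt DD = ((K (f^[k] N) : ℕ) : ℝ) * (DD * Real.sqrt DD) := by
            ring
          rw [e2]
          linarith
      exact_mod_cast this

end Pool.Agent.Helper3.HT
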