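import Pool.Agent.Helper3.HT.SetA
import Pool.Agent.Helper18.HT.DET

/-! Hitting times: slow first entries are rare. -/

namespace Pool.Agent.Helper3.HT

open Pool.Agent.Helper3.ND Pool.Agent.Helper3.TD Pool.Agent.Helper32.HT Filter Topology

/-- the orbit of `M` meets `A`, but not within `L` steps -/
def slow (A : Finset ℤ) (L : ℕ) (M : ℤ) : Prop := (∃ i : ℕ, T^[i] M ∈ A) ∧ ¬ ∃ i : ℕ, i ≤ L ∧ T^[i] M ∈ A

/-- the first entry of the orbit into `[-Y, Y]` happens within `j` steps and at a slow point -/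
def SE (A : Finset ℤ) (L : ℕ) (Y : ℝ) (j : ℕ) (N : ℤ) : Prop :=
  ∃ i : ℕ, i ≤ j ∧ |((T^[i] N : ℤ) : ℝ)| ≤ Y ∧ (∀ i' : ℕ, i' < i → Y < |((T^[i'] N : ℤ) : ℝ)|) ∧ slow A L (T^[i] N)

open Classical in
/-- indicator of `SE` -/
noncomputable def SF (A : Finset ℤ) (L : ℕ) (Y : ℝ) (j : ℕ) (N : ℤ) : ℝ := if SE A L Y j N then 1 else 0

theorem SF_nonneg (A : Finset ℤ) (L : ℕ) (Y : ℝ) (j : ℕ) (N : ℤ) : 0 ≤ SF A L Y j N := by unfold SF; split_ifs <;> norm_num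
theorem SF_le_one (A : Finset ℤ) (L : ℕ) (Y : ℝ) (j : ℕ) (N : ℤ) : SF A L Y j N ≤ 1 := by unfold SF; split_ifs <;> norm_num

theorem SF_fam (A : Finset ℤ) (L : ℕ) (Y : ℝ) : Fam (SF A L Y) Y := by
  classical
  refine ⟨SF_nonneg A L Y, SF_le_one A L Y, ?_⟩
  intro j N hN
  unfold SF
  have : SE A L Y j (T N) ↔ SE A L Y (j + 1) N := by
    constructor
    · rintro ⟨i, h1, h2, h3, h4⟩
      refine ⟨i + 1, by omega, by rw [Function.iterate_succ_apply]; exact h2, ?_, by rw [Function.iterate_succ_apply]; exact h4⟩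
      intro i' hi'
      rcases i' with _ | i'
      · exact hN
      · rw [Function.iterate_succ_apply]
        exact h3 i' (by omega)
    · rintro ⟨i, h1, h2, h3, h4⟩
      rcases i with _ | i
      · exact absurd h2 (not_le.mpr hN)
      · rw [Function.iterate_succ_apply] at h2 h4
        refine ⟨i, by omega, h2, ?_, h4⟩
        intro i' hi'
        have := h3 (i' + 1) (by omega)
        rw [Function.iterate_succ_apply] at this
        exact this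
  exact if_congr this rfl rfl

theorem SF_le {A : Finset ℤ} {Y : ℝ} (hAY : ∀ a ∈ A, |(a : ℝ)| ≤ Y) (L j : ℕ) (N : ℤ) :
    SF A L Y j N ≤ ∑ a ∈ A, (FI a N - FH a L N) := by
  classical
  have h0 : ∀ a ∈ A, 0 ≤ FI a N - FH a L N := fun a _ => by linarith [FH_le_FI a L N]
  by_cases h : SE A L Y j N
  · obtain ⟨i, h1, h2, h3, ⟨i0, h4⟩, h5⟩ := h
    refine le_trans (SF_le_one _ _ _ _ _) ?_
    refine le_trans ?_ (Finset.single_le_sum h0 h4)
    have e1 : FI (T^[i0] (T^[i] N)) N = 1 := by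
      unfold FI
      rw [if_pos ⟨i0 + i, by rw [Function.iterate_add_apply]⟩]
    have e2 : FH (T^[i0] (T^[i] N)) L N = 0 := by
      unfold FH
      rw [if_neg]
      rintro ⟨i', h6, h7⟩
      rcases lt_or_ge i' i with h8 | h8
      · have h9 := h3 i' h8
        rw [h7] at h9
        exact absurd (hAY _ h4) (not_le.mpr h9)
      · obtain ⟨l, rfl⟩ := Nat.exists_eq_add_of_le' h8
        rw [Function.iterate_add_apply] at h7
        exact h5 ⟨l, by omega, by rw [h7]; exact h4⟩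
    rw [e1, e2]
    norm_num
  · have : SF A L Y j N = 0 := by unfold SF; rw [if_neg h]
    rw [this]
    exact Finset.sum_nonneg h0

theorem Gs_sumf (A : Finset ℤ) (Φ Ψ : ℤ → ℤ → ℝ) (W b : ℝ) :
    Gs (fun N => ∑ a ∈ A, (Φ a N - Ψ a N)) W b = ∑ a ∈ A, (Gs (Φ a) W b - Gs (Ψ a) W b) := by
  unfold Gs SS
  simp only [← Finset.sum_sub_distrib, Finset.sum_mul, sub_mul]
  rw [Finset.sum_comm]

theorem slow_win (hB : ST_BASE) (A : Finset ℤ) (hA0 : ∀ a ∈ A, a ≠ 0) {κ : ℝ} (hκ : 0 < κ) : ∃ N1 : ℕ, 1 ≤ N1 ∧ ∀ N0 : ℕ, N1 ≤ N0 →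
    (∀ a ∈ A, |(a : ℝ)| ≤ Real.exp ((N0 : ℝ) / 8)) ∧
    ∀ a : ℝ, (N0 : ℝ) ≤ a → ∀ j : ℕ, 900 * a ≤ j → Gs (SF A (2004 * N0) (Real.exp ((N0 : ℝ) / 8)) j) 1 a ≤ κ := by
  classical
  obtain ⟨κ', hκ'⟩ : ∃ κ' : ℝ, κ' = κ / (2 * ((A.card : ℝ) + 1)) := ⟨_, rfl⟩
  have hc : (0 : ℝ) < (A.card : ℝ) + 1 := by positivity
  have hκ0 : 0 < κ' := by rw [hκ']; positivity
  have hκ1 : (A.card : ℝ) * κ' ≤ κ / 2 := by
    rw [hκ', ← mul_div_assoc, div_le_div_iff₀ (by positivity) (by norm_num)]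
    nlinarith
  have h1 : ∀ a ∈ A, ∃ b0 : ℝ, ∀ b : ℝ, b0 ≤ b → ∀ j : ℕ, 1002 * b ≤ j → Gs (FI a) 1 b ≤ Gs (FH a j) 1 b + κ' :=
    fun a ha => hB a κ' 1 (hA0 a ha) hκ0 (by norm_num) le_rfl
  choose! b0 hb0 using h1
  obtain ⟨C, hC, A0, hA0', H⟩ := prop_all 1
  have hN : Tendsto (fun n : ℕ => (n : ℝ)) atTop atTop := tendsto_natCast_atTop_atTop
  have hE : Tendsto (fun n : ℕ => Real.exp ((n : ℝ) / 8)) atTop atTop :=
    Real.tendsto_exp_atTop.comp (hN.atTop_div_const (by norm_num))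
  have e1 : ∀ᶠ n : ℕ in atTop, ∀ a ∈ A, |(a : ℝ)| ≤ Real.exp ((n : ℝ) / 8) ∧ b0 a ≤ n := by
    rw [Filter.eventually_all_finset]
    intro a _
    exact (hE.eventually_ge_atTop _).and (hN.eventually_ge_atTop _)
  have e2 : ∀ᶠ n : ℕ in atTop, A0 ≤ n ∧ 2 * C / κ ≤ n ∧ (1 : ℝ) ≤ n :=
    (hN.eventually_ge_atTop _).and ((hN.eventually_ge_atTop _).and (hN.eventually_ge_atTop _))
  obtain ⟨N1, hN1⟩ := eventually_atTop.mp (e1.and e2)
  refine ⟨max N1 1, le_max_right _ _, fun N0 hN0 => ?_⟩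
  obtain ⟨g1, g2, g3, g4⟩ := hN1 N0 (le_trans (le_max_left _ _) hN0)
  have hN0p : (0 : ℝ) < N0 := by linarith
  refine ⟨fun a ha => (g1 a ha).1, ?_⟩
  have h2 := H N0 g2 (Real.exp ((N0 : ℝ) / 8)) (Real.exp_pos _).le le_rfl
    (SF A (2004 * N0) (Real.exp ((N0 : ℝ) / 8))) (SF_fam _ _ _) (κ / 2) (by positivity) (by
      intro b hb1 hb2 j hj
      have h3 := Gs_mono (fun N => SF_le (fun a ha => (g1 a ha).1) (2004 * N0) j N) 1 b
      refine le_trans h3 ?_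
      rw [Gs_sumf]
      have h4 : ∀ a ∈ A, Gs (FI a) 1 b - Gs (FH a (2004 * N0)) 1 b ≤ κ' := by
        intro a ha
        have := hb0 a ha b (le_trans (g1 a ha).2 hb1) (2004 * N0) (by push_cast; linarith)
        linarith
      refine le_trans (Finset.sum_le_card_nsmul _ _ _ h4) ?_
      rw [nsmul_eq_mul]
      exact hκ1)
  intro a ha j hj
  have h3 := h2 a ha j hj
  have h4 : C / (N0 : ℝ) ^ 1 ≤ κ / 2 := by
    rw [pow_one, div_le_div_iff₀ hN0p (by norm_num)]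
    rw [div_le_iff₀ hκ] at g3
    linarith
  linarith

theorem slow_nat (hB : ST_BASE) (A : Finset ℤ) (hA0 : ∀ a ∈ A, a ≠ 0) {κ : ℝ} (hκ : 0 < κ) : ∃ N1 : ℕ, ∀ N0 : ℕ, N1 ≤ N0 →
    (∀ a ∈ A, |(a : ℝ)| ≤ Real.exp ((N0 : ℝ) / 8)) ∧
    ∀ X : ℕ, (N0 : ℝ) ≤ Real.log X → ∀ j : ℕ, 900 * Real.log X ≤ j →
      Nc (SF A (2004 * N0) (Real.exp ((N0 : ℝ) / 8)) j) X ≤ κ * X + 6 * Real.exp N0 + 1 := by
  obtain ⟨N1, hN11, H⟩ := slow_win hB A hA0 (κ := κ / 6) (by positivity)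
  refine ⟨N1, fun N0 hN0 => ⟨(H N0 hN0).1, ?_⟩⟩
  intro X hX j hj
  have hN0p : (1 : ℝ) ≤ N0 := by exact_mod_cast le_trans hN11 hN0
  have hX1 : 1 ≤ X := by
    rcases Nat.eq_zero_or_pos X with h | h
    · rw [h] at hX; simp at hX; linarith
    · exact h
  have hX0 : (0 : ℝ) < X := by exact_mod_cast hX1
  obtain ⟨Φ, hΦ⟩ : ∃ Φ : ℤ → ℝ, Φ = SF A (2004 * N0) (Real.exp ((N0 : ℝ) / 8)) j := ⟨_, rfl⟩
  rw [← hΦ]
  obtain ⟨K, hK⟩ : ∃ K, K = ⌊Real.log X - N0⌋₊ := ⟨_, rfl⟩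
  have hK1' : (K : ℝ) ≤ Real.log X - N0 := by rw [hK]; exact Nat.floor_le (by linarith)
  have hK2' : Real.log X - N0 - 1 < K := by rw [hK]; exact Nat.sub_one_lt_floor _
  have h1 := Nc_upper (Φ := Φ) (by rw [hΦ]; exact SF_nonneg _ _ _ _) (by rw [hΦ]; exact SF_le_one _ _ _ _) (δ := 1) (by norm_num) K hX1
  have h2 : ∑ i ∈ Finset.range (K + 1), Real.exp (-(i * 1) + 1) * Gs Φ 1 (Real.log X - i * 1) ≤ κ := by
    have h3 : ∀ i ∈ Finset.range (K + 1), Real.exp (-(i * 1) + 1) * Gs Φ 1 (Real.log X - i * 1) ≤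
        Real.exp 1 * (κ / 6) * Real.exp (-(i * 1)) := by
      intro i hi
      rw [Finset.mem_range] at hi
      have hi' : (i : ℝ) ≤ K := by exact_mod_cast (by omega : i ≤ K)
      have hi0 : (0 : ℝ) ≤ i := by positivity
      have h4 := (H N0 hN0).2 (Real.log X - i * 1) (by linarith) j (by linarith)
      rw [← hΦ] at h4
      rw [Real.exp_add]
      calc Real.exp (-(i * 1)) * Real.exp 1 * Gs Φ 1 (Real.log X - i * 1) ≤
          Real.exp (-(i * 1)) * Real.exp 1 * (κ / 6) := mul_le_mul_of_nonneg_left h4 (by positivity)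
        _ = _ := by ring
    refine le_trans (Finset.sum_le_sum h3) ?_
    rw [← Finset.mul_sum]
    have h4 := geo_upper (δ := 1) (by norm_num) (K + 1)
    have h5 := Real.exp_one_lt_d9
    calc Real.exp 1 * (κ / 6) * ∑ i ∈ Finset.range (K + 1), Real.exp (-(i * 1)) ≤ Real.exp 1 * (κ / 6) * ((1 + 1) / 1) := by gcongr
      _ ≤ κ := by nlinarith
  have h3 : X * Real.exp (-(K * 1)) ≤ 3 * Real.exp N0 := by
    have h4 : Real.exp (-((K : ℝ) * 1)) ≤ Real.exp (N0 + 1 - Real.log X) := Real.exp_le_exp.mpr (by linarith)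
    rw [Real.exp_sub, Real.exp_log hX0, Real.exp_add] at h4
    have h5 := Real.exp_one_lt_d9
    have h6 := Real.exp_pos (N0 : ℝ)
    rw [le_div_iff₀ hX0] at h4
    nlinarith
  have h5 : X * ∑ i ∈ Finset.range (K + 1), Real.exp (-(i * 1) + 1) * Gs Φ 1 (Real.log X - i * 1) ≤ X * κ :=
    mul_le_mul_of_nonneg_left h2 hX0.le
  linarith

end Pool.Agent.Helper3.HT
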