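import Pool.Agent.Helper3.TD.PropK
import Pool.Agent.Helper3.TD.NatE
import Pool.Agent.Helper3.TD.Syr
import Mathlib.Probability.Distributions.Gaussian.Real

/-! Hitting times: definitions and the statements of the parts. -/

namespace Pool.Agent.Helper3.HT

open Pool.Agent.Helper3.ND Pool.Agent.Helper3.TD Filter Topology

/-- probability that the random walk of the scales, started at `a`, is below `0` after `j` steps -/
noncomputable def PW (j : ℕ) (a : ℝ) : ℝ := Eo j (fun i => if bk a j i ≤ 0 then 1 else 0)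

/-- distribution function of the standard normal law -/
noncomputable def gs (s : ℝ) : ℝ := (ProbabilityTheory.gaussianReal 0 1).real (Set.Iic s)

open Classical in
/-- indicator: the orbit of `N` under `T` meets `a` within `j` steps -/
noncomputable def FH (a : ℤ) (j : ℕ) (N : ℤ) : ℝ := if ∃ i : ℕ, i ≤ j ∧ T^[i] N = a then 1 else 0

open Classical in
/-- indicator: the orbit of `N` under `T` meets `a` -/
noncomputable def FI (a : ℤ) (N : ℤ) : ℝ := if ∃ i : ℕ, T^[i] N = a then 1 else 0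

/-- BIN: de Moivre - Laplace for the walk -/
def ST_BIN : Prop := ∀ (s : ℝ) (a : ℕ → ℝ) (j : ℕ → ℕ), Tendsto j atTop atTop →
  Tendsto (fun X => ((j X : ℝ) * TD.mu - a X) / (Real.log 3 / 2 * Real.sqrt (j X))) atTop (𝓝 s) →
  Tendsto (fun X => PW (j X) (a X)) atTop (𝓝 (gs s))

/-- BASE: few integers meet `a` only after more than `1002 b` steps -/
def ST_BASE : Prop := ∀ (a : ℤ) (κ W : ℝ), a ≠ 0 → 0 < κ → 0 < W → W ≤ 1 → ∃ b0 : ℝ, ∀ b : ℝ, b0 ≤ b →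
  ∀ j : ℕ, 1002 * b ≤ j → Gs (FI a) W b ≤ Gs (FH a j) W b + κ

/-- NAT: from windows to natural density, for a sequence of functions -/
def ST_NAT : Prop := ∀ (Φ : ℕ → ℤ → ℝ) (c : ℝ), (∀ X N, 0 ≤ Φ X N) → (∀ X N, Φ X N ≤ 1) → 0 ≤ c →
  (∀ (l : ℕ) (x : ℝ), Tendsto (fun X : ℕ => Gs (Φ X) ((1 / 2) ^ l) (Real.log X - x)) atTop (𝓝 (c * (1 / 2) ^ l))) →
  Tendsto (fun X : ℕ => Nc (Φ X) X / X) atTop (𝓝 c)

/-- WALK: the time to meet `a` behaves like the exit time of the walk -/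
def ST_WALK : Prop := ∀ (a : ℤ) (W c : ℝ), a ≠ 0 → 0 < W → W ≤ 1 → 0 ≤ c → Tendsto (fun b => Gs (FI a) W b) atTop (𝓝 c) →
  ∀ κ : ℝ, 0 < κ → ∃ M : ℕ, ∃ N0 : ℝ, ∀ b : ℝ, N0 ≤ b → ∀ j : ℕ,
    Gs (FH a j) W b ≤ c * PW (j + M) b + κ ∧ (M ≤ j → c * PW (j - M) b ≤ Gs (FH a j) W b + κ)

/-- TT: normal law for the number of steps of `T` needed to meet `a` -/
def ST_TT : Prop := ∀ a : ℤ, a ≠ 0 → ∃ c : ℝ, 0 ≤ c ∧ Tendsto (fun X : ℕ => Nc (FI a) X / X) atTop (𝓝 c) ∧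
  ∀ (s : ℝ) (J : ℕ → ℕ), Tendsto J atTop atTop →
    Tendsto (fun X : ℕ => ((J X : ℝ) * TD.mu - Real.log X) / (Real.log 3 / 2 * Real.sqrt (J X))) atTop (𝓝 s) →
    Tendsto (fun X : ℕ => Nc (FH a (J X)) X / X) atTop (𝓝 (c * gs s))

/-- FIN: normal law for the number of Syracuse steps -/
def ST_FIN : Prop := ∀ a : ℤ, a < 0 → Odd a → ∃ d : ℝ,
  Tendsto (fun x : ℝ => (Nat.card {N : ℤ // N < 0 ∧ Odd N ∧ -x ≤ (N : ℝ) ∧
    ∃ k : ℕ, (fun n : ℤ => (3 * n + 1) / 2 ^ padicValInt 2 (3 * n + 1))^[k] N = a} : ℝ) / x) atTop (𝓝 d) ∧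
  ∀ s : ℝ, Tendsto (fun x : ℝ => (Nat.card {N : ℤ // N < 0 ∧ Odd N ∧ -x ≤ (N : ℝ) ∧
    ∃ k : ℕ, (fun n : ℤ => (3 * n + 1) / 2 ^ padicValInt 2 (3 * n + 1))^[k] N = a ∧
      ((k : ℝ) * Real.log (4 / 3) - Real.log x) * Real.sqrt (Real.log (4 / 3)) ≤
        s * (Real.log 2 * Real.sqrt (2 * Real.log x))} : ℝ) / x) atTop (𝓝 (d * gs s))

end Pool.Agent.Helper3.HT
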