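import Pool.Agent.Helper3.HT.Stmts

/-! Hitting times: the two deterministic comparisons of the steps of `T` and of the Syracuse steps. -/

namespace Pool.Agent.Helper3.HT

open Pool.Agent.Helper3.ND Pool.Agent.Helper3.TD Filter Topology

/-- DET1 -/
def ST_DET1 : Prop := ∀ (a N : ℤ) (k : ℕ), N < 0 → Odd N → syr^[k] N = a →
  ∃ j : ℕ, T^[j] N = a ∧ (2 : ℝ) ^ j * |(a : ℝ)| ≤ 3 ^ k * |(N : ℝ)|

/-- DET2 -/
def ST_DET2 : Prop := ∀ (a N : ℤ) (j : ℕ), a < 0 → Odd a → N < 0 → Odd N → T^[j] N = a →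
  ∃ j' k : ℕ, j' ≤ j ∧ k ≤ j' ∧ T^[j'] N = a ∧ syr^[k] N = a ∧ (3 : ℝ) ^ k * |(N : ℝ)| ≤ (k + 1) * (2 ^ j' * |(a : ℝ)|)

end Pool.Agent.Helper3.HT
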