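import Pool.Agent.Helper3.HT.WalkB

/-! Normal law for the number of steps of `T`. -/

namespace Pool.Agent.Helper3.HT

open Pool.Agent.Helper3.ND Pool.Agent.Helper3.TD Filter Topology

theorem gs_nonneg (s : ℝ) : 0 ≤ gs s := MeasureTheory.measureReal_nonneg

/-- bounded changes of the time and of the scale do not matter -/
theorem shift_ok {J J' : ℕ → ℕ} {L L' : ℕ → ℝ} {s D E : ℝ} (hJ : Tendsto J atTop atTop)
    (hs : Tendsto (fun X => ((J X : ℝ) * TD.mu - L X) / (Real.log 3 / 2 * Real.sqrt (J X))) atTop (𝓝 s))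
    (h : ∀ᶠ X in atTop, |(J' X : ℝ) - J X| ≤ D) (h2 : ∀ X, |L' X - L X| ≤ E) :
    Tendsto J' atTop atTop ∧
    Tendsto (fun X => ((J' X : ℝ) * TD.mu - L' X) / (Real.log 3 / 2 * Real.sqrt (J' X))) atTop (𝓝 s) := by
  have hJr : Tendsto (fun X => (J X : ℝ)) atTop atTop := tendsto_natCast_atTop_atTop.comp hJ
  have hJ'r : Tendsto (fun X => (J' X : ℝ)) atTop atTop := by
    apply tendsto_atTop_mono' atTop (f₁ := fun X => (J X : ℝ) - D)
    · filter_upwards [h] with X hX
      rw [abs_le] at hX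
      linarith
    · exact tendsto_atTop_add_const_right atTop (-D) hJr
  have hl3 : 0 < Real.log 3 / 2 := by
    have := Real.log_pos (show (1 : ℝ) < 3 by norm_num)
    linarith
  refine ⟨tendsto_natCast_atTop_iff.1 hJ'r, ?_⟩
  -- the ratio of the times
  have hq : Tendsto (fun X => (J X : ℝ) / J' X) atTop (𝓝 1) := by
    have h3 : Tendsto (fun X => D / (J' X : ℝ)) atTop (𝓝 0) := Tendsto.div_atTop tendsto_const_nhds hJ'r
    rw [tendsto_iff_norm_sub_tendsto_zero]
    apply squeeze_zero' (Eventually.of_forall (fun _ => norm_nonneg _)) _ h3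
    filter_upwards [h, hJ'r.eventually_gt_atTop 0] with X hX hX0
    rw [Real.norm_eq_abs, div_sub_one hX0.ne', abs_div, abs_of_pos hX0]
    apply div_le_div_of_nonneg_right _ hX0.le
    rw [abs_sub_comm]; exact hX
  have hsq : Tendsto (fun X => Real.sqrt ((J X : ℝ) / J' X)) atTop (𝓝 1) := by
    have := (Real.continuous_sqrt.tendsto 1).comp hq
    rwa [Real.sqrt_one] at this
  have hsqJ : Tendsto (fun X => Real.log 3 / 2 * Real.sqrt (J' X)) atTop atTop :=
    Tendsto.const_mul_atTop hl3 (Real.tendsto_sqrt_atTop.comp hJ'r)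
  have hr : Tendsto (fun X => (((J' X : ℝ) - J X) * TD.mu - (L' X - L X)) / (Real.log 3 / 2 * Real.sqrt (J' X))) atTop (𝓝 0) := by
    have h3 : Tendsto (fun X => (D * |TD.mu| + E) / (Real.log 3 / 2 * Real.sqrt (J' X))) atTop (𝓝 0) :=
      Tendsto.div_atTop tendsto_const_nhds hsqJ
    apply squeeze_zero_norm' _ h3
    filter_upwards [h, hsqJ.eventually_gt_atTop 0] with X hX hX0
    rw [Real.norm_eq_abs, abs_div, abs_of_pos hX0]
    apply div_le_div_of_nonneg_right _ hX0.le
    have h4 := abs_sub (((J' X : ℝ) - J X) * TD.mu) (L' X - L X)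
    rw [abs_mul] at h4
    have h5 : |(J' X : ℝ) - J X| * |TD.mu| ≤ D * |TD.mu| := mul_le_mul_of_nonneg_right hX (abs_nonneg _)
    linarith [h2 X]
  have hm := (hs.mul hsq).add hr
  rw [mul_one, add_zero] at hm
  apply hm.congr'
  filter_upwards [hJr.eventually_gt_atTop 0, hJ'r.eventually_gt_atTop 0] with X hX hX'
  have h4 : Real.sqrt ((J X : ℝ) / J' X) = Real.sqrt (J X) / Real.sqrt (J' X) := Real.sqrt_div hX.le _
  have h5 : 0 < Real.sqrt (J X) := Real.sqrt_pos.mpr hX
  have h6 : 0 < Real.sqrt (J' X) := Real.sqrt_pos.mpr hX'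
  rw [h4]
  field_simp
  ring

theorem tt (hBIN : ST_BIN) (hNAT : ST_NAT) (hW : ST_WALK) : ST_TT := by
  intro a ha
  obtain ⟨c, hc⟩ := Gs_lim (abs_nonneg (a : ℝ)) (FI_inv a)
  have hc0 : 0 ≤ c := by
    have h1 := hc 0
    simp only [pow_zero, mul_one] at h1
    exact ge_of_tendsto' h1 (fun b => Gs_nonneg (FI_nonneg a) _ _)
  refine ⟨c, hc0, nat_dens_of (FI_inv a) hc, ?_⟩
  intro s J hJ hs
  refine hNAT (fun X => FH a (J X)) (c * gs s) (fun X => FH_nonneg a (J X)) (fun X => FH_le_one a (J X))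
    (mul_nonneg hc0 (gs_nonneg s)) ?_
  intro l x
  obtain ⟨W, hWd⟩ : ∃ W : ℝ, W = (1 / 2) ^ l := ⟨_, rfl⟩
  have hW0 : 0 < W := by rw [hWd]; positivity
  have hW1 : W ≤ 1 := by rw [hWd]; exact pow_le_one₀ (by norm_num) (by norm_num)
  have hcl := hc l
  rw [← hWd] at hcl ⊢
  have hcW : 0 ≤ c * W := by positivity
  have hb : Tendsto (fun X : ℕ => Real.log (X : ℝ) - x) atTop atTop :=
    tendsto_atTop_add_const_right atTop (-x) (Real.tendsto_log_atTop.comp tendsto_natCast_atTop_atTop)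
  -- limits of the comparison functions
  have hup : ∀ M : ℕ, Tendsto (fun X => PW (J X + M) (Real.log (X : ℝ) - x)) atTop (𝓝 (gs s)) := by
    intro M
    obtain ⟨h1, h2⟩ := shift_ok (J' := fun X => J X + M) (L' := fun X : ℕ => Real.log (X : ℝ) - x) (D := M) (E := |x|) hJ hs
      (Eventually.of_forall (fun X => by
        push_cast
        rw [add_sub_cancel_left, abs_of_nonneg (by positivity)]))
      (fun X => by rw [show Real.log (X : ℝ) - x - Real.log (X : ℝ) = -x by ring, abs_neg])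
    exact hBIN s _ _ h1 h2
  have hlo : ∀ M : ℕ, Tendsto (fun X => PW (J X - M) (Real.log (X : ℝ) - x)) atTop (𝓝 (gs s)) := by
    intro M
    obtain ⟨h1, h2⟩ := shift_ok (J' := fun X => J X - M) (L' := fun X : ℕ => Real.log (X : ℝ) - x) (D := M) (E := |x|) hJ hs
      (by
        filter_upwards [hJ.eventually_ge_atTop M] with X hX
        rw [Nat.cast_sub hX, show (J X : ℝ) - M - J X = -(M : ℝ) by ring, abs_neg, abs_of_nonneg (by positivity)])
      (fun X => by rw [show Real.log (X : ℝ) - x - Real.log (X : ℝ) = -x by ring, abs_neg])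
    exact hBIN s _ _ h1 h2
  rw [show c * gs s * W = (c * W) * gs s by ring, tendsto_order]
  constructor
  · intro u hu
    obtain ⟨κ, hκ⟩ : ∃ κ, κ = ((c * W) * gs s - u) / 3 := ⟨_, rfl⟩
    have hκ0 : 0 < κ := by rw [hκ]; linarith
    obtain ⟨M, N0, H⟩ := hW a W (c * W) ha hW0 hW1 hcW hcl κ hκ0
    have h1 := ((hlo M).const_mul (c * W))
    filter_upwards [(tendsto_order.1 h1).1 ((c * W) * gs s - κ) (by linarith), hb.eventually_ge_atTop N0,
      hJ.eventually_ge_atTop M] with X h2 h3 h4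
    have h5 := (H (Real.log (X : ℝ) - x) h3 (J X)).2 h4
    linarith
  · intro u hu
    obtain ⟨κ, hκ⟩ : ∃ κ, κ = (u - (c * W) * gs s) / 3 := ⟨_, rfl⟩
    have hκ0 : 0 < κ := by rw [hκ]; linarith
    obtain ⟨M, N0, H⟩ := hW a W (c * W) ha hW0 hW1 hcW hcl κ hκ0
    have h1 := ((hup M).const_mul (c * W))
    filter_upwards [(tendsto_order.1 h1).2 ((c * W) * gs s + κ) (by linarith), hb.eventually_ge_atTop N0] with X h2 h3
    have h5 := (H (Real.log (X : ℝ) - x) h3 (J X)).1
    linarith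

end Pool.Agent.Helper3.HT
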