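import Pool.Agent.Helper3.HT.LevA
import Pool.Agent.Helper3.TD.Lim

/-! Near constancy of the window averages above a level `c`, uniformly in `c`, for functions that are invariant above
the level: shifts. -/

namespace Pool.Agent.Helper3.HT

open Pool.Agent.Helper3.ND Pool.Agent.Helper3.TD Filter Topology

theorem condL {W : ℝ} (hW0 : 0 < W) (hW1 : W ≤ 1) {A : ℝ} (hA : 10 ^ 5 + 200 / W ≤ A)
    {t : ℕ} (ht : (t : ℝ) ≤ A / 30) {a : ℝ} (ha : A / 4 ≤ a) {c : ℝ} (hc : 0 ≤ c) :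
    16 * 10 ^ t ≤ W * Real.exp (c + a - W) := by
  refine le_trans (cond hW0 hW1 (le_refl (0 : ℝ)) (A := A) (by linarith) ht ha).1 ?_
  apply mul_le_mul_of_nonneg_left _ hW0.le
  exact Real.exp_le_exp.mpr (by linarith)

theorem fineGI : ∃ C : ℝ, 0 < C ∧ ∀ W : ℝ, 0 < W → W ≤ 1 → ∃ A0 : ℝ, 10 ^ 5 + 200 / W ≤ A0 ∧
    ∀ A : ℝ, A0 ≤ A → ∀ c : ℝ, 0 ≤ c → ∀ T m : ℕ, T = ⌊A / 100⌋₊ → m = T / 20 → ∀ Φ : ℤ → ℝ, Inv Φ (Real.exp c) →
    ∀ s1 : ℕ, T ≤ s1 → s1 ≤ 3 * T → ∀ a : ℝ, A / 2 ≤ a → a ≤ 2 * A → ∀ X : ℤ, Real.exp (c + 3 * A) ≤ X →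
    |Gs Φ W (c + a) - Eo s1 (fun j => ee Φ X m (3 * m) W (bk (c + a) s1 j))| ≤ C * A ^ (-(19 / 20) : ℝ) := by
  obtain ⟨C, hC, H⟩ := fineGL 1
  refine ⟨C, hC, ?_⟩
  intro W hW0 hW1
  obtain ⟨A0, hA0, H2⟩ := H W hW0 hW1
  have hWp : 0 < 200 / W := by positivity
  refine ⟨A0, hA0, ?_⟩
  intro A hA c hc T m hT hm Φ hΦ s1 hs1 hs3 a ha1 ha2 X hX
  have hA5 : (10 ^ 5 : ℝ) ≤ A := by linarith
  have hA0' : 0 < A := by linarith
  have h := H2 A hA c hc T m hT hm (fun _ => Φ) hΦ.fam s1 hs1 hs3 0 a ha1 ha2 X hX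
  refine le_trans h ?_
  rw [pow_one, div_eq_mul_inv]
  apply mul_le_mul_of_nonneg_left _ hC.le
  rw [← Real.rpow_neg_one]
  exact Real.rpow_le_rpow_of_exponent_le (by linarith) (by norm_num)

theorem avgI : ∃ C : ℝ, 0 < C ∧ ∀ W : ℝ, 0 < W → W ≤ 1 → ∃ A0 : ℝ, 10 ^ 5 ≤ A0 ∧
    ∀ A : ℝ, A0 ≤ A → ∀ c : ℝ, 0 ≤ c → ∀ Φ : ℤ → ℝ, Inv Φ (Real.exp c) → ∀ n : ℕ, (n : ℝ) ≤ A / 100 →
    ∀ a : ℝ, 3 / 5 * A ≤ a → a ≤ 19 / 10 * A →
    |Gs Φ W (c + a) - Eo n (fun i => Gs Φ W (c + bk a n i))| ≤ C * A ^ (-(19 / 20) : ℝ) := by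
  obtain ⟨C, hC, H⟩ := avgL 1
  refine ⟨C, hC, ?_⟩
  intro W hW0 hW1
  obtain ⟨A0, hA0, H2⟩ := H W hW0 hW1
  have hWp : 0 < 200 / W := by positivity
  refine ⟨A0, by linarith, ?_⟩
  intro A hA c hc Φ hΦ n hn a ha1 ha2
  have hA5 : (10 ^ 5 : ℝ) ≤ A := by linarith
  have hA0' : 0 < A := by linarith
  have h := H2 A hA c hc (fun _ => Φ) hΦ.fam n hn (⌈A / 80⌉₊) (Nat.le_ceil _) a ha1 ha2
  refine le_trans h ?_
  rw [pow_one, div_eq_mul_inv]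
  apply mul_le_mul_of_nonneg_left _ hC.le
  rw [← Real.rpow_neg_one]
  exact Real.rpow_le_rpow_of_exponent_le (by linarith) (by norm_num)

theorem shiftI3 : ∃ C : ℝ, 0 < C ∧ ∀ W : ℝ, 0 < W → W ≤ 1 → ∃ A0 : ℝ, 10 ^ 5 ≤ A0 ∧
    ∀ A : ℝ, A0 ≤ A → ∀ c : ℝ, 0 ≤ c → ∀ Φ : ℤ → ℝ, Inv Φ (Real.exp c) → ∀ a : ℝ, A / 2 ≤ a → a ≤ 19 / 10 * A →
    |Gs Φ W (c + (a + Real.log 3)) - Gs Φ W (c + a)| ≤ C * A ^ (-(1 / 2) : ℝ) := by
  obtain ⟨C, hC, H⟩ := fineGI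
  refine ⟨2 * C + 200, by positivity, ?_⟩
  intro W hW0 hW1
  obtain ⟨A0, hA0, H2⟩ := H W hW0 hW1
  have hWp : 0 < 200 / W := by positivity
  refine ⟨A0, by linarith, ?_⟩
  intro A hA c hc Φ hΦ a ha1 ha2
  have hA5 : (10 ^ 5 : ℝ) ≤ A := by linarith
  have hApos : 0 < A := by linarith
  have hl3 := log_three_le
  have hl3' : 0 < Real.log 3 := Real.log_pos (by norm_num)
  have hl2 := Real.log_two_lt_d9
  obtain ⟨T, hT⟩ : ∃ T, T = ⌊A / 100⌋₊ := ⟨_, rfl⟩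
  obtain ⟨m, hm⟩ : ∃ m, m = T / 20 := ⟨_, rfl⟩
  have hT1 : (T : ℝ) ≤ A / 100 := by rw [hT]; exact Nat.floor_le (by positivity)
  have hT2 : A / 100 - 1 < T := by rw [hT]; exact Nat.sub_one_lt_floor _
  obtain ⟨X, hX⟩ : ∃ X : ℤ, Real.exp (c + 3 * A) ≤ X := ⟨⌈Real.exp (c + 3 * A)⌉, Int.le_ceil _⟩
  have h1 := H2 A hA c hc T m hT hm Φ hΦ T le_rfl (by omega) a ha1 (by linarith) X hX
  have h2 := H2 A hA c hc T m hT hm Φ hΦ T le_rfl (by omega) (a + Real.log 3) (by linarith) (by linarith) X hX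
  obtain ⟨g, hg⟩ : ∃ g : ℕ → ℝ, g = fun j => ee Φ X m (3 * m) W (bk (c + a) T j) := ⟨_, rfl⟩
  have e : (fun j => ee Φ X m (3 * m) W (bk (c + (a + Real.log 3)) T j)) = fun j => g (j + 1) := by
    rw [hg]
    funext j
    simp only
    congr 1
    unfold bk
    push_cast
    ring
  rw [e] at h2
  rw [← hg] at h1
  have h3 : ∀ j ≤ T + 1, |g j| ≤ 6 := by
    intro j _
    rw [hg]
    simp only
    rw [abs_of_nonneg (ee_nonneg hΦ.nonneg _ _ _ _ _)]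
    have h30 : ((3 * m : ℕ) : ℝ) ≤ A / 30 := by
      have h1 : 20 * (3 * m) ≤ 63 * T := by omega
      have h2 : (20 : ℝ) * ((3 * m : ℕ) : ℝ) ≤ 63 * (T : ℝ) := by exact_mod_cast h1
      linarith
    refine ee_le hΦ.le_one X (by omega) hW0 hW1 ?_
    rw [bk_add]
    refine condL hW0 hW1 (A := A) (by linarith) h30 ?_ hc
    unfold bk
    have : (0 : ℝ) ≤ j * Real.log 3 := by positivity
    have hTp : (0 : ℝ) ≤ T := by positivity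
    nlinarith
  have h4 := Eo_shift T (c := 6) (by norm_num) h3
  have h5 : 2 * 6 / Real.sqrt ((T + 1 : ℕ) : ℝ) ≤ 200 * A ^ (-(1 / 2) : ℝ) := by
    have h6 : A ^ (-(1 / 2) : ℝ) = 1 / Real.sqrt A := by
      rw [Real.rpow_neg hApos.le, ← Real.sqrt_eq_rpow, one_div]
    have h7 : Real.sqrt A / 10 ≤ Real.sqrt ((T + 1 : ℕ) : ℝ) := by
      have h8 : Real.sqrt A / 10 = Real.sqrt (A / 100) := by
        rw [Real.sqrt_div hApos.le, show (100 : ℝ) = 10 ^ 2 by norm_num, Real.sqrt_sq (by norm_num)]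
      rw [h8]
      apply Real.sqrt_le_sqrt
      push_cast
      linarith
    have h9 : 0 < Real.sqrt A := Real.sqrt_pos.mpr hApos
    rw [h6, mul_one_div, div_le_div_iff₀ (by linarith) h9]
    nlinarith
  have h6 : A ^ (-(19 / 20) : ℝ) ≤ A ^ (-(1 / 2) : ℝ) := Real.rpow_le_rpow_of_exponent_le (by linarith) (by norm_num)
  have h7 : C * A ^ (-(19 / 20) : ℝ) ≤ C * A ^ (-(1 / 2) : ℝ) := mul_le_mul_of_nonneg_left h6 hC.le
  have t1 := abs_sub_le (Gs Φ W (c + (a + Real.log 3))) (Eo T (fun j => g (j + 1))) (Gs Φ W (c + a))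
  have t2 := abs_sub_le (Eo T (fun j => g (j + 1))) (Eo T g) (Gs Φ W (c + a))
  rw [abs_sub_comm (Eo T g) (Gs Φ W (c + a))] at t2
  linarith


theorem shiftI2 : ∃ C : ℝ, 0 < C ∧ ∀ W : ℝ, 0 < W → W ≤ 1 → ∃ A0 : ℝ, 10 ^ 5 ≤ A0 ∧
    ∀ A : ℝ, A0 ≤ A → ∀ c : ℝ, 0 ≤ c → ∀ Φ : ℤ → ℝ, Inv Φ (Real.exp c) → ∀ a : ℝ, 3 / 5 * A ≤ a → a ≤ 18 / 10 * A →
    |Gs Φ W (c + (a + Real.log 3)) - Gs Φ W (c + a)| ≤ C * A ^ (-(1 / 2) : ℝ) ∧
    |Gs Φ W (c + (a + Real.log 2)) - Gs Φ W (c + a)| ≤ C * A ^ (-(1 / 2) : ℝ) := by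
  obtain ⟨C, hC, H⟩ := avgI
  obtain ⟨C', hC', H'⟩ := shiftI3
  refine ⟨C + C', by positivity, ?_⟩
  intro W hW0 hW1
  obtain ⟨A0, hA0, H2⟩ := H W hW0 hW1
  obtain ⟨A0', hA0', H2'⟩ := H' W hW0 hW1
  refine ⟨max A0 A0', le_trans hA0 (le_max_left _ _), ?_⟩
  intro A hA c hc Φ hΦ a ha1 ha2
  have hA1 := le_trans (le_max_left _ _) hA
  have hA2 := le_trans (le_max_right _ _) hA
  have hA5 : (10 ^ 5 : ℝ) ≤ A := by linarith
  have hl2 := Real.log_two_lt_d9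
  have hl2' : 0 < Real.log 2 := Real.log_pos (by norm_num)
  have h1 := H2 A hA1 c hc Φ hΦ 1 (by push_cast; linarith) (a + Real.log 2) (by linarith) (by linarith)
  have h2 := H2' A hA2 c hc Φ hΦ a (by linarith) (by linarith)
  have h6 : A ^ (-(19 / 20) : ℝ) ≤ A ^ (-(1 / 2) : ℝ) := Real.rpow_le_rpow_of_exponent_le (by linarith) (by norm_num)
  have h7 : C * A ^ (-(19 / 20) : ℝ) ≤ C * A ^ (-(1 / 2) : ℝ) := mul_le_mul_of_nonneg_left h6 hC.le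
  have e := Eo_succ 0 (fun i => Gs Φ W (c + (bk (a + Real.log 2) 1 i)))
  rw [zero_add, Eo_zero, Eo_zero] at e
  have e1 : bk (a + Real.log 2) 1 0 = a := by unfold bk; push_cast; ring
  have e2 : bk (a + Real.log 2) 1 (0 + 1) = a + Real.log 3 := by unfold bk; push_cast; ring
  rw [e1, e2] at e
  rw [e] at h1
  have hp : 0 < A ^ (-(1 / 2) : ℝ) := Real.rpow_pos_of_pos (by linarith) _
  have hCp : 0 < C * A ^ (-(1 / 2) : ℝ) := by positivity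
  have hCp' : 0 < C' * A ^ (-(1 / 2) : ℝ) := by positivity
  constructor
  · linarith
  · rw [abs_le] at h1 h2 ⊢
    constructor <;> linarith


theorem shiftI_int : ∃ C : ℝ, 0 < C ∧ ∀ W : ℝ, 0 < W → W ≤ 1 → ∃ A0 : ℝ, 10 ^ 5 ≤ A0 ∧
    ∀ A : ℝ, A0 ≤ A → ∀ c : ℝ, 0 ≤ c → ∀ Φ : ℤ → ℝ, Inv Φ (Real.exp c) → ∀ a : ℝ, 7 / 10 * A ≤ a → a ≤ 16 / 10 * A → ∀ p q : ℤ,
    |(p : ℝ)| ≤ A / 40 → |(q : ℝ)| ≤ A / 40 →
    |Gs Φ W (c + (a + p * Real.log 2 + q * Real.log 3)) - Gs Φ W (c + a)| ≤ (|(p : ℝ)| + |(q : ℝ)|) * (C * A ^ (-(1 / 2) : ℝ)) := by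
  obtain ⟨C, hC, H⟩ := shiftI2
  refine ⟨C, hC, ?_⟩
  intro W hW0 hW1
  obtain ⟨A0, hA0, H2⟩ := H W hW0 hW1
  refine ⟨A0, hA0, ?_⟩
  intro A hA c hc Φ hΦ a ha1 ha2 p q hp hq
  have hA5 : (10 ^ 5 : ℝ) ≤ A := by linarith
  have hl2 := Real.log_two_lt_d9
  have hl2' : 0 < Real.log 2 := Real.log_pos (by norm_num)
  have hl3 := log_three_le
  have hl3' : 0 < Real.log 3 := Real.log_pos (by norm_num)
  have h3 := fun a h1 h2 => (H2 A hA c hc Φ hΦ a h1 h2).1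
  have h2 := fun a h1 h2 => (H2 A hA c hc Φ hΦ a h1 h2).2
  have hpb : |(p : ℝ) * Real.log 2| ≤ A / 40 := by
    rw [abs_mul, abs_of_pos hl2']
    calc |(p : ℝ)| * Real.log 2 ≤ |(p : ℝ)| * 1 := by gcongr; linarith
      _ ≤ _ := by linarith
  have hqb : |(q : ℝ) * Real.log 3| ≤ A / 20 := by
    rw [abs_mul, abs_of_pos hl3']
    calc |(q : ℝ)| * Real.log 3 ≤ |(q : ℝ)| * 2 := by gcongr; linarith
      _ ≤ _ := by linarith
  rw [abs_le] at hpb hqb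
  have k1 := steps_int (G := fun a => Gs Φ W (c + a)) hl2'.le h2 p (a := a) (by linarith) (by linarith) (by linarith) (by linarith)
  beta_reduce at k1
  have k2 := steps_int (G := fun a => Gs Φ W (c + a)) hl3'.le h3 q (a := a + p * Real.log 2) (by linarith) (by linarith) (by linarith) (by linarith)
  beta_reduce at k2
  have h5 := abs_sub_le (Gs Φ W (c + (a + p * Real.log 2 + q * Real.log 3))) (Gs Φ W (c + (a + p * Real.log 2))) (Gs Φ W (c + a))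
  linarith


theorem shiftI_mu : ∃ C : ℝ, 0 < C ∧ ∀ W : ℝ, 0 < W → W ≤ 1 → ∃ A0 : ℝ, 10 ^ 5 ≤ A0 ∧
    ∀ A : ℝ, A0 ≤ A → ∀ c : ℝ, 0 ≤ c → ∀ Φ : ℤ → ℝ, Inv Φ (Real.exp c) → ∀ a : ℝ, 7 / 10 * A ≤ a → a ≤ 16 / 10 * A → ∀ n : ℕ, (n : ℝ) ≤ A / 200 →
    |Gs Φ W (c + (a + n * (2 * TD.mu))) - Gs Φ W (c + a)| ≤ C * (Real.sqrt (n / A) + A ^ (-(19 / 20) : ℝ)) := by
  obtain ⟨C, hC, H⟩ := avgI
  obtain ⟨C', hC', H'⟩ := shiftI2
  refine ⟨C + C', by positivity, ?_⟩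
  intro W hW0 hW1
  obtain ⟨A0, hA0, H2⟩ := H W hW0 hW1
  obtain ⟨A0', hA0', H2'⟩ := H' W hW0 hW1
  refine ⟨max A0 A0', le_trans hA0 (le_max_left _ _), ?_⟩
  intro A hA c hc Φ hΦ a ha1 ha2 n hn
  have hA1 := le_trans (le_max_left _ _) hA
  have hA2 := le_trans (le_max_right _ _) hA
  have hA5 : (10 ^ 5 : ℝ) ≤ A := by linarith
  have hApos : 0 < A := by linarith
  have hl3 := log_three_le
  have hl3' : 0 < Real.log 3 := Real.log_pos (by norm_num)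
  have hmu := TD.mu_pos
  have hmu1 := TD.mu_le
  have hn0 : (0 : ℝ) ≤ n := by positivity
  have h3 := fun a h1 h2 => (H2' A hA2 c hc Φ hΦ a h1 h2).1
  have hnm : n * (2 * TD.mu) ≤ A / 100 := by nlinarith
  have hnm0 : 0 ≤ n * (2 * TD.mu) := by positivity
  have h1 := H2 A hA1 c hc Φ hΦ (2 * n) (by push_cast; linarith) (a + n * (2 * TD.mu)) (by linarith) (by linarith)
  have e : (fun i => Gs Φ W (c + (bk (a + n * (2 * TD.mu)) (2 * n) i))) = fun i : ℕ => Gs Φ W (c + (a + (((i : ℤ) - n : ℤ) : ℝ) * Real.log 3)) := by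
    funext i
    congr 1
    unfold bk TD.mu
    push_cast
    ring
  rw [e] at h1
  obtain ⟨ε, hε⟩ : ∃ ε, ε = C' * A ^ (-(1 / 2) : ℝ) := ⟨_, rfl⟩
  have hε0 : 0 ≤ ε := by rw [hε]; positivity
  have h4 : |Eo (2 * n) (fun i : ℕ => Gs Φ W (c + (a + (((i : ℤ) - n : ℤ) : ℝ) * Real.log 3))) - Gs Φ W (c + a)| ≤ ε * Real.sqrt n := by
    have e2 : Eo (2 * n) (fun i : ℕ => Gs Φ W (c + (a + (((i : ℤ) - n : ℤ) : ℝ) * Real.log 3))) - Gs Φ W (c + a) =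
        Eo (2 * n) (fun i : ℕ => Gs Φ W (c + (a + (((i : ℤ) - n : ℤ) : ℝ) * Real.log 3)) - Gs Φ W (c + a)) := by
      rw [Eo_sub_fun, Eo_const]
    rw [e2]
    refine le_trans (Eo_abs _ _) ?_
    have h5 : Eo (2 * n) (fun i : ℕ => |Gs Φ W (c + (a + (((i : ℤ) - n : ℤ) : ℝ) * Real.log 3)) - Gs Φ W (c + a)|) ≤
        Eo (2 * n) (fun i : ℕ => (ε / 2) * |2 * (i : ℝ) - ((2 * n : ℕ) : ℝ)|) := by
      apply Eo_mono'
      intro i hi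
      have hin : |(((i : ℤ) - n : ℤ) : ℝ)| ≤ n := by
        push_cast
        have : (i : ℝ) ≤ 2 * n := by exact_mod_cast hi
        have h0 : (0 : ℝ) ≤ i := by positivity
        rw [abs_le]
        constructor <;> linarith
      have hin2 : |(((i : ℤ) - n : ℤ) : ℝ) * Real.log 3| ≤ A / 100 := by
        rw [abs_mul, abs_of_pos hl3']
        calc |(((i : ℤ) - n : ℤ) : ℝ)| * Real.log 3 ≤ n * 2 := by gcongr; linarith
          _ ≤ _ := by linarith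
      rw [abs_le] at hin2
      have k1 := steps_int (G := fun a => Gs Φ W (c + a)) hl3'.le h3 ((i : ℤ) - n) (a := a) (by linarith) (by linarith) (by linarith) (by linarith)
      beta_reduce at k1
      rw [← hε] at k1
      refine le_trans k1 (le_of_eq ?_)
      have e3 : |2 * (i : ℝ) - ((2 * n : ℕ) : ℝ)| = 2 * |(((i : ℤ) - n : ℤ) : ℝ)| := by
        rw [← abs_two (α := ℝ), ← abs_mul, abs_two]
        congr 1
        push_cast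
        ring
      rw [e3]
      ring
    refine le_trans h5 ?_
    rw [Eo_mul]
    have h6 := first_moment (2 * n)
    have h7 : Real.sqrt ((2 * n : ℕ) : ℝ) ≤ 2 * Real.sqrt n := by
      push_cast
      rw [Real.sqrt_mul (by norm_num)]
      have h8 : Real.sqrt 2 ≤ 2 := by
        rw [Real.sqrt_le_left (by norm_num)]; norm_num
      gcongr
    calc ε / 2 * Eo (2 * n) (fun i : ℕ => |2 * (i : ℝ) - ((2 * n : ℕ) : ℝ)|) ≤ ε / 2 * (2 * Real.sqrt n) :=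
          mul_le_mul_of_nonneg_left (le_trans h6 h7) (by positivity)
      _ = _ := by ring
  have h5 : ε * Real.sqrt n = C' * Real.sqrt (n / A) := by
    rw [hε, Real.sqrt_div hn0, Real.rpow_neg hApos.le, ← Real.sqrt_eq_rpow]
    ring
  rw [h5] at h4
  have h6 := abs_sub_le (Gs Φ W (c + (a + n * (2 * TD.mu)))) (Eo (2 * n) (fun i : ℕ => Gs Φ W (c + (a + (((i : ℤ) - n : ℤ) : ℝ) * Real.log 3)))) (Gs Φ W (c + a))
  have h7 : 0 ≤ C * Real.sqrt (n / A) := by positivity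
  have h8 : 0 ≤ C' * A ^ (-(19 / 20) : ℝ) := by positivity
  calc |Gs Φ W (c + (a + n * (2 * TD.mu))) - Gs Φ W (c + a)| ≤ C * A ^ (-(19 / 20) : ℝ) + C' * Real.sqrt (n / A) := by linarith
    _ ≤ (C + C') * (Real.sqrt (n / A) + A ^ (-(19 / 20) : ℝ)) := by
        have : (C + C') * (Real.sqrt (n / A) + A ^ (-(19 / 20) : ℝ)) = C * Real.sqrt (n / A) + C' * Real.sqrt (n / A) +
          (C * A ^ (-(19 / 20) : ℝ) + C' * A ^ (-(19 / 20) : ℝ)) := by ring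
        linarith


theorem shift_smallI {W : ℝ} (hW0 : 0 < W) (hW1 : W ≤ 1) {ε : ℝ} (hε : 0 < ε) : ∃ A0 : ℝ, 10 ^ 5 ≤ A0 ∧
    ∀ A : ℝ, A0 ≤ A → ∀ c : ℝ, 0 ≤ c → ∀ Φ : ℤ → ℝ, Inv Φ (Real.exp c) → ∀ a : ℝ, 7 / 10 * A ≤ a → a ≤ 16 / 10 * A → ∀ r : ℝ, 0 ≤ r → r ≤ 1 →
    |Gs Φ W (c + (a + r)) - Gs Φ W (c + a)| ≤ ε := by
  obtain ⟨C, hC, H⟩ := shiftI_int
  obtain ⟨A0, hA0, H2⟩ := H W hW0 hW1
  obtain ⟨η, hη, hη1, hηε⟩ : ∃ η : ℝ, 0 < η ∧ η ≤ 1 ∧ 10 / W * η ≤ ε / 2 := by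
    refine ⟨min 1 (ε * W / 20), by positivity, min_le_left _ _, ?_⟩
    calc 10 / W * min 1 (ε * W / 20) ≤ 10 / W * (ε * W / 20) := mul_le_mul_of_nonneg_left (min_le_right _ _) (by positivity)
      _ = ε / 2 := by field_simp; ring
  obtain ⟨P, hP, HP⟩ := dens_unif hη
  obtain ⟨A1, hA1⟩ := small_rpow ((P + P) * C) (show (0 : ℝ) < 1 / 2 by norm_num) (show 0 < ε / 2 by positivity)
  refine ⟨max A0 (max A1 (40 * P)), le_trans hA0 (le_max_left _ _), ?_⟩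
  intro A hA c hc Φ hΦ a ha1 ha2 r hr0 hr1
  have hA1' : A0 ≤ A := le_trans (le_max_left _ _) hA
  have hA2 : A1 ≤ A := le_trans (le_trans (le_max_left _ _) (le_max_right _ _)) hA
  have hA3 : 40 * P ≤ A := le_trans (le_trans (le_max_right _ _) (le_max_right _ _)) hA
  have hA5 : (10 ^ 5 : ℝ) ≤ A := by linarith
  obtain ⟨p, q, hp, hq, hpq⟩ := HP r hr0 hr1
  have h1 := H2 A hA1' c hc Φ hΦ a ha1 ha2 p q (by linarith) (by linarith)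
  have hRp : 0 ≤ C * A ^ (-(1 / 2) : ℝ) := mul_nonneg hC.le (Real.rpow_nonneg (by linarith) _)
  have h2 : (|(p : ℝ)| + |(q : ℝ)|) * (C * A ^ (-(1 / 2) : ℝ)) ≤ ε / 2 := by
    calc (|(p : ℝ)| + |(q : ℝ)|) * (C * A ^ (-(1 / 2) : ℝ)) ≤ (P + P) * (C * A ^ (-(1 / 2) : ℝ)) :=
          mul_le_mul_of_nonneg_right (by linarith) hRp
      _ = (P + P) * C * A ^ (-(1 / 2) : ℝ) := by ring
      _ ≤ _ := hA1 A hA2
  have h3 : |(a + r) - (a + p * Real.log 2 + q * Real.log 3)| ≤ η := by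
    have e : (a + r) - (a + p * Real.log 2 + q * Real.log 3) = r - (p * Real.log 2 + q * Real.log 3) := by ring
    rw [e]; exact hpq
  have h3c : |(c + (a + r)) - (c + (a + p * Real.log 2 + q * Real.log 3))| ≤ η := by
    rw [add_sub_add_left_eq_sub]; exact h3
  have h4 := Gs_lip hΦ.nonneg hΦ.le_one hW0 hW1 (a := c + (a + r)) (b := c + (a + p * Real.log 2 + q * Real.log 3)) (by linarith) (by linarith)
  rw [add_sub_add_left_eq_sub] at h4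
  have h5 : 10 / W * |(a + r) - (a + p * Real.log 2 + q * Real.log 3)| ≤ 10 / W * η := mul_le_mul_of_nonneg_left h3 (by positivity)
  have h6 := abs_sub_le (Gs Φ W (c + (a + r))) (Gs Φ W (c + (a + p * Real.log 2 + q * Real.log 3))) (Gs Φ W (c + a))
  linarith


theorem near_constI {W : ℝ} (hW0 : 0 < W) (hW1 : W ≤ 1) {ε : ℝ} (hε : 0 < ε) : ∃ w : ℝ, 0 < w ∧ ∃ A0 : ℝ, 10 ^ 5 ≤ A0 ∧
    ∀ A : ℝ, A0 ≤ A → ∀ c : ℝ, 0 ≤ c → ∀ Φ : ℤ → ℝ, Inv Φ (Real.exp c) → ∀ a b : ℝ, 8 / 10 * A ≤ a → a ≤ 15 / 10 * A → a ≤ b → b ≤ a + w * A →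
    |Gs Φ W (c + b) - Gs Φ W (c + a)| ≤ ε := by
  obtain ⟨A0, hA0, H⟩ := shift_smallI hW0 hW1 (show 0 < ε / 2 by positivity)
  obtain ⟨C, hC, H'⟩ := shiftI_mu
  obtain ⟨A0', hA0', H2⟩ := H' W hW0 hW1
  obtain ⟨A1, hA1⟩ := small_rpow C (show (0 : ℝ) < 19 / 20 by norm_num) (show 0 < ε / 4 by positivity)
  obtain ⟨w, hw, hw1, hw2⟩ : ∃ w : ℝ, 0 < w ∧ w ≤ 1 / 1000 ∧ C * Real.sqrt (4 * w) ≤ ε / 4 := by
    obtain ⟨z, hz, hz1, hz2⟩ : ∃ z : ℝ, 0 < z ∧ z ≤ 1 / 1000 ∧ C * z ≤ ε / 4 := by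
      refine ⟨min (1 / 1000) (ε / (4 * C)), by positivity, min_le_left _ _, ?_⟩
      calc C * min (1 / 1000) (ε / (4 * C)) ≤ C * (ε / (4 * C)) := mul_le_mul_of_nonneg_left (min_le_right _ _) hC.le
        _ = ε / 4 := by field_simp
    refine ⟨(z / 2) ^ 2, by positivity, by nlinarith, ?_⟩
    rw [show 4 * (z / 2) ^ 2 = z ^ 2 by ring, Real.sqrt_sq hz.le]
    exact hz2
  refine ⟨w, hw, max A0 (max A0' A1), le_trans hA0 (le_max_left _ _), ?_⟩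
  intro A hA c hc Φ hΦ a b ha1 ha2 hab hb
  have hA1' : A0 ≤ A := le_trans (le_max_left _ _) hA
  have hA2 : A0' ≤ A := le_trans (le_trans (le_max_left _ _) (le_max_right _ _)) hA
  have hA3 : A1 ≤ A := le_trans (le_trans (le_max_right _ _) (le_max_right _ _)) hA
  have hA5 : (10 ^ 5 : ℝ) ≤ A := by linarith
  have hApos : 0 < A := by linarith
  have hmu := TD.mu_ge
  have hmu' : 2 * TD.mu ≤ 1 := by
    unfold TD.mu
    have h1 := Real.log_two_lt_d9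
    have h2 : Real.log 2 ≤ Real.log 3 := Real.log_le_log (by norm_num) (by norm_num)
    have h3 := Real.log_two_gt_d9
    linarith
  have hmu0 : 0 < 2 * TD.mu := by linarith
  obtain ⟨n, hn⟩ : ∃ n, n = ⌊(b - a) / (2 * TD.mu)⌋₊ := ⟨_, rfl⟩
  have hn1 : (n : ℝ) ≤ (b - a) / (2 * TD.mu) := by
    rw [hn]; exact Nat.floor_le (div_nonneg (by linarith) hmu0.le)
  have hn2 : (b - a) / (2 * TD.mu) < n + 1 := by rw [hn]; exact Nat.lt_floor_add_one _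
  have hn3 : (n : ℝ) * (2 * TD.mu) ≤ b - a := by rwa [le_div_iff₀ hmu0] at hn1
  have hn4 : b - a < (n + 1) * (2 * TD.mu) := by rwa [div_lt_iff₀ hmu0] at hn2
  have hn0 : (0 : ℝ) ≤ n := by positivity
  have hn5 : (n : ℝ) ≤ 4 * w * A := by
    have : (n : ℝ) * 0.28 ≤ n * (2 * TD.mu) := mul_le_mul_of_nonneg_left (by linarith) hn0
    have hwA : 0 < w * A := by positivity
    linarith
  have hwA1 : w * A ≤ A / 1000 := by nlinarith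
  have h1 := H2 A hA2 c hc Φ hΦ a (by linarith) (by linarith) n (by linarith)
  have h2 := H A hA1' c hc Φ hΦ (a + n * (2 * TD.mu)) (by
    have : 0 ≤ n * (2 * TD.mu) := by positivity
    linarith) (by linarith) (b - (a + n * (2 * TD.mu))) (by linarith) (by linarith)
  rw [show a + n * (2 * TD.mu) + (b - (a + n * (2 * TD.mu))) = b by ring] at h2
  have h3 : C * (Real.sqrt (n / A) + A ^ (-(19 / 20) : ℝ)) ≤ ε / 2 := by
    have h4 : Real.sqrt (n / A) ≤ Real.sqrt (4 * w) := by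
      apply Real.sqrt_le_sqrt
      rw [div_le_iff₀ hApos]
      exact hn5
    have h5 := hA1 A hA3
    have h6 : C * Real.sqrt (n / A) ≤ C * Real.sqrt (4 * w) := mul_le_mul_of_nonneg_left h4 hC.le
    linarith
  have h4 := abs_sub_le (Gs Φ W (c + b)) (Gs Φ W (c + (a + n * (2 * TD.mu)))) (Gs Φ W (c + a))
  linarith


theorem near_constI' {W : ℝ} (hW0 : 0 < W) (hW1 : W ≤ 1) {ε : ℝ} (hε : 0 < ε) : ∃ w : ℝ, 0 < w ∧ ∃ A0 : ℝ,
    ∀ A : ℝ, A0 ≤ A → ∀ c : ℝ, 0 ≤ c → ∀ Φ : ℤ → ℝ, Inv Φ (Real.exp c) → ∀ b : ℝ, |b - A| ≤ w * A → |Gs Φ W (c + b) - Gs Φ W (c + A)| ≤ ε := by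
  obtain ⟨w, hw, A0, hA0, H⟩ := near_constI hW0 hW1 hε
  refine ⟨min w (1 / 10), by positivity, A0, ?_⟩
  intro A hA c hc Φ hΦ b hb
  have hA5 : (10 ^ 5 : ℝ) ≤ A := by linarith
  have h1 : |b - A| ≤ w * A := by
    refine le_trans hb ?_
    apply mul_le_mul_of_nonneg_right (min_le_left _ _) (by linarith)
  have h2 : |b - A| ≤ 1 / 10 * A := by
    refine le_trans hb ?_
    apply mul_le_mul_of_nonneg_right (min_le_right _ _) (by linarith)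
  rw [abs_le] at h1 h2
  rcases le_total A b with h | h
  · exact H A hA c hc Φ hΦ A b (by linarith) (by linarith) h (by linarith)
  · rw [abs_sub_comm]
    exact H A hA c hc Φ hΦ b A (by linarith) (by linarith) h (by linarith)


end Pool.Agent.Helper3.HT
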