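import Pool.Agent.Helper3.HT.UniA

/-! Near constancy of the window averages above a level `c`, uniformly in `c`: wide windows and the limit. -/

namespace Pool.Agent.Helper3.HT

open Pool.Agent.Helper3.ND Pool.Agent.Helper3.TD Filter Topology

theorem wide_shiftI : ∃ C : ℝ, 0 < C ∧ ∀ w : ℝ, 0 < w → w ≤ 1 / 32 → ∃ A0 : ℝ, 2 ^ 16 ≤ A0 ∧ ∀ A : ℝ, A0 ≤ A →
    ∀ c : ℝ, 0 ≤ c → ∀ Φ : ℤ → ℝ, Inv Φ (Real.exp c) → ∀ a b : ℝ, A ≤ a → a ≤ b → b ≤ 4 * A →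
    |Gs Φ (w * A) (c + b) - Gs Φ (w * A) (c + a)| ≤ C * A ^ (11 / 20 : ℝ) := by
  obtain ⟨C1, hC1, t1, ht1, H1⟩ := shift_win
  obtain ⟨C2, hC2, t2, ht2, H2⟩ := shift_wins
  refine ⟨1000 * C2 + 3 * C1 + 10, by positivity, ?_⟩
  intro w hw0 hw1
  obtain ⟨A2, hA2⟩ := small_rpow 1 (show (0 : ℝ) < 9 / 20 by norm_num) (show 0 < w / 8 by positivity)
  refine ⟨2 ^ 16 + 16 * (t1 + 1) + 16 * (t2 + 1) + 1 / w + |A2|, by
    have : (0 : ℝ) ≤ 16 * ((t1 : ℝ) + 1) + 16 * ((t2 : ℝ) + 1) + 1 / w + |A2| := by positivity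
    linarith, ?_⟩
  intro A hA c hc Φ hΦ a b ha hab hb
  have hp1 : (0 : ℝ) ≤ t1 := by positivity
  have hp2 : (0 : ℝ) ≤ t2 := by positivity
  have hp3 : (0 : ℝ) ≤ |A2| := abs_nonneg _
  have hp4 : (0 : ℝ) < 1 / w := by positivity
  have hAbig : 2 ^ 16 ≤ A := by linarith
  have hA' : (65536 : ℝ) ≤ A := by linarith [show (65536 : ℝ) = 2 ^ 16 by norm_num]
  have hA0 : 0 < A := by linarith
  have hAA2 : A2 ≤ A := by linarith [le_abs_self A2]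
  have hW1 : 1 ≤ w * A := by
    have : 1 / w ≤ A := by linarith
    rwa [div_le_iff₀ hw0, mul_comm] at this
  have hW32 : w * A ≤ A / 32 := by nlinarith
  obtain ⟨W, hWdef⟩ : ∃ W, W = w * A := ⟨_, rfl⟩
  rw [← hWdef] at hW1 hW32 ⊢
  have hW0 : 0 < W := by linarith
  obtain ⟨P, hP⟩ : ∃ P : ℝ, P = A ^ (11 / 20 : ℝ) := ⟨_, rfl⟩
  have hP1 : 1 ≤ P := by rw [hP]; exact Real.one_le_rpow (by linarith) (by norm_num)
  have hPW : 8 * P ≤ W := by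
    have h1 := hA2 A hAA2
    rw [one_mul] at h1
    have h2 : A * A ^ (-(9 / 20) : ℝ) = P := by
      rw [hP]
      nth_rewrite 1 [← Real.rpow_one A]
      rw [← Real.rpow_add hA0]; norm_num
    rw [← h2, hWdef]
    nlinarith
  have hYA : (1 : ℝ) ≤ Real.exp (A / 2) := Real.one_le_exp (by linarith)
  have hY : 0 ≤ Real.exp c := (Real.exp_pos c).le
  have hlev : ∀ (t' : ℕ) (x : ℝ), (1 : ℝ) * 4 ^ t' < Real.exp (x - W) → Real.exp c * 4 ^ t' < Real.exp (c + x - W) := by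
    intro t' x h
    rw [show c + x - W = c + (x - W) by ring, Real.exp_add]
    rw [one_mul] at h
    exact mul_lt_mul_of_pos_left h (Real.exp_pos c)
  obtain ⟨t, ht⟩ : ∃ t, t = ⌊A / 16⌋₊ := ⟨_, rfl⟩
  have ht_1 : (t : ℝ) ≤ A / 16 := by rw [ht]; exact Nat.floor_le (by positivity)
  have ht_2 : A / 16 - 1 < t := by rw [ht]; exact Nat.sub_one_lt_floor _
  have ht_3 : A / 32 ≤ t := by linarith
  have htt1 : t1 ≤ t := by
    rw [ht]; apply Nat.le_floor; linarith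
  have htt2 : t2 ≤ t := by
    rw [ht]; apply Nat.le_floor; linarith
  have hmu := TD.mu_ge
  have hmu1 := TD.mu_le
  have hmu0 := TD.mu_pos
  obtain ⟨δ, hδ⟩ : ∃ δ : ℝ, δ = TD.mu * t := ⟨_, rfl⟩
  have htpos : (0 : ℝ) < t := by linarith
  have hδ1 : 0.14 * (A / 32) ≤ δ := by
    rw [hδ]
    exact mul_le_mul hmu ht_3 (by positivity) TD.mu_pos.le
  have hδ2 : δ ≤ A / 16 := by
    rw [hδ]
    calc TD.mu * t ≤ 1 * t := by gcongr
      _ ≤ _ := by linarith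
  have hδ0 : 0 < δ := by linarith [show 0 < 0.14 * (A / 32) by positivity]
  obtain ⟨n, hn⟩ : ∃ n, n = ⌊(b - a) / δ⌋₊ := ⟨_, rfl⟩
  have hn1 : (n : ℝ) ≤ (b - a) / δ := by rw [hn]; exact Nat.floor_le (div_nonneg (by linarith) hδ0.le)
  have hn2 : (b - a) / δ < n + 1 := by rw [hn]; exact Nat.lt_floor_add_one _
  have hn3 : (n : ℝ) * δ ≤ b - a := by rwa [le_div_iff₀ hδ0] at hn1
  have hn4 : b - a < (n + 1) * δ := by rwa [div_lt_iff₀ hδ0] at hn2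
  have hn5 : (n : ℝ) ≤ 1000 := by
    refine le_trans hn1 ?_
    rw [div_le_iff₀ hδ0]
    linarith
  have hn0 : (0 : ℝ) ≤ n * δ := by positivity
  obtain ⟨q, hq⟩ : ∃ q, q = ⌊(b - a - n * δ) / TD.mu⌋₊ := ⟨_, rfl⟩
  have hq1 : (q : ℝ) ≤ (b - a - n * δ) / TD.mu := by rw [hq]; exact Nat.floor_le (div_nonneg (by linarith) hmu0.le)
  have hq2 : (b - a - n * δ) / TD.mu < q + 1 := by rw [hq]; exact Nat.lt_floor_add_one _
  have hq3 : (q : ℝ) * TD.mu ≤ b - a - n * δ := by rwa [le_div_iff₀ hmu0] at hq1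
  have hq4 : b - a - n * δ < (q + 1) * TD.mu := by rwa [div_lt_iff₀ hmu0] at hq2
  have hqt : (q : ℝ) ≤ t := by
    have h1 : (q : ℝ) * TD.mu ≤ t * TD.mu := by
      have : b - a - n * δ ≤ δ := by linarith
      rw [hδ] at this
      linarith [mul_comm TD.mu (t : ℝ)]
    exact le_of_mul_le_mul_right h1 hmu0
  have hq0 : (0 : ℝ) ≤ q * TD.mu := by positivity
  -- powers
  have hpow : ∀ t' : ℕ, (t' : ℝ) ≤ A → (t' : ℝ) ^ (11 / 20 : ℝ) ≤ P := by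
    intro t' h
    rw [hP]
    exact Real.rpow_le_rpow (by positivity) h (by norm_num)
  have hXex : ∃ X : ℤ, Real.exp (c + 9 * A) ≤ X := ⟨⌈Real.exp (c + 9 * A)⌉, Int.le_ceil _⟩
  obtain ⟨X, hX⟩ := hXex
  have hX4 : ∀ t' : ℕ, (t' : ℝ) ≤ A / 8 → ∀ x : ℝ, x ≤ 5 * A → 4 ^ t' * Real.exp (c + x + W) ≤ X := by
    intro t' h x hx
    refine le_trans ?_ hX
    calc 4 ^ t' * Real.exp (c + x + W) ≤ Real.exp (2 * t') * Real.exp (c + x + W) := by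
          gcongr; exact four_pow t'
      _ = Real.exp (2 * t' + (c + x + W)) := (Real.exp_add _ _).symm
      _ ≤ _ := by apply Real.exp_le_exp.mpr; linarith
  have hGs : ∀ x : ℝ, x ≤ 5 * A → SS Φ X (c + x) W = Gs Φ W (c + x) := by
    intro x hx
    apply Gs_eq Φ hW0
    refine le_trans ?_ hX
    exact Real.exp_le_exp.mpr (by linarith)
  -- step 1
  obtain ⟨x1, hx1⟩ : ∃ x1, x1 = a + n * δ := ⟨_, rfl⟩
  obtain ⟨c1, -⟩ := wide_cond hAbig (show (t : ℝ) ≤ A / 8 by linarith) hW0 hW32 (show A ≤ c + a by linarith)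
  obtain ⟨-, c2⟩ := wide_cond hAbig (show (t : ℝ) ≤ A / 8 by linarith) hW0 hW32 ha
  have hx1c : c + a + n * δ = c + x1 := by rw [hx1]; ring
  have s1 := H2 t htt2 (c + a) W (by linarith [hpow t (by linarith)]) (by linarith) c1 (Real.exp c) Φ hΦ hY (hlev t a (c2 1 hYA)) n X (by
    rw [← hδ, hx1c]
    exact hX4 t (by linarith) x1 (by linarith))
  rw [← hδ, hx1c, hGs x1 (by linarith), hGs a (by linarith)] at s1
  -- step 2
  have htq : ((t + q : ℕ) : ℝ) ≤ A / 8 := by push_cast; linarith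
  have htq2 : (t : ℝ) ≤ ((t + q : ℕ) : ℝ) := by push_cast; linarith [show (0 : ℝ) ≤ q by positivity]
  have hx1A : A ≤ x1 := by linarith
  obtain ⟨c3, -⟩ := wide_cond hAbig htq hW0 hW32 (show A ≤ c + x1 by linarith)
  obtain ⟨-, c4⟩ := wide_cond hAbig htq hW0 hW32 hx1A
  obtain ⟨x2, hx2⟩ : ∃ x2, x2 = x1 + TD.mu * ((t + q : ℕ) : ℝ) := ⟨_, rfl⟩
  have hmt2 : TD.mu * ((t + q : ℕ) : ℝ) ≤ A / 8 := by
    calc TD.mu * ((t + q : ℕ) : ℝ) ≤ 1 * ((t + q : ℕ) : ℝ) := by gcongr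
      _ ≤ _ := by linarith
  have hx2c : c + x1 + TD.mu * ((t + q : ℕ) : ℝ) = c + x2 := by rw [hx2]; ring
  have s2 := H1 (t + q) (by omega) (c + x1) W (by linarith [hpow (t + q) (by linarith)]) (by linarith) c3 (Real.exp c) Φ hΦ hY (hlev (t + q) x1 (c4 1 hYA)) X (by
    rw [hx2c]
    exact hX4 (t + q) htq x2 (by linarith))
  rw [hx2c, hGs x2 (by linarith), hGs x1 (by linarith)] at s2
  -- step 3
  obtain ⟨x3, hx3⟩ : ∃ x3, x3 = x1 + q * TD.mu := ⟨_, rfl⟩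
  have hx32 : c + x3 + TD.mu * t = c + x2 := by rw [hx2, hx3]; push_cast; ring
  obtain ⟨c5, -⟩ := wide_cond hAbig (show (t : ℝ) ≤ A / 8 by linarith) hW0 hW32 (show A ≤ c + x3 by linarith)
  obtain ⟨-, c6⟩ := wide_cond hAbig (show (t : ℝ) ≤ A / 8 by linarith) hW0 hW32 (show A ≤ x3 by linarith)
  have s3 := H1 t htt1 (c + x3) W (by linarith [hpow t (by linarith)]) (by linarith) c5 (Real.exp c) Φ hΦ hY (hlev t x3 (c6 1 hYA)) X (by
    rw [hx32]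
    exact hX4 t (by linarith) x2 (by linarith))
  rw [hx32, hGs x2 (by linarith), hGs x3 (by linarith)] at s3
  -- step 4
  have s4 := Gs_lip_wide hΦ.nonneg hΦ.le_one hW1 (a := c + b) (b := c + x3) (by rw [abs_le]; constructor <;> linarith) (by linarith)
  have p1 : (n : ℝ) * (C2 * (t : ℝ) ^ (11 / 20 : ℝ)) ≤ 1000 * (C2 * P) := by
    have := hpow t (by linarith)
    gcongr
  have p2 : C1 * ((t + q : ℕ) : ℝ) ^ (11 / 20 : ℝ) ≤ C1 * P := mul_le_mul_of_nonneg_left (hpow (t + q) (by linarith)) hC1.le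
  have p3 : C1 * (t : ℝ) ^ (11 / 20 : ℝ) ≤ C1 * P := mul_le_mul_of_nonneg_left (hpow t (by linarith)) hC1.le
  have u1 := abs_sub_le (Gs Φ W (c + b)) (Gs Φ W (c + x3)) (Gs Φ W (c + a))
  have u2 := abs_sub_le (Gs Φ W (c + x3)) (Gs Φ W (c + x2)) (Gs Φ W (c + a))
  have u3 := abs_sub_le (Gs Φ W (c + x2)) (Gs Φ W (c + x1)) (Gs Φ W (c + a))
  rw [abs_sub_comm (Gs Φ W (c + x3)) (Gs Φ W (c + x2))] at u2
  have hC1P : 0 < C1 * P := by positivity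
  calc |Gs Φ W (c + b) - Gs Φ W (c + a)| ≤ 10 + (C1 * P + (C1 * P + 1000 * (C2 * P))) := by linarith
    _ ≤ 10 * P + (C1 * P + (2 * (C1 * P) + 1000 * (C2 * P))) := by linarith
    _ = _ := by rw [← hP]; ring


theorem wide_doubleI : ∃ C : ℝ, 0 < C ∧ ∀ w : ℝ, 0 < w → w ≤ 1 / 32 → ∃ A0 : ℝ, 2 ^ 16 ≤ A0 ∧ ∀ A : ℝ, A0 ≤ A →
    ∀ c : ℝ, 0 ≤ c → ∀ Φ : ℤ → ℝ, Inv Φ (Real.exp c) → |Gs Φ (w * (2 * A)) (c + 2 * A) - 2 * Gs Φ (w * A) (c + A)| ≤ C * A ^ (11 / 20 : ℝ) := by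
  obtain ⟨C, hC, H⟩ := wide_shiftI
  refine ⟨2 * C, by positivity, ?_⟩
  intro w hw0 hw1
  obtain ⟨A0, hA0, H2⟩ := H w hw0 hw1
  refine ⟨A0, hA0, ?_⟩
  intro A hA c hc Φ hΦ
  have hA' : 2 ^ 16 ≤ A := le_trans hA0 hA
  have hApos : 0 < A := by linarith [show (0 : ℝ) < 2 ^ 16 by norm_num]
  have hwA : 0 < w * A := by positivity
  have hwA2 : w * A ≤ A / 32 := by nlinarith
  rw [show w * (2 * A) = 2 * (w * A) by ring, Gs_double Φ hwA]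
  have h1 := H2 A hA c hc Φ hΦ A (2 * A - w * A) le_rfl (by linarith) (by linarith)
  have h2 := H2 A hA c hc Φ hΦ A (2 * A) le_rfl (by linarith) (by linarith)
  have h3 := H2 A hA c hc Φ hΦ A (2 * A + w * A) le_rfl (by linarith) (by linarith)
  rw [show c + (2 * A - w * A) = c + 2 * A - w * A by ring] at h1
  rw [show c + (2 * A + w * A) = c + 2 * A + w * A by ring] at h3
  rw [abs_le] at h1 h2 h3 ⊢
  constructor <;> linarith


/-- the normalised wide windows converge, uniformly in the level and the function -/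
theorem wide_limitI {w : ℝ} (hw0 : 0 < w) (hw1 : w ≤ 1 / 32) {η : ℝ} (hη : 0 < η) :
    ∃ j1 : ℕ, ∀ c : ℝ, 0 ≤ c → ∀ Φ : ℤ → ℝ, Inv Φ (Real.exp c) → ∃ κ : ℝ, ∀ j : ℕ, j1 ≤ j →
      |Gs Φ (w * 2 ^ j) (c + 2 ^ j) / (w * 2 ^ j) - κ| ≤ η := by
  obtain ⟨C, hC, H⟩ := wide_doubleI
  obtain ⟨A0, hA0, H2⟩ := H w hw0 hw1
  obtain ⟨j0, hj0⟩ := exists_two_pow A0
  obtain ⟨r, hr⟩ : ∃ r : ℝ, r = (2 : ℝ) ^ (-(9 / 20) : ℝ) := ⟨_, rfl⟩
  have hr1 : r < 1 := by rw [hr]; exact Real.rpow_lt_one_of_one_lt_of_neg (by norm_num) (by norm_num)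
  have hr0 : 0 < r := by rw [hr]; exact Real.rpow_pos_of_pos (by norm_num) _
  have hlim : Tendsto (fun n : ℕ => C / (2 * w) * r ^ j0 * r ^ n / (1 - r)) atTop (𝓝 0) := by
    have h1 := (tendsto_pow_atTop_nhds_zero_of_lt_one hr0.le hr1).const_mul (C / (2 * w) * r ^ j0)
    have h2 := h1.div_const (1 - r)
    simpa using h2
  obtain ⟨n1, hn1⟩ := eventually_atTop.1 ((tendsto_order.1 hlim).2 η hη)
  refine ⟨n1 + j0, ?_⟩
  intro c hc Φ hΦ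
  obtain ⟨u, hu⟩ : ∃ u : ℕ → ℝ, u = fun j : ℕ => Gs Φ (w * 2 ^ j) (c + 2 ^ j) / (w * 2 ^ j) := ⟨_, rfl⟩
  have hstep : ∀ j, j0 ≤ j → dist (u j) (u (j + 1)) ≤ C / (2 * w) * r ^ j := by
    intro j hj
    have h1 := H2 (2 ^ j) (hj0 j hj) c hc Φ hΦ
    have hp : (0 : ℝ) < 2 ^ j := by positivity
    rw [rpow_split _ hp, two_pow_rpow, ← hr] at h1
    rw [dist_comm, Real.dist_eq, hu]
    simp only
    have e : (2 : ℝ) ^ (j + 1) = 2 * 2 ^ j := by rw [pow_succ]; ring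
    rw [e]
    have e2 : Gs Φ (w * (2 * 2 ^ j)) (c + 2 * 2 ^ j) / (w * (2 * 2 ^ j)) - Gs Φ (w * 2 ^ j) (c + 2 ^ j) / (w * 2 ^ j) =
        (Gs Φ (w * (2 * 2 ^ j)) (c + 2 * 2 ^ j) - 2 * Gs Φ (w * 2 ^ j) (c + 2 ^ j)) / (2 * w * 2 ^ j) := by
      field_simp
    rw [e2, abs_div, abs_of_pos (show 0 < 2 * w * 2 ^ j by positivity), div_le_iff₀ (by positivity)]
    refine le_trans h1 (le_of_eq ?_)
    field_simp
  have hstep2 : ∀ j : ℕ, dist (u (j + j0)) (u (j + 1 + j0)) ≤ C / (2 * w) * r ^ j0 * r ^ j := by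
    intro j
    have := hstep (j + j0) (by omega)
    rw [show j + 1 + j0 = j + j0 + 1 by ring]
    refine le_trans this (le_of_eq ?_)
    rw [pow_add]; ring
  have hc' : CauchySeq (fun j => u (j + j0)) := cauchySeq_of_le_geometric r (C / (2 * w) * r ^ j0) hr1 hstep2
  obtain ⟨κ, hκ⟩ := cauchySeq_tendsto_of_complete hc'
  refine ⟨κ, ?_⟩
  intro j hj
  obtain ⟨n, rfl⟩ := Nat.exists_eq_add_of_le' (show j0 ≤ j by omega)
  have h1 := dist_le_of_le_geometric_of_tendsto r (C / (2 * w) * r ^ j0) hr1 hstep2 hκ n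
  have h2 := hn1 n (by omega)
  rw [Real.dist_eq, hu] at h1
  exact le_trans h1 h2.le

/-- **the window averages above the level `c` are nearly constant, uniformly in the level and in the function** -/
theorem unif (l : ℕ) {ε : ℝ} (hε : 0 < ε) : ∃ A0 : ℝ, ∀ c : ℝ, 0 ≤ c → ∀ Φ : ℤ → ℝ, Inv Φ (Real.exp c) → ∃ κ : ℝ,
    ∀ a : ℝ, A0 ≤ a → |Gs Φ ((1 / 2) ^ l) (c + a) - κ| ≤ ε / 3 := by
  obtain ⟨δ, hδ⟩ : ∃ δ : ℝ, δ = (1 / 2) ^ l := ⟨_, rfl⟩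
  have hδ0 : 0 < δ := by rw [hδ]; positivity
  have hδ1 : δ ≤ 1 := by rw [hδ]; exact pow_le_one₀ (by norm_num) (by norm_num)
  rw [← hδ]
  obtain ⟨w0, hw0, A1, H1⟩ := near_constI' hδ0 hδ1 (show 0 < ε / 9 by positivity)
  obtain ⟨k, hk⟩ := exists_pow_lt_of_lt_one (show 0 < min w0 (1 / 32) by positivity) (show (1 / 2 : ℝ) < 1 by norm_num)
  obtain ⟨w, hw⟩ : ∃ w : ℝ, w = (1 / 2) ^ k := ⟨_, rfl⟩
  rw [← hw] at hk
  have hwpos : 0 < w := by rw [hw]; positivity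
  have hww0 : w ≤ w0 := le_trans hk.le (min_le_left _ _)
  have hw32 : w ≤ 1 / 32 := le_trans hk.le (min_le_right _ _)
  obtain ⟨j1, hj1⟩ := wide_limitI hwpos hw32 (show 0 < ε / 9 by positivity)
  obtain ⟨C, hC, H2⟩ := wide_shiftI
  obtain ⟨A2, hA2, H3⟩ := H2 w hwpos hw32
  obtain ⟨A3, hA3⟩ := small_rpow (C / w * δ) (show (0 : ℝ) < 9 / 20 by norm_num) (show 0 < ε / 9 by positivity)
  obtain ⟨j2, hj2⟩ := exists_two_pow (max A1 (max A2 A3))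
  refine ⟨2 ^ (j1 + j2 + k + 1), ?_⟩
  intro c hc Φ hΦ
  obtain ⟨κ, hκ⟩ := hj1 c hc Φ hΦ
  refine ⟨δ * κ, ?_⟩
  intro a ha
  -- find the dyadic scale
  have ha1 : 1 ≤ a := le_trans (one_le_pow₀ (by norm_num)) ha
  obtain ⟨j, hj⟩ : ∃ j, j = Nat.log 2 ⌊a⌋₊ := ⟨_, rfl⟩
  have hfl : ⌊a⌋₊ ≠ 0 := by
    have := Nat.le_floor (show ((1 : ℕ) : ℝ) ≤ a by exact_mod_cast ha1)
    omega
  have hja : (2 : ℝ) ^ j ≤ a := by
    have h1 : 2 ^ j ≤ ⌊a⌋₊ := by rw [hj]; exact Nat.pow_log_le_self 2 hfl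
    have h2 : ((2 ^ j : ℕ) : ℝ) ≤ a := le_trans (by exact_mod_cast h1) (Nat.floor_le (by linarith))
    exact_mod_cast h2
  have hja2 : a ≤ 2 * 2 ^ j := by
    have h1 : ⌊a⌋₊ < 2 ^ (j + 1) := by rw [hj]; exact Nat.lt_pow_succ_log_self (by norm_num) _
    have h2 : a < ((⌊a⌋₊ + 1 : ℕ) : ℝ) := by push_cast; exact Nat.lt_floor_add_one a
    have h3 : ((⌊a⌋₊ + 1 : ℕ) : ℝ) ≤ ((2 ^ (j + 1) : ℕ) : ℝ) := by exact_mod_cast h1
    have h4 : ((2 ^ (j + 1) : ℕ) : ℝ) = 2 * 2 ^ j := by push_cast; rw [pow_succ]; ring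
    linarith
  have hjbig : j1 + j2 + k ≤ j := by
    by_contra hcon
    have h1 : (2 : ℝ) ^ j < 2 ^ (j1 + j2 + k) := pow_lt_pow_right₀ (by norm_num) (by omega)
    have h2 : (2 : ℝ) ^ (j1 + j2 + k + 1) = 2 * 2 ^ (j1 + j2 + k) := by rw [pow_succ]; ring
    linarith
  have hjA := hj2 j (by omega)
  have hjA1 : A1 ≤ 2 ^ j := le_trans (le_max_left _ _) hjA
  have hjA2 : A2 ≤ 2 ^ j := le_trans (le_trans (le_max_left _ _) (le_max_right _ _)) hjA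
  have hjA3 : A3 ≤ 2 ^ j := le_trans (le_trans (le_max_right _ _) (le_max_right _ _)) hjA
  have hp : (0 : ℝ) < 2 ^ j := by positivity
  -- the wide window in terms of narrow ones
  obtain ⟨p, hpdef⟩ : ∃ p, p = j - k + l := ⟨_, rfl⟩
  have hW : w * 2 ^ j = 2 ^ p * δ := by
    rw [hw, hδ, hpdef]
    have : (2 : ℝ) ^ j = 2 ^ (j - k) * 2 ^ k := by rw [← pow_add]; congr 1; omega
    rw [this, pow_add, one_div_pow, one_div_pow]
    field_simp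
  have hpp : (0 : ℝ) < 2 ^ p := by positivity
  have h1 := tile (Φ := Φ) (g := Gs Φ δ (c + a)) (ε := ε / 9) hδ0 p (c + a) (fun b hb => by
    have h0 := H1 a (by linarith) c hc Φ hΦ (b - c) (by
      rw [← hW] at hb
      rw [show b - c - a = b - (c + a) by ring]
      refine le_trans hb ?_
      calc w * 2 ^ j ≤ w0 * 2 ^ j := by gcongr
        _ ≤ w0 * a := by gcongr)
    rwa [show c + (b - c) = b by ring] at h0)
  rw [← hW] at h1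
  have h2 := H3 (2 ^ j) hjA2 c hc Φ hΦ (2 ^ j) a le_rfl hja (by linarith)
  rw [rpow_split _ hp] at h2
  have h3 := hκ j (by omega)
  have h4 := hA3 (2 ^ j) hjA3
  -- divide by the width
  have hwj : 0 < w * 2 ^ j := by positivity
  have e1 : |Gs Φ (w * 2 ^ j) (c + a) / (2 ^ p) - Gs Φ δ (c + a)| ≤ ε / 9 := by
    have : Gs Φ (w * 2 ^ j) (c + a) / (2 ^ p) - Gs Φ δ (c + a) = (Gs Φ (w * 2 ^ j) (c + a) - 2 ^ p * Gs Φ δ (c + a)) / 2 ^ p := by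
      field_simp
    rw [this, abs_div, abs_of_pos hpp, div_le_iff₀ hpp]
    linarith
  have e2 : |Gs Φ (w * 2 ^ j) (c + a) / (2 ^ p) - Gs Φ (w * 2 ^ j) (c + 2 ^ j) / 2 ^ p| ≤ ε / 9 := by
    rw [← sub_div, abs_div, abs_of_pos hpp, div_le_iff₀ hpp]
    refine le_trans h2 ?_
    have h5 : (2 : ℝ) ^ p = w * 2 ^ j / δ := by rw [hW]; field_simp
    rw [h5]
    calc C * (2 ^ j * (2 ^ j) ^ (-(9 / 20) : ℝ)) = (C / w * δ * (2 ^ j) ^ (-(9 / 20) : ℝ)) * (w * 2 ^ j / δ) := by field_simp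
      _ ≤ ε / 9 * (w * 2 ^ j / δ) := mul_le_mul_of_nonneg_right h4 (by positivity)
  have e3 : |Gs Φ (w * 2 ^ j) (c + 2 ^ j) / 2 ^ p - δ * κ| ≤ ε / 9 := by
    have h5 : Gs Φ (w * 2 ^ j) (c + 2 ^ j) / 2 ^ p - δ * κ = δ * (Gs Φ (w * 2 ^ j) (c + 2 ^ j) / (w * 2 ^ j) - κ) := by
      rw [hW]
      field_simp
    rw [h5, abs_mul, abs_of_pos hδ0]
    calc δ * |Gs Φ (w * 2 ^ j) (c + 2 ^ j) / (w * 2 ^ j) - κ| ≤ 1 * (ε / 9) := mul_le_mul hδ1 h3 (abs_nonneg _) (by norm_num)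
      _ = _ := one_mul _
  rw [abs_le] at e1 e2 e3 ⊢
  constructor <;> linarith

end Pool.Agent.Helper3.HT
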