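import Pool.Agent.Helper3.HT.UniB
import Pool.Agent.Helper3.HT.JntF

/-! Levels, uniformly: functions that are invariant above the lowest level and may change with it. -/

namespace Pool.Agent.Helper3.HT

open Pool.Agent.Helper3.ND Pool.Agent.Helper3.TD Filter Topology

theorem unifG (l : ℕ) {ε : ℝ} (hε : 0 < ε) : ∃ A0 : ℝ, ∀ c : ℝ, 0 ≤ c → ∀ Φ : ℤ → ℝ, Inv Φ (Real.exp c) → ∀ g : ℝ,
    (∀ l : ℕ, Tendsto (fun a : ℝ => Gs Φ ((1 / 2) ^ l) a) atTop (𝓝 (g * (1 / 2) ^ l))) →
    ∀ a : ℝ, A0 ≤ a → |Gs Φ ((1 / 2) ^ l) (c + a) - g * (1 / 2) ^ l| ≤ ε := by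
  obtain ⟨A0, H⟩ := unif l hε
  refine ⟨A0, ?_⟩
  intro c hc Φ hΦ g hg a ha
  obtain ⟨κ, hκ⟩ := H c hc Φ hΦ
  have h1 : |g * (1 / 2) ^ l - κ| ≤ ε / 3 := by
    have h2 : Tendsto (fun a : ℝ => |Gs Φ ((1 / 2) ^ l) (c + a) - κ|) atTop (𝓝 |g * (1 / 2) ^ l - κ|) :=
      (((hg l).comp (tendsto_atTop_add_const_left atTop c tendsto_id)).sub_const κ).abs
    apply le_of_tendsto h2
    filter_upwards [eventually_ge_atTop A0] with a ha
    exact hκ a ha
  have h2 := hκ a ha
  rw [abs_le] at h1 h2 ⊢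
  constructor <;> linarith

/-- **the walk above a level, with a large base scale** -/
theorem walkGN {W g : ℝ} (hW0 : 0 < W) (hW1 : W ≤ 1) (hg0 : 0 ≤ g) {κ : ℝ} (hκ : 0 < κ) (N1 : ℝ) :
    ∃ M N0 : ℕ, N1 ≤ N0 ∧ ∀ c : ℝ, 2 * (M : ℝ) + 1 ≤ c → ∀ (Ψ : ℕ → ℤ → ℝ) (Y0 : ℝ), Fam Ψ Y0 → (∀ j N, Ψ j N ≤ Ψ (j + 1) N) → Y0 ≤ Real.exp c →
      (∀ b : ℝ, (N0 : ℝ) ≤ b → b ≤ 2 * N0 → Gs (Ψ M) W (c + b) ≤ g + κ / 8) →
      (∀ b : ℝ, (N0 : ℝ) ≤ b → b ≤ 2 * N0 → g - κ / 8 ≤ Gs (Ψ 0) W (c + b)) →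
      ∀ b : ℝ, (N0 : ℝ) ≤ b → ∀ j : ℕ,
      Gs (EV (Ψ 0) c j) W (c + b) ≤ g * PW (j + M) b + κ ∧ (M ≤ j → g * PW (j - M) b ≤ Gs (EV (Ψ 0) c j) W (c + b) + κ) := by
  obtain ⟨C, hC, H⟩ := avgL 2
  obtain ⟨A0, hA0, H2⟩ := H W hW0 hW1
  obtain ⟨C', hC', HP⟩ := prop_gen (C := C) (K := 6 + g) hC.le (by linarith)
  have hWp : 0 < 200 / W := by positivity
  have hA15 : (10 ^ 5 : ℝ) ≤ A0 := by linarith
  obtain ⟨N0, hN0'⟩ := exists_nat_ge (max (max A0 (4 * C' / κ)) N1)
  have hN0 : max A0 (4 * C' / κ) ≤ N0 := le_trans (le_max_left _ _) hN0'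
  have hN11 : N1 ≤ N0 := le_trans (le_max_right _ _) hN0'
  have hN1 : A0 ≤ N0 := le_trans (le_max_left _ _) hN0
  have hN2 : 4 * C' / κ ≤ N0 := le_trans (le_max_right _ _) hN0
  have hNpos : (0 : ℝ) < N0 := by linarith
  have hCN : C' / N0 ≤ κ / 4 := by
    rw [div_le_iff₀ hNpos]
    rw [div_le_iff₀ hκ] at hN2
    linarith
  -- the delay
  have hlim : Tendsto (fun M : ℕ => (g + 12) * (2 * Real.exp (-((M : ℝ) / 5000)))) atTop (𝓝 0) := by
    have h1 : Tendsto (fun M : ℕ => (M : ℝ) / 5000) atTop atTop :=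
      Tendsto.atTop_div_const (by norm_num) tendsto_natCast_atTop_atTop
    have h2 := (Real.tendsto_exp_neg_atTop_nhds_zero.comp h1).const_mul 2
    have h3 := h2.const_mul (g + 12)
    simpa using h3
  obtain ⟨M1, hM1⟩ := eventually_atTop.1 ((tendsto_order.1 hlim).2 (κ / 8) (by positivity))
  obtain ⟨M, hM⟩ : ∃ M, M = max M1 (2004 * N0) := ⟨_, rfl⟩
  have hMa : M1 ≤ M := by rw [hM]; exact le_max_left _ _
  have hMb : 2004 * N0 ≤ M := by rw [hM]; exact le_max_right _ _
  have hMc : (2004 : ℝ) * N0 ≤ M := by exact_mod_cast hMb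
  have hM2 := hM1 M hMa
  have hexpM : 0 < Real.exp (-((M : ℝ) / 5000)) := Real.exp_pos _
  have hM3 : g * (2 * Real.exp (-((M : ℝ) / 5000))) ≤ κ / 8 := by nlinarith
  have hM4 : 12 * Real.exp (-((M : ℝ) / 5000)) ≤ κ / 8 := by nlinarith
  have hMpos : 1 ≤ M := by
    have : (1 : ℝ) ≤ M := by linarith
    exact_mod_cast this
  refine ⟨M, N0, hN11, ?_⟩
  intro c hcM Ψ Y0 hΨ hmo hYc hU hL
  have hcp : 0 ≤ c := by
    have : (0 : ℝ) ≤ M := Nat.cast_nonneg M
    linarith
  have hfam := EV_fam (hΨ.nonneg 0) (hΨ.le_one 0) c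
  have hmono : ∀ {j k : ℕ}, j ≤ k → ∀ N, EV (Ψ 0) c j N ≤ EV (Ψ 0) c k N := fun h N => EV_mono (hΨ.nonneg 0) c h N
  -- facts at large scales
  have step0 : ∀ x : ℝ, A0 ≤ x → ∀ j : ℕ, (j : ℝ) ≤ x / 40 → Gs (EV (Ψ 0) c j) W (c + x) = 0 := by
    intro x hx j hj
    apply Gs_EV_zero hW0
    exact le_trans (two_pow j) (Real.exp_le_exp.mpr (by linarith))
  have step1 : ∀ x : ℝ, A0 ≤ x → ∀ n : ℕ, n = ⌊x / 100⌋₊ → ∀ j : ℕ, x / 80 ≤ j →
      |Gs (EV (Ψ 0) c (n + j)) W (c + x) - Eo n (fun i => Gs (EV (Ψ 0) c j) W (c + bk x n i))| ≤ C / x ^ 2 := by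
    intro x hx n hn j hj
    have h1 : (n : ℝ) ≤ x / 100 := by rw [hn]; exact Nat.floor_le (by linarith)
    have h2 := H2 x hx c hcp (EV (Ψ 0) c) hfam n h1 j hj x (by linarith) (by linarith)
    rwa [add_comm j n] at h2
  -- upper bound
  have up := HP (fun j b => Gs (EV (Ψ 0) c j) W (c + b) - g * PW (j + M) b) A0 hA15
    (by
      intro j b hb
      have h1 := Gs_six (hfam.nonneg j) (hfam.le_one j) hW0 hW1 (b := c + b) (by linarith)
      have h2 := mul_nonneg hg0 (PW_nonneg (j + M) b)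
      linarith)
    (by
      intro x hx n hn j
      have hx5 : (10 ^ 5 : ℝ) ≤ x := by linarith
      have hnx : (n : ℝ) ≤ x / 100 := by rw [hn]; exact Nat.floor_le (by linarith)
      rcases le_or_gt ((n : ℝ) + x / 80) j with h | h
      · right
        have hnj : n ≤ j := by
          have : (n : ℝ) ≤ j := by linarith
          exact_mod_cast this
        obtain ⟨j', rfl⟩ := Nat.exists_eq_add_of_le hnj
        push_cast at h
        refine ⟨j', ?_⟩
        have h1 := step1 x hx n hn j' (by linarith)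
        rw [abs_le] at h1
        rw [Eo_sub_fun, Eo_mul, add_assoc n j' M, PW_add]
        linarith
      · left
        rw [step0 x hx j (by linarith)]
        have := mul_nonneg hg0 (PW_nonneg (j + M) x)
        linarith)
    N0 hN1 (κ / 2) (by positivity)
    (by
      intro b hb1' hb2' j
      have h1 : Gs (EV (Ψ 0) c j) W (c + b) ≤ Gs (Ψ M) W (c + b) + 12 * Real.exp (-((M : ℝ) / 5000)) := by
        apply base_cmp (hfam.le_one j) (hΨ.nonneg M) hW0 hW1 hMpos hcM (by linarith) (by linarith)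
        intro N hN
        refine le_trans ?_ (EV_le hΨ hmo hYc M N)
        rcases le_or_gt j M with h | h
        · exact hmono h N
        · obtain ⟨p, rfl⟩ := Nat.exists_eq_add_of_le h.le
          rw [EV_stab M p N hN]
      have h2 := hU b hb1' hb2'
      have h3 := PW_large (j := j + M) (by omega) (a := b) (by push_cast; linarith [show (0 : ℝ) ≤ j by positivity])
      have h4 : Real.exp (-(((j + M : ℕ) : ℝ) / 5000)) ≤ Real.exp (-((M : ℝ) / 5000)) := by
        apply Real.exp_le_exp.mpr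
        push_cast
        linarith [show (0 : ℝ) ≤ j by positivity]
      have h5 : g * (1 - 2 * Real.exp (-((M : ℝ) / 5000))) ≤ g * PW (j + M) b := by
        apply mul_le_mul_of_nonneg_left _ hg0
        linarith
      have h6 : g * (1 - 2 * Real.exp (-((M : ℝ) / 5000))) = g - g * (2 * Real.exp (-((M : ℝ) / 5000))) := by ring
      linarith)
  -- lower bound
  have lo := HP (fun j b => if M ≤ j then g * PW (j - M) b - Gs (EV (Ψ 0) c j) W (c + b) else 0) A0 hA15
    (by
      intro j b hb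
      split_ifs with h
      · have h1 := Gs_nonneg (hfam.nonneg j) W (c + b)
        have h2 := mul_le_mul_of_nonneg_left (PW_le_one (j - M) b) hg0
        linarith
      · linarith)
    (by
      intro x hx n hn j
      have hx5 : (10 ^ 5 : ℝ) ≤ x := by linarith
      have hnx : (n : ℝ) ≤ x / 100 := by rw [hn]; exact Nat.floor_le (by linarith)
      by_cases hMj : M ≤ j
      swap
      · left
        rw [if_neg hMj]
      obtain ⟨p, rfl⟩ := Nat.exists_eq_add_of_le hMj
      rcases le_or_gt ((n : ℝ) + x / 80) p with h | h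
      · right
        have hnj : n ≤ p := by
          have : (n : ℝ) ≤ p := by linarith
          exact_mod_cast this
        obtain ⟨p', rfl⟩ := Nat.exists_eq_add_of_le hnj
        push_cast at h
        refine ⟨M + p', ?_⟩
        have h1 := step1 x hx n hn (M + p') (by push_cast; linarith [show (0 : ℝ) ≤ M by positivity])
        rw [abs_le] at h1
        rw [if_pos hMj]
        have e1 : ∀ i : ℕ, (if M ≤ M + p' then g * PW (M + p' - M) (bk x n i) - Gs (EV (Ψ 0) c (M + p')) W (c + bk x n i) else 0) =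
            g * PW p' (bk x n i) - Gs (EV (Ψ 0) c (M + p')) W (c + bk x n i) := by
          intro i
          rw [if_pos (by omega), Nat.add_sub_cancel_left]
        rw [show (fun i => if M ≤ M + p' then g * PW (M + p' - M) (bk x n i) - Gs (EV (Ψ 0) c (M + p')) W (c + bk x n i) else 0) =
          fun i => g * PW p' (bk x n i) - Gs (EV (Ψ 0) c (M + p')) W (c + bk x n i) from funext e1]
        rw [Eo_sub_fun, Eo_mul, Nat.add_sub_cancel_left, PW_add, show M + (n + p') = n + (M + p') by ring]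
        linarith
      · left
        rw [if_pos hMj, Nat.add_sub_cancel_left, PW_zero (by linarith), mul_zero]
        have := Gs_nonneg (hfam.nonneg (M + p)) W (c + x)
        linarith)
    N0 hN1 (κ / 2) (by positivity)
    (by
      intro b hb1' hb2' j
      split_ifs with h
      · have h1 : Gs (Ψ 0) W (c + b) ≤ Gs (EV (Ψ 0) c M) W (c + b) + 12 * Real.exp (-((M : ℝ) / 5000)) :=
          base_cmp (hΨ.le_one 0) (hfam.nonneg M) hW0 hW1 hMpos hcM (by linarith) (by linarith) (EV_ge hΨ hmo hYc M)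
        have h2 := hL b hb1' hb2'
        have h3 := mul_le_mul_of_nonneg_left (PW_le_one (j - M) b) hg0
        have h4 := Gs_mono (hmono h) W (c + b)
        linarith
      · positivity)
  intro b hb j
  constructor
  · have := up b hb j
    linarith
  · intro h
    have := lo b hb j
    rw [if_pos h] at this
    linarith

/-- the window averages of `Φ n` at a large distance above the scale `c n` tend to `g` -/
def WL0 (Φ : ℕ → ℤ → ℝ) (c : ℕ → ℝ) (W g : ℝ) : Prop :=
  ∀ κ : ℝ, 0 < κ → ∃ R0 : ℝ, ∀ R : ℝ, ∀ᶠ n in atTop, ∀ b : ℝ, R0 ≤ b → b ≤ R → |Gs (Φ n) W (c n + b) - g| ≤ κ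

/-- the lowest level -/
theorem stage0 (hBIN : ST_BIN) {Φ : ℕ → ℤ → ℝ} {c : ℕ → ℝ} {W g : ℝ} (hW0 : 0 < W) (hW1 : W ≤ 1) (hg0 : 0 ≤ g)
    (hinv : ∀ n, Inv (Φ n) (Real.exp (c n)))
    (hc : Tendsto c atTop atTop) (h : WL0 Φ c W g) {c' : ℕ → ℝ} (hL : Tendsto (fun n => c' n - c n) atTop atTop)
    {J : ℕ → ℕ} {s : ℝ} (hJ : Tendsto J atTop atTop)
    (hs : Tendsto (fun n : ℕ => ((J n : ℝ) * TD.mu - (c' n - c n)) / (Real.log 3 / 2 * Real.sqrt (J n))) atTop (𝓝 s)) :
    WL (fun n K => EV (Φ n) (c n) (J n + K)) c' W (g * gs s) := by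
  intro K R κ hκ
  obtain ⟨R0, hR0⟩ := h (κ / 2 / 8) (by positivity)
  obtain ⟨M, N0, hN11, H⟩ := walkGN hW0 hW1 hg0 (show 0 < κ / 2 by positivity) R0
  have hR : 0 ≤ |R| := abs_nonneg R
  have hup : Tendsto (fun n => PW (J n + K + M) (c' n - c n - |R|)) atTop (𝓝 (gs s)) := by
    obtain ⟨h1, h2⟩ := shift_ok (J' := fun n => J n + K + M) (L' := fun n : ℕ => c' n - c n - |R|) (D := K + M) (E := |R|) hJ hs
      (Eventually.of_forall (fun X => by
        push_cast
        rw [show (J X : ℝ) + K + M - J X = K + M by ring, abs_of_nonneg (by positivity)]))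
      (fun X => by rw [show c' X - c X - |R| - (c' X - c X) = -|R| by ring, abs_neg, abs_abs])
    exact hBIN s _ _ h1 h2
  have hlo : Tendsto (fun n => PW (J n + K - M) (c' n - c n + |R|)) atTop (𝓝 (gs s)) := by
    obtain ⟨h1, h2⟩ := shift_ok (J' := fun n => J n + K - M) (L' := fun n : ℕ => c' n - c n + |R|) (D := K + M) (E := |R|) hJ hs
      (by
        filter_upwards [hJ.eventually_ge_atTop M] with X hX
        rw [Nat.cast_sub (by omega)]
        push_cast
        rw [abs_le]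
        have h3 : (0 : ℝ) ≤ K := Nat.cast_nonneg K
        have h4 : (0 : ℝ) ≤ M := Nat.cast_nonneg M
        constructor <;> linarith)
      (fun X => by rw [show c' X - c X + |R| - (c' X - c X) = |R| by ring, abs_abs])
    exact hBIN s _ _ h1 h2
  have hup2 := (tendsto_order.1 (hup.const_mul g)).2 (g * gs s + κ / 2) (by linarith)
  have hlo2 := (tendsto_order.1 (hlo.const_mul g)).1 (g * gs s - κ / 2) (by linarith)
  filter_upwards [hup2, hlo2, hc.eventually_ge_atTop (2 * (M : ℝ) + 1), hR0 (2 * N0),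
    hL.eventually_ge_atTop (N0 + |R|), hJ.eventually_ge_atTop M] with n g1 g2 g4 g5 g7 g8
  intro b hb
  have hbR : |b| ≤ |R| := le_trans hb (le_abs_self R)
  rw [abs_le] at hbR
  have hN0 : (0 : ℝ) ≤ N0 := Nat.cast_nonneg N0
  have h1 := H (c n) g4 (fun _ => Φ n) (Real.exp (c n)) (hinv n).fam (fun _ _ => le_rfl) le_rfl
    (by
      intro b' hb1 hb2
      have := g5 b' (by linarith) hb2
      rw [abs_le] at this
      linarith)
    (by
      intro b' hb1 hb2
      have := g5 b' (by linarith) hb2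
      rw [abs_le] at this
      linarith)
    (c' n - c n + b) (by linarith) (J n + K)
  rw [show c n + (c' n - c n + b) = c' n + b by ring] at h1
  obtain ⟨h2, h3⟩ := h1
  have h3' := h3 (by omega)
  have h4 := mul_le_mul_of_nonneg_left (PW_anti (J n + K + M) (show c' n - c n - |R| ≤ c' n - c n + b by linarith)) hg0
  have h5 := mul_le_mul_of_nonneg_left (PW_anti (J n + K - M) (show c' n - c n + b ≤ c' n - c n + |R| by linarith)) hg0
  rw [abs_le]
  constructor <;> linarith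

/-- **the product law in windows, for functions that change with the lowest level** -/
theorem winI (hBIN : ST_BIN) {Φ : ℕ → ℤ → ℝ} {W g : ℝ} (hW0 : 0 < W) (hW1 : W ≤ 1) (hg0 : 0 ≤ g) (r : ℕ) :
    ∀ (c : ℕ → ℕ → ℝ) (J : ℕ → ℕ → ℕ) (s : ℕ → ℝ), Tendsto (c (r + 1)) atTop atTop →
      (∀ n, Inv (Φ n) (Real.exp (c (r + 1) n))) → WL0 Φ (c (r + 1)) W g →
      (∀ i : ℕ, i < r + 1 → Tendsto (fun n => c i n - c (i + 1) n) atTop atTop) →
      (∀ i : ℕ, i < r + 1 → Tendsto (J i) atTop atTop) →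
      (∀ i : ℕ, i < r + 1 → Tendsto (fun n : ℕ => ((J i n : ℝ) * TD.mu - (c i n - c (i + 1) n)) / (Real.log 3 / 2 * Real.sqrt (J i n))) atTop (𝓝 (s i))) →
      WL (fun n K => ES (Φ n) (r + 1) (fun i => c i n) (fun i => J i n) K) (c 0) W (g * ∏ i ∈ Finset.range (r + 1), gs (s i)) := by
  induction r with
  | zero =>
    intro c J s hc hinv hwl hcd hJ hs
    rw [Finset.prod_range_one]
    exact stage0 hBIN hW0 hW1 hg0 hinv hc hwl (hcd 0 (by omega)) (hJ 0 (by omega)) (hs 0 (by omega))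
  | succ r ih =>
    intro c J s hc hinv hwl hcd hJ hs
    have h1 := ih (fun i => c (i + 1)) (fun i => J (i + 1)) (fun i => s (i + 1)) hc hinv hwl
      (fun i hi => hcd (i + 1) (by omega)) (fun i hi => hJ (i + 1) (by omega)) (fun i hi => hs (i + 1) (by omega))
    have hc1 : Tendsto (c 1) atTop atTop := by
      have : ∀ p : ℕ, p ≤ r + 1 → Tendsto (c (r + 1 + 1 - p)) atTop atTop := by
        intro p
        induction p with
        | zero => intro _; exact hc
        | succ p ihp =>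
          intro hp
          have h2 := ihp (by omega)
          have h3 := hcd (r + 1 + 1 - (p + 1)) (by omega)
          rw [show r + 1 + 1 - (p + 1) + 1 = r + 1 + 1 - p by omega] at h3
          have h4 := h3.atTop_add_atTop h2
          refine h4.congr (fun n => ?_)
          ring
      have h2 := this (r + 1) le_rfl
      rwa [show r + 1 + 1 - (r + 1) = 1 by omega] at h2
    have h2 := stage hBIN (Ψ := fun n K => ES (Φ n) (r + 1) (fun i => c (i + 1) n) (fun i => J (i + 1) n) K)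
      (Y := fun n => Real.exp (c 2 n)) hW0 hW1
      (mul_nonneg hg0 (Finset.prod_nonneg (fun i _ => gs_nonneg _)))
      (fun n => by
        have h3 := ES_fam (hinv n) (r + 1) (fun i => c (i + 1) n) (fun i => J (i + 1) n)
        rw [if_neg (Nat.succ_ne_zero r)] at h3
        exact h3)
      (fun n j N => ES_mono (hinv n).nonneg (r + 1) _ _ j N)
      (by
        filter_upwards [(hcd 1 (by omega)).eventually_ge_atTop 0] with n hn
        exact Real.exp_le_exp.mpr (by
          simp only [show 1 + 1 = 2 by norm_num] at hn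
          linarith)) hc1 h1 (hcd 0 (by omega)) (hJ 0 (by omega)) (hs 0 (by omega))
    rw [Finset.prod_range_succ', ← mul_assoc]
    exact h2

/-- the joint law in all classes, for the steps of `T`, along sequences -/
theorem clsI (hBIN : ST_BIN) {Φ : ℕ → ℤ → ℝ} {g : ℝ} (hg0 : 0 ≤ g)
    (r : ℕ) (c : ℕ → ℕ → ℝ) (hinv : ∀ n, Inv (Φ n) (Real.exp (c (r + 1) n)))
    (hg : ∀ l : ℕ, WL0 Φ (c (r + 1)) ((1 / 2) ^ l) (g * (1 / 2) ^ l)) (J : ℕ → ℕ → ℕ) (s : ℕ → ℝ) (Z : ℕ → ℕ) (hZ : Tendsto Z atTop atTop)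
    (hcr : Tendsto (c (r + 1)) atTop atTop)
    (hcd : ∀ i : ℕ, i < r + 1 → Tendsto (fun n => c i n - c (i + 1) n) atTop atTop)
    (hJ : ∀ i : ℕ, i < r + 1 → Tendsto (J i) atTop atTop)
    (hs : ∀ i : ℕ, i < r + 1 → Tendsto (fun n : ℕ => ((J i n : ℝ) * TD.mu - (c i n - c (i + 1) n)) / (Real.log 3 / 2 * Real.sqrt (J i n))) atTop (𝓝 (s i)))
    {E0 : ℝ} (hE0 : ∀ᶠ n in atTop, |Real.log (Z n) - c 0 n| ≤ E0) {M : ℕ} (hM : 0 < M) (b : ℤ) :
    Tendsto (fun n : ℕ => Nc (fun N => if (M : ℤ) ∣ N - b then ES (Φ n) (r + 1) (fun i => c i n) (fun i => J i n) 0 N else 0) (Z n) / Z n) atTop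
      (𝓝 (g * (∏ i ∈ Finset.range (r + 1), gs (s i)) / M)) := by
  have hc1 : Tendsto (c 1) atTop atTop := by
    have : ∀ p : ℕ, p ≤ r → Tendsto (c (r + 1 - p)) atTop atTop := by
      intro p
      induction p with
      | zero => intro _; exact hcr
      | succ p ihp =>
        intro hp
        have h2 := ihp (by omega)
        have h3 := hcd (r + 1 - (p + 1)) (by omega)
        rw [show r + 1 - (p + 1) + 1 = r + 1 - p by omega] at h3
        have h4 := h3.atTop_add_atTop h2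
        refine h4.congr (fun n => ?_)
        ring
    have h2 := this r le_rfl
    rwa [show r + 1 - r = 1 by omega] at h2
  have hL : Tendsto (fun n => Real.log (Z n) - c 1 n) atTop atTop := by
    apply tendsto_atTop_mono' atTop (f₁ := fun n => c 0 n - c (0 + 1) n - E0)
    · filter_upwards [hE0] with n hn
      rw [abs_le] at hn
      simp only [Nat.zero_add]
      linarith
    · exact tendsto_atTop_add_const_right atTop (-E0) (hcd 0 (by omega))
  have hfam : ∀ n : ℕ, Fam (EV (ES (Φ n) r (fun i => c (i + 1) n) (fun i => J (i + 1) n) 0) (c 1 n)) (Real.exp (c 1 n)) :=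
    fun n => EV_fam (ES_nonneg (hinv n).nonneg r _ _ 0) (ES_le_one (hinv n).le_one r _ _ 0) (c 1 n)
  have hG : 0 ≤ g * (∏ i ∈ Finset.range (r + 1), gs (s i)) := mul_nonneg hg0 (Finset.prod_nonneg (fun i _ => gs_nonneg _))
  have h := clsG (Ψ := fun n => EV (ES (Φ n) r (fun i => c (i + 1) n) (fun i => J (i + 1) n) 0) (c 1 n)) (c := c 1) hfam hG
    (hJ 0 (by omega)) hZ hc1 hL ?_ hM b
  · refine h.congr (fun n => ?_)
    rw [ES, Nat.add_zero]
  intro J' Z' D E hJ' hZ' l x
  obtain ⟨W, hWd⟩ : ∃ W : ℝ, W = (1 / 2) ^ l := ⟨_, rfl⟩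
  have hW0 : 0 < W := by rw [hWd]; positivity
  have hW1 : W ≤ 1 := by rw [hWd]; exact pow_le_one₀ (by norm_num) (by norm_num)
  have hgl := hg l
  rw [← hWd] at hgl ⊢
  have hdist : ∀ᶠ n in atTop, |(Real.log (Z' n) - c (0 + 1) n) - (c 0 n - c (0 + 1) n)| ≤ E + E0 := by
    filter_upwards [hZ', hE0] with n h1 h2
    rw [abs_le] at h1 h2 ⊢
    constructor <;> linarith
  obtain ⟨e1, e2⟩ := shift_ev (hJ 0 (by omega)) (hs 0 (by omega)) hJ' hdist
  obtain ⟨c', hc'0, hc'⟩ : ∃ c' : ℕ → ℕ → ℝ, (c' 0 = fun n => Real.log (Z' n)) ∧ ∀ i, c' (i + 1) = c (i + 1) :=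
    ⟨fun i => Nat.casesOn i (fun n => Real.log (Z' n)) (fun i => c (i + 1)), rfl, fun i => rfl⟩
  obtain ⟨J'', hJ''0, hJ''⟩ : ∃ J'' : ℕ → ℕ → ℕ, J'' 0 = J' ∧ ∀ i, J'' (i + 1) = J (i + 1) :=
    ⟨fun i => Nat.casesOn i J' (fun i => J (i + 1)), rfl, fun i => rfl⟩
  have hw := winI (Φ := Φ) hBIN hW0 hW1 (mul_nonneg hg0 hW0.le) r c' J'' s (by rw [hc' r]; exact hcr)
    (by rw [hc' r]; exact hinv) (by rw [hc' r]; exact hgl)
    (by
      intro i hi
      rcases i with _ | i
      · rw [hc'0, hc' 0]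
        apply tendsto_atTop_mono' atTop (f₁ := fun n => c 0 n - c (0 + 1) n - (E + E0))
        · filter_upwards [hdist] with n hn
          rw [abs_le] at hn
          linarith
        · exact tendsto_atTop_add_const_right atTop (-(E + E0)) (hcd 0 (by omega))
      · rw [hc' i, hc' (i + 1)]; exact hcd (i + 1) hi)
    (by
      intro i hi
      rcases i with _ | i
      · rw [hJ''0]; exact e1
      · rw [hJ'' i]; exact hJ (i + 1) hi)
    (by
      intro i hi
      rcases i with _ | i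
      · rw [hJ''0, hc'0, hc' 0]; exact e2
      · rw [hJ'' i, hc' i, hc' (i + 1)]; exact hs (i + 1) hi)
  have h2 := WL_seq hw 0 (-x)
  rw [show g * (∏ i ∈ Finset.range (r + 1), gs (s i)) * W = g * W * ∏ i ∈ Finset.range (r + 1), gs (s i) by ring]
  refine h2.congr (fun n => ?_)
  have h3 : ES (Φ n) (r + 1) (fun i => c' i n) (fun i => J'' i n) 0 =
      EV (ES (Φ n) r (fun i => c (i + 1) n) (fun i => J (i + 1) n) 0) (c 1 n) (J' n) := by
    rw [ES]
    simp only [hc', hJ'']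
    simp only [hJ''0, Nat.add_zero, Nat.zero_add]
  rw [h3, hc'0]
  rfl

end Pool.Agent.Helper3.HT
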