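import Pool.Agent.Helper3.HT.UniC

/-! Levels, uniformly: the joint law of the first passage times and the place of the last first passage. -/

namespace Pool.Agent.Helper3.HT

open Pool.Agent.Helper3.ND Pool.Agent.Helper3.TD Pool.Agent.Helper32.HT Pool.Agent.Helper32.EQ Filter Topology

/-- the joint law along a sequence, for sets that change with the lowest level -/
theorem jntS (hBIN : ST_BIN) {m : ℕ} (hm : 1 ≤ m) {b : ℤ} (hb : Odd b) (r' : ℕ) (f : ℕ → ℝ → ℝ) (s : ℕ → ℝ) (hf0 : ∀ x, f 0 x = x)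
    (hfr : Tendsto (f (r' + 1)) atTop atTop) (hfd : ∀ i : ℕ, i < r' + 1 → Tendsto (fun x => f i x / f (i + 1) x) atTop atTop)
    (u : ℕ → ℝ) (hu : Tendsto u atTop atTop) (S : ℕ → Set ℤ) (hu1 : ∀ n, 1 ≤ f (r' + 1) (u n))
    (hinv : ∀ n, Inv (phi (S n)) (f (r' + 1) (u n))) {gn : ℕ → ℝ} {g : ℝ}
    (hgn : ∀ n, ∀ l : ℕ, Tendsto (fun a : ℝ => Gs (phi (S n)) ((1 / 2) ^ l) a) atTop (𝓝 (gn n * (1 / 2) ^ l)))
    (hg : Tendsto gn atTop (𝓝 g)) (hg0 : 0 ≤ g) :
    Tendsto (fun n => (cR (fun N => (2 * m : ℤ) ∣ N - b) (fun N => N ∈ S n ∧ Pv (r' + 1) f s (u n) N) (u n) : ℝ) / u n) atTop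
      (𝓝 (g / 2 / m * ∏ i ∈ Finset.range (r' + 1), gs (s i))) := by
  classical
  obtain ⟨R, hRd⟩ : ∃ R : ℤ → Prop, R = fun N => (2 * m : ℤ) ∣ N - b := ⟨_, rfl⟩
  have hR : ∀ N : ℤ, R N → Odd N := by
    intro N hN
    rw [hRd] at hN
    obtain ⟨q, hq⟩ := hN
    obtain ⟨r, rfl⟩ := hb
    refine ⟨m * q + r, ?_⟩
    linarith
  have hcast : ∀ N : ℤ, (((2 * m : ℕ) : ℤ) ∣ N - b) ↔ R N := by
    intro N; rw [hRd]; push_cast; rfl
  have hm0 : (m : ℝ) ≠ 0 := by
    have : (0 : ℝ) < m := by exact_mod_cast hm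
    exact this.ne'
  rw [← hRd]
  have hft : ∀ i : ℕ, i ≤ r' + 1 → Tendsto (f i) atTop atTop := by
    have : ∀ p : ℕ, p ≤ r' + 1 → Tendsto (f (r' + 1 - p)) atTop atTop := by
      intro p
      induction p with
      | zero => intro _; exact hfr
      | succ p ihp =>
        intro hp
        have h2 := ihp (by omega)
        have h3 := hfd (r' + 1 - (p + 1)) (by omega)
        rw [show r' + 1 - (p + 1) + 1 = r' + 1 - p by omega] at h3
        have h4 := h3.atTop_mul_atTop₀ h2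
        refine h4.congr' ?_
        filter_upwards [h2.eventually_gt_atTop 0] with x hx
        rw [div_mul_cancel₀ _ hx.ne']
    intro i hi
    have h2 := this (r' + 1 - i) (by omega)
    rwa [show r' + 1 - (r' + 1 - i) = i by omega] at h2
  obtain ⟨c, hc⟩ : ∃ c : ℕ → ℕ → ℝ, c = fun i n => Real.log (f i (u n)) := ⟨_, rfl⟩
  obtain ⟨Z, hZ⟩ : ∃ Z : ℕ → ℕ, Z = fun n => ⌊u n⌋₊ := ⟨_, rfl⟩
  have hfu : ∀ i : ℕ, i ≤ r' + 1 → Tendsto (fun n => f i (u n)) atTop atTop := fun i hi => (hft i hi).comp hu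
  have hct : ∀ i : ℕ, i ≤ r' + 1 → Tendsto (c i) atTop atTop := fun i hi => by
    rw [hc]; exact Real.tendsto_log_atTop.comp (hfu i hi)
  have hZt : Tendsto Z atTop atTop := by rw [hZ]; exact (tendsto_nat_floor_atTop (α := ℝ)).comp hu
  have hcd : ∀ i : ℕ, i < r' + 1 → Tendsto (fun n => c i n - c (i + 1) n) atTop atTop := by
    intro i hi
    have h1 := Real.tendsto_log_atTop.comp ((hfd i hi).comp hu)
    refine h1.congr' ?_
    filter_upwards [(hfu i (by omega)).eventually_gt_atTop 0, (hfu (i + 1) (by omega)).eventually_gt_atTop 0] with n h2 h3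
    simp only [Function.comp, hc]
    exact Real.log_div h2.ne' h3.ne'
  have hexp : ∀ᶠ n in atTop, ∀ i : ℕ, i < r' + 2 → Real.exp (c i n) = f i (u n) := by
    apply ev_all
    intro i hi
    filter_upwards [(hfu i (by omega)).eventually_gt_atTop 0] with n h2
    rw [hc]
    exact Real.exp_log h2
  have hdec : ∀ᶠ n in atTop, ∀ i : ℕ, i < r' + 1 → c (i + 1) n ≤ c i n := by
    apply ev_all
    intro i hi
    filter_upwards [(hcd i hi).eventually_ge_atTop 0] with n h2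
    linarith
  have hdiff : ∀ᶠ n in atTop, |Real.log (Z n : ℝ) - c 0 n| ≤ 1 := by
    filter_upwards [hu.eventually_ge_atTop 2] with n h1
    have hZ1 : 1 ≤ Z n := by rw [hZ]; exact Nat.le_floor (by push_cast; linarith)
    have hZ1r : (1 : ℝ) ≤ Z n := by exact_mod_cast hZ1
    have h3 : (Z n : ℝ) ≤ u n := by rw [hZ]; exact Nat.floor_le (by linarith)
    have h4 : u n ≤ 2 * (Z n : ℝ) := by
      have := Nat.lt_floor_add_one (u n)
      have e : (Z n : ℝ) = ((⌊u n⌋₊ : ℕ) : ℝ) := by rw [hZ]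
      rw [← e] at this
      linarith
    have h5 := Real.log_le_log (by linarith) h3
    have h6 := Real.log_le_log (by linarith) h4
    rw [Real.log_mul (by norm_num) (by linarith)] at h6
    have h7 : c 0 n = Real.log (u n) := by rw [hc]; simp only [hf0]
    rw [h7]
    have := Real.log_two_lt_d9
    rw [abs_le]
    constructor <;> linarith
  have hfe : ∀ n, Real.exp (c (r' + 1) n) = f (r' + 1) (u n) := by
    intro n
    rw [hc]
    exact Real.exp_log (by linarith [hu1 n])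
  have hinvc : ∀ n, Inv (phi (S n)) (Real.exp (c (r' + 1) n)) := fun n => by rw [hfe n]; exact hinv n
  have hcn0 : ∀ n, 0 ≤ c (r' + 1) n := by
    intro n
    rw [hc]
    exact Real.log_nonneg (hu1 n)
  have hwl : ∀ l : ℕ, WL0 (fun n => phi (S n)) (c (r' + 1)) ((1 / 2) ^ l) (g * (1 / 2) ^ l) := by
    intro l κ hκ
    obtain ⟨A0, hA0⟩ := unifG l (show 0 < κ / 2 by positivity)
    refine ⟨A0, fun R' => ?_⟩
    have h1 := (hg.mul_const ((1 / 2 : ℝ) ^ l))
    rw [Metric.tendsto_nhds] at h1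
    filter_upwards [h1 (κ / 2) (by positivity)] with n h2
    intro b' hb1 _
    have h3 := hA0 (c (r' + 1) n) (hcn0 n) (phi (S n)) (hinvc n) (gn n) (hgn n) b' hb1
    rw [Real.dist_eq] at h2
    have h4 := abs_sub_le (Gs (phi (S n)) ((1 / 2) ^ l) (c (r' + 1) n + b')) (gn n * (1 / 2) ^ l) (g * (1 / 2) ^ l)
    linarith
  -- the limits
  have hlim : ∀ (J : ℕ → ℕ → ℕ), (∀ i : ℕ, i < r' + 1 → ∀ᶠ n in atTop, |(J i n : ℝ) - AA (s i) (Real.exp (c i n - c (i + 1) n))| ≤
        2 + Real.sqrt (Real.sqrt (c i n - c (i + 1) n))) →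
      Tendsto (fun n : ℕ => ((cR R (fun N => N ∈ S n ∧ TEv (r' + 1) (fun i => c i n) (fun i => J i n) N) (Z n : ℝ) : ℕ) : ℝ) / Z n) atTop
        (𝓝 (g / 2 / m * ∏ i ∈ Finset.range (r' + 1), gs (s i))) := by
    intro J hJ
    have h1 : ∀ i : ℕ, i < r' + 1 → Tendsto (J i) atTop atTop ∧
        Tendsto (fun n => ((J i n : ℝ) * TD.mu - (c i n - c (i + 1) n)) / (Real.log 3 / 2 * Real.sqrt (J i n))) atTop (𝓝 (s i)) :=
      fun i hi => J_norm (L := fun n => c i n - c (i + 1) n) (hcd i hi) (hJ i hi)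
    have h2 := clsI hBIN (Φ := fun n => phi (S n)) hg0 r' c hinvc hwl J s Z hZt (hct (r' + 1) le_rfl) hcd (fun i hi => (h1 i hi).1) (fun i hi => (h1 i hi).2) hdiff
      (M := 2 * m) (by omega) b
    have hcm : g * (∏ i ∈ Finset.range (r' + 1), gs (s i)) / ((2 * m : ℕ) : ℝ) = g / 2 / m * ∏ i ∈ Finset.range (r' + 1), gs (s i) := by
      push_cast
      field_simp
    rw [hcm] at h2
    refine h2.congr' ?_
    filter_upwards [hdec] with n h3
    rw [← cR_phiQ hR (S n) (TEv (r' + 1) (fun i => c i n) (fun i => J i n)) (Z n)]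
    congr 1
    congr 1
    funext N
    rw [ES_eq (hinvc n) (r' + 1) (fun i => c i n) (fun i => J i n) (fun _ => le_rfl) (fun i _ hi => h3 i hi) N]
    exact if_congr (hcast N) rfl rfl
  have hXt : ∀ i : ℕ, i < r' + 1 → Tendsto (fun n => Real.exp (c i n - c (i + 1) n)) atTop atTop := fun i hi =>
    Real.tendsto_exp_atTop.comp (hcd i hi)
  have hup := hlim (fun i n => ⌊AA (s i) (Real.exp (c i n - c (i + 1) n)) + 1⌋₊) (by
    intro i hi
    filter_upwards [(hXt i hi).eventually (AA_evR (s i))] with n h1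
    rw [Real.log_exp] at h1
    have h2 := Real.sqrt_nonneg (Real.sqrt (c i n - c (i + 1) n))
    have h3 := Nat.floor_le (show 0 ≤ AA (s i) (Real.exp (c i n - c (i + 1) n)) + 1 by linarith)
    have h4 := Nat.lt_floor_add_one (AA (s i) (Real.exp (c i n - c (i + 1) n)) + 1)
    rw [abs_le]
    constructor <;> linarith)
  have hlo := hlim (fun i n => ⌊AA (s i) (Real.exp (c i n - c (i + 1) n)) -
      Real.sqrt (Real.sqrt (Real.log (Real.exp (c i n - c (i + 1) n))))⌋₊) (by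
    intro i hi
    filter_upwards [(hXt i hi).eventually (AA_evR (s i))] with n h1
    have h2 := Real.sqrt_nonneg (Real.sqrt (Real.log (Real.exp (c i n - c (i + 1) n))))
    have h3 := Nat.floor_le h1
    have h4 := Nat.lt_floor_add_one (AA (s i) (Real.exp (c i n - c (i + 1) n)) - Real.sqrt (Real.sqrt (Real.log (Real.exp (c i n - c (i + 1) n)))))
    rw [Real.log_exp] at h2 h3 h4 ⊢
    rw [abs_le]
    constructor <;> linarith)
  -- the ratio
  have hrat : Tendsto (fun n => (Z n : ℝ) / u n) atTop (𝓝 1) := by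
    rw [hZ]
    exact (tendsto_nat_floor_div_atTop (R := ℝ)).comp hu
  have hup2 := hup.mul hrat
  have hlo2 := hlo.mul hrat
  rw [mul_one] at hup2 hlo2
  have hL0 := hcd 0 (by omega)
  have h3 : Tendsto (fun n => (c 0 n - c (0 + 1) n)⁻¹ + (u n)⁻¹) atTop (𝓝 (0 + 0)) :=
    (tendsto_inv_atTop_zero.comp hL0).add (tendsto_inv_atTop_zero.comp hu)
  have h4 := hlo2.sub h3
  rw [add_zero, sub_zero] at h4
  have hev : ∀ᶠ n in atTop, ∀ i : ℕ, i < r' + 1 → 2 ≤ Real.log (Real.exp (c i n - c (i + 1) n)) ∧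
      0 ≤ KK (s i) (Real.exp (c i n - c (i + 1) n)) ∧
      Real.log (KK (s i) (Real.exp (c i n - c (i + 1) n)) + 1) + 0 + Real.log (Real.log (Real.exp (c i n - c (i + 1) n))) <
        Real.log 2 * Real.sqrt (Real.sqrt (Real.log (Real.exp (c i n - c (i + 1) n)))) ∧
      0 ≤ AA (s i) (Real.exp (c i n - c (i + 1) n)) - Real.sqrt (Real.sqrt (Real.log (Real.exp (c i n - c (i + 1) n)))) := by
    apply ev_all
    intro i hi
    filter_upwards [(hXt i hi).eventually (AA_evR (s i)), (hXt i hi).eventually (ev_XR (s i)), (hcd i hi).eventually_ge_atTop 2] with n g1 g2 g3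
    exact ⟨by rw [Real.log_exp]; exact g3, g2.2.1, g2.2.2, g1⟩
  refine tendsto_of_tendsto_of_tendsto_of_le_of_le' h4 hup2 ?_ ?_
  · filter_upwards [hev, hexp, hdec, hu.eventually_ge_atTop 2, (hct (r' + 1) le_rfl).eventually_ge_atTop 0] with n g1 g2 g3 g4 g5
    have hup0 : 0 < u n := by linarith
    have hZ1 : 1 ≤ Z n := by rw [hZ]; exact Nat.le_floor (by push_cast; linarith)
    have hZ0 : (0 : ℝ) < Z n := by exact_mod_cast hZ1
    have hZu : (Z n : ℝ) ≤ u n := by rw [hZ]; exact Nat.floor_le (by linarith)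
    have hc0 : Real.exp (c 0 n) = u n := by rw [g2 0 (by omega), hf0]
    have hl2 : 2 ≤ c 0 n - c (0 + 1) n := by
      have := (g1 0 (by omega)).1
      rwa [Real.log_exp] at this
    have e1 : 0 < c 0 n - c (0 + 1) n := by linarith
    have h5 : cR R (fun N => N ∈ S n ∧ TEv (r' + 1) (fun i => c i n) (fun i => ⌊AA (s i) (Real.exp (c i n - c (i + 1) n)) -
          Real.sqrt (Real.sqrt (Real.log (Real.exp (c i n - c (i + 1) n))))⌋₊) N) (Z n : ℝ) ≤
        cR R (fun N => N ∈ S n ∧ Pv (r' + 1) f s (u n) N) (u n) + cR R (fun _ => True) (u n / (c 0 n - c (0 + 1) n)) := by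
      apply cR_union
      rintro N b1 b2 b3 ⟨b4, b5⟩
      have hNr : (N : ℝ) < 0 := by exact_mod_cast b1
      by_cases hc' : u n ≤ (-(N : ℝ)) * (c 0 n - c (0 + 1) n)
      · left
        refine ⟨by linarith, b4, ?_⟩
        rw [Pv_iff (c := fun i => c i n) (fun i hi => g2 i (by omega)) g3]
        refine SEv_down (c := fun i => c i n) g3 g5 (hR N b2) b1 ?_ ?_ g1 b5
        · rw [hc0, abs_of_neg hNr]; linarith
        · intro _
          rw [hc0, abs_of_neg hNr, Real.log_exp]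
          exact hc'
      · right
        refine ⟨?_, trivial⟩
        have h6 : (-(N : ℝ)) ≤ u n / (c 0 n - c (0 + 1) n) := by
          rw [le_div_iff₀ e1]
          exact (not_le.mp hc').le
        linarith
    have h6 : (cR R (fun _ => True) (u n / (c 0 n - c (0 + 1) n)) : ℝ) ≤ u n / (c 0 n - c (0 + 1) n) + 1 :=
      cR_small _ _ (div_pos hup0 e1).le
    have h7 : ((cR R (fun N => N ∈ S n ∧ TEv (r' + 1) (fun i => c i n) (fun i => ⌊AA (s i) (Real.exp (c i n - c (i + 1) n)) -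
          Real.sqrt (Real.sqrt (Real.log (Real.exp (c i n - c (i + 1) n))))⌋₊) N) (Z n : ℝ) : ℕ) : ℝ) ≤
        ((cR R (fun N => N ∈ S n ∧ Pv (r' + 1) f s (u n) N) (u n) : ℕ) : ℝ) +
          (cR R (fun _ => True) (u n / (c 0 n - c (0 + 1) n)) : ℝ) := by
      exact_mod_cast h5
    rw [div_mul_div_cancel₀ hZ0.ne']
    have h8 : (c 0 n - c (0 + 1) n)⁻¹ + (u n)⁻¹ = (u n / (c 0 n - c (0 + 1) n) + 1) / u n := by
      field_simp
    rw [h8, ← sub_div]
    apply div_le_div_of_nonneg_right _ hup0.le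
    linarith
  · filter_upwards [hexp, hdec, hu.eventually_ge_atTop 2] with n g2 g3 g4
    have hup0 : 0 < u n := by linarith
    have hZ1 : 1 ≤ Z n := by rw [hZ]; exact Nat.le_floor (by push_cast; linarith)
    have hZ0 : (0 : ℝ) < Z n := by exact_mod_cast hZ1
    have hc0 : Real.exp (c 0 n) = u n := by rw [g2 0 (by omega), hf0]
    rw [div_mul_div_cancel₀ hZ0.ne']
    apply div_le_div_of_nonneg_right _ hup0.le
    have h5 : cR R (fun N => N ∈ S n ∧ Pv (r' + 1) f s (u n) N) (u n) ≤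
        cR R (fun N => N ∈ S n ∧ TEv (r' + 1) (fun i => c i n) (fun i => ⌊AA (s i) (Real.exp (c i n - c (i + 1) n)) + 1⌋₊) N) (Z n : ℝ) := by
      apply cR_mono
      rintro N b1 b2 b3 ⟨b4, b5⟩
      have hNr : (N : ℝ) < 0 := by exact_mod_cast b1
      refine ⟨?_, b4, ?_⟩
      · have h5 : (((-N).toNat : ℕ) : ℝ) ≤ u n := by
          have : (((-N).toNat : ℕ) : ℤ) = -N := Int.toNat_of_nonneg (by omega)
          have h6 : (((-N).toNat : ℕ) : ℝ) = -(N : ℝ) := by exact_mod_cast congrArg (Int.cast : ℤ → ℝ) this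
          rw [h6]; linarith
        have h6 := Nat.le_floor h5
        have hZn : Z n = ⌊u n⌋₊ := by rw [hZ]
        have h7 : -(Z n : ℤ) ≤ N := by omega
        exact_mod_cast h7
      · rw [Pv_iff (c := fun i => c i n) (fun i hi => g2 i (by omega)) g3] at b5
        exact SEv_up (c := fun i => c i n) g3 (hR N b2) b1 (by rw [hc0, abs_of_neg hNr]; linarith) b5
    exact_mod_cast h5


/-- the integers whose orbit enters `[-y, y]` at a point of `E` -/
def LS (y : ℝ) (E : Set ℤ) : Set ℤ := {N : ℤ | ∃ k : ℕ, IsLeast {t : ℕ | |((syr^[t] N : ℤ) : ℝ)| ≤ y} k ∧ syr^[k] N ∈ E}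

theorem LS_inv {y : ℝ} {E : Set ℤ} {N : ℤ} (h : y < |(N : ℝ)|) : N ∈ LS y E ↔ syr N ∈ LS y E := by
  unfold LS
  constructor
  · rintro ⟨k, hk, hE⟩
    rcases k with _ | k
    · exact absurd hk.1 (not_le.mpr h)
    · refine ⟨k, ⟨?_, ?_⟩, ?_⟩
      · have := hk.1
        simp only [Set.mem_setOf_eq, Function.iterate_succ_apply] at this ⊢
        exact this
      · intro t ht
        have h1 : t + 1 ∈ {t : ℕ | |((syr^[t] N : ℤ) : ℝ)| ≤ y} := by
          simp only [Set.mem_setOf_eq, Function.iterate_succ_apply] at ht ⊢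
          exact ht
        have := hk.2 h1
        omega
      · rw [Function.iterate_succ_apply] at hE
        exact hE
  · rintro ⟨k, hk, hE⟩
    refine ⟨k + 1, ⟨?_, ?_⟩, ?_⟩
    · have := hk.1
      simp only [Set.mem_setOf_eq, Function.iterate_succ_apply] at this ⊢
      exact this
    · intro t ht
      rcases t with _ | t
      · exact absurd ht (not_le.mpr h)
      · have h1 : t ∈ {t : ℕ | |((syr^[t] (syr N) : ℤ) : ℝ)| ≤ y} := by
          simp only [Set.mem_setOf_eq, Function.iterate_succ_apply] at ht ⊢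
          exact ht
        have := hk.2 h1
        omega
    · rw [Function.iterate_succ_apply]
      exact hE

theorem LS_SI (y : ℝ) (E : Set ℤ) : SI ⌊y⌋₊ (LS y E) := by
  intro N h1 _
  have h2 : y < |(N : ℝ)| := by
    have h0 : (N : ℝ) < 0 := by
      have : N < 0 := by omega
      exact_mod_cast this
    rw [abs_of_neg h0]
    have h3 : (⌊y⌋₊ : ℤ) + 1 ≤ -N := by omega
    have h4 : ((⌊y⌋₊ : ℕ) : ℝ) + 1 ≤ -(N : ℝ) := by exact_mod_cast h3
    have h5 := Nat.lt_floor_add_one y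
    linarith
  exact LS_inv h2

/-- **joint law of the first passage times and the place of the last first passage** -/
theorem jntB (hBIN : ST_BIN) (r' : ℕ) (f : ℕ → ℝ → ℝ) (hf0 : ∀ x, f 0 x = x)
    (hfr : Tendsto (f (r' + 1)) atTop atTop) (hfd : ∀ i : ℕ, i < r' + 1 → Tendsto (fun x => f i x / f (i + 1) x) atTop atTop)
    (E : ℝ → Set ℤ) : ∃ δ : ℝ → ℝ,
    (∀ x : ℝ, Tendsto (fun z : ℝ => (cR (fun N => (2 * ((1 : ℕ) : ℤ) : ℤ) ∣ N - 1) (fun N => N ∈ LS (f (r' + 1) x) (E x)) z : ℝ) / z) atTop (𝓝 (δ x))) ∧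
    ∀ m : ℕ, 1 ≤ m → ∀ b : ℤ, Odd b → ∀ s : ℕ → ℝ,
      Tendsto (fun x => (cR (fun N => (2 * m : ℤ) ∣ N - b) (fun N => N ∈ LS (f (r' + 1) x) (E x) ∧ Pv (r' + 1) f s x N) x : ℝ) / x -
        δ x / m * ∏ i ∈ Finset.range (r' + 1), gs (s i)) atTop (𝓝 0) := by
  classical
  have hSI : ∀ x : ℝ, SI ⌊f (r' + 1) x⌋₊ (LS (f (r' + 1) x) (E x)) := fun x => LS_SI _ _
  have hphi := fun x => phi_invY (hSI x)
  have hgl := fun x => Gs_lim (Nat.cast_nonneg _) (hphi x)
  choose g hg using hgl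
  have hg0 : ∀ x, 0 ≤ g x := by
    intro x
    have h1 := hg x 0
    simp only [pow_zero, mul_one] at h1
    exact ge_of_tendsto' h1 (fun b => Gs_nonneg (hphi x).nonneg _ _)
  have hg6 : ∀ x, g x ≤ 6 := by
    intro x
    have h1 := hg x 0
    simp only [pow_zero, mul_one] at h1
    apply le_of_tendsto h1
    filter_upwards [eventually_ge_atTop 3] with a ha
    exact Gs_six (hphi x).nonneg (hphi x).le_one (by norm_num) le_rfl ha
  refine ⟨fun x => g x / 2, ?_, ?_⟩
  · intro x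
    obtain ⟨d, hd⟩ := jntC hBIN (hSI x)
    have h1 := hd 1 le_rfl 1 (by decide) 0 (fun _ x => x) (fun _ => 0) (fun _ => rfl) tendsto_id (fun i hi => absurd hi (by omega))
    have he : ∀ z : ℝ, cR (fun N => (2 * ((1 : ℕ) : ℤ) : ℤ) ∣ N - 1) (fun N => N ∈ LS (f (r' + 1) x) (E x) ∧ Pv 0 (fun _ x => x) (fun _ => 0) z N) z =
        cR (fun N => (2 * ((1 : ℕ) : ℤ) : ℤ) ∣ N - 1) (fun N => N ∈ LS (f (r' + 1) x) (E x)) z := by
      intro z
      apply le_antisymm
      · exact cR_mono (fun N _ _ b3 b4 => ⟨b3, b4.1⟩)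
      · exact cR_mono (fun N _ _ b3 b4 => ⟨b3, b4, ⟨fun _ => 0, rfl, fun i hi => absurd hi (by omega)⟩⟩)
    simp only [he] at h1
    rw [Finset.prod_range_zero, mul_one] at h1
    -- the density is g / 2
    have h2 : Tendsto (fun X : ℕ => (cR (fun N => (2 * ((1 : ℕ) : ℤ) : ℤ) ∣ N - 1) (fun N => N ∈ LS (f (r' + 1) x) (E x)) (X : ℝ) : ℝ) / X) atTop
        (𝓝 (d / ((1 : ℕ) : ℝ))) := h1.comp tendsto_natCast_atTop_atTop
    have h3 := all_classes dcH (Nat.cast_nonneg _) (hphi x) (nat_dens_of (hphi x) (hg x)) 2 (by omega) 1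
    have h4 : Tendsto (fun X : ℕ => (cR (fun N => (2 * ((1 : ℕ) : ℤ) : ℤ) ∣ N - 1) (fun N => N ∈ LS (f (r' + 1) x) (E x)) (X : ℝ) : ℝ) / X) atTop
        (𝓝 (g x / ((2 : ℕ) : ℝ))) := by
      refine h3.congr (fun X => ?_)
      rw [← cR_phi (R := fun N => (2 * ((1 : ℕ) : ℤ) : ℤ) ∣ N - 1) (by
        intro N hN
        obtain ⟨q, hq⟩ := hN
        exact ⟨q, by push_cast at hq; linarith⟩) (LS (f (r' + 1) x) (E x)) X]
      congr 1
    have h5 := tendsto_nhds_unique h2 h4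
    rw [h5] at h1
    have h6 : g x / ((2 : ℕ) : ℝ) = g x / 2 := by push_cast; ring
    rw [h6] at h1
    exact h1
  intro m hm b hb s
  apply tendsto_of_seq_tendsto
  intro u hu
  apply tendsto_of_subseq_tendsto
  intro ns hns
  obtain ⟨a, _, φ, hφ, hφa⟩ := (isCompact_Icc (a := (0 : ℝ)) (b := 6)).tendsto_subseq (x := fun n => g (u (ns n))) (fun n => ⟨hg0 _, hg6 _⟩)
  have hv0 : Tendsto (fun n => u (ns (φ n))) atTop atTop := hu.comp (hns.comp hφ.tendsto_atTop)
  obtain ⟨n0, hn0⟩ := eventually_atTop.1 ((hfr.comp hv0).eventually_ge_atTop 1)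
  refine ⟨fun n => φ (n + n0), ?_⟩
  have hadd : Tendsto (fun n : ℕ => n + n0) atTop atTop := tendsto_add_atTop_nat n0
  have hv : Tendsto (fun n => u (ns (φ (n + n0)))) atTop atTop := hv0.comp hadd
  have hga : Tendsto (fun n => g (u (ns (φ (n + n0))))) atTop (𝓝 a) := hφa.comp hadd
  have ha0 : 0 ≤ a := ge_of_tendsto' hga (fun n => hg0 _)
  have hv1 : ∀ n, 1 ≤ f (r' + 1) (u (ns (φ (n + n0)))) := fun n => hn0 (n + n0) (by omega)
  have h1 := jntS hBIN hm hb r' f s hf0 hfr hfd (fun n => u (ns (φ (n + n0)))) hv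
    (fun n => LS (f (r' + 1) (u (ns (φ (n + n0))))) (E (u (ns (φ (n + n0)))))) hv1
    (fun n => by
      have h2 := hphi (u (ns (φ (n + n0))))
      refine ⟨h2.nonneg, h2.le_one, fun N hN => h2.inv N (lt_of_le_of_lt (Nat.floor_le (by linarith [hv1 n])) hN)⟩)
    (gn := fun n => g (u (ns (φ (n + n0))))) (g := a) (fun n => hg _) hga ha0
  have h2 := ((hga.div_const 2).div_const (m : ℝ)).mul_const (∏ i ∈ Finset.range (r' + 1), gs (s i))
  have h3 := h1.sub h2
  rw [sub_self] at h3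
  exact h3

end Pool.Agent.Helper3.HT
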