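import Pool.Agent.Helper3.HT.UniD

/-! The place of the last first passage: the final form. -/

namespace Pool.Agent.Helper3.HT

open Pool.Agent.Helper3.ND Pool.Agent.Helper3.TD Pool.Agent.Helper32.HT Filter Topology

theorem LP_iff {r' : ℕ} {f : ℕ → ℝ → ℝ} {s : ℕ → ℝ} {x : ℝ} {E : Set ℤ} {N : ℤ} :
    (N ∈ LS (f (r' + 1) x) E ∧ Pv (r' + 1) f s x N) ↔
    ∃ k : ℕ → ℕ, k 0 = 0 ∧ (∀ i : ℕ, i < r' + 1 → IsLeast {t : ℕ | |((syr^[t] N : ℤ) : ℝ)| ≤ f (i + 1) x} (k (i + 1)) ∧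
      (((k (i + 1) : ℝ) - k i) * DD - Real.log (f i x / f (i + 1) x)) * Real.sqrt DD ≤
        s i * (Real.log 2 * Real.sqrt (2 * Real.log (f i x / f (i + 1) x)))) ∧ syr^[k (r' + 1)] N ∈ E := by
  constructor
  · rintro ⟨⟨k1, hk1, hE⟩, ⟨k, hk0, hk⟩⟩
    refine ⟨k, hk0, hk, ?_⟩
    have h1 := (hk r' (by omega)).1.unique hk1
    rw [h1]
    exact hE
  · rintro ⟨k, hk0, hk, hE⟩
    exact ⟨⟨k (r' + 1), (hk r' (by omega)).1, hE⟩, ⟨k, hk0, hk⟩⟩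

theorem odd_div (N : ℤ) : (2 * ((1 : ℕ) : ℤ) : ℤ) ∣ N - 1 ↔ Odd N := by
  constructor
  · rintro ⟨q, hq⟩
    exact ⟨q, by push_cast at hq; linarith⟩
  · rintro ⟨q, hq⟩
    exact ⟨q, by push_cast; linarith⟩

end Pool.Agent.Helper3.HT
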