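import Pool.Agent.Helper3.HT.Prop

/-! Elementary facts on the walk and on the indicator functions. -/

namespace Pool.Agent.Helper3.HT

open Pool.Agent.Helper3.ND Pool.Agent.Helper3.TD Filter Topology

theorem PW_nonneg (j : ℕ) (a : ℝ) : 0 ≤ PW j a := by
  unfold PW
  have h := Eo_mono (n := j) (g := fun _ => (0 : ℝ)) (h := fun i => if bk a j i ≤ 0 then (1 : ℝ) else 0) (by
    intro i
    split_ifs <;> norm_num)
  rwa [Eo_const] at h

theorem PW_le_one (j : ℕ) (a : ℝ) : PW j a ≤ 1 := by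
  unfold PW
  have h := Eo_mono (n := j) (g := fun i => if bk a j i ≤ 0 then (1 : ℝ) else 0) (h := fun _ => (1 : ℝ)) (by
    intro i
    split_ifs <;> norm_num)
  rwa [Eo_const] at h

theorem PW_add (n p : ℕ) (a : ℝ) : PW (n + p) a = Eo n (fun i => PW p (bk a n i)) := by
  unfold PW
  rw [Eo_add]
  congr 1
  funext i
  congr 1
  funext k
  rw [bk_bk]

theorem PW_zero {p : ℕ} {a : ℝ} (h : (p : ℝ) < a) : PW p a = 0 := by
  have h1 : PW p a ≤ 0 := by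
    unfold PW
    have h2 := Eo_mono' (n := p) (g := fun i => if bk a p i ≤ 0 then (1 : ℝ) else 0) (h := fun _ => (0 : ℝ)) (by
      intro i hi
      obtain ⟨b1, _⟩ := bk_bounds (a := a) hi
      rw [if_neg (by linarith)])
    rwa [Eo_const] at h2
  exact le_antisymm h1 (PW_nonneg _ _)

theorem PW_large {j : ℕ} (hj : 1 ≤ j) {a : ℝ} (h : a ≤ 0.129 * j) : 1 - 2 * Real.exp (-((j : ℝ) / 5000)) ≤ PW j a := by
  have h1 := Eo_tail (n := j) hj
  have h2 : (1 : ℝ) - Eo j (fun i => if (j : ℝ) / 100 ≤ |(i : ℝ) - j / 2| then (1 : ℝ) else 0) ≤ PW j a := by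
    unfold PW
    rw [← Eo_const j (1 : ℝ), ← Eo_sub_fun]
    apply Eo_mono
    intro i
    by_cases h3 : (j : ℝ) / 100 ≤ |(i : ℝ) - j / 2|
    · rw [if_pos h3, Eo_const]
      split_ifs <;> norm_num
    · rw [if_neg h3, Eo_const]
      rw [not_le] at h3
      have h4 := bk_typ (A := a) h3
      rw [if_pos (by linarith)]
      norm_num
  linarith

theorem FH_nonneg (a : ℤ) (j : ℕ) (N : ℤ) : 0 ≤ FH a j N := by unfold FH; split_ifs <;> norm_num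
theorem FH_le_one (a : ℤ) (j : ℕ) (N : ℤ) : FH a j N ≤ 1 := by unfold FH; split_ifs <;> norm_num
theorem FI_nonneg (a : ℤ) (N : ℤ) : 0 ≤ FI a N := by unfold FI; split_ifs <;> norm_num
theorem FI_le_one (a : ℤ) (N : ℤ) : FI a N ≤ 1 := by unfold FI; split_ifs <;> norm_num

theorem FH_le_FI (a : ℤ) (j : ℕ) (N : ℤ) : FH a j N ≤ FI a N := by
  unfold FH FI
  by_cases h : ∃ i : ℕ, i ≤ j ∧ T^[i] N = a
  · obtain ⟨i, _, hi⟩ := id h
    rw [if_pos h, if_pos ⟨i, hi⟩]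
  · rw [if_neg h]
    split_ifs <;> norm_num

theorem FH_mono (a : ℤ) {j k : ℕ} (hjk : j ≤ k) (N : ℤ) : FH a j N ≤ FH a k N := by
  unfold FH
  by_cases h : ∃ i : ℕ, i ≤ j ∧ T^[i] N = a
  · obtain ⟨i, hi, h2⟩ := id h
    rw [if_pos h, if_pos ⟨i, le_trans hi hjk, h2⟩]
  · rw [if_neg h]
    split_ifs <;> norm_num

theorem FH_fam (a : ℤ) : Fam (FH a) |(a : ℝ)| := by
  classical
  refine ⟨FH_nonneg a, FH_le_one a, ?_⟩
  intro j N hN
  have hne : N ≠ a := by rintro rfl; exact lt_irrefl _ hN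
  unfold FH
  have : (∃ i : ℕ, i ≤ j ∧ T^[i] (T N) = a) ↔ ∃ i : ℕ, i ≤ j + 1 ∧ T^[i] N = a := by
    constructor
    · rintro ⟨i, h1, h2⟩
      exact ⟨i + 1, by omega, by rw [Function.iterate_succ_apply]; exact h2⟩
    · rintro ⟨i, h1, h2⟩
      rcases i with _ | i
      · exact absurd h2 hne
      · rw [Function.iterate_succ_apply] at h2
        exact ⟨i, by omega, h2⟩
  exact if_congr this rfl rfl

theorem FI_inv (a : ℤ) : Inv (FI a) |(a : ℝ)| := by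
  classical
  refine ⟨FI_nonneg a, FI_le_one a, ?_⟩
  intro N hN
  have hne : N ≠ a := by rintro rfl; exact lt_irrefl _ hN
  unfold FI
  have : (∃ i : ℕ, T^[i] (T N) = a) ↔ ∃ i : ℕ, T^[i] N = a := by
    constructor
    · rintro ⟨i, h2⟩
      exact ⟨i + 1, by rw [Function.iterate_succ_apply]; exact h2⟩
    · rintro ⟨i, h2⟩
      rcases i with _ | i
      · exact absurd h2 hne
      · rw [Function.iterate_succ_apply] at h2
        exact ⟨i, h2⟩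
  exact if_congr this rfl rfl

/-- not reached in few steps -/
theorem FH_zero {a : ℤ} {j : ℕ} {N : ℤ} (h : 2 ^ j * |(a : ℝ)| < |(N : ℝ)|) : FH a j N = 0 := by
  unfold FH
  rw [if_neg]
  rintro ⟨i, h1, h2⟩
  have h3 := abs_T_iter_ge i N
  rw [h2] at h3
  have h4 : |(N : ℝ)| ≤ 2 ^ i * |(a : ℝ)| := by exact_mod_cast h3
  have h5 : (2 : ℝ) ^ i * |(a : ℝ)| ≤ 2 ^ j * |(a : ℝ)| := by
    apply mul_le_mul_of_nonneg_right _ (abs_nonneg _)
    exact pow_le_pow_right₀ (by norm_num) h1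
  linarith

theorem Gs_mono {Φ Ψ : ℤ → ℝ} (h : ∀ N, Φ N ≤ Ψ N) (W b : ℝ) : Gs Φ W b ≤ Gs Ψ W b := by
  unfold Gs SS
  exact Finset.sum_le_sum (fun N _ => mul_le_mul_of_nonneg_right (h N) (om_nonneg _ _ _))

theorem tent_scale {W x : ℝ} (hW0 : 0 < W) (hW1 : W ≤ 1) : tent (x / W) ≤ tent (x / 1) := by
  unfold tent
  apply max_le_max le_rfl
  rw [div_one, abs_div, abs_of_pos hW0]
  have : |x| ≤ |x| / W := by
    rw [le_div_iff₀ hW0]
    have := abs_nonneg x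
    nlinarith
  linarith

theorem Gs_W_le {Φ : ℤ → ℝ} (h0 : ∀ N, 0 ≤ Φ N) {W : ℝ} (hW0 : 0 < W) (hW1 : W ≤ 1) (b : ℝ) : Gs Φ W b ≤ Gs Φ 1 b := by
  have h1 : Real.exp (b + W) ≤ ((⌈Real.exp (b + 1)⌉ : ℤ) : ℝ) :=
    le_trans (Real.exp_le_exp.mpr (by linarith)) (Int.le_ceil _)
  rw [← Gs_eq Φ hW0 h1]
  unfold Gs SS
  apply Finset.sum_le_sum
  intro N _
  apply mul_le_mul_of_nonneg_left _ (h0 N)
  unfold om
  exact div_le_div_of_nonneg_right (tent_scale hW0 hW1) (abs_nonneg _)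

theorem Gs_six {Φ : ℤ → ℝ} (h0 : ∀ N, 0 ≤ Φ N) (h1 : ∀ N, Φ N ≤ 1) {W : ℝ} (hW0 : 0 < W) (hW1 : W ≤ 1) {b : ℝ} (hb : 3 ≤ b) :
    Gs Φ W b ≤ 6 := le_trans (Gs_W_le h0 hW0 hW1 b) (Gs_bdd h1 hb)

theorem Gs_FH_zero {a : ℤ} {j : ℕ} {W b : ℝ} (hW0 : 0 < W) (h : 2 ^ j * |(a : ℝ)| ≤ Real.exp (b - W)) : Gs (FH a j) W b = 0 := by
  unfold Gs SS
  apply Finset.sum_eq_zero
  intro N _
  by_cases h0 : om b W N = 0
  · rw [h0, mul_zero]
  · obtain ⟨h2, h3⟩ := om_ne_zero hW0 h0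
    rw [abs_lt] at h3
    have h4 : Real.exp (b - W) < |(N : ℝ)| := by
      rw [← Real.lt_log_iff_exp_lt h2]; linarith
    rw [FH_zero (lt_of_le_of_lt h h4), zero_mul]

end Pool.Agent.Helper3.HT
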