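import Pool.Agent.Helper3.HT.WalkA

/-! The time to meet `a` behaves like the exit time of the walk of the scales. -/

namespace Pool.Agent.Helper3.HT

open Pool.Agent.Helper3.ND Pool.Agent.Helper3.TD Filter Topology

theorem walk (hB : ST_BASE) : ST_WALK := by
  intro a W c ha hW0 hW1 hc0 hc κ hκ
  obtain ⟨C, hC, H⟩ := avgK 2
  obtain ⟨A0, hA0, H2⟩ := H W hW0 hW1
  obtain ⟨C', hC', HP⟩ := prop_gen (C := C) (K := 6 + c) hC.le (by linarith)
  have hWp : 0 < 200 / W := by positivity
  have haR : (0 : ℝ) ≤ |(a : ℝ)| := abs_nonneg _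
  -- the first scale
  obtain ⟨A1, hA1⟩ : ∃ A1, A1 = max A0 (8 * |(a : ℝ)|) := ⟨_, rfl⟩
  have hA1a : A0 ≤ A1 := by rw [hA1]; exact le_max_left _ _
  have hA1b : 8 * |(a : ℝ)| ≤ A1 := by rw [hA1]; exact le_max_right _ _
  have hA15 : (10 ^ 5 : ℝ) ≤ A1 := by linarith
  have hae : ∀ x : ℝ, A1 ≤ x → |(a : ℝ)| ≤ Real.exp (x / 8) := by
    intro x hx
    have := Real.add_one_le_exp (x / 8)
    linarith
  obtain ⟨b0, hb0⟩ := hB a (κ / 8) W ha (by positivity) hW0 hW1
  have hev := (tendsto_order.1 hc)
  obtain ⟨b1, hb1⟩ := eventually_atTop.1 (hev.2 (c + κ / 8) (by linarith))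
  obtain ⟨b2, hb2⟩ := eventually_atTop.1 (hev.1 (c - κ / 8) (by linarith))
  obtain ⟨N0, hN0⟩ := exists_nat_ge (max (max A1 (4 * C' / κ)) (max b0 (max b1 b2)))
  have hN1 : A1 ≤ N0 := le_trans (le_trans (le_max_left _ _) (le_max_left _ _)) hN0
  have hN2 : 4 * C' / κ ≤ N0 := le_trans (le_trans (le_max_right _ _) (le_max_left _ _)) hN0
  have hN3 : b0 ≤ N0 := le_trans (le_trans (le_max_left _ _) (le_max_right _ _)) hN0
  have hN4 : b1 ≤ N0 := le_trans (le_trans (le_trans (le_max_left _ _) (le_max_right _ _)) (le_max_right _ _)) hN0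
  have hN5 : b2 ≤ N0 := le_trans (le_trans (le_trans (le_max_right _ _) (le_max_right _ _)) (le_max_right _ _)) hN0
  have hNpos : (0 : ℝ) < N0 := by linarith
  have hCN : C' / N0 ≤ κ / 4 := by
    rw [div_le_iff₀ hNpos]
    rw [div_le_iff₀ hκ] at hN2
    linarith
  -- the delay
  have hlim : Tendsto (fun M : ℕ => c * (2 * Real.exp (-((M : ℝ) / 5000)))) atTop (𝓝 0) := by
    have h1 : Tendsto (fun M : ℕ => (M : ℝ) / 5000) atTop atTop :=
      Tendsto.atTop_div_const (by norm_num) tendsto_natCast_atTop_atTop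
    have h2 := (Real.tendsto_exp_neg_atTop_nhds_zero.comp h1).const_mul 2
    have h3 := h2.const_mul c
    simpa using h3
  obtain ⟨M1, hM1⟩ := eventually_atTop.1 ((tendsto_order.1 hlim).2 (κ / 8) (by positivity))
  obtain ⟨M, hM⟩ : ∃ M, M = max M1 (2004 * N0) := ⟨_, rfl⟩
  have hMa : M1 ≤ M := by rw [hM]; exact le_max_left _ _
  have hMb : 2004 * N0 ≤ M := by rw [hM]; exact le_max_right _ _
  have hMc : (2004 : ℝ) * N0 ≤ M := by exact_mod_cast hMb
  have hM2 := hM1 M hMa
  have hMpos : 1 ≤ M := by
    have : (1 : ℝ) ≤ M := by linarith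
    exact_mod_cast this
  -- facts at large scales
  have step0 : ∀ x : ℝ, A1 ≤ x → ∀ j : ℕ, (j : ℝ) ≤ x / 40 → Gs (FH a j) W x = 0 := by
    intro x hx j hj
    apply Gs_FH_zero hW0
    calc (2 : ℝ) ^ j * |(a : ℝ)| ≤ Real.exp (x / 40) * Real.exp (x / 8) :=
          mul_le_mul (le_trans (two_pow j) (Real.exp_le_exp.mpr hj)) (hae x hx) haR (Real.exp_pos _).le
      _ = Real.exp (x / 40 + x / 8) := (Real.exp_add _ _).symm
      _ ≤ _ := Real.exp_le_exp.mpr (by linarith)
  have step1 : ∀ x : ℝ, A1 ≤ x → ∀ n : ℕ, n = ⌊x / 100⌋₊ → ∀ j : ℕ, x / 80 ≤ j →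
      |Gs (FH a (n + j)) W x - Eo n (fun i => Gs (FH a j) W (bk x n i))| ≤ C / x ^ 2 := by
    intro x hx n hn j hj
    have h1 : (n : ℝ) ≤ x / 100 := by rw [hn]; exact Nat.floor_le (by linarith)
    have h2 := H2 x (by linarith) |(a : ℝ)| haR (hae x hx) (FH a) (FH_fam a) n h1 j hj x (by linarith) (by linarith)
    rwa [add_comm j n] at h2
  have baseU : ∀ b : ℝ, (N0 : ℝ) ≤ b → Gs (FI a) W b ≤ c + κ / 8 := fun b hb => (hb1 b (by linarith)).le
  have baseL : ∀ b : ℝ, (N0 : ℝ) ≤ b → c - κ / 8 ≤ Gs (FI a) W b := fun b hb => (hb2 b (by linarith)).le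
  refine ⟨M, N0, ?_⟩
  -- upper bound
  have up := HP (fun j b => Gs (FH a j) W b - c * PW (j + M) b) A1 hA15
    (by
      intro j b hb
      have h1 := Gs_six (FH_nonneg a j) (FH_le_one a j) hW0 hW1 hb
      have h2 := mul_nonneg hc0 (PW_nonneg (j + M) b)
      linarith)
    (by
      intro x hx n hn j
      have hx5 : (10 ^ 5 : ℝ) ≤ x := by linarith
      have hnx : (n : ℝ) ≤ x / 100 := by rw [hn]; exact Nat.floor_le (by linarith)
      rcases le_or_gt ((n : ℝ) + x / 80) j with h | h
      · right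
        have hnj : n ≤ j := by
          have : (n : ℝ) ≤ j := by linarith
          exact_mod_cast this
        obtain ⟨j', rfl⟩ := Nat.exists_eq_add_of_le hnj
        push_cast at h
        refine ⟨j', ?_⟩
        have h1 := step1 x hx n hn j' (by linarith)
        rw [abs_le] at h1
        rw [Eo_sub_fun, Eo_mul, add_assoc n j' M, PW_add]
        linarith
      · left
        rw [step0 x hx j (by linarith)]
        have := mul_nonneg hc0 (PW_nonneg (j + M) x)
        linarith)
    N0 hN1 (κ / 4) (by positivity)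
    (by
      intro b hb1' hb2' j
      have h1 := Gs_mono (FH_le_FI a j) W b
      have h2 := baseU b hb1'
      have h3 := PW_large (j := j + M) (by omega) (a := b) (by push_cast; linarith [show (0 : ℝ) ≤ j by positivity])
      have h4 : Real.exp (-(((j + M : ℕ) : ℝ) / 5000)) ≤ Real.exp (-((M : ℝ) / 5000)) := by
        apply Real.exp_le_exp.mpr
        push_cast
        linarith [show (0 : ℝ) ≤ j by positivity]
      have h5 : c * (1 - 2 * Real.exp (-((M : ℝ) / 5000))) ≤ c * PW (j + M) b := by
        apply mul_le_mul_of_nonneg_left _ hc0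
        linarith
      have h6 : c * (1 - 2 * Real.exp (-((M : ℝ) / 5000))) = c - c * (2 * Real.exp (-((M : ℝ) / 5000))) := by ring
      linarith)
  -- lower bound
  have lo := HP (fun j b => if M ≤ j then c * PW (j - M) b - Gs (FH a j) W b else 0) A1 hA15
    (by
      intro j b hb
      split_ifs with h
      · have h1 := Gs_nonneg (FH_nonneg a j) W b
        have h2 := mul_le_mul_of_nonneg_left (PW_le_one (j - M) b) hc0
        linarith
      · linarith)
    (by
      intro x hx n hn j
      have hx5 : (10 ^ 5 : ℝ) ≤ x := by linarith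
      have hnx : (n : ℝ) ≤ x / 100 := by rw [hn]; exact Nat.floor_le (by linarith)
      by_cases hMj : M ≤ j
      swap
      · left
        rw [if_neg hMj]
      obtain ⟨p, rfl⟩ := Nat.exists_eq_add_of_le hMj
      rcases le_or_gt ((n : ℝ) + x / 80) p with h | h
      · right
        have hnj : n ≤ p := by
          have : (n : ℝ) ≤ p := by linarith
          exact_mod_cast this
        obtain ⟨p', rfl⟩ := Nat.exists_eq_add_of_le hnj
        push_cast at h
        refine ⟨M + p', ?_⟩
        have h1 := step1 x hx n hn (M + p') (by push_cast; linarith [show (0 : ℝ) ≤ M by positivity])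
        rw [abs_le] at h1
        rw [if_pos hMj]
        have e1 : ∀ i : ℕ, (if M ≤ M + p' then c * PW (M + p' - M) (bk x n i) - Gs (FH a (M + p')) W (bk x n i) else 0) =
            c * PW p' (bk x n i) - Gs (FH a (M + p')) W (bk x n i) := by
          intro i
          rw [if_pos (by omega), Nat.add_sub_cancel_left]
        rw [show (fun i => if M ≤ M + p' then c * PW (M + p' - M) (bk x n i) - Gs (FH a (M + p')) W (bk x n i) else 0) =
          fun i => c * PW p' (bk x n i) - Gs (FH a (M + p')) W (bk x n i) from funext e1]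
        rw [Eo_sub_fun, Eo_mul, Nat.add_sub_cancel_left, PW_add, show M + (n + p') = n + (M + p') by ring]
        linarith
      · left
        rw [if_pos hMj, Nat.add_sub_cancel_left, PW_zero (by linarith), mul_zero]
        have := Gs_nonneg (FH_nonneg a (M + p)) W x
        linarith)
    N0 hN1 (κ / 4) (by positivity)
    (by
      intro b hb1' hb2' j
      split_ifs with h
      · have hjr : (M : ℝ) ≤ j := by exact_mod_cast h
        have h1 := hb0 b (by linarith) j (by linarith)
        have h2 := baseL b hb1'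
        have h3 := mul_le_mul_of_nonneg_left (PW_le_one (j - M) b) hc0
        linarith
      · positivity)
  intro b hb j
  constructor
  · have := up b hb j
    linarith
  · intro h
    have := lo b hb j
    rw [if_pos h] at this
    linarith

end Pool.Agent.Helper3.HT
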